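import Pool.Agent.H3M.LC
set_option autoImplicit false
noncomputable section
open MeasureTheory
namespace H3M

/-- total mass of the density of the domain `W` -/
theorem mass_W (φ : ℝ → ℝ) (a b : ℝ) (hφ : Prof φ a b) (R : ℂ → ℂ) (W : Set ℂ) (h : Conf R W) :
    ∫⁻ w : ℂ, ENNReal.ofReal (rW φ R W w) ≤ ENNReal.ofReal (2 * Real.pi) := by
  sorry

/-- its mass where `R` is close to the real axis -/
theorem bad_W (φ : ℝ → ℝ) (a b : ℝ) (hφ : Prof φ a b) (R : ℂ → ℂ) (W : Set ℂ) (h : Conf R W)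
    (δ : ℝ) (hδ : 0 < δ) :
    ∫⁻ w : ℂ, (if |(R w).im| < δ then ENNReal.ofReal (rW φ R W w) else 0) ≤
      ENNReal.ofReal (2 * Real.pi * δ / Real.sqrt a) := by
  sorry

/-- the pair of `W` on vertical lines, for the special domain -/
theorem pW_vertical (φ : ℝ → ℝ) (a b : ℝ) (hφ : Prof φ a b) (hb : b < 1) (R : ℂ → ℂ)
    (W : Set ℂ) (h : QConf R W) (x : ℝ) :
    ContDiff ℝ 1 (fun y : ℝ => pW φ R W ⟨x, y⟩) ∧
    (∀ y, pW φ R W ⟨x, -y⟩ = pW φ R W ⟨x, y⟩) ∧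
    AntitoneOn (fun y : ℝ => pW φ R W ⟨x, y⟩) (Set.Ici 0) ∧
    (∃ M, ∀ y : ℝ, M < |y| → pW φ R W ⟨x, y⟩ = 0) ∧
    (Real.pi ^ 2 / 8 < |x| → ∀ y, pW φ R W ⟨x, y⟩ = 0) := by
  sorry

/-- on the support of `ρ`, away from the real axis, `ρ ≤ |∂_y p| / c` -/
theorem rW_le (φ : ℝ → ℝ) (a b : ℝ) (hφ : Prof φ a b) (hb : b < 1) (R : ℂ → ℂ)
    (W : Set ℂ) (h : QConf R W) (δ : ℝ) (hδ : 0 < δ) (x y : ℝ) (hδ2 : δ ≤ |(R ⟨x, y⟩).im|) :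
    rW φ R W ⟨x, y⟩ * (Real.arctan (2 * δ / (1 - a)) / 2) ≤
      |deriv (fun y : ℝ => pW φ R W ⟨x, y⟩) y| := by
  sorry

end H3M
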