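import Pool.Agent.H3M.LC
set_option autoImplicit false
noncomputable section
open MeasureTheory
namespace H3M

theorem bm1_det (c : ℂ) :
    (((ContinuousLinearMap.toSpanSingleton ℂ c).restrictScalars ℝ : ℂ →L[ℝ] ℂ)).det =
      ‖c‖ ^ 2 := by
  have h1 : (((ContinuousLinearMap.toSpanSingleton ℂ c).restrictScalars ℝ :
      ℂ →L[ℝ] ℂ) : ℂ →ₗ[ℝ] ℂ) = Algebra.lmul ℝ ℂ c := by
    apply LinearMap.ext
    intro z
    show z • c = c * z
    rw [smul_eq_mul, mul_comm]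
  unfold ContinuousLinearMap.det
  rw [h1, ← Algebra.norm_apply, Algebra.norm_complex_eq]
  exact Complex.normSq_eq_norm_sq c

theorem bm1_gen (R : ℂ → ℂ) (W : Set ℂ) (h : Conf R W) (g : ℂ → ENNReal) :
    ∫⁻ w in W, ENNReal.ofReal (‖deriv R w‖ ^ 2) * g (R w) ≤ ∫⁻ u, g u := by
  have h1 := lintegral_image_eq_lintegral_abs_det_fderiv_mul volume h.isOpen.measurableSet
    (f := R)
    (f' := fun w => (ContinuousLinearMap.toSpanSingleton ℂ (deriv R w)).restrictScalars ℝ)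
    (fun w hw => by
      have h2 : DifferentiableAt ℂ R w := (h.diff w hw).differentiableAt (h.isOpen.mem_nhds hw)
      have h3 := h2.hasDerivAt.hasFDerivAt.restrictScalars ℝ
      exact h3.hasFDerivWithinAt) h.inj g
  have h2 : ∫⁻ w in W, ENNReal.ofReal (‖deriv R w‖ ^ 2) * g (R w) = ∫⁻ u in R '' W, g u := by
    rw [h1]
    refine lintegral_congr fun w => ?_
    rw [bm1_det, abs_of_nonneg (by positivity)]
  rw [h2]
  exact setLIntegral_le_lintegral _ _

theorem bm1_rW (φ : ℝ → ℝ) (R : ℂ → ℂ) (W : Set ℂ) (w : ℂ) (hw : w ∈ W) :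
    ENNReal.ofReal (rW φ R W w) =
      ENNReal.ofReal (‖deriv R w‖ ^ 2) * ENNReal.ofReal (dF φ (‖R w‖ ^ 2)) := by
  unfold rW
  rw [if_pos hw, mul_comm, ENNReal.ofReal_mul (by positivity)]

theorem bm1_rW0 (φ : ℝ → ℝ) (R : ℂ → ℂ) (W : Set ℂ) (w : ℂ) (hw : w ∉ W) :
    ENNReal.ofReal (rW φ R W w) = 0 := by
  unfold rW
  rw [if_neg hw, ENNReal.ofReal_zero]

/-- total mass of the density of the domain `W` -/
theorem mass_W' (φ : ℝ → ℝ) (a b : ℝ) (hφ : Prof φ a b) (R : ℂ → ℂ) (W : Set ℂ) (h : Conf R W) :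
    ∫⁻ w : ℂ, ENNReal.ofReal (rW φ R W w) ≤ ENNReal.ofReal (2 * Real.pi) := by
  rw [← mass_disc φ a b hφ]
  refine le_trans ?_ (bm1_gen R W h (fun u => ENNReal.ofReal (dF φ (‖u‖ ^ 2))))
  rw [← lintegral_indicator h.isOpen.measurableSet]
  refine lintegral_mono fun w => ?_
  by_cases hw : w ∈ W
  · rw [Set.indicator_of_mem hw, bm1_rW φ R W w hw]
  · rw [bm1_rW0 φ R W w hw]
    exact bot_le

/-- its mass where `R` is close to the real axis -/
theorem bad_W' (φ : ℝ → ℝ) (a b : ℝ) (hφ : Prof φ a b) (R : ℂ → ℂ) (W : Set ℂ) (h : Conf R W)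
    (δ : ℝ) (hδ : 0 < δ) :
    ∫⁻ w : ℂ, (if |(R w).im| < δ then ENNReal.ofReal (rW φ R W w) else 0) ≤
      ENNReal.ofReal (2 * Real.pi * δ / Real.sqrt a) := by
  refine le_trans ?_ (mass_strip φ a b hφ δ hδ)
  refine le_trans ?_ (bm1_gen R W h
    (fun u => if |u.im| < δ then ENNReal.ofReal (dF φ (‖u‖ ^ 2)) else 0))
  rw [← lintegral_indicator h.isOpen.measurableSet]
  refine lintegral_mono fun w => ?_
  by_cases hw : w ∈ W
  · rw [Set.indicator_of_mem hw]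
    split_ifs with h1
    · rw [bm1_rW φ R W w hw]
    · exact bot_le
  · rw [bm1_rW0 φ R W w hw, ite_self]
    exact bot_le

end H3M
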