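import Pool.Agent.H3M.Defs
set_option autoImplicit false
noncomputable section
open MeasureTheory
namespace H3M

theorem pW_eventually_of_mem (φ : ℝ → ℝ) (R : ℂ → ℂ) (W : Set ℂ) (h : Conf R W) (w : ℂ)
    (hw : w ∈ W) : pW φ R W =ᶠ[nhds w] fun u => φ (‖R u‖ ^ 2) := by
  filter_upwards [h.isOpen.mem_nhds hw] with u hu
  simp [pW, hu]

theorem pW_eventually_of_not_mem (φ : ℝ → ℝ) (a b : ℝ) (hφ : Prof φ a b) (hb : b < 1)
    (R : ℂ → ℂ) (W : Set ℂ) (h : Conf R W) (w : ℂ)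
    (hw : w ∉ W) : pW φ R W =ᶠ[nhds w] fun _ => 0 := by
  have hb0 : 0 < b := hφ.ha.trans hφ.hab
  have hs : Real.sqrt b < 1 := by
    rw [show (1 : ℝ) = Real.sqrt 1 by simp]
    exact Real.sqrt_lt_sqrt hb0.le hb
  have hK := h.cpt (Real.sqrt b) hs
  have hmem : w ∈ {w | w ∈ W ∧ ‖R w‖ ≤ Real.sqrt b}ᶜ := fun hh => hw hh.1
  filter_upwards [hK.isClosed.isOpen_compl.mem_nhds hmem] with u hu
  unfold pW
  split_ifs with hW
  · apply hφ.zero
    have : Real.sqrt b < ‖R u‖ := by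
      by_contra hcon
      exact hu ⟨hW, not_lt.mp hcon⟩
    calc b = Real.sqrt b ^ 2 := (Real.sq_sqrt hb0.le).symm
      _ ≤ ‖R u‖ ^ 2 := by
        apply pow_le_pow_left₀ (Real.sqrt_nonneg _) this.le
  · rfl

theorem pW_contDiff (φ : ℝ → ℝ) (a b : ℝ) (hφ : Prof φ a b) (hb : b < 1)
    (R : ℂ → ℂ) (W : Set ℂ) (h : Conf R W) : ContDiff ℝ 1 (pW φ R W) := by
  rw [contDiff_iff_contDiffAt]
  intro w
  by_cases hw : w ∈ W
  · have h1 : ContDiffAt ℂ 1 R w := by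
      have := (h.diff.analyticOnNhd h.isOpen) w hw
      exact this.contDiffAt
    have h2 : ContDiffAt ℝ 1 R w := h1.restrict_scalars ℝ
    have h3 : ContDiffAt ℝ 1 (fun u => ‖R u‖ ^ 2) w := h2.norm_sq ℝ
    have h4 : ContDiff ℝ 1 φ := hφ.smooth.of_le (by norm_num)
    have h5 : ContDiffAt ℝ 1 (fun u => φ (‖R u‖ ^ 2)) w :=
      h4.contDiffAt.comp w h3
    exact h5.congr_of_eventuallyEq (pW_eventually_of_mem φ R W h w hw)
  · exact contDiffAt_const.congr_of_eventuallyEq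
      (pW_eventually_of_not_mem φ a b hφ hb R W h w hw)

theorem line_hasDerivAt (x y : ℝ) : HasDerivAt (fun y : ℝ => (⟨x, y⟩ : ℂ)) Complex.I y := by
  have h1 : HasDerivAt (fun y : ℝ => (x : ℂ) + (y : ℂ) * Complex.I) (1 * Complex.I) y := by
    have := (Complex.ofRealCLM.hasDerivAt (x := y)).mul_const Complex.I
    simpa using this.const_add (x : ℂ)
  have h2 : (fun y : ℝ => (⟨x, y⟩ : ℂ)) = fun y : ℝ => (x : ℂ) + (y : ℂ) * Complex.I := by
    funext y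
    apply Complex.ext <;> simp
  rw [h2]
  simpa using h1

theorem line_contDiff (x : ℝ) : ContDiff ℝ 1 (fun y : ℝ => (⟨x, y⟩ : ℂ)) := by
  have h2 : (fun y : ℝ => (⟨x, y⟩ : ℂ)) = fun y : ℝ => (x : ℂ) + (y : ℂ) * Complex.I := by
    funext y
    apply Complex.ext <;> simp
  rw [h2]
  exact contDiff_const.add (Complex.ofRealCLM.contDiff.mul contDiff_const)

theorem pW_hasDerivAt_line (φ : ℝ → ℝ) (a b : ℝ) (hφ : Prof φ a b) (hb : b < 1)
    (R : ℂ → ℂ) (W : Set ℂ) (h : Conf R W) (x y : ℝ) :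
    HasDerivAt (fun y : ℝ => pW φ R W ⟨x, y⟩)
      (-(rW φ R W ⟨x, y⟩ * (R ⟨x, y⟩ / deriv R ⟨x, y⟩).im)) y := by
  have hline := line_hasDerivAt x y
  have hcont : ContinuousAt (fun y : ℝ => (⟨x, y⟩ : ℂ)) y := hline.continuousAt
  by_cases hw : (⟨x, y⟩ : ℂ) ∈ W
  · have hev : (fun y : ℝ => pW φ R W ⟨x, y⟩) =ᶠ[nhds y] fun y => φ (‖R ⟨x, y⟩‖ ^ 2) :=
      hcont.eventually (pW_eventually_of_mem φ R W h _ hw)
    refine HasDerivAt.congr_of_eventuallyEq ?_ hev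
    have hR : HasDerivAt R (deriv R ⟨x, y⟩) (⟨x, y⟩ : ℂ) :=
      ((h.diff _ hw).differentiableAt (h.isOpen.mem_nhds hw)).hasDerivAt
    have hRc : HasDerivAt (fun y : ℝ => R ⟨x, y⟩) (deriv R ⟨x, y⟩ * Complex.I) y := by
      have := hR.scomp y hline
      simpa [mul_comm, Function.comp_def] using this
    set r := R ⟨x, y⟩ with hr
    set r' := deriv R ⟨x, y⟩ with hr'
    have hne : r' ≠ 0 := h.ne _ hw
    have hre : HasDerivAt (fun y : ℝ => (R ⟨x, y⟩).re) ((r' * Complex.I).re) y :=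
      (Complex.reCLM.hasFDerivAt.comp_hasDerivAt y hRc)
    have him : HasDerivAt (fun y : ℝ => (R ⟨x, y⟩).im) ((r' * Complex.I).im) y :=
      (Complex.imCLM.hasFDerivAt.comp_hasDerivAt y hRc)
    have hn : HasDerivAt (fun y : ℝ => ‖R ⟨x, y⟩‖ ^ 2)
        (2 * r.re * (r' * Complex.I).re + 2 * r.im * (r' * Complex.I).im) y := by
      have h1 := (hre.pow 2).add (him.pow 2)
      have h2 : (fun y : ℝ => ‖R ⟨x, y⟩‖ ^ 2) =
          (fun y : ℝ => (R ⟨x, y⟩).re ^ 2 + (R ⟨x, y⟩).im ^ 2) := by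
        funext y
        rw [← Complex.normSq_eq_norm_sq, Complex.normSq_apply]
        ring
      rw [h2]
      refine h1.congr_deriv ?_
      simp only [hr]
      norm_num
    have hφd : HasDerivAt φ (deriv φ (‖r‖ ^ 2)) (‖r‖ ^ 2) :=
      ((hφ.smooth.differentiable (by norm_num)) _).hasDerivAt
    have hc := hφd.comp y hn
    refine hc.congr_deriv ?_
    have e1 : rW φ R W ⟨x, y⟩ = dF φ (‖r‖ ^ 2) * ‖r'‖ ^ 2 := by
      simp [rW, hw, hr, hr']
    rw [e1]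
    unfold dF
    have hn0 : Complex.normSq r' ≠ 0 := by
      simpa [Complex.normSq_eq_zero] using hne
    have e2 : (r / r').im = (r.im * r'.re - r.re * r'.im) / Complex.normSq r' := by
      rw [Complex.div_im]
      ring
    have e3 : ‖r'‖ ^ 2 = Complex.normSq r' := (Complex.normSq_eq_norm_sq r').symm
    rw [e2, e3]
    have e4 : (r' * Complex.I).re = -r'.im := by simp
    have e5 : (r' * Complex.I).im = r'.re := by simp
    rw [e4, e5]
    field_simp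
    ring
  · have hev : (fun y : ℝ => pW φ R W ⟨x, y⟩) =ᶠ[nhds y] fun _ => 0 :=
      hcont.eventually (pW_eventually_of_not_mem φ a b hφ hb R W h _ hw)
    refine HasDerivAt.congr_of_eventuallyEq ?_ hev
    have e1 : rW φ R W ⟨x, y⟩ = 0 := by simp [rW, hw]
    rw [e1]
    simpa using hasDerivAt_const y (0 : ℝ)

theorem dF_nonneg (φ : ℝ → ℝ) (a b : ℝ) (hφ : Prof φ a b) (x : ℝ) : 0 ≤ dF φ x := by
  unfold dF
  have : deriv φ x ≤ 0 := hφ.anti.deriv_nonpos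
  linarith

theorem dF_eq_zero (φ : ℝ → ℝ) (a b : ℝ) (hφ : Prof φ a b) (x : ℝ) (hx : x < a) :
    dF φ x = 0 := by
  unfold dF
  have : φ =ᶠ[nhds x] fun _ => 1 := by
    filter_upwards [gt_mem_nhds hx] with u hu
    exact hφ.one u hu.le
  rw [this.deriv_eq]
  simp

theorem rW_nonneg (φ : ℝ → ℝ) (a b : ℝ) (hφ : Prof φ a b) (R : ℂ → ℂ) (W : Set ℂ) (w : ℂ) :
    0 ≤ rW φ R W w := by
  unfold rW
  split_ifs
  · exact mul_nonneg (dF_nonneg φ a b hφ _) (sq_nonneg _)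
  · exact le_rfl

/-- the pair of `W` on vertical lines, for the special domain -/
theorem pW_vertical' (φ : ℝ → ℝ) (a b : ℝ) (hφ : Prof φ a b) (hb : b < 1) (R : ℂ → ℂ)
    (W : Set ℂ) (h : QConf R W) (x : ℝ) :
    ContDiff ℝ 1 (fun y : ℝ => pW φ R W ⟨x, y⟩) ∧
    (∀ y, pW φ R W ⟨x, -y⟩ = pW φ R W ⟨x, y⟩) ∧
    AntitoneOn (fun y : ℝ => pW φ R W ⟨x, y⟩) (Set.Ici 0) ∧
    (∃ M, ∀ y : ℝ, M < |y| → pW φ R W ⟨x, y⟩ = 0) ∧
    (Real.pi ^ 2 / 8 < |x| → ∀ y, pW φ R W ⟨x, y⟩ = 0) := by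
  have hC := h.toConf
  have hb0 : 0 < b := hφ.ha.trans hφ.hab
  refine ⟨(pW_contDiff φ a b hφ hb R W hC).comp (line_contDiff x), ?_, ?_, ?_, ?_⟩
  · intro y
    have hconj : (⟨x, -y⟩ : ℂ) = (starRingEnd ℂ) (⟨x, y⟩ : ℂ) := by
      apply Complex.ext <;> simp
    by_cases hw : (⟨x, y⟩ : ℂ) ∈ W
    · have h1 := h.conj_mem _ hw
      rw [hconj]
      unfold pW
      rw [if_pos h1.1, if_pos hw, h1.2]
      simp
    · have hw2 : (⟨x, -y⟩ : ℂ) ∉ W := by
        intro hcon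
        apply hw
        have h1 := (h.conj_mem _ hcon).1
        have h2 : (starRingEnd ℂ) (⟨x, -y⟩ : ℂ) = (⟨x, y⟩ : ℂ) := by
          apply Complex.ext <;> simp
        rwa [h2] at h1
      unfold pW
      rw [if_neg hw2, if_neg hw]
  · apply antitoneOn_of_deriv_nonpos (convex_Ici 0)
    · intro y _
      exact (pW_hasDerivAt_line φ a b hφ hb R W hC x y).continuousAt.continuousWithinAt
    · intro y _
      exact (pW_hasDerivAt_line φ a b hφ hb R W hC x y).differentiableAt.differentiableWithinAt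
    · intro y hy
      rw [interior_Ici] at hy
      have hy0 : 0 < y := hy
      rw [(pW_hasDerivAt_line φ a b hφ hb R W hC x y).deriv]
      by_cases hw : (⟨x, y⟩ : ℂ) ∈ W
      · have h1 := h.im_q _ hw
        have h2 := h.im_pos _ hw hy0
        have h3 := h.lt _ hw
        have h4 : 0 < 1 - ‖R ⟨x, y⟩‖ ^ 2 := by
          have : ‖R ⟨x, y⟩‖ ^ 2 < 1 := by
            have h0 := norm_nonneg (R ⟨x, y⟩)
            nlinarith
          linarith
        have h5 : 0 ≤ (R ⟨x, y⟩ / deriv R ⟨x, y⟩).im := by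
          rw [h1]
          have : 0 ≤ Real.arctan (2 * (R ⟨x, y⟩).im / (1 - ‖R ⟨x, y⟩‖ ^ 2)) := by
            rw [Real.arctan_nonneg]
            positivity
          linarith
        have h6 := rW_nonneg φ a b hφ R W ⟨x, y⟩
        have := mul_nonneg h6 h5
        linarith
      · have e1 : rW φ R W ⟨x, y⟩ = 0 := by simp [rW, hw]
        rw [e1]
        simp
  · have hs : Real.sqrt b < 1 := by
      rw [show (1 : ℝ) = Real.sqrt 1 by simp]
      exact Real.sqrt_lt_sqrt hb0.le hb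
    obtain ⟨M, hM⟩ := (h.cpt (Real.sqrt b) hs).isBounded.exists_norm_le
    refine ⟨M, fun y hy => ?_⟩
    by_contra hne
    have hw : (⟨x, y⟩ : ℂ) ∈ W := by
      by_contra hw
      exact hne (by simp [pW, hw])
    have hle : ‖R ⟨x, y⟩‖ ≤ Real.sqrt b := by
      by_contra hcon
      apply hne
      have h2 : Real.sqrt b < ‖R ⟨x, y⟩‖ := not_le.mp hcon
      unfold pW
      rw [if_pos hw]
      apply hφ.zero
      calc b = Real.sqrt b ^ 2 := (Real.sq_sqrt hb0.le).symm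
        _ ≤ ‖R ⟨x, y⟩‖ ^ 2 := by
          apply pow_le_pow_left₀ (Real.sqrt_nonneg _) h2.le
    have h3 := hM (⟨x, y⟩ : ℂ) ⟨hw, hle⟩
    have h4 : |y| ≤ ‖(⟨x, y⟩ : ℂ)‖ := Complex.abs_im_le_norm (⟨x, y⟩ : ℂ)
    linarith
  · intro hx y
    have hw : (⟨x, y⟩ : ℂ) ∉ W := by
      intro hw
      have := h.re_le _ hw
      simp only at this
      linarith
    simp [pW, hw]

/-- on the support of `ρ`, away from the real axis, `ρ ≤ |∂_y p| / c` -/
theorem rW_le' (φ : ℝ → ℝ) (a b : ℝ) (hφ : Prof φ a b) (hb : b < 1) (R : ℂ → ℂ)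
    (W : Set ℂ) (h : QConf R W) (δ : ℝ) (hδ : 0 < δ) (x y : ℝ) (hδ2 : δ ≤ |(R ⟨x, y⟩).im|) :
    rW φ R W ⟨x, y⟩ * (Real.arctan (2 * δ / (1 - a)) / 2) ≤
      |deriv (fun y : ℝ => pW φ R W ⟨x, y⟩) y| := by
  have hC := h.toConf
  by_cases h0 : rW φ R W ⟨x, y⟩ = 0
  · rw [h0, zero_mul]
    exact abs_nonneg _
  have hw : (⟨x, y⟩ : ℂ) ∈ W := by
    by_contra hw
    exact h0 (by simp [rW, hw])
  have hnn := rW_nonneg φ a b hφ R W ⟨x, y⟩
  have ha1 : a < 1 := hφ.hab.trans hb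
  have hge : a ≤ ‖R ⟨x, y⟩‖ ^ 2 := by
    by_contra hcon
    apply h0
    unfold rW
    rw [if_pos hw, dF_eq_zero φ a b hφ _ (not_le.mp hcon), zero_mul]
  have h3 := h.lt _ hw
  have h4 : 0 < 1 - ‖R ⟨x, y⟩‖ ^ 2 := by
    have : ‖R ⟨x, y⟩‖ ^ 2 < 1 := by
      have h0 := norm_nonneg (R ⟨x, y⟩)
      nlinarith
    linarith
  rw [(pW_hasDerivAt_line φ a b hφ hb R W hC x y).deriv, abs_neg, abs_mul, abs_of_nonneg hnn]
  apply mul_le_mul_of_nonneg_left _ hnn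
  rw [h.im_q _ hw, abs_div, abs_of_pos (by norm_num : (0 : ℝ) < 2)]
  apply div_le_div_of_nonneg_right _ (by norm_num)
  have key : 2 * δ / (1 - a) ≤ 2 * |(R ⟨x, y⟩).im| / (1 - ‖R ⟨x, y⟩‖ ^ 2) := by
    apply div_le_div₀ (by positivity) (by linarith) h4 (by linarith)
  rcases le_total 0 (R ⟨x, y⟩).im with hs | hs
  · rw [abs_of_nonneg hs] at key
    exact (Real.arctan_strictMono.monotone key).trans (le_abs_self _)
  · rw [abs_of_nonpos hs] at key
    have h5 := Real.arctan_strictMono.monotone key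
    have h6 : 2 * -(R ⟨x, y⟩).im / (1 - ‖R ⟨x, y⟩‖ ^ 2) =
        -(2 * (R ⟨x, y⟩).im / (1 - ‖R ⟨x, y⟩‖ ^ 2)) := by ring
    rw [h6, Real.arctan_neg] at h5
    exact h5.trans (neg_le_abs _)

end H3M
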