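import Pool.Agent.H3M.LA
set_option autoImplicit false
noncomputable section
open MeasureTheory
namespace H3M
variable {n N : ℕ}

theorem DUI_lf_cont (l : Fin n → ℝ) : Continuous (fun z : Ph n => lf l z) := by
  have h : (fun z : Ph n => lf l z) =
      fun z : Ph n => (((∑ a, l a * z.1 a : ℝ) : ℂ) + ((∑ a, l a * z.2 a : ℝ) : ℂ) * Complex.I) := by
    funext z
    exact Complex.mk_eq_add_mul_I _ _
  rw [h]
  have h1 : Continuous (fun z : Ph n => (∑ a, l a * z.1 a : ℝ)) := by fun_prop
  have h2 : Continuous (fun z : Ph n => (∑ a, l a * z.2 a : ℝ)) := by fun_prop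
  exact (Complex.continuous_ofReal.comp h1).add
    ((Complex.continuous_ofReal.comp h2).mul continuous_const)

theorem DUI_comp {f : ℝ × ℂ → ℝ} {T : Set ℝ} (hf : ContinuousOn f (T ×ˢ Set.univ))
    (l : Fin n → ℝ) :
    ContinuousOn (fun x : ℝ × Ph n => f (x.1, lf l x.2)) (T ×ˢ Set.univ) := by
  refine hf.comp (Continuous.continuousOn ?_) (fun x hx => ⟨hx.1, trivial⟩)
  exact continuous_fst.prodMk ((DUI_lf_cont l).comp continuous_snd)

theorem DUI_Dv_zero {p m : ℝ → ℂ → ℝ} {q v : ℝ → ℂ → ℂ} {Dv : ℝ → ℂ → ℝ} {T : Set ℝ} {R : ℝ}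
    (hF : Flow p m q v Dv T R) {t : ℝ} (ht : t ∈ T) {w : ℂ} (hw : R < ‖w‖) : Dv t w = 0 := by
  have h0 : (fun w : ℂ => (m t w : ℂ) * v t w) =ᶠ[nhds w] fun _ => (0 : ℂ) := by
    have : {w : ℂ | R < ‖w‖} ∈ nhds w := (isOpen_lt continuous_const continuous_norm).mem_nhds hw
    filter_upwards [this] with x hx
    rw [hF.supp t ht x hx]
    simp
  rw [hF.div_eq t ht w, h0.fderiv_eq]
  simp

theorem DUI_sec {f : ℝ × Ph n → ℝ} {T : Set ℝ} (hf : ContinuousOn f (T ×ˢ Set.univ)) {s : ℝ}
    (hs : s ∈ T) : Continuous (fun z => f (s, z)) := by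
  rw [← continuousOn_univ]
  exact hf.comp (by fun_prop) (fun z _ => ⟨hs, trivial⟩)

/-- differentiation under the integral sign for one tuple -/
theorem dui (l : Fin N → Fin n → ℝ) (p m : Fin N → ℝ → ℂ → ℝ) (q v : Fin N → ℝ → ℂ → ℂ)
    (Dv : Fin N → ℝ → ℂ → ℝ) (T : Set ℝ) (hT : IsOpen T) (R : ℝ)
    (hF : ∀ k, Flow (p k) (m k) (q k) (v k) (Dv k) T R)
    (i : Fin n → Fin N) (hd : dt l i ≠ 0) (t : ℝ) (ht : t ∈ T) :
    HasDerivAt (fun s => ∫ z : Ph n, (∏ k, p k s (lf (l k) z)) *
        ∏ a, m (i a) s (lf (l (i a)) z))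
      (∫ z : Ph n, (∏ k, p k t (lf (l k) z)) *
        ((∏ a, m (i a) t (lf (l (i a)) z)) *
            ∑ k, m k t (lf (l k) z) * dot (q k t (lf (l k) z)) (v k t (lf (l k) z)) -
          ∑ a, Dv (i a) t (lf (l (i a)) z) *
            ∏ a' ∈ Finset.univ.erase a, m (i a') t (lf (l (i a')) z))) t := by
  classical
  obtain ⟨C, hC⟩ := bdd_of_dt l i hd R
  set F : ℝ × Ph n → ℝ := fun x => (∏ k, p k x.1 (lf (l k) x.2)) *
        ∏ a, m (i a) x.1 (lf (l (i a)) x.2) with hFdef
  set G : ℝ × Ph n → ℝ := fun x => (∏ k, p k x.1 (lf (l k) x.2)) *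
        ((∏ a, m (i a) x.1 (lf (l (i a)) x.2)) *
            ∑ k, m k x.1 (lf (l k) x.2) * dot (q k x.1 (lf (l k) x.2)) (v k x.1 (lf (l k) x.2)) -
          ∑ a, Dv (i a) x.1 (lf (l (i a)) x.2) *
            ∏ a' ∈ Finset.univ.erase a, m (i a') x.1 (lf (l (i a')) x.2)) with hGdef
  have cp : ∀ k, ContinuousOn (fun x : ℝ × Ph n => p k x.1 (lf (l k) x.2)) (T ×ˢ Set.univ) :=
    fun k => DUI_comp (hF k).p_cont (l k)
  have cm : ∀ k, ContinuousOn (fun x : ℝ × Ph n => m k x.1 (lf (l k) x.2)) (T ×ˢ Set.univ) :=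
    fun k => DUI_comp (hF k).m_cont (l k)
  have cs : ∀ k, ContinuousOn (fun x : ℝ × Ph n => m k x.1 (lf (l k) x.2) *
      dot (q k x.1 (lf (l k) x.2)) (v k x.1 (lf (l k) x.2))) (T ×ˢ Set.univ) :=
    fun k => DUI_comp (hF k).s_cont (l k)
  have cD : ∀ k, ContinuousOn (fun x : ℝ × Ph n => Dv k x.1 (lf (l k) x.2)) (T ×ˢ Set.univ) :=
    fun k => DUI_comp (hF k).D_cont (l k)
  have cF : ContinuousOn F (T ×ˢ Set.univ) :=
    (continuousOn_finsetProd _ fun k _ => cp k).mul (continuousOn_finsetProd _ fun a _ => cm (i a))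
  have cG : ContinuousOn G (T ×ˢ Set.univ) :=
    (continuousOn_finsetProd _ fun k _ => cp k).mul
      (((continuousOn_finsetProd _ fun a _ => cm (i a)).mul
        (continuousOn_finsetSum _ fun k _ => cs k)).sub
        (continuousOn_finsetSum _ fun a _ => (cD (i a)).mul
          (continuousOn_finsetProd _ fun a' _ => cm (i a'))))
  have zF : ∀ s ∈ T, ∀ z : Ph n, C < ‖z‖ → F (s, z) = 0 := by
    intro s hs z hz
    have : ∃ a, R < ‖lf (l (i a)) z‖ := by
      by_contra hcon
      push Not at hcon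
      exact absurd (hC z hcon) (not_le.2 hz)
    obtain ⟨a, ha⟩ := this
    simp only [hFdef]
    rw [Finset.prod_eq_zero (Finset.mem_univ a) ((hF (i a)).supp s hs _ ha), mul_zero]
  have zG : ∀ s ∈ T, ∀ z : Ph n, C < ‖z‖ → G (s, z) = 0 := by
    intro s hs z hz
    have : ∃ a, R < ‖lf (l (i a)) z‖ := by
      by_contra hcon
      push Not at hcon
      exact absurd (hC z hcon) (not_le.2 hz)
    obtain ⟨a, ha⟩ := this
    simp only [hGdef]
    rw [Finset.prod_eq_zero (f := fun a => m (i a) s (lf (l (i a)) z)) (Finset.mem_univ a)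
      ((hF (i a)).supp s hs _ ha), zero_mul, zero_sub]
    rw [Finset.sum_eq_zero, neg_zero, mul_zero]
    intro b _
    by_cases hab : b = a
    · subst hab
      rw [DUI_Dv_zero (hF (i b)) hs ha, zero_mul]
    · rw [Finset.prod_eq_zero (Finset.mem_erase.2 ⟨fun h => hab h.symm, Finset.mem_univ a⟩)
        ((hF (i a)).supp s hs _ ha), mul_zero]
  obtain ⟨ε, hε, hεT⟩ := Metric.nhds_basis_closedBall.mem_iff.1 (hT.mem_nhds ht)
  have hK : IsCompact (Metric.closedBall t ε ×ˢ Metric.closedBall (0 : Ph n) C) :=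
    (isCompact_closedBall t ε).prod (isCompact_closedBall 0 C)
  obtain ⟨M, hM⟩ := hK.exists_bound_of_continuousOn
    (cG.mono (fun x hx => ⟨hεT hx.1, trivial⟩))
  have hM0 : 0 ≤ |M| := abs_nonneg M
  have key := hasDerivAt_integral_of_dominated_loc_of_deriv_le (μ := (volume : Measure (Ph n)))
    (F := fun s z => F (s, z)) (F' := fun s z => G (s, z)) (x₀ := t)
    (s := Metric.closedBall t ε)
    (bound := (Metric.closedBall (0 : Ph n) C).indicator fun _ => |M|)
    (Metric.closedBall_mem_nhds t hε)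
    (by
      filter_upwards [hT.mem_nhds ht] with s hs
      exact (DUI_sec cF hs).aestronglyMeasurable)
    (by
      refine (DUI_sec cF ht).integrable_of_hasCompactSupport
        (HasCompactSupport.intro (isCompact_closedBall (0 : Ph n) C) ?_)
      intro z hz
      rw [mem_closedBall_zero_iff, not_le] at hz
      exact zF t ht z hz)
    (DUI_sec cG ht).aestronglyMeasurable
    (by
      refine Filter.Eventually.of_forall fun z s hs => ?_
      by_cases hz : z ∈ Metric.closedBall (0 : Ph n) C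
      · rw [Set.indicator_of_mem hz]
        exact (hM (s, z) ⟨hs, hz⟩).trans (le_abs_self M)
      · rw [Set.indicator_of_notMem hz]
        rw [mem_closedBall_zero_iff, not_le] at hz
        rw [zG s (hεT hs) z hz, norm_zero])
    (by
      rw [integrable_indicator_iff Metric.isClosed_closedBall.measurableSet]
      exact integrableOn_const (isCompact_closedBall (0 : Ph n) C).measure_lt_top.ne)
    (by
      refine Filter.Eventually.of_forall fun z s hs => ?_
      have hsT := hεT hs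
      have h1 : HasDerivAt (fun s => ∏ k, p k s (lf (l k) z))
          ((∏ k, p k s (lf (l k) z)) * ∑ k, m k s (lf (l k) z) *
            dot (q k s (lf (l k) z)) (v k s (lf (l k) z))) s := by
        have := HasDerivAt.fun_finsetProd (u := Finset.univ) (fun k _ => (hF k).p_t s hsT (lf (l k) z))
        refine this.congr_deriv ?_
        rw [Finset.mul_sum]
        refine Finset.sum_congr rfl fun k _ => ?_
        rw [smul_eq_mul, ← Finset.mul_prod_erase Finset.univ _ (Finset.mem_univ k)]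
        ring
      have h2 : HasDerivAt (fun s => ∏ a, m (i a) s (lf (l (i a)) z))
          (∑ a, (∏ a' ∈ Finset.univ.erase a, m (i a') s (lf (l (i a')) z)) •
            (-(Dv (i a) s (lf (l (i a)) z)))) s :=
        HasDerivAt.fun_finsetProd (u := Finset.univ)
          (fun a _ => (hF (i a)).m_t s hsT (lf (l (i a)) z))
      refine (h1.mul h2).congr_deriv ?_
      simp only [hGdef, smul_eq_mul]
      have h3 : ∑ a, (∏ a' ∈ Finset.univ.erase a, m (i a') s (lf (l (i a')) z)) *
            (-(Dv (i a) s (lf (l (i a)) z))) = -∑ a, Dv (i a) s (lf (l (i a)) z) *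
            ∏ a' ∈ Finset.univ.erase a, m (i a') s (lf (l (i a')) z) := by
        rw [← Finset.sum_neg_distrib]
        refine Finset.sum_congr rfl fun a _ => by ring
      rw [h3]
      ring)
  exact key.2

end H3M
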