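import Mathlib

set_option autoImplicit false

noncomputable section

open MeasureTheory

namespace H3M

/-- Phase space `ℝⁿ × ℝⁿ`; a point `z = (x, y)` stands for `x + i y` in `ℂⁿ`. -/
abbrev Ph (n : ℕ) := (Fin n → ℝ) × (Fin n → ℝ)

/-- the complex number `l(x) + i l(y)` -/
def lf {n : ℕ} (l : Fin n → ℝ) (z : Ph n) : ℂ := ⟨∑ a, l a * z.1 a, ∑ a, l a * z.2 a⟩

/-- real scalar product of `ℂ = ℝ²` -/
def dot (u v : ℂ) : ℝ := u.re * v.re + u.im * v.im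

/-- determinant of a tuple of rows -/
def dt {n N : ℕ} (l : Fin N → Fin n → ℝ) (i : Fin n → Fin N) : ℝ :=
  Matrix.det (Matrix.of fun a => l (i a))

/-- `Lam l j y = det (y_b | l_{j b})_b`, an `(n+1) × (n+1)` determinant with complex first column -/
def Lam {n N : ℕ} (l : Fin N → Fin n → ℝ) (j : Fin (n + 1) → Fin N) (y : Fin (n + 1) → ℂ) : ℂ :=
  Matrix.det (Matrix.of fun b : Fin (n + 1) =>
    (Fin.cons (y b) (fun a => ((l (j b) a : ℝ) : ℂ)) : Fin (n + 1) → ℂ))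

/-- The functional with positive `p`: `∑_i d(i)² ∫ (∏ₖ pₖ(wₖ)) (∏ₐ m_{i a}(w_{i a})) dz`. -/
def Fm {n N : ℕ} (l : Fin N → Fin n → ℝ) (p m : Fin N → ℂ → ℝ) : ℝ :=
  ∑ i : Fin n → Fin N, (dt l i) ^ 2 *
    ∫ z : Ph n, (∏ k, p k (lf (l k) z)) * ∏ a, m (i a) (lf (l (i a)) z)

/-- The functional: `∑_i d(i)² ∫ (∏ₐ ρ_{i a}(w_{i a})) (∏_{k ∉ range i} pₖ(wₖ)) dz`. -/
def F0 {n N : ℕ} (l : Fin N → Fin n → ℝ) (p r : Fin N → ℂ → ℝ) : ℝ :=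
  ∑ i : Fin n → Fin N, (dt l i) ^ 2 *
    ∫ z : Ph n, (∏ a, r (i a) (lf (l (i a)) z)) *
      ∏ k ∈ Finset.univ.filter (fun k => ∀ a, i a ≠ k), p k (lf (l k) z)

/-- A pair `(p, m)` transported by the velocity field `v`, with `∇p = - p m q`.
`Dv t w` is the divergence of `w ↦ m t w * v t w`. -/
structure Flow (p m : ℝ → ℂ → ℝ) (q v : ℝ → ℂ → ℂ) (Dv : ℝ → ℂ → ℝ) (T : Set ℝ) (R : ℝ) :
    Prop where
  pos : ∀ t ∈ T, ∀ w, 0 < p t w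
  p_cont : ContinuousOn (fun x : ℝ × ℂ => p x.1 x.2) (T ×ˢ Set.univ)
  m_cont : ContinuousOn (fun x : ℝ × ℂ => m x.1 x.2) (T ×ˢ Set.univ)
  s_cont : ContinuousOn (fun x : ℝ × ℂ => m x.1 x.2 * dot (q x.1 x.2) (v x.1 x.2))
    (T ×ˢ Set.univ)
  D_cont : ContinuousOn (fun x : ℝ × ℂ => Dv x.1 x.2) (T ×ˢ Set.univ)
  r_cont : ∀ t ∈ T, Continuous (fun w : ℂ => (m t w : ℂ) * q t w)
  m_w : ∀ t ∈ T, ContDiff ℝ 1 (m t)
  u_w : ∀ t ∈ T, ContDiff ℝ 1 (fun w : ℂ => (m t w : ℂ) * v t w)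
  p_t : ∀ t ∈ T, ∀ w, HasDerivAt (fun s => p s w) (p t w * (m t w * dot (q t w) (v t w))) t
  m_t : ∀ t ∈ T, ∀ w, HasDerivAt (fun s => m s w) (-(Dv t w)) t
  p_w : ∀ t ∈ T, ∀ w, DifferentiableAt ℝ (p t) w ∧
    ∀ h : ℂ, fderiv ℝ (p t) w h = -(p t w * (m t w * dot (q t w) h))
  div_eq : ∀ t ∈ T, ∀ w, Dv t w =
    (fderiv ℝ (fun w : ℂ => (m t w : ℂ) * v t w) w 1).re +
    (fderiv ℝ (fun w : ℂ => (m t w : ℂ) * v t w) w Complex.I).im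
  supp : ∀ t ∈ T, ∀ w, R < ‖w‖ → m t w = 0

/-- A smooth profile: `φ = 1` on `(-∞, a]`, `φ = 0` on `[b, ∞)`, nonincreasing. -/
structure Prof (φ : ℝ → ℝ) (a b : ℝ) : Prop where
  smooth : ContDiff ℝ 3 φ
  one : ∀ x ≤ a, φ x = 1
  zero : ∀ x, b ≤ x → φ x = 0
  anti : Antitone φ
  ha : 0 < a
  hab : a < b

/-- `F(x) = -2 φ'(x)`, so that `∇ φ(|ξ|²) = - F(|ξ|²) ξ` -/
def dF (φ : ℝ → ℝ) (x : ℝ) : ℝ := -2 * deriv φ x

/-- Local data for a conformal flow `X t w` (holomorphic in `w`) on an open set `O ⊆ ℝ × ℂ`. -/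
structure XD (X Xw Xt Xwt Xww : ℝ → ℂ → ℂ) (O : Set (ℝ × ℂ)) : Prop where
  isOpen : IsOpen O
  c0 : ContinuousOn (fun x : ℝ × ℂ => X x.1 x.2) O
  cw : ContinuousOn (fun x : ℝ × ℂ => Xw x.1 x.2) O
  ct : ContinuousOn (fun x : ℝ × ℂ => Xt x.1 x.2) O
  cwt : ContinuousOn (fun x : ℝ × ℂ => Xwt x.1 x.2) O
  cww : ContinuousOn (fun x : ℝ × ℂ => Xww x.1 x.2) O
  hw : ∀ t w, (t, w) ∈ O → HasDerivAt (X t) (Xw t w) w
  ht : ∀ t w, (t, w) ∈ O → HasDerivAt (fun s : ℝ => X s w) (Xt t w) t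
  hww : ∀ t w, (t, w) ∈ O → HasDerivAt (Xw t) (Xww t w) w
  hwt : ∀ t w, (t, w) ∈ O → HasDerivAt (fun s : ℝ => Xw s w) (Xwt t w) t
  htw : ∀ t w, (t, w) ∈ O → HasDerivAt (Xt t) (Xwt t w) w
  ne : ∀ t w, (t, w) ∈ O → Xw t w ≠ 0

open Classical in
/-- the function `p` of the flow (without the positive constant) -/
def pX (φ : ℝ → ℝ) (X : ℝ → ℂ → ℂ) (O : Set (ℝ × ℂ)) (t : ℝ) (w : ℂ) : ℝ :=
  if (t, w) ∈ O then φ (‖X t w‖ ^ 2) else 0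

open Classical in
/-- the density `ρ` of the flow -/
def rX (φ : ℝ → ℝ) (X Xw : ℝ → ℂ → ℂ) (O : Set (ℝ × ℂ)) (t : ℝ) (w : ℂ) : ℝ :=
  if (t, w) ∈ O then dF φ (‖X t w‖ ^ 2) * ‖Xw t w‖ ^ 2 else 0

/-- `R : W → D` is a conformal map onto (a part of) the unit disc, `R 0 = 0`, `R' 0 = 1`. -/
structure Conf (R : ℂ → ℂ) (W : Set ℂ) : Prop where
  isOpen : IsOpen W
  zero_mem : (0 : ℂ) ∈ W
  diff : DifferentiableOn ℂ R W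
  R0 : R 0 = 0
  R1 : deriv R 0 = 1
  ne : ∀ w ∈ W, deriv R w ≠ 0
  inj : Set.InjOn R W
  lt : ∀ w ∈ W, ‖R w‖ < 1
  cpt : ∀ r < (1 : ℝ), IsCompact {w | w ∈ W ∧ ‖R w‖ ≤ r}

open Classical in
/-- the pair of the domain `W` -/
def pW (φ : ℝ → ℝ) (R : ℂ → ℂ) (W : Set ℂ) (w : ℂ) : ℝ := if w ∈ W then φ (‖R w‖ ^ 2) else 0

open Classical in
/-- the pair of the domain `W` -/
def rW (φ : ℝ → ℝ) (R : ℂ → ℂ) (W : Set ℂ) (w : ℂ) : ℝ :=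
  if w ∈ W then dF φ (‖R w‖ ^ 2) * ‖deriv R w‖ ^ 2 else 0

/-- The special domain used for Mahler's inequality. -/
structure QConf (R : ℂ → ℂ) (W : Set ℂ) : Prop extends Conf R W where
  conj_mem : ∀ w ∈ W, (starRingEnd ℂ) w ∈ W ∧ R ((starRingEnd ℂ) w) = (starRingEnd ℂ) (R w)
  re_le : ∀ w ∈ W, |w.re| ≤ Real.pi ^ 2 / 8
  im_q : ∀ w ∈ W, (R w / deriv R w).im = Real.arctan (2 * (R w).im / (1 - ‖R w‖ ^ 2)) / 2
  im_pos : ∀ w ∈ W, 0 < w.im → 0 < (R w).im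

/-- sign of a Boolean -/
def sg (s : Bool) : ℝ := if s then 1 else -1

/-- `(i, s)` is strictly feasible for the offsets `b`: the point with `l_{i a}(y) = s_a b_{i a}`
satisfies `|l_k(y)| < b_k` for all other `k`. -/
def feas {n N : ℕ} (l : Fin N → Fin n → ℝ) (b : Fin N → ℝ) (i : Fin n → Fin N)
    (s : Fin n → Bool) : Prop :=
  dt l i ≠ 0 ∧ ∃ y : Fin n → ℝ, (∀ a, ∑ c, l (i a) c * y c = sg (s a) * b (i a)) ∧
    ∀ k, (∀ a, i a ≠ k) → |∑ c, l k c * y c| < b k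

end H3M
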