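import Pool.Agent.H3M.LA
set_option autoImplicit false
noncomputable section
open MeasureTheory Filter Topology
namespace H3M
variable {n N : ℕ}

theorem EP_lf_cont (l : Fin n → ℝ) : Continuous (fun z : Ph n => lf l z) := by
  have h : (fun z : Ph n => lf l z) =
      fun z : Ph n => ((∑ a, l a * z.1 a : ℝ) : ℂ) + ((∑ a, l a * z.2 a : ℝ) : ℂ) * Complex.I := by
    funext z
    apply Complex.ext <;> simp [lf]
  rw [h]
  refine Continuous.add (Complex.continuous_ofReal.comp ?_)
    ((Complex.continuous_ofReal.comp ?_).mul continuous_const)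
  · exact continuous_finsetSum _ fun a _ => continuous_const.mul
      ((continuous_apply a).comp continuous_fst)
  · exact continuous_finsetSum _ fun a _ => continuous_const.mul
      ((continuous_apply a).comp continuous_snd)

theorem EP_prod (i : Fin n → Fin N) (hi : Function.Injective i) (f g : Fin N → ℝ)
    (hf : ∀ k, f k ≠ 0) :
    (∏ k, f k) * ∏ a, (g (i a) / f (i a)) =
      (∏ a, g (i a)) * ∏ k ∈ Finset.univ.filter (fun k => ∀ a, i a ≠ k), f k := by
  classical
  have h1 : ∏ k, f k = (∏ k ∈ Finset.univ.filter (fun k => ∀ a, i a ≠ k), f k) *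
      ∏ k ∈ Finset.univ.filter (fun k => ¬ ∀ a, i a ≠ k), f k :=
    (Finset.prod_filter_mul_prod_filter_not _ _ _).symm
  have h2 : Finset.univ.filter (fun k => ¬ ∀ a, i a ≠ k) = Finset.univ.image i := by
    ext k
    simp
  have h3 : ∏ k ∈ Finset.univ.image i, f k = ∏ a, f (i a) :=
    Finset.prod_image fun a _ b _ h => hi h
  rw [h1, h2, h3, Finset.prod_div_distrib]
  have h4 : ∏ a, f (i a) ≠ 0 := Finset.prod_ne_zero_iff.2 fun a _ => hf _
  field_simp

/-- removing the positive constant `ε` -/
theorem Fm_tendsto (l : Fin N → Fin n → ℝ) (p r : Fin N → ℂ → ℝ) (hp : ∀ k, Continuous (p k))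
    (hr : ∀ k, Continuous (r k)) (hp0 : ∀ k w, 0 ≤ p k w) (hp1 : ∀ k w, p k w ≤ 1)
    (R : ℝ) (hR : ∀ k w, R < ‖w‖ → r k w = 0) :
    Tendsto (fun ε : ℝ => Fm l (fun k w => p k w + ε) (fun k w => r k w / (p k w + ε)))
      (𝓝[>] 0) (𝓝 (F0 l p r)) := by
  unfold Fm F0
  refine tendsto_finsetSum _ fun i _ => ?_
  by_cases hd : dt l i = 0
  · simp [hd]
  refine Tendsto.const_mul _ ?_
  have hinj : Function.Injective i := by
    intro a b hab
    by_contra hne
    refine hd (Matrix.det_zero_of_row_eq hne ?_)
    funext c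
    simp [hab]
  obtain ⟨C, hC⟩ := bdd_of_dt l i hd R
  have hM : ∀ k, ∃ M : ℝ, ∀ w, |r k w| ≤ M := by
    intro k
    obtain ⟨M, hM⟩ := (isCompact_closedBall (0 : ℂ) R).exists_bound_of_continuousOn
      (hr k).continuousOn
    refine ⟨max M 0, fun w => ?_⟩
    by_cases hw : ‖w‖ ≤ R
    · exact (hM w (by simpa using hw)).trans (le_max_left _ _)
    · rw [hR k w (not_le.1 hw), abs_zero]
      exact le_max_right _ _
  choose M hM using hM
  have hG : Tendsto (fun ε : ℝ => ∫ z : Ph n, (∏ a, r (i a) (lf (l (i a)) z)) *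
      ∏ k ∈ Finset.univ.filter (fun k => ∀ a, i a ≠ k), (p k (lf (l k) z) + ε)) (𝓝[>] 0)
      (𝓝 (∫ z : Ph n, (∏ a, r (i a) (lf (l (i a)) z)) *
        ∏ k ∈ Finset.univ.filter (fun k => ∀ a, i a ≠ k), p k (lf (l k) z))) := by
    refine tendsto_integral_filter_of_dominated_convergence
      ((Metric.closedBall (0 : Ph n) C).indicator
        (fun _ => (∏ a, M (i a)) * ∏ _k ∈ Finset.univ.filter (fun k => ∀ a, i a ≠ k), (2 : ℝ)))
      ?_ ?_ ?_ ?_
    · refine Eventually.of_forall fun ε => ?_
      refine Continuous.aestronglyMeasurable ?_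
      refine Continuous.mul ?_ ?_
      · exact continuous_finsetProd _ fun a _ => (hr _).comp (EP_lf_cont _)
      · exact continuous_finsetProd _ fun k _ => ((hp _).comp (EP_lf_cont _)).add
          continuous_const
    · have hev : ∀ᶠ ε : ℝ in 𝓝[>] 0, 0 < ε ∧ ε < 1 := by
        have := Ioo_mem_nhdsGT (show (0 : ℝ) < 1 by norm_num)
        exact this
      filter_upwards [hev] with ε hε
      refine Eventually.of_forall fun z => ?_
      by_cases hz : ∀ a, ‖lf (l (i a)) z‖ ≤ R
      · have hz' : z ∈ Metric.closedBall (0 : Ph n) C := by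
          simpa using hC z hz
        rw [Set.indicator_of_mem hz', norm_mul, norm_prod, norm_prod]
        refine mul_le_mul ?_ ?_ (Finset.prod_nonneg fun _ _ => norm_nonneg _)
          (Finset.prod_nonneg fun a _ => (abs_nonneg _).trans (hM (i a) 0))
        · exact Finset.prod_le_prod (fun _ _ => norm_nonneg _) fun a _ => hM (i a) _
        · refine Finset.prod_le_prod (fun _ _ => norm_nonneg _) fun k _ => ?_
          have h1 := hp0 k (lf (l k) z)
          have h2 := hp1 k (lf (l k) z)
          rw [Real.norm_of_nonneg (by linarith [hε.1])]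
          linarith [hε.2]
      · push Not at hz
        obtain ⟨a, ha⟩ := hz
        have h0 : ∏ a, r (i a) (lf (l (i a)) z) = 0 :=
          Finset.prod_eq_zero (Finset.mem_univ a) (hR _ _ ha)
        rw [h0, zero_mul, norm_zero]
        refine Set.indicator_nonneg (fun _ _ => ?_) _
        exact mul_nonneg (Finset.prod_nonneg fun a _ => (abs_nonneg _).trans (hM (i a) 0))
          (Finset.prod_nonneg fun _ _ => by norm_num)
    · rw [integrable_indicator_iff Metric.isClosed_closedBall.measurableSet]
      exact integrableOn_const (isCompact_closedBall _ _).measure_lt_top.ne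
    · refine Eventually.of_forall fun z => ?_
      refine Tendsto.const_mul _ ?_
      refine tendsto_finsetProd _ fun k _ => ?_
      have h1 : Tendsto (fun ε : ℝ => p k (lf (l k) z) + ε) (𝓝[>] 0)
          (𝓝 (p k (lf (l k) z) + 0)) :=
        (tendsto_const_nhds.add tendsto_id).mono_left nhdsWithin_le_nhds
      rwa [add_zero] at h1
  refine hG.congr' ?_
  filter_upwards [self_mem_nhdsWithin] with ε hε
  have hε' : 0 < ε := hε
  refine integral_congr_ae (Eventually.of_forall fun z => ?_)
  have := EP_prod i hinj (fun k => p k (lf (l k) z) + ε) (fun k => r k (lf (l k) z))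
    (fun k => (by have := hp0 k (lf (l k) z); linarith : (0 : ℝ) < p k (lf (l k) z) + ε).ne')
  exact this.symm

end H3M
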