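import Pool.Agent.H3M.Defs
set_option autoImplicit false
noncomputable section
open MeasureTheory
namespace H3M
variable {n N : ℕ}

/-- linear change of variables `z ↦ (w_{i a}(z))_a` -/
theorem lin_change (l : Fin N → Fin n → ℝ) (i : Fin n → Fin N) (h : dt l i ≠ 0)
    (g : Fin n → ℂ → ENNReal) (hg : ∀ a, Measurable (g a)) :
    ENNReal.ofReal ((dt l i) ^ 2) * ∫⁻ z : Ph n, ∏ a, g a (lf (l (i a)) z) =
      ∏ a, ∫⁻ w : ℂ, g a w := by
  sorry

/-- the mass of a radial density -/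
theorem mass_disc (φ : ℝ → ℝ) (a b : ℝ) (hφ : Prof φ a b) :
    ∫⁻ w : ℂ, ENNReal.ofReal (dF φ (‖w‖ ^ 2)) = ENNReal.ofReal (2 * Real.pi) := by
  sorry

/-- the mass of a radial density near the real axis -/
theorem mass_strip (φ : ℝ → ℝ) (a b : ℝ) (hφ : Prof φ a b) (δ : ℝ) (hδ : 0 < δ) :
    ∫⁻ w : ℂ, (if |w.im| < δ then ENNReal.ofReal (dF φ (‖w‖ ^ 2)) else 0) ≤
      ENNReal.ofReal (2 * Real.pi * δ / Real.sqrt a) := by
  sorry

end H3M
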