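import Pool.Agent.H3M.PA
import Pool.Agent.H3M.LC
set_option autoImplicit false
noncomputable section
open MeasureTheory Filter Topology
namespace H3M
namespace PA2
variable {n N : ℕ}

/-! ### facts on the profile -/

theorem phi_nonneg {φ : ℝ → ℝ} {a b : ℝ} (hφ : Prof φ a b) (x : ℝ) : 0 ≤ φ x := by
  have h := hφ.anti (le_max_left x b)
  rwa [hφ.zero _ (le_max_right x b)] at h

theorem phi_le_one {φ : ℝ → ℝ} {a b : ℝ} (hφ : Prof φ a b) (x : ℝ) : φ x ≤ 1 := by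
  have h := hφ.anti (min_le_left x a)
  rwa [hφ.one _ (min_le_right x a)] at h

theorem dF_nonneg {φ : ℝ → ℝ} {a b : ℝ} (hφ : Prof φ a b) (x : ℝ) : 0 ≤ dF φ x := by
  unfold dF
  have : deriv φ x ≤ 0 := hφ.anti.deriv_nonpos
  linarith

theorem dF_zero {φ : ℝ → ℝ} {a b : ℝ} (hφ : Prof φ a b) {x : ℝ} (hx : b < x) : dF φ x = 0 := by
  unfold dF
  have h : φ =ᶠ[𝓝 x] fun _ => (0 : ℝ) := by
    filter_upwards [lt_mem_nhds hx] with y hy using hφ.zero y hy.le
  rw [h.deriv_eq]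
  simp

theorem dF_cont {φ : ℝ → ℝ} {a b : ℝ} (hφ : Prof φ a b) : Continuous (dF φ) := by
  unfold dF
  exact continuous_const.mul (hφ.smooth.continuous_deriv (by norm_num))

theorem dF_bdd {φ : ℝ → ℝ} {a b : ℝ} (hφ : Prof φ a b) :
    ∃ M : ℝ, 1 ≤ M ∧ ∀ x : ℝ, 0 ≤ x → dF φ x ≤ M := by
  obtain ⟨M, hM⟩ := (isCompact_Icc (a := (0 : ℝ)) (b := b)).exists_bound_of_continuousOn
    (dF_cont hφ).continuousOn
  refine ⟨max M 1, le_max_right _ _, fun x hx => ?_⟩
  rcases le_or_gt x b with h | h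
  · exact ((le_abs_self _).trans (hM x ⟨hx, h⟩)).trans (le_max_left _ _)
  · rw [dF_zero hφ h]
    exact zero_le_one.trans (le_max_right _ _)

/-! ### determinants -/

theorem dt_inj {l : Fin N → Fin n → ℝ} {i : Fin n → Fin N} (h : dt l i ≠ 0) :
    Function.Injective i := by
  intro a a' e
  by_contra hne
  refine h (Matrix.det_zero_of_row_eq hne ?_)
  funext c
  simp [Matrix.of_apply, e]

theorem dt_comp (l : Fin N → Fin n → ℝ) (i : Fin n → Fin N) (σ : Equiv.Perm (Fin n)) :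
    dt l (i ∘ σ) = ((Equiv.Perm.sign σ : ℤ) : ℝ) * dt l i := by
  have := Matrix.det_permute σ (Matrix.of fun a => l (i a))
  exact this

theorem card_tuples (l : Fin N → Fin n → ℝ) (i0 : Fin n → Fin N) (h : dt l i0 ≠ 0) :
    (Finset.univ.filter (fun i : Fin n → Fin N => dt l i ≠ 0 ∧ ∀ a, ∃ a', i0 a' = i a)).card =
      n.factorial := by
  have him : Finset.univ.filter (fun i : Fin n → Fin N => dt l i ≠ 0 ∧ ∀ a, ∃ a', i0 a' = i a) =
      (Finset.univ : Finset (Equiv.Perm (Fin n))).image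
        (fun σ : Equiv.Perm (Fin n) => i0 ∘ (σ : Fin n → Fin n)) := by
    ext i
    simp only [Finset.mem_filter, Finset.mem_univ, true_and, Finset.mem_image]
    constructor
    · rintro ⟨hi, hr⟩
      choose τ hτ using hr
      have hinj : Function.Injective τ := by
        intro a a' e
        apply dt_inj hi
        rw [← hτ a, ← hτ a', e]
      refine ⟨Equiv.ofBijective τ (Finite.injective_iff_bijective.1 hinj), ?_⟩
      funext a
      simp [hτ]
    · rintro ⟨σ, rfl⟩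
      refine ⟨?_, fun a => ⟨σ a, rfl⟩⟩
      rw [dt_comp]
      refine mul_ne_zero ?_ h
      rcases Int.units_eq_one_or (Equiv.Perm.sign σ) with e | e <;> rw [e] <;> norm_num
  rw [him, Finset.card_image_of_injective, Finset.card_univ, Fintype.card_perm, Fintype.card_fin]
  intro σ τ e
  apply Equiv.ext
  intro a
  exact dt_inj h (congrFun e a)

/-! ### the linear forms -/

theorem lf_bdd (l : Fin N → Fin n → ℝ) (C : ℝ) :
    ∃ B : ℝ, 0 ≤ B ∧ ∀ (k : Fin N) (z : Ph n), ‖z‖ ≤ C → ‖lf (l k) z‖ ≤ B := by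
  refine ⟨∑ k : Fin N, ∑ a : Fin n, 2 * (|l k a| * |C|), by positivity, fun k z hz => ?_⟩
  have hz1 : ∀ a, |z.1 a| ≤ |C| := fun a =>
    (norm_le_pi_norm z.1 a).trans ((norm_fst_le z).trans (hz.trans (le_abs_self C)))
  have hz2 : ∀ a, |z.2 a| ≤ |C| := fun a =>
    (norm_le_pi_norm z.2 a).trans ((norm_snd_le z).trans (hz.trans (le_abs_self C)))
  have h1 : ‖lf (l k) z‖ ≤ |(lf (l k) z).re| + |(lf (l k) z).im| := Complex.norm_le_abs_re_add_abs_im _
  have h2 : |(lf (l k) z).re| ≤ ∑ a, |l k a| * |C| := by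
    show |∑ a, l k a * z.1 a| ≤ _
    refine (Finset.abs_sum_le_sum_abs _ _).trans (Finset.sum_le_sum fun a _ => ?_)
    rw [abs_mul]
    exact mul_le_mul_of_nonneg_left (hz1 a) (abs_nonneg _)
  have h3 : |(lf (l k) z).im| ≤ ∑ a, |l k a| * |C| := by
    show |∑ a, l k a * z.2 a| ≤ _
    refine (Finset.abs_sum_le_sum_abs _ _).trans (Finset.sum_le_sum fun a _ => ?_)
    rw [abs_mul]
    exact mul_le_mul_of_nonneg_left (hz2 a) (abs_nonneg _)
  have h4 : ∑ a : Fin n, 2 * (|l k a| * |C|) ≤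
      ∑ k : Fin N, ∑ a : Fin n, 2 * (|l k a| * |C|) :=
    Finset.single_le_sum (f := fun k => ∑ a : Fin n, 2 * (|l k a| * |C|))
      (fun k _ => by positivity) (Finset.mem_univ k)
  have h5 : ∑ a : Fin n, 2 * (|l k a| * |C|) = (∑ a, |l k a| * |C|) + ∑ a, |l k a| * |C| := by
    rw [← Finset.mul_sum]; ring
  linarith

theorem lf_cont (m : Fin n → ℝ) : Continuous (fun z : Ph n => lf m z) := by
  have h1 : Continuous (fun z : Ph n => ((∑ a, m a * z.1 a : ℝ) : ℂ) +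
      ((∑ a, m a * z.2 a : ℝ) : ℂ) * Complex.I) := by fun_prop
  have h2 : (fun z : Ph n => lf m z) = (fun z : Ph n => ((∑ a, m a * z.1 a : ℝ) : ℂ) +
      ((∑ a, m a * z.2 a : ℝ) : ℂ) * Complex.I) := by
    funext z
    apply Complex.ext <;> simp [lf]
  rw [h2]
  exact h1

/-! ### one spanning tuple of the disc -/

theorem disc_term (φ : ℝ → ℝ) (a b : ℝ) (hφ : Prof φ a b) (l : Fin N → Fin n → ℝ)
    (i : Fin n → Fin N) (h : dt l i ≠ 0) :
    (dt l i) ^ 2 * ∫ z : Ph n, ∏ c, dF φ (‖lf (l (i c)) z‖ ^ 2) = (2 * Real.pi) ^ n := by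
  have hcont : Continuous (fun z : Ph n => ∏ c, dF φ (‖lf (l (i c)) z‖ ^ 2)) := by
    refine continuous_finsetProd _ fun c _ => ?_
    exact (dF_cont hφ).comp (((lf_cont _).norm).pow 2)
  have h1 : ∫ z : Ph n, ∏ c, dF φ (‖lf (l (i c)) z‖ ^ 2) =
      (∫⁻ z : Ph n, ∏ c, ENNReal.ofReal (dF φ (‖lf (l (i c)) z‖ ^ 2))).toReal := by
    rw [integral_eq_lintegral_of_nonneg_ae
      (Eventually.of_forall fun z => Finset.prod_nonneg fun c _ => dF_nonneg hφ _)
      hcont.aestronglyMeasurable]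
    congr 1
    refine lintegral_congr fun z => ?_
    rw [ENNReal.ofReal_prod_of_nonneg]
    exact fun c _ => dF_nonneg hφ _
  have h2 := lin_change l i h (fun _ w => ENNReal.ofReal (dF φ (‖w‖ ^ 2)))
    (fun _ => (((dF_cont hφ).comp (continuous_norm.pow 2)).measurable).ennreal_ofReal)
  have h3 : (dt l i) ^ 2 = (ENNReal.ofReal ((dt l i) ^ 2)).toReal :=
    (ENNReal.toReal_ofReal (sq_nonneg _)).symm
  rw [h1, h3, ← ENNReal.toReal_mul, h2]
  simp only [mass_disc φ a b hφ]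
  rw [Finset.prod_const, Finset.card_univ, Fintype.card_fin, ENNReal.toReal_pow,
    ENNReal.toReal_ofReal (by positivity)]

/-- the summand of the scaled functional -/
def term (φ : ℝ → ℝ) (l : Fin N → Fin n → ℝ) (s : Fin N → ℝ) (i : Fin n → Fin N) : ℝ :=
  (dt l i) ^ 2 * ∫ z : Ph n, (∏ c, (s (i c)) ^ 2 * dF φ (‖((s (i c) : ℝ) : ℂ) *
      lf (l (i c)) z‖ ^ 2)) *
    ∏ k ∈ Finset.univ.filter (fun k => ∀ a, i a ≠ k), φ (‖((s k : ℝ) : ℂ) * lf (l k) z‖ ^ 2)

/-- tuples inside `S = range i0` -/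
theorem term_in (φ : ℝ → ℝ) (a b : ℝ) (hφ : Prof φ a b) (l : Fin N → Fin n → ℝ)
    (S : Set (Fin N)) [DecidablePred (· ∈ S)] (i : Fin n → Fin N) (h : dt l i ≠ 0)
    (hi : ∀ c, i c ∈ S) (hS : ∀ k ∈ S, ∃ c, i c = k) :
    ∀ᶠ θ : ℝ in 𝓝[>] 0, term φ l (fun k => if k ∈ S then 1 else θ) i = (2 * Real.pi) ^ n := by
  obtain ⟨C, hC⟩ := bdd_of_dt l i h (Real.sqrt b)
  obtain ⟨B, hB0, hB⟩ := lf_bdd l C
  have hcont : Tendsto (fun θ : ℝ => θ ^ 2 * B ^ 2) (𝓝[>] 0) (𝓝 0) := by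
    have : Continuous (fun θ : ℝ => θ ^ 2 * B ^ 2) := by fun_prop
    have h0 := this.tendsto 0
    simp only [ne_eq, OfNat.ofNat_ne_zero, not_false_eq_true, zero_pow, zero_mul] at h0
    exact h0.mono_left nhdsWithin_le_nhds
  filter_upwards [hcont.eventually (gt_mem_nhds hφ.ha)] with θ hθ
  rw [← disc_term φ a b hφ l i h, term]
  congr 1
  refine integral_congr_ae (Eventually.of_forall fun z => ?_)
  show (∏ c, (if i c ∈ S then (1 : ℝ) else θ) ^ 2 *
      dF φ (‖(((if i c ∈ S then 1 else θ : ℝ)) : ℂ) * lf (l (i c)) z‖ ^ 2)) *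
    ∏ k ∈ Finset.univ.filter (fun k => ∀ a, i a ≠ k),
      φ (‖((if k ∈ S then 1 else θ : ℝ) : ℂ) * lf (l k) z‖ ^ 2) = _
  have h1 : (∏ c, (if i c ∈ S then (1 : ℝ) else θ) ^ 2 *
      dF φ (‖(((if i c ∈ S then 1 else θ : ℝ)) : ℂ) * lf (l (i c)) z‖ ^ 2)) =
      ∏ c, dF φ (‖lf (l (i c)) z‖ ^ 2) := by
    refine Finset.prod_congr rfl fun c _ => ?_
    simp [hi c]
  rw [h1]
  by_cases hz : ∀ c, ‖lf (l (i c)) z‖ ≤ Real.sqrt b
  · have h2 : ∏ k ∈ Finset.univ.filter (fun k => ∀ a, i a ≠ k),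
        φ (‖((if k ∈ S then 1 else θ : ℝ) : ℂ) * lf (l k) z‖ ^ 2) = 1 := by
      refine Finset.prod_eq_one fun k hk => ?_
      rw [Finset.mem_filter] at hk
      have hkS : k ∉ S := fun hkS => by
        obtain ⟨c, hc⟩ := hS k hkS
        exact hk.2 c hc
      rw [if_neg hkS]
      apply hφ.one
      have h3 : ‖lf (l k) z‖ ≤ B := hB k z (hC z hz)
      rw [norm_mul, mul_pow, Complex.norm_real, Real.norm_eq_abs, sq_abs]
      have h4 : ‖lf (l k) z‖ ^ 2 ≤ B ^ 2 := by gcongr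
      have h5 : θ ^ 2 * ‖lf (l k) z‖ ^ 2 ≤ θ ^ 2 * B ^ 2 := by gcongr
      linarith
    rw [h2, mul_one]
  · push Not at hz
    obtain ⟨c, hc⟩ := hz
    have h0 : ∏ c, dF φ (‖lf (l (i c)) z‖ ^ 2) = 0 := by
      refine Finset.prod_eq_zero (Finset.mem_univ c) (dF_zero hφ ?_)
      exact (Real.sqrt_lt' (lt_of_le_of_lt (Real.sqrt_nonneg b) hc)).1 hc
    rw [h0, zero_mul]
    exact h0.symm

/-- tuples not inside `S` -/
theorem term_out (φ : ℝ → ℝ) (a b : ℝ) (hφ : Prof φ a b) (l : Fin N → Fin n → ℝ)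
    (S : Set (Fin N)) [DecidablePred (· ∈ S)] (i0 : Fin n → Fin N) (h0 : dt l i0 ≠ 0)
    (hi0 : ∀ c, i0 c ∈ S) (i : Fin n → Fin N) (hi : ∃ c, i c ∉ S) :
    Tendsto (fun θ : ℝ => term φ l (fun k => if k ∈ S then 1 else θ) i) (𝓝[>] 0) (𝓝 0) := by
  obtain ⟨C, hC⟩ := bdd_of_dt l i0 h0 (Real.sqrt b)
  obtain ⟨M, hM1, hM⟩ := dF_bdd hφ
  obtain ⟨c0, hc0⟩ := hi
  have hvol : volume (Metric.closedBall (0 : Ph n) C) < ⊤ := measure_closedBall_lt_top
  set V := volume.real (Metric.closedBall (0 : Ph n) C) with hV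
  have hlim : Tendsto (fun θ : ℝ => (dt l i) ^ 2 * (θ ^ 2 * M ^ n * V)) (𝓝[>] 0) (𝓝 0) := by
    have : Continuous (fun θ : ℝ => (dt l i) ^ 2 * (θ ^ 2 * M ^ n * V)) := by fun_prop
    have h0 := this.tendsto 0
    simp only [ne_eq, OfNat.ofNat_ne_zero, not_false_eq_true, zero_pow, zero_mul, mul_zero] at h0
    exact h0.mono_left nhdsWithin_le_nhds
  refine squeeze_zero_norm' ?_ hlim
  have h1 : ∀ᶠ θ : ℝ in 𝓝[>] 0, θ ≤ 1 := by
    have := (gt_mem_nhds (zero_lt_one (α := ℝ)))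
    filter_upwards [nhdsWithin_le_nhds this] with θ hθ using le_of_lt hθ
  filter_upwards [h1, self_mem_nhdsWithin] with θ hθ1 hθ0
  have hθ0' : (0 : ℝ) < θ := hθ0
  rw [term, norm_mul, Real.norm_eq_abs, abs_of_nonneg (sq_nonneg _)]
  refine mul_le_mul_of_nonneg_left ?_ (sq_nonneg _)
  set s : Fin N → ℝ := fun k => if k ∈ S then 1 else θ with hs
  have hs0 : ∀ k, 0 ≤ s k := by
    intro k
    simp only [hs]
    split_ifs <;> linarith
  have hs1 : ∀ k, s k ≤ 1 := by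
    intro k
    simp only [hs]
    split_ifs <;> linarith
  rw [← setIntegral_eq_integral_of_forall_compl_eq_zero (s := Metric.closedBall (0 : Ph n) C)]
  · refine norm_setIntegral_le_of_norm_le_const hvol fun z _ => ?_
    rw [norm_mul, norm_prod, norm_prod]
    have h2 : ∏ c, ‖(s (i c)) ^ 2 * dF φ (‖((s (i c) : ℝ) : ℂ) * lf (l (i c)) z‖ ^ 2)‖ ≤
        ∏ c, ((s (i c)) ^ 2 * M) := by
      refine Finset.prod_le_prod (fun c _ => norm_nonneg _) fun c _ => ?_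
      rw [Real.norm_eq_abs, abs_of_nonneg (mul_nonneg (sq_nonneg _) (dF_nonneg hφ _))]
      exact mul_le_mul_of_nonneg_left (hM _ (sq_nonneg _)) (sq_nonneg _)
    have h3 : ∏ c, ((s (i c)) ^ 2 * M) ≤ θ ^ 2 * M ^ n := by
      rw [Finset.prod_mul_distrib, Finset.prod_const, Finset.card_univ, Fintype.card_fin]
      refine mul_le_mul_of_nonneg_right ?_ (by positivity)
      rw [← Finset.mul_prod_erase _ _ (Finset.mem_univ c0)]
      have h4 : s (i c0) = θ := by simp [hs, hc0]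
      have h5 : ∏ c ∈ Finset.univ.erase c0, (s (i c)) ^ 2 ≤ 1 :=
        Finset.prod_le_one (fun c _ => sq_nonneg _) fun c _ => by
          have := hs0 (i c)
          have := hs1 (i c)
          nlinarith
      rw [h4]
      calc θ ^ 2 * ∏ c ∈ Finset.univ.erase c0, (s (i c)) ^ 2 ≤ θ ^ 2 * 1 :=
            mul_le_mul_of_nonneg_left h5 (sq_nonneg _)
        _ = θ ^ 2 := mul_one _
    have h6 : ∏ k ∈ Finset.univ.filter (fun k => ∀ a, i a ≠ k),
        ‖φ (‖((s k : ℝ) : ℂ) * lf (l k) z‖ ^ 2)‖ ≤ 1 := by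
      refine Finset.prod_le_one (fun c _ => norm_nonneg _) fun c _ => ?_
      rw [Real.norm_eq_abs, abs_of_nonneg (phi_nonneg hφ _)]
      exact phi_le_one hφ _
    have h7 : 0 ≤ ∏ k ∈ Finset.univ.filter (fun k => ∀ a, i a ≠ k),
        ‖φ (‖((s k : ℝ) : ℂ) * lf (l k) z‖ ^ 2)‖ := Finset.prod_nonneg fun c _ => norm_nonneg _
    have h8 : 0 ≤ θ ^ 2 * M ^ n := by positivity
    calc _ ≤ (θ ^ 2 * M ^ n) * 1 := mul_le_mul (h2.trans h3) h6 h7 h8
      _ = _ := mul_one _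
  · intro z hz
    have hz' : ¬ ‖z‖ ≤ C := by
      intro h
      exact hz (by rw [mem_closedBall_zero_iff]; exact h)
    have hex : ∃ c, Real.sqrt b < ‖lf (l (i0 c)) z‖ := by
      by_contra hne
      push Not at hne
      exact hz' (hC z hne)
    obtain ⟨c, hc⟩ := hex
    have hcb : b < ‖lf (l (i0 c)) z‖ ^ 2 :=
      (Real.sqrt_lt' (lt_of_le_of_lt (Real.sqrt_nonneg b) hc)).1 hc
    have hs2 : s (i0 c) = 1 := by simp [hs, hi0 c]
    by_cases hr : ∃ c', i c' = i0 c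
    · obtain ⟨c', hc'⟩ := hr
      have : ∏ c, (s (i c)) ^ 2 * dF φ (‖((s (i c) : ℝ) : ℂ) * lf (l (i c)) z‖ ^ 2) = 0 := by
        refine Finset.prod_eq_zero (Finset.mem_univ c') ?_
        rw [hc', hs2, Complex.ofReal_one, one_mul, dF_zero hφ hcb, mul_zero]
      rw [this, zero_mul]
    · push Not at hr
      have : ∏ k ∈ Finset.univ.filter (fun k => ∀ a, i a ≠ k),
          φ (‖((s k : ℝ) : ℂ) * lf (l k) z‖ ^ 2) = 0 := by
        refine Finset.prod_eq_zero (i := i0 c)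
          (Finset.mem_filter.2 ⟨Finset.mem_univ _, hr⟩) ?_
        rw [hs2, Complex.ofReal_one, one_mul, hφ.zero _ hcb.le]
      rw [this, mul_zero]

end PA2

variable {n N : ℕ}

open Classical in
/-- Phase A: the disc functional is `n! (2π)ⁿ` -/
theorem circle (φ : ℝ → ℝ) (a b : ℝ) (hφ : Prof φ a b) (l : Fin N → Fin n → ℝ)
    (i0 : Fin n → Fin N) (h : dt l i0 ≠ 0) :
    F0 l (fun _ w => φ (‖w‖ ^ 2)) (fun _ w => dF φ (‖w‖ ^ 2)) =
      n.factorial * (2 * Real.pi) ^ n := by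
  set S : Set (Fin N) := Set.range i0 with hS
  have hi0 : ∀ c, i0 c ∈ S := fun c => ⟨c, rfl⟩
  have h1 : ∀ᶠ θ : ℝ in 𝓝[>] 0, θ ≤ 1 := by
    have := (gt_mem_nhds (zero_lt_one (α := ℝ)))
    filter_upwards [nhdsWithin_le_nhds this] with θ hθ using le_of_lt hθ
  have hconst : Tendsto (fun θ : ℝ => ∑ i : Fin n → Fin N,
      PA2.term φ l (fun k => if k ∈ S then 1 else θ) i) (𝓝[>] 0)
      (𝓝 (F0 l (fun _ w => φ (‖w‖ ^ 2)) (fun _ w => dF φ (‖w‖ ^ 2)))) := by
    refine tendsto_const_nhds.congr' ?_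
    filter_upwards [h1, self_mem_nhdsWithin] with θ hθ1 hθ0
    have := phaseA_const φ a b hφ l S θ hθ0 hθ1
    rw [← this]
    rfl
  have hlim : Tendsto (fun θ : ℝ => ∑ i : Fin n → Fin N,
      PA2.term φ l (fun k => if k ∈ S then 1 else θ) i) (𝓝[>] 0)
      (𝓝 (∑ i : Fin n → Fin N, if (dt l i ≠ 0 ∧ ∀ c, ∃ c', i0 c' = i c) then
        (2 * Real.pi) ^ n else 0)) := by
    refine tendsto_finsetSum _ fun i _ => ?_
    by_cases hd : dt l i = 0
    · rw [if_neg (by simp [hd])]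
      have : (fun θ : ℝ => PA2.term φ l (fun k => if k ∈ S then 1 else θ) i) = fun _ => 0 := by
        funext θ
        rw [PA2.term, hd]
        ring
      rw [this]
      exact tendsto_const_nhds
    · by_cases hr : ∀ c, ∃ c', i0 c' = i c
      · rw [if_pos ⟨hd, hr⟩]
        refine tendsto_const_nhds.congr' ?_
        have hSi : ∀ k ∈ S, ∃ c, i c = k := by
          choose τ hτ using hr
          have hinj : Function.Injective τ := by
            intro c c' e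
            apply PA2.dt_inj hd
            rw [← hτ c, ← hτ c', e]
          have hsurj := Finite.injective_iff_surjective.1 hinj
          rintro k ⟨c, rfl⟩
          obtain ⟨c', hc'⟩ := hsurj c
          exact ⟨c', by rw [← hτ c', hc']⟩
        filter_upwards [PA2.term_in φ a b hφ l S i hd (fun c => hr c) hSi] with θ hθ
        rw [hθ]
      · rw [if_neg (by tauto)]
        push Not at hr
        obtain ⟨c, hc⟩ := hr
        exact PA2.term_out φ a b hφ l S i0 h hi0 i ⟨c, fun ⟨c', hc'⟩ => hc c' hc'⟩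
  rw [tendsto_nhds_unique hconst hlim, ← Finset.sum_filter, Finset.sum_const, nsmul_eq_mul]
  congr 2
  rw [← PA2.card_tuples l i0 h]

end H3M
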