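import Pool.Agent.H3M.QF
set_option autoImplicit false
noncomputable section
namespace H3M

open Metric Set

private def qD : Set ℂ := Metric.ball (0 : ℂ) 1

private theorem qr_mem {x : ℂ} (hx : x ∈ qD) : ‖x‖ < 1 := by
  simpa [qD] using hx

/-- `Q` has a strict derivative on the disc -/
private theorem qr_an : AnalyticOnNhd ℂ Q qD := by
  refine DifferentiableOn.analyticOnNhd ?_ Metric.isOpen_ball
  intro x hx
  obtain ⟨g, hg, _⟩ := Q_deriv x (qr_mem hx)
  exact hg.differentiableAt.differentiableWithinAt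

private theorem qr_strict (x g : ℂ) (hx : x ∈ qD) (hg : HasDerivAt Q g x) :
    HasStrictDerivAt Q g x := by
  have h := (qr_an x hx).hasStrictDerivAt
  rwa [hg.deriv] at h

private theorem qr_ne (g : ℂ) (hre : 0 < g.re) : g ≠ 0 := by
  rintro rfl
  simp at hre

/-- the image of the disc is open, and `Q` is an open map on it -/
private theorem qr_map (x : ℂ) (hx : x ∈ qD) : Filter.map Q (nhds x) = nhds (Q x) := by
  obtain ⟨g, hg, _, hre, _⟩ := Q_deriv x (qr_mem hx)
  exact (qr_strict x g hx hg).map_nhds_eq (qr_ne g hre)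

private theorem qr_open_image (U : Set ℂ) (hU : IsOpen U) (hUD : U ⊆ qD) : IsOpen (Q '' U) := by
  rw [isOpen_iff_mem_nhds]
  rintro _ ⟨x, hx, rfl⟩
  rw [← qr_map x (hUD hx)]
  exact Filter.image_mem_map (hU.mem_nhds hx)

private def qW : Set ℂ := Q '' qD

private def qR : ℂ → ℂ := Function.invFunOn Q qD

private theorem qr_R_mem {w : ℂ} (hw : w ∈ qW) : qR w ∈ qD :=
  Function.invFunOn_mem hw

private theorem qr_QR {w : ℂ} (hw : w ∈ qW) : Q (qR w) = w :=
  Function.invFunOn_eq hw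

private theorem qr_RQ {x : ℂ} (hx : x ∈ qD) : qR (Q x) = x := by
  have h : Q x ∈ qW := ⟨x, hx, rfl⟩
  exact Q_inj (qr_R_mem h) hx (qr_QR h)

private theorem qr_cont {w : ℂ} (hw : w ∈ qW) : ContinuousAt qR w := by
  intro U hU
  have hx := qr_R_mem hw
  have hU' : U ∩ qD ∈ nhds (qR w) := Filter.inter_mem hU (Metric.isOpen_ball.mem_nhds hx)
  have h1 : Q '' (U ∩ qD) ∈ nhds w := by
    have h2 := Filter.image_mem_map (m := Q) hU'
    rw [qr_map _ hx, qr_QR hw] at h2
    exact h2
  rw [Filter.mem_map]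
  refine Filter.mem_of_superset h1 ?_
  rintro _ ⟨y, ⟨hyU, hyD⟩, rfl⟩
  simp only [Set.mem_preimage]
  rw [qr_RQ hyD]
  exact hyU

private theorem qr_isOpen : IsOpen qW := qr_open_image _ Metric.isOpen_ball (subset_refl _)

private theorem qr_deriv {w : ℂ} (hw : w ∈ qW) : ∃ g : ℂ, HasDerivAt Q g (qR w) ∧
    HasDerivAt qR g⁻¹ w ∧ qR w * g = (Complex.log (1 + qR w) - Complex.log (1 - qR w)) / 2 ∧
    0 < g.re ∧ (qR w = 0 → g = 1) := by
  obtain ⟨g, hg, h1, hre, h0⟩ := Q_deriv (qR w) (qr_mem (qr_R_mem hw))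
  refine ⟨g, hg, ?_, h1, hre, h0⟩
  refine HasDerivAt.of_local_left_inverse (qr_cont hw) hg (qr_ne g hre) ?_
  filter_upwards [qr_isOpen.mem_nhds hw] with y hy
  exact qr_QR hy

private theorem qr_conj {x : ℂ} (hx : x ∈ qD) : (starRingEnd ℂ) x ∈ qD := by
  have := qr_mem hx
  simpa [qD] using this

private theorem qr_conj_mem {w : ℂ} (hw : w ∈ qW) : (starRingEnd ℂ) w ∈ qW ∧
    qR ((starRingEnd ℂ) w) = (starRingEnd ℂ) (qR w) := by
  have hx := qr_R_mem hw
  have hc := Q_conj (qR w) (qr_mem hx)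
  rw [qr_QR hw] at hc
  refine ⟨⟨_, qr_conj hx, hc⟩, ?_⟩
  rw [← hc]
  exact qr_RQ (qr_conj hx)

private theorem qr_zero : (0 : ℂ) ∈ qD := by simp [qD]

/-- the inverse of `Q` on the unit disc is the required conformal map; `W = Q(D)` -/
theorem exists_QConf : ∃ (R : ℂ → ℂ) (W : Set ℂ), QConf R W := by
  have hR0 : qR 0 = 0 := by
    have := qr_RQ qr_zero
    rwa [Q_zero] at this
  have h0W : (0 : ℂ) ∈ qW := ⟨0, qr_zero, Q_zero⟩
  refine ⟨qR, qW, ?_⟩
  refine
    { isOpen := qr_isOpen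
      zero_mem := h0W
      diff := ?_
      R0 := hR0
      R1 := ?_
      ne := ?_
      inj := ?_
      lt := ?_
      cpt := ?_
      conj_mem := ?_
      re_le := ?_
      im_q := ?_
      im_pos := ?_ }
  · intro w hw
    obtain ⟨g, _, hg, _⟩ := qr_deriv hw
    exact hg.differentiableAt.differentiableWithinAt
  · obtain ⟨g, _, hg, _, _, h1⟩ := qr_deriv h0W
    rw [hg.deriv, h1 hR0, inv_one]
  · intro w hw
    obtain ⟨g, _, hg, _, hre, _⟩ := qr_deriv hw
    rw [hg.deriv]
    exact inv_ne_zero (qr_ne g hre)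
  · intro w hw w' hw' h
    rw [← qr_QR hw, ← qr_QR hw', h]
  · intro w hw
    exact qr_mem (qr_R_mem hw)
  · intro r hr
    have hsub : Metric.closedBall (0 : ℂ) r ⊆ qD := by
      intro x hx
      have : ‖x‖ ≤ r := by simpa using hx
      have h2 : ‖x‖ < 1 := lt_of_le_of_lt this hr
      simpa [qD] using h2
    have hc : IsCompact (Q '' Metric.closedBall (0 : ℂ) r) := by
      refine (isCompact_closedBall (0 : ℂ) r).image_of_continuousOn ?_
      exact (qr_an.continuousOn).mono hsub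
    convert hc using 1
    ext w
    constructor
    · rintro ⟨hw, hr'⟩
      exact ⟨qR w, by simpa using hr', qr_QR hw⟩
    · rintro ⟨x, hx, rfl⟩
      have hxD := hsub hx
      refine ⟨⟨x, hxD, rfl⟩, ?_⟩
      rw [qr_RQ hxD]
      simpa using hx
  · intro w hw
    exact qr_conj_mem hw
  · intro w hw
    have := Q_re_le (qR w) (qr_mem (qr_R_mem hw))
    rwa [qr_QR hw] at this
  · intro w hw
    obtain ⟨g, _, hg, h1, hre, _⟩ := qr_deriv hw
    rw [hg.deriv, div_inv_eq_mul, h1]
    exact artanh_im (qR w) (qr_mem (qr_R_mem hw))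
  · intro w hw him
    have hx := qr_R_mem hw
    rcases lt_trichotomy (qR w).im 0 with h | h | h
    · exfalso
      have h1 : 0 < ((starRingEnd ℂ) (qR w)).im := by
        rw [Complex.conj_im]; linarith
      have h2 := Q_im_pos _ (qr_mem (qr_conj hx)) h1
      rw [Q_conj (qR w) (qr_mem hx), qr_QR hw, Complex.conj_im] at h2
      linarith
    · exfalso
      have h1 : (starRingEnd ℂ) (qR w) = qR w := Complex.conj_eq_iff_im.2 h
      have h2 := Q_conj (qR w) (qr_mem hx)
      rw [h1, qr_QR hw] at h2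
      have h3 := Complex.conj_eq_iff_im.1 h2.symm
      linarith
    · exact h

end H3M
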