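import Pool.Agent.H3M.LA
set_option autoImplicit false
noncomputable section
open MeasureTheory
namespace H3M
variable {n N : ℕ}

/-- profile functions on the line -/
structure LP (P : ℝ → ℝ) : Prop where
  c1 : ContDiff ℝ 1 P
  even : ∀ x, P (-x) = P x
  anti : AntitoneOn P (Set.Ici 0)
  cs : ∃ R, ∀ x, R < |x| → P x = 0

open Classical in
/-- layer-cake formula for one tuple -/
theorem layer (l : Fin N → Fin n → ℝ) (P : Fin N → ℝ → ℝ) (hP : ∀ k, LP (P k))
    (i : Fin n → Fin N) (h : dt l i ≠ 0) :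
    ENNReal.ofReal ((dt l i) ^ 2) * ∫⁻ y : Fin n → ℝ,
      ENNReal.ofReal ((∏ a, |deriv (P (i a)) (∑ c, l (i a) c * y c)|) *
        ∏ k ∈ Finset.univ.filter (fun k => ∀ a, i a ≠ k), P k (∑ c, l k c * y c)) =
    ∑ s : Fin n → Bool, ∫⁻ b : Fin N → ℝ, (if (∀ k, 0 < b k) ∧ feas l b i s then
      ENNReal.ofReal (|dt l i| * ∏ k, (-(deriv (P k) (b k)))) else 0) := by
  sorry

/-- total mass of the offsets -/
theorem layer_mass (P : Fin N → ℝ → ℝ) (hP : ∀ k, LP (P k)) :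
    ∫⁻ b : Fin N → ℝ, (if (∀ k, 0 < b k) then
      ENNReal.ofReal (∏ k, (-(deriv (P k) (b k)))) else 0) = ENNReal.ofReal (∏ k, P k 0) := by
  sorry

end H3M
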