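import Pool.Agent.H3M.V1
import Pool.Agent.H3M.V3
set_option autoImplicit false
noncomputable section
open MeasureTheory
namespace H3M
variable {n N : ℕ}

theorem V_sum_lintegral_le {α ι : Type*} [MeasurableSpace α] (μ : Measure α) (s : Finset ι)
    (f : ι → α → ENNReal) : ∑ i ∈ s, ∫⁻ x, f i x ∂μ ≤ ∫⁻ x, ∑ i ∈ s, f i x ∂μ := by
  classical
  induction s using Finset.induction_on with
  | empty => simp
  | insert a s ha ih =>
    rw [Finset.sum_insert ha]
    simp_rw [Finset.sum_insert ha]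
    exact (add_le_add le_rfl ih).trans (le_lintegral_add _ _)

/-- **Vertex lemma** -/
theorem vertex (l : Fin N → Fin n → ℝ) (P : Fin N → ℝ → ℝ) (hP : ∀ k, LP (P k))
    (G : (Fin n → ℝ) → ℝ) (hGm : Measurable G)
    (hG : ∀ (i : Fin n → Fin N) (s : Fin n → Bool) (c : Fin n → ℝ), (∀ a, 0 < c a) →
      G (∑ a, (c a * sg (s a)) • l (i a)) ≤ ∑ a, c a) :
    ∑ i : Fin n → Fin N, ENNReal.ofReal ((dt l i) ^ 2) * ∫⁻ y : Fin n → ℝ,
      ENNReal.ofReal ((∏ a, |deriv (P (i a)) (∑ c, l (i a) c * y c)|) *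
        ∏ k ∈ Finset.univ.filter (fun k => ∀ a, i a ≠ k), P k (∑ c, l k c * y c)) ≤
    n.factorial * ENNReal.ofReal (∏ k, P k 0) *
      ∫⁻ η : Fin n → ℝ, ENNReal.ofReal (Real.exp (-(G η))) := by
  classical
  have hterm : ∀ i : Fin n → Fin N, ENNReal.ofReal ((dt l i) ^ 2) * ∫⁻ y : Fin n → ℝ,
      ENNReal.ofReal ((∏ a, |deriv (P (i a)) (∑ c, l (i a) c * y c)|) *
        ∏ k ∈ Finset.univ.filter (fun k => ∀ a, i a ≠ k), P k (∑ c, l k c * y c)) =
      ∑ s : Fin n → Bool, ∫⁻ b : Fin N → ℝ, (if (∀ k, 0 < b k) ∧ feas l b i s then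
        ENNReal.ofReal (|dt l i| * ∏ k, (-(deriv (P k) (b k)))) else 0) := by
    intro i
    by_cases h : dt l i = 0
    · rw [h]
      have h2 : ∀ (s : Fin n → Bool) (b : Fin N → ℝ), ¬ ((∀ k, 0 < b k) ∧ feas l b i s) :=
        fun s b hb => hb.2.1 h
      simp [h2]
    · rw [layer l P hP i h]
  have hmeas : Measurable (fun b : Fin N → ℝ => if (∀ k, 0 < b k) then
      ENNReal.ofReal (∏ k, (-(deriv (P k) (b k)))) else 0) := by
    refine Measurable.ite ?_ ?_ measurable_const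
    · have : {b : Fin N → ℝ | ∀ k, 0 < b k} = ⋂ k, {b : Fin N → ℝ | 0 < b k} := by
        ext b
        simp
      rw [this]
      exact MeasurableSet.iInter fun k => measurableSet_lt measurable_const (measurable_pi_apply k)
    · refine ENNReal.measurable_ofReal.comp (Finset.measurable_prod _ fun k _ => ?_)
      exact ((((hP k).c1.continuous_deriv le_rfl).measurable).comp (measurable_pi_apply k)).neg
  have hpt : ∀ b : Fin N → ℝ, ∑ i : Fin n → Fin N, ∑ s : Fin n → Bool,
      (if (∀ k, 0 < b k) ∧ feas l b i s then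
        ENNReal.ofReal (|dt l i| * ∏ k, (-(deriv (P k) (b k)))) else 0) ≤
      (if (∀ k, 0 < b k) then ENNReal.ofReal (∏ k, (-(deriv (P k) (b k)))) else 0) *
        (n.factorial * ∫⁻ η : Fin n → ℝ, ENNReal.ofReal (Real.exp (-(G η)))) := by
    intro b
    by_cases hb : ∀ k, 0 < b k
    · rw [if_pos hb]
      have h1 := vertex_sum l b hb G hGm hG
      have h2 : ∑ i : Fin n → Fin N, ∑ s : Fin n → Bool,
          (if (∀ k, 0 < b k) ∧ feas l b i s then
            ENNReal.ofReal (|dt l i| * ∏ k, (-(deriv (P k) (b k)))) else 0) =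
          ENNReal.ofReal (∏ k, (-(deriv (P k) (b k)))) *
            ∑ i : Fin n → Fin N, ∑ s : Fin n → Bool,
              (if feas l b i s then ENNReal.ofReal |dt l i| else 0) := by
        rw [Finset.mul_sum]
        refine Finset.sum_congr rfl fun i _ => ?_
        rw [Finset.mul_sum]
        refine Finset.sum_congr rfl fun s _ => ?_
        by_cases hf : feas l b i s
        · rw [if_pos ⟨hb, hf⟩, if_pos hf, ENNReal.ofReal_mul (abs_nonneg _), mul_comm]
        · rw [if_neg (fun h => hf h.2), if_neg hf, mul_zero]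
      rw [h2]
      gcongr
    · rw [if_neg hb, zero_mul]
      refine le_of_eq (Finset.sum_eq_zero fun i _ => Finset.sum_eq_zero fun s _ => ?_)
      rw [if_neg (fun h => hb h.1)]
  have hmass : ∫⁻ b : Fin N → ℝ, (if (∀ k, 0 < b k) then
      ENNReal.ofReal (∏ k, (-(deriv (P k) (b k)))) else 0) = ENNReal.ofReal (∏ k, P k 0) := by
    rw [← layer_mass P hP]
  calc _ = ∑ i : Fin n → Fin N, ∑ s : Fin n → Bool, ∫⁻ b : Fin N → ℝ,
        (if (∀ k, 0 < b k) ∧ feas l b i s then
          ENNReal.ofReal (|dt l i| * ∏ k, (-(deriv (P k) (b k)))) else 0) :=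
        Finset.sum_congr rfl fun i _ => hterm i
    _ ≤ ∑ i : Fin n → Fin N, ∫⁻ b : Fin N → ℝ, ∑ s : Fin n → Bool,
        (if (∀ k, 0 < b k) ∧ feas l b i s then
          ENNReal.ofReal (|dt l i| * ∏ k, (-(deriv (P k) (b k)))) else 0) :=
        Finset.sum_le_sum fun i _ => V_sum_lintegral_le _ _ _
    _ ≤ ∫⁻ b : Fin N → ℝ, ∑ i : Fin n → Fin N, ∑ s : Fin n → Bool,
        (if (∀ k, 0 < b k) ∧ feas l b i s then
          ENNReal.ofReal (|dt l i| * ∏ k, (-(deriv (P k) (b k)))) else 0) :=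
        V_sum_lintegral_le _ _ _
    _ ≤ ∫⁻ b : Fin N → ℝ, (if (∀ k, 0 < b k) then
          ENNReal.ofReal (∏ k, (-(deriv (P k) (b k)))) else 0) *
        (n.factorial * ∫⁻ η : Fin n → ℝ, ENNReal.ofReal (Real.exp (-(G η)))) :=
        lintegral_mono hpt
    _ = ENNReal.ofReal (∏ k, P k 0) *
        (n.factorial * ∫⁻ η : Fin n → ℝ, ENNReal.ofReal (Real.exp (-(G η)))) := by
        rw [lintegral_mul_const _ hmeas, hmass]
    _ = _ := by ring

end H3M
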