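import Pool.Agent.H3M.PB
import Pool.Agent.H3M.PA2
import Pool.Agent.H3M.QR
import Pool.Agent.H3M.V
import Pool.Agent.H3M.BM
set_option autoImplicit false
noncomputable section
open MeasureTheory
namespace H3M
variable {n N : ℕ}

/-- existence of profiles -/
theorem exists_prof (a b : ℝ) (ha : 0 < a) (hab : a < b) : ∃ φ, Prof φ a b := by
  sorry

/-- the main inequality with error term -/
theorem main_err (l : Fin N → Fin n → ℝ) (i0 : Fin n → Fin N) (h0 : dt l i0 ≠ 0)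
    (G : (Fin n → ℝ) → ℝ) (hGm : Measurable G)
    (hG : ∀ (i : Fin n → Fin N) (s : Fin n → Bool) (c : Fin n → ℝ), (∀ a, 0 < c a) →
      G (∑ a, (c a * sg (s a)) • l (i a)) ≤ ∑ a, c a) (a δ : ℝ) (ha : 1 / 4 ≤ a) (ha1 : a < 1)
    (hδ : 0 < δ) :
    ENNReal.ofReal (n.factorial * (2 * Real.pi) ^ n) ≤
      ENNReal.ofReal ((2 / Real.arctan (2 * δ / (1 - a))) ^ n * (Real.pi ^ 2 / 8) ^ n) *
        (n.factorial * (∫⁻ η : Fin n → ℝ, ENNReal.ofReal (Real.exp (-(G η)))) *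
          volume {x : Fin n → ℝ | ∀ k, |∑ c, l k c * x c| ≤ 1}) +
      ENNReal.ofReal ((N : ℝ) ^ n * n * (2 * Real.pi) ^ n * (2 * δ)) := by
  sorry

/-- **Mahler's inequality for finitely many forms** -/
theorem mahler_fin (l : Fin N → Fin n → ℝ) (i0 : Fin n → Fin N) (h0 : dt l i0 ≠ 0)
    (G : (Fin n → ℝ) → ℝ) (hGm : Measurable G)
    (hG : ∀ (i : Fin n → Fin N) (s : Fin n → Bool) (c : Fin n → ℝ), (∀ a, 0 < c a) →
      G (∑ a, (c a * sg (s a)) • l (i a)) ≤ ∑ a, c a) :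
    ENNReal.ofReal (4 ^ n) ≤ (∫⁻ η : Fin n → ℝ, ENNReal.ofReal (Real.exp (-(G η)))) *
      volume {x : Fin n → ℝ | ∀ k, |∑ c, l k c * x c| ≤ 1} := by
  sorry

end H3M
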