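import Pool.Agent.H3M.PB
import Pool.Agent.H3M.PA2
import Pool.Agent.H3M.QR
import Pool.Agent.H3M.V
import Pool.Agent.H3M.BM
set_option autoImplicit false
noncomputable section
open MeasureTheory
open scoped Pointwise
namespace H3M
namespace FS1
variable {n N : ℕ}

/-- existence of profiles -/
theorem exists_prof' (a b : ℝ) (ha : 0 < a) (hab : a < b) : ∃ φ, Prof φ a b := by
  have hba : 0 < b - a := sub_pos.2 hab
  refine ⟨fun x => Real.smoothTransition ((b - x) / (b - a)), ?_, ?_, ?_, ?_, ha, hab⟩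
  · refine Real.smoothTransition.contDiff.comp ?_
    exact (contDiff_const.sub contDiff_id).div_const _
  · intro x hx
    refine Real.smoothTransition.one_of_one_le ?_
    rw [le_div_iff₀ hba]
    linarith
  · intro x hx
    refine Real.smoothTransition.zero_of_nonpos ?_
    exact div_nonpos_of_nonpos_of_nonneg (by linarith) hba.le
  · intro x y hxy
    refine Real.smoothTransition.monotone ?_
    gcongr

/-- the elementary facts on profiles -/
theorem prof_nonneg {φ : ℝ → ℝ} {a b : ℝ} (h : Prof φ a b) (x : ℝ) : 0 ≤ φ x := by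
  have h1 := h.anti (le_max_left x b)
  rw [h.zero _ (le_max_right x b)] at h1
  exact h1

theorem prof_le_one {φ : ℝ → ℝ} {a b : ℝ} (h : Prof φ a b) (x : ℝ) : φ x ≤ 1 := by
  have h1 := h.anti (min_le_left x a)
  rw [h.one _ (min_le_right x a)] at h1
  exact h1

theorem dF_nonneg {φ : ℝ → ℝ} {a b : ℝ} (h : Prof φ a b) (x : ℝ) : 0 ≤ dF φ x := by
  unfold dF
  have := h.anti.deriv_nonpos (x := x)
  linarith

theorem pW_nonneg {φ : ℝ → ℝ} {a b : ℝ} (h : Prof φ a b) (R : ℂ → ℂ) (W : Set ℂ) (w : ℂ) :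
    0 ≤ pW φ R W w := by
  unfold pW
  split_ifs
  · exact prof_nonneg h _
  · exact le_rfl

theorem pW_le_one {φ : ℝ → ℝ} {a b : ℝ} (h : Prof φ a b) (R : ℂ → ℂ) (W : Set ℂ) (w : ℂ) :
    pW φ R W w ≤ 1 := by
  unfold pW
  split_ifs
  · exact prof_le_one h _
  · exact zero_le_one

theorem rW_nonneg {φ : ℝ → ℝ} {a b : ℝ} (h : Prof φ a b) (R : ℂ → ℂ) (W : Set ℂ) (w : ℂ) :
    0 ≤ rW φ R W w := by
  unfold rW
  split_ifs
  · exact mul_nonneg (dF_nonneg h _) (by positivity)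
  · exact le_rfl

theorem rW_meas {φ : ℝ → ℝ} {a b : ℝ} (h : Prof φ a b) (R : ℂ → ℂ) (W : Set ℂ) (hR : Conf R W) :
    Measurable (rW φ R W) := by
  classical
  have h1 : ContinuousOn (fun w => dF φ (‖R w‖ ^ 2) * ‖deriv R w‖ ^ 2) W := by
    have hc : ContinuousOn R W := hR.diff.continuousOn
    have hd : ContinuousOn (deriv R) W := (hR.diff.deriv hR.isOpen).continuousOn
    have hφ : Continuous (dF φ) := by
      unfold dF
      exact continuous_const.mul (h.smooth.continuous_deriv (by norm_num))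
    exact (hφ.comp_continuousOn (hc.norm.pow 2)).mul (hd.norm.pow 2)
  have h2 := h1.measurable_piecewise (g := fun _ => (0 : ℝ)) continuousOn_const
    hR.isOpen.measurableSet
  have h3 : rW φ R W =
      W.piecewise (fun w => dF φ (‖R w‖ ^ 2) * ‖deriv R w‖ ^ 2) (fun _ => (0 : ℝ)) := by
    funext w
    unfold rW Set.piecewise
    split_ifs <;> rfl
  rw [h3]
  exact h2

theorem ind_meas {φ : ℝ → ℝ} {a b : ℝ} (h : Prof φ a b) (R : ℂ → ℂ) (W : Set ℂ) (hR : Conf R W)
    (δ : ℝ) :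
    Measurable (fun w : ℂ => if |(R w).im| < δ then ENNReal.ofReal (rW φ R W w) else 0) := by
  classical
  have h1 : Measurable (W.piecewise R (fun _ => (0 : ℂ))) :=
    hR.diff.continuousOn.measurable_piecewise continuousOn_const hR.isOpen.measurableSet
  have h2 : MeasurableSet {w : ℂ | |(W.piecewise R (fun _ => (0 : ℂ)) w).im| < δ} := by
    refine measurableSet_lt ?_ measurable_const
    exact (Complex.measurable_im.comp h1).abs
  have h3 : Measurable (fun w : ℂ => if |(W.piecewise R (fun _ => (0 : ℂ)) w).im| < δ then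
      ENNReal.ofReal (rW φ R W w) else 0) :=
    Measurable.ite h2 (rW_meas h R W hR).ennreal_ofReal measurable_const
  have h4 : (fun w : ℂ => if |(R w).im| < δ then ENNReal.ofReal (rW φ R W w) else 0) =
      (fun w : ℂ => if |(W.piecewise R (fun _ => (0 : ℂ)) w).im| < δ then
        ENNReal.ofReal (rW φ R W w) else 0) := ?_
  · rw [h4]
    exact h3
  funext w
  by_cases hw : w ∈ W
  · simp only [Set.piecewise, hw, if_true]
  · have h0 : rW φ R W w = 0 := by
      unfold rW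
      rw [if_neg hw]
    simp only [h0, ENNReal.ofReal_zero, ite_self]

/-- the density near the real axis -/
def gb (φ : ℝ → ℝ) (R : ℂ → ℂ) (W : Set ℂ) (δ : ℝ) (w : ℂ) : ENNReal :=
  if |(R w).im| < δ then ENNReal.ofReal (rW φ R W w) else 0

/-- the densities of a bad term -/
def gt (φ : ℝ → ℝ) (R : ℂ → ℂ) (W : Set ℂ) (δ : ℝ) (a0 a : Fin n) (w : ℂ) : ENNReal :=
  if a = a0 then gb φ R W δ w else ENNReal.ofReal (rW φ R W w)

theorem gt_meas {φ : ℝ → ℝ} {a b : ℝ} (h : Prof φ a b) (R : ℂ → ℂ) (W : Set ℂ) (hR : Conf R W)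
    (δ : ℝ) (a0 a' : Fin n) : Measurable (gt φ R W δ a0 a') := by
  unfold gt
  by_cases h1 : a' = a0
  · simp only [h1, if_true]
    exact ind_meas h R W hR δ
  · simp only [h1, if_false]
    exact (rW_meas h R W hR).ennreal_ofReal

theorem bad_term {φ : ℝ → ℝ} {a b : ℝ} (h : Prof φ a b) (ha : 1 / 4 ≤ a) (R : ℂ → ℂ) (W : Set ℂ)
    (hR : Conf R W) (δ : ℝ) (hδ : 0 < δ) (l : Fin N → Fin n → ℝ) (i : Fin n → Fin N)
    (a0 : Fin n) :
    ENNReal.ofReal ((dt l i) ^ 2) * ∫⁻ z : Ph n, ∏ a', gt φ R W δ a0 a' (lf (l (i a')) z) ≤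
      ENNReal.ofReal ((2 * Real.pi) ^ n * (2 * δ)) := by
  by_cases hdt : dt l i = 0
  · rw [hdt]
    simp
  rw [lin_change l i hdt (gt φ R W δ a0) (fun a' => gt_meas h R W hR δ a0 a')]
  have h1 : ∀ a' : Fin n, ∫⁻ w : ℂ, gt φ R W δ a0 a' w ≤
      ENNReal.ofReal (2 * Real.pi) * (if a' = a0 then ENNReal.ofReal (2 * δ) else 1) := by
    intro a'
    unfold gt
    by_cases h2 : a' = a0
    · simp only [h2, if_true]
      unfold gb
      refine (bad_W φ a b h R W hR δ hδ).trans ?_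
      rw [← ENNReal.ofReal_mul (by positivity)]
      refine ENNReal.ofReal_le_ofReal ?_
      have h3 : (1 : ℝ) / 2 ≤ Real.sqrt a := by
        rw [Real.le_sqrt (by norm_num) (by linarith)]
        linarith
      rw [div_le_iff₀ (by linarith)]
      have h4 : 0 < Real.pi * δ := mul_pos Real.pi_pos hδ
      nlinarith
    · simp only [h2, if_false, mul_one]
      exact mass_W φ a b h R W hR
  refine (Finset.prod_le_prod' (fun a' _ => h1 a')).trans ?_
  rw [Finset.prod_mul_distrib, Finset.prod_const, Finset.prod_ite_eq' Finset.univ a0]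
  simp only [Finset.mem_univ, if_true, Finset.card_univ, Fintype.card_fin]
  rw [← ENNReal.ofReal_pow (by positivity), ← ENNReal.ofReal_mul (by positivity)]

/-- the vertical profile of the form `k` at the real part `x` -/
def Pv (φ : ℝ → ℝ) (R : ℂ → ℂ) (W : Set ℂ) (l : Fin N → Fin n → ℝ) (x : Fin n → ℝ) (k : Fin N)
    (t : ℝ) : ℝ := pW φ R W ⟨∑ c, l k c * x c, t⟩

/-- the integrand of a tuple in the vertex lemma -/
def Hv (φ : ℝ → ℝ) (R : ℂ → ℂ) (W : Set ℂ) (l : Fin N → Fin n → ℝ) (i : Fin n → Fin N)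
    (x y : Fin n → ℝ) : ENNReal :=
  ENNReal.ofReal ((∏ a, |deriv (Pv φ R W l x (i a)) (∑ c, l (i a) c * y c)|) *
    ∏ k ∈ Finset.univ.filter (fun k => ∀ a, i a ≠ k), Pv φ R W l x k (∑ c, l k c * y c))

theorem pointwise {φ : ℝ → ℝ} {a b : ℝ} (h : Prof φ a b) (hb : b < 1) (ha1 : a < 1) (R : ℂ → ℂ)
    (W : Set ℂ) (hR : QConf R W) (δ : ℝ) (hδ : 0 < δ) (l : Fin N → Fin n → ℝ)
    (i : Fin n → Fin N) (z : Ph n) :
    ENNReal.ofReal ((∏ a, rW φ R W (lf (l (i a)) z)) *
      ∏ k ∈ Finset.univ.filter (fun k => ∀ a, i a ≠ k), pW φ R W (lf (l k) z)) ≤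
    ENNReal.ofReal ((2 / Real.arctan (2 * δ / (1 - a))) ^ n) * Hv φ R W l i z.1 z.2 +
      ∑ a0 : Fin n, ∏ a', gt φ R W δ a0 a' (lf (l (i a')) z) := by
  have hp0 : 0 ≤ ∏ k ∈ Finset.univ.filter (fun k => ∀ a, i a ≠ k), pW φ R W (lf (l k) z) :=
    Finset.prod_nonneg fun k _ => pW_nonneg h R W _
  by_cases hg : ∀ a', δ ≤ |(R (lf (l (i a')) z)).im|
  · refine le_trans ?_ (le_add_right le_rfl)
    have hθ : 0 < Real.arctan (2 * δ / (1 - a)) := by
      rw [Real.arctan_pos]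
      have : 0 < 1 - a := by linarith
      positivity
    unfold Hv
    rw [← ENNReal.ofReal_mul (by positivity)]
    refine ENNReal.ofReal_le_ofReal ?_
    rw [← mul_assoc]
    refine mul_le_mul_of_nonneg_right ?_ hp0
    have hc : (2 / Real.arctan (2 * δ / (1 - a))) ^ n =
        ∏ _a : Fin n, (2 / Real.arctan (2 * δ / (1 - a))) := by
      rw [Finset.prod_const, Finset.card_univ, Fintype.card_fin]
    rw [hc, ← Finset.prod_mul_distrib]
    refine Finset.prod_le_prod (fun a' _ => rW_nonneg h R W _) fun a' _ => ?_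
    have h1 := rW_le φ a b h hb R W hR δ hδ (∑ c, l (i a') c * z.1 c) (∑ c, l (i a') c * z.2 c)
      (hg a')
    unfold Pv
    rw [div_mul_eq_mul_div, le_div_iff₀ hθ]
    have h2 : rW φ R W (lf (l (i a')) z) * (Real.arctan (2 * δ / (1 - a)) / 2) ≤
      |deriv (fun t => pW φ R W ⟨∑ c, l (i a') c * z.1 c, t⟩) (∑ c, l (i a') c * z.2 c)| := h1
    linarith
  · push Not at hg
    obtain ⟨a0, ha0⟩ := hg
    refine le_trans ?_ (le_add_left le_rfl)
    refine le_trans ?_ (Finset.single_le_sum (fun _ _ => bot_le) (Finset.mem_univ a0))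
    have hr0 : 0 ≤ ∏ a, rW φ R W (lf (l (i a)) z) :=
      Finset.prod_nonneg fun k _ => rW_nonneg h R W _
    have hp1 : ∏ k ∈ Finset.univ.filter (fun k => ∀ a, i a ≠ k), pW φ R W (lf (l k) z) ≤ 1 :=
      Finset.prod_le_one (fun k _ => pW_nonneg h R W _) fun k _ => pW_le_one h R W _
    refine (ENNReal.ofReal_le_ofReal (mul_le_of_le_one_right hr0 hp1)).trans ?_
    rw [ENNReal.ofReal_prod_of_nonneg fun k _ => rW_nonneg h R W _]
    refine Finset.prod_le_prod' fun a' _ => ?_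
    unfold gt
    by_cases h2 : a' = a0
    · rw [if_pos h2, h2]
      unfold gb
      rw [if_pos ha0]
    · rw [if_neg h2]

theorem sum_lint_le {α ι : Type*} [MeasurableSpace α] (μ : Measure α) (s : Finset ι)
    (f : ι → α → ENNReal) : ∑ i ∈ s, ∫⁻ x, f i x ∂μ ≤ ∫⁻ x, ∑ i ∈ s, f i x ∂μ := by
  classical
  induction s using Finset.induction_on with
  | empty => simp
  | insert i s hi ih =>
    rw [Finset.sum_insert hi]
    simp only [Finset.sum_insert hi]
    exact (add_le_add le_rfl ih).trans (le_lintegral_add _ _)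

/-- the region of the real parts -/
def Sx (l : Fin N → Fin n → ℝ) (r : ℝ) : Set (Fin n → ℝ) := {x | ∀ k, |∑ c, l k c * x c| ≤ r}

theorem Sx_meas (l : Fin N → Fin n → ℝ) (r : ℝ) : MeasurableSet (Sx l r) := by
  unfold Sx
  rw [Set.ofPred_forall]
  refine MeasurableSet.iInter fun k => ?_
  refine measurableSet_le ?_ measurable_const
  fun_prop

theorem Sx_vol (l : Fin N → Fin n → ℝ) (r : ℝ) (hr : 0 < r) :
    volume (Sx l r) = ENNReal.ofReal (r ^ n) * volume (Sx l 1) := by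
  have h1 : Sx l r = r • Sx l 1 := by
    ext x
    rw [Set.mem_smul_set_iff_inv_smul_mem₀ hr.ne']
    unfold Sx
    simp only [Set.mem_ofPred_eq, Pi.smul_apply, smul_eq_mul]
    refine forall_congr' fun k => ?_
    have h2 : ∑ c, l k c * (r⁻¹ * x c) = r⁻¹ * ∑ c, l k c * x c := by
      rw [Finset.mul_sum]
      exact Finset.sum_congr rfl fun c _ => by ring
    rw [h2, abs_mul, abs_of_pos (inv_pos.2 hr), inv_mul_le_iff₀ hr, mul_one]
  rw [h1, Measure.addHaar_smul, Module.finrank_fin_fun, abs_of_pos (by positivity)]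

theorem good_x {φ : ℝ → ℝ} {a b : ℝ} (h : Prof φ a b) (hb : b < 1) (R : ℂ → ℂ)
    (W : Set ℂ) (hR : QConf R W) (l : Fin N → Fin n → ℝ)
    (G : (Fin n → ℝ) → ℝ) (hGm : Measurable G)
    (hG : ∀ (i : Fin n → Fin N) (s : Fin n → Bool) (c : Fin n → ℝ), (∀ a, 0 < c a) →
      G (∑ a, (c a * sg (s a)) • l (i a)) ≤ ∑ a, c a) (x : Fin n → ℝ) :
    ∑ i : Fin n → Fin N, ENNReal.ofReal ((dt l i) ^ 2) * ∫⁻ y : Fin n → ℝ, Hv φ R W l i x y ≤
      (Sx l (Real.pi ^ 2 / 8)).indicator (fun _ => (n.factorial : ENNReal) *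
        ∫⁻ η : Fin n → ℝ, ENNReal.ofReal (Real.exp (-(G η)))) x := by
  have hv := fun k => pW_vertical φ a b h hb R W hR (∑ c, l k c * x c)
  have hLP : ∀ k, LP (Pv φ R W l x k) := fun k =>
    ⟨(hv k).1, (hv k).2.1, (hv k).2.2.1, (hv k).2.2.2.1⟩
  refine (vertex l (Pv φ R W l x) hLP G hGm hG).trans ?_
  by_cases hx : x ∈ Sx l (Real.pi ^ 2 / 8)
  · rw [Set.indicator_of_mem hx]
    refine mul_le_mul_left ?_ _
    have h1 : ENNReal.ofReal (∏ k, Pv φ R W l x k 0) ≤ 1 := by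
      rw [ENNReal.ofReal_le_one]
      exact Finset.prod_le_one (fun k _ => pW_nonneg h R W _) fun k _ => pW_le_one h R W _
    calc (n.factorial : ENNReal) * ENNReal.ofReal (∏ k, Pv φ R W l x k 0) ≤ n.factorial * 1 :=
          by gcongr
      _ = n.factorial := mul_one _
  · rw [Set.indicator_of_notMem hx]
    unfold Sx at hx
    simp only [Set.mem_ofPred_eq, not_forall, not_le] at hx
    obtain ⟨k, hk⟩ := hx
    have h1 : ∏ k, Pv φ R W l x k 0 = 0 :=
      Finset.prod_eq_zero (Finset.mem_univ k) ((hv k).2.2.2.2 hk 0)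
    rw [h1]
    simp

theorem good_all {φ : ℝ → ℝ} {a b : ℝ} (h : Prof φ a b) (hb : b < 1) (R : ℂ → ℂ)
    (W : Set ℂ) (hR : QConf R W) (l : Fin N → Fin n → ℝ)
    (G : (Fin n → ℝ) → ℝ) (hGm : Measurable G)
    (hG : ∀ (i : Fin n → Fin N) (s : Fin n → Bool) (c : Fin n → ℝ), (∀ a, 0 < c a) →
      G (∑ a, (c a * sg (s a)) • l (i a)) ≤ ∑ a, c a) :
    ∑ i : Fin n → Fin N, ENNReal.ofReal ((dt l i) ^ 2) *
      ∫⁻ z : Ph n, Hv φ R W l i z.1 z.2 ≤
      ENNReal.ofReal ((Real.pi ^ 2 / 8) ^ n) * (n.factorial *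
        (∫⁻ η : Fin n → ℝ, ENNReal.ofReal (Real.exp (-(G η)))) * volume (Sx l 1)) := by
  calc ∑ i : Fin n → Fin N, ENNReal.ofReal ((dt l i) ^ 2) *
      ∫⁻ z : Ph n, Hv φ R W l i z.1 z.2
      ≤ ∑ i : Fin n → Fin N, ∫⁻ x : Fin n → ℝ, ENNReal.ofReal ((dt l i) ^ 2) *
          ∫⁻ y : Fin n → ℝ, Hv φ R W l i x y := by
        refine Finset.sum_le_sum fun i _ => ?_
        rw [lintegral_const_mul' _ _ ENNReal.ofReal_ne_top]
        refine mul_le_mul_right ?_ _
        exact lintegral_prod_le (fun z : Ph n => Hv φ R W l i z.1 z.2)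
    _ ≤ ∫⁻ x : Fin n → ℝ, ∑ i : Fin n → Fin N, ENNReal.ofReal ((dt l i) ^ 2) *
          ∫⁻ y : Fin n → ℝ, Hv φ R W l i x y := sum_lint_le _ _ _
    _ ≤ ∫⁻ x : Fin n → ℝ, (Sx l (Real.pi ^ 2 / 8)).indicator (fun _ => (n.factorial : ENNReal) *
        ∫⁻ η : Fin n → ℝ, ENNReal.ofReal (Real.exp (-(G η)))) x :=
        lintegral_mono fun x => good_x h hb R W hR l G hGm hG x
    _ = _ := by
        rw [lintegral_indicator_const (Sx_meas l _), Sx_vol l _ (by positivity)]
        ring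

theorem ofReal_int_le {α : Type*} [MeasurableSpace α] (μ : Measure α) (f : α → ℝ)
    (hf : ∀ x, 0 ≤ f x) : ENNReal.ofReal (∫ x, f x ∂μ) ≤ ∫⁻ x, ENNReal.ofReal (f x) ∂μ := by
  by_cases h : Integrable f μ
  · rw [ofReal_integral_eq_lintegral_ofReal h (Filter.Eventually.of_forall hf)]
  · rw [integral_undef h]
    simp

theorem F0_le {φ : ℝ → ℝ} {a b : ℝ} (h : Prof φ a b) (R : ℂ → ℂ) (W : Set ℂ)
    (l : Fin N → Fin n → ℝ) :
    ENNReal.ofReal (F0 l (fun _ => pW φ R W) (fun _ => rW φ R W)) ≤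
      ∑ i : Fin n → Fin N, ENNReal.ofReal ((dt l i) ^ 2) * ∫⁻ z : Ph n,
        ENNReal.ofReal ((∏ a, rW φ R W (lf (l (i a)) z)) *
          ∏ k ∈ Finset.univ.filter (fun k => ∀ a, i a ≠ k), pW φ R W (lf (l k) z)) := by
  have hnn : ∀ (i : Fin n → Fin N) (z : Ph n), 0 ≤ (∏ a, rW φ R W (lf (l (i a)) z)) *
      ∏ k ∈ Finset.univ.filter (fun k => ∀ a, i a ≠ k), pW φ R W (lf (l k) z) := fun i z =>
    mul_nonneg (Finset.prod_nonneg fun k _ => rW_nonneg h R W _)
      (Finset.prod_nonneg fun k _ => pW_nonneg h R W _)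
  unfold F0
  rw [ENNReal.ofReal_sum_of_nonneg fun i _ =>
    mul_nonneg (sq_nonneg _) (integral_nonneg fun z => hnn i z)]
  refine Finset.sum_le_sum fun i _ => ?_
  rw [ENNReal.ofReal_mul (sq_nonneg _)]
  refine mul_le_mul_right ?_ _
  exact ofReal_int_le _ _ fun z => hnn i z

theorem lf_cont (v : Fin n → ℝ) : Continuous (lf v) := by
  have h : lf v = fun z : Ph n => ((∑ a, v a * z.1 a : ℝ) : ℂ) +
      ((∑ a, v a * z.2 a : ℝ) : ℂ) * Complex.I := by
    funext z
    apply Complex.ext <;> simp [lf]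
  rw [h]
  fun_prop

/-- the main inequality with error term -/
theorem main_err' (l : Fin N → Fin n → ℝ) (i0 : Fin n → Fin N) (h0 : dt l i0 ≠ 0)
    (G : (Fin n → ℝ) → ℝ) (hGm : Measurable G)
    (hG : ∀ (i : Fin n → Fin N) (s : Fin n → Bool) (c : Fin n → ℝ), (∀ a, 0 < c a) →
      G (∑ a, (c a * sg (s a)) • l (i a)) ≤ ∑ a, c a) (a δ : ℝ) (ha : 1 / 4 ≤ a) (ha1 : a < 1)
    (hδ : 0 < δ) :
    ENNReal.ofReal (n.factorial * (2 * Real.pi) ^ n) ≤
      ENNReal.ofReal ((2 / Real.arctan (2 * δ / (1 - a))) ^ n * (Real.pi ^ 2 / 8) ^ n) *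
        (n.factorial * (∫⁻ η : Fin n → ℝ, ENNReal.ofReal (Real.exp (-(G η)))) *
          volume {x : Fin n → ℝ | ∀ k, |∑ c, l k c * x c| ≤ 1}) +
      ENNReal.ofReal ((N : ℝ) ^ n * n * (2 * Real.pi) ^ n * (2 * δ)) := by
  have hb : (1 + a) / 2 < 1 := by linarith
  obtain ⟨φ, hφ⟩ := exists_prof' a ((1 + a) / 2) (by linarith) (by linarith)
  obtain ⟨R, W, hR⟩ := exists_QConf
  have h1 : (n.factorial : ℝ) * (2 * Real.pi) ^ n ≤
      F0 l (fun _ => pW φ R W) (fun _ => rW φ R W) := by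
    rw [← circle φ a _ hφ l i0 h0]
    exact phaseB φ a _ hφ hb R W hR.toConf l
  have hθ : 0 < Real.arctan (2 * δ / (1 - a)) := by
    rw [Real.arctan_pos]
    have : 0 < 1 - a := by linarith
    positivity
  set C : ENNReal := ENNReal.ofReal ((2 / Real.arctan (2 * δ / (1 - a))) ^ n) with hC
  refine ((ENNReal.ofReal_le_ofReal h1).trans (F0_le hφ R W l)).trans ?_
  calc ∑ i : Fin n → Fin N, ENNReal.ofReal ((dt l i) ^ 2) * ∫⁻ z : Ph n,
        ENNReal.ofReal ((∏ a, rW φ R W (lf (l (i a)) z)) *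
          ∏ k ∈ Finset.univ.filter (fun k => ∀ a, i a ≠ k), pW φ R W (lf (l k) z))
      ≤ ∑ i : Fin n → Fin N, ENNReal.ofReal ((dt l i) ^ 2) * ∫⁻ z : Ph n,
          (C * Hv φ R W l i z.1 z.2 +
            ∑ a0 : Fin n, ∏ a', gt φ R W δ a0 a' (lf (l (i a')) z)) := by
        refine Finset.sum_le_sum fun i _ => mul_le_mul_right (lintegral_mono fun z => ?_) _
        exact pointwise hφ hb ha1 R W hR δ hδ l i z
    _ = ∑ i : Fin n → Fin N, (C * (ENNReal.ofReal ((dt l i) ^ 2) *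
          ∫⁻ z : Ph n, Hv φ R W l i z.1 z.2) +
            ∑ a0 : Fin n, ENNReal.ofReal ((dt l i) ^ 2) *
              ∫⁻ z : Ph n, ∏ a', gt φ R W δ a0 a' (lf (l (i a')) z)) := by
        refine Finset.sum_congr rfl fun i _ => ?_
        have hm : ∀ a0 : Fin n, Measurable (fun z : Ph n =>
            ∏ a', gt φ R W δ a0 a' (lf (l (i a')) z)) := by
          intro a0
          refine Finset.measurable_prod _ fun a' _ => ?_
          refine (gt_meas hφ R W hR.toConf δ a0 a').comp ?_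
          exact (lf_cont (l (i a'))).measurable
        rw [lintegral_add_right _ (Finset.measurable_sum _ fun a0 _ => hm a0),
          lintegral_const_mul' _ _ ENNReal.ofReal_ne_top,
          lintegral_finsetSum _ fun a0 _ => hm a0, mul_add, Finset.mul_sum]
        congr 1
        ring
    _ = C * (∑ i : Fin n → Fin N, ENNReal.ofReal ((dt l i) ^ 2) *
          ∫⁻ z : Ph n, Hv φ R W l i z.1 z.2) +
            ∑ i : Fin n → Fin N, ∑ a0 : Fin n, ENNReal.ofReal ((dt l i) ^ 2) *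
              ∫⁻ z : Ph n, ∏ a', gt φ R W δ a0 a' (lf (l (i a')) z) := by
        rw [Finset.sum_add_distrib, Finset.mul_sum]
    _ ≤ C * (ENNReal.ofReal ((Real.pi ^ 2 / 8) ^ n) * (n.factorial *
        (∫⁻ η : Fin n → ℝ, ENNReal.ofReal (Real.exp (-(G η)))) * volume (Sx l 1))) +
          ∑ i : Fin n → Fin N, ∑ a0 : Fin n, ENNReal.ofReal ((2 * Real.pi) ^ n * (2 * δ)) := by
        refine add_le_add (mul_le_mul_right (good_all hφ hb R W hR l G hGm hG) _) ?_
        refine Finset.sum_le_sum fun i _ => Finset.sum_le_sum fun a0 _ => ?_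
        exact bad_term hφ ha R W hR.toConf δ hδ l i a0
    _ = _ := by
        rw [← mul_assoc C, hC, ← ENNReal.ofReal_mul (by positivity)]
        congr 1
        simp only [Finset.sum_const, Finset.card_univ, Fintype.card_fin, Fintype.card_fun,
          nsmul_eq_mul]
        rw [← ENNReal.ofReal_natCast, ← ENNReal.ofReal_natCast, ← ENNReal.ofReal_mul (by positivity),
          ← ENNReal.ofReal_mul (by positivity)]
        congr 1
        push_cast
        ring

end FS1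
end H3M
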