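import Pool.Agent.H3M.Defs
set_option autoImplicit false
noncomputable section
open MeasureTheory Filter Topology
namespace H3M
variable {n N : ℕ}

/-- task FS2: the limits `a → 1`, `δ → 0` in `main_err` -/
theorem fs2_limit (n N : ℕ) (I V : ENNReal)
    (h : ∀ a δ : ℝ, 1 / 4 ≤ a → a < 1 → 0 < δ →
      ENNReal.ofReal (n.factorial * (2 * Real.pi) ^ n) ≤
      ENNReal.ofReal ((2 / Real.arctan (2 * δ / (1 - a))) ^ n * (Real.pi ^ 2 / 8) ^ n) *
        (n.factorial * I * V) +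
      ENNReal.ofReal ((N : ℝ) ^ n * n * (2 * Real.pi) ^ n * (2 * δ))) :
    ENNReal.ofReal (4 ^ n) ≤ I * V := by
  by_cases hIV : I * V = ⊤
  · rw [hIV]; exact le_top
  -- real version
  set x : ℝ := (I * V).toReal with hx
  have hx0 : 0 ≤ x := ENNReal.toReal_nonneg
  have hIVx : I * V = ENNReal.ofReal x := (ENNReal.ofReal_toReal hIV).symm
  have hpi : 0 < Real.pi := Real.pi_pos
  have hfac : (0:ℝ) < n.factorial := by exact_mod_cast n.factorial_pos
  have hreal : ∀ a δ : ℝ, 1 / 4 ≤ a → a < 1 → 0 < δ →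
      (n.factorial * (2 * Real.pi) ^ n : ℝ) ≤
        ((2 / Real.arctan (2 * δ / (1 - a))) ^ n * (Real.pi ^ 2 / 8) ^ n) * (n.factorial * x) +
          (N : ℝ) ^ n * n * (2 * Real.pi) ^ n * (2 * δ) := by
    intro a δ ha ha1 hδ
    have h1 := h a δ ha ha1 hδ
    have harc : 0 < Real.arctan (2 * δ / (1 - a)) := by
      rw [Real.arctan_pos]
      have : 0 < 1 - a := by linarith
      positivity
    rw [mul_assoc, hIVx, ← ENNReal.ofReal_natCast n.factorial, ← ENNReal.ofReal_mul (by positivity),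
      ← ENNReal.ofReal_mul (by positivity), ← ENNReal.ofReal_add (by positivity) (by positivity)]
      at h1
    exact (ENNReal.ofReal_le_ofReal_iff (by positivity)).1 h1
  -- the limit `a → 1`
  have hlim : ∀ δ : ℝ, 0 < δ → (n.factorial * (2 * Real.pi) ^ n : ℝ) ≤
      ((2 / (Real.pi / 2)) ^ n * (Real.pi ^ 2 / 8) ^ n) * (n.factorial * x) +
          (N : ℝ) ^ n * n * (2 * Real.pi) ^ n * (2 * δ) := by
    intro δ hδ
    have h1 : Tendsto (fun a : ℝ => 2 * δ / (1 - a)) (𝓝[<] 1) atTop := by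
      have h2 : Tendsto (fun a : ℝ => 1 - a) (𝓝[<] 1) (𝓝[>] 0) := by
        apply tendsto_nhdsWithin_iff.2
        constructor
        · have : Tendsto (fun a : ℝ => 1 - a) (𝓝 1) (𝓝 (1 - 1)) := by
            exact tendsto_const_nhds.sub tendsto_id
          rw [sub_self] at this
          exact this.mono_left nhdsWithin_le_nhds
        · filter_upwards [self_mem_nhdsWithin] with a ha
          simp only [Set.mem_Iio] at ha
          simp only [Set.mem_Ioi]
          linarith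
      have h3 := (tendsto_inv_nhdsGT_zero (𝕜 := ℝ)).comp h2
      have h4 := h3.const_mul_atTop (show (0:ℝ) < 2 * δ by positivity)
      refine h4.congr (fun a => ?_)
      simp only [Function.comp, div_eq_mul_inv]
    have h2 : Tendsto (fun a : ℝ => Real.arctan (2 * δ / (1 - a))) (𝓝[<] 1) (𝓝 (Real.pi / 2)) :=
      (Real.tendsto_arctan_atTop.mono_right nhdsWithin_le_nhds).comp h1
    have h3 : Tendsto (fun a : ℝ => ((2 / Real.arctan (2 * δ / (1 - a))) ^ n *
        (Real.pi ^ 2 / 8) ^ n) * (n.factorial * x) +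
          (N : ℝ) ^ n * n * (2 * Real.pi) ^ n * (2 * δ)) (𝓝[<] 1)
        (𝓝 (((2 / (Real.pi / 2)) ^ n * (Real.pi ^ 2 / 8) ^ n) * (n.factorial * x) +
          (N : ℝ) ^ n * n * (2 * Real.pi) ^ n * (2 * δ))) := by
      apply Tendsto.add_const
      apply Tendsto.mul_const
      apply Tendsto.mul_const
      apply Tendsto.pow
      exact tendsto_const_nhds.div h2 (by positivity)
    refine ge_of_tendsto h3 ?_
    have h5 : Set.Ioo (1/2 : ℝ) 1 ∈ 𝓝[<] (1:ℝ) := Ioo_mem_nhdsLT (by norm_num)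
    filter_upwards [h5] with a ha
    exact hreal a δ (by linarith [ha.1]) ha.2 hδ
  -- the limit `δ → 0`
  have hfin : (n.factorial * (2 * Real.pi) ^ n : ℝ) ≤
      ((2 / (Real.pi / 2)) ^ n * (Real.pi ^ 2 / 8) ^ n) * (n.factorial * x) := by
    have h3 : Tendsto (fun δ : ℝ => ((2 / (Real.pi / 2)) ^ n * (Real.pi ^ 2 / 8) ^ n) *
        (n.factorial * x) + (N : ℝ) ^ n * n * (2 * Real.pi) ^ n * (2 * δ)) (𝓝[>] 0)
        (𝓝 (((2 / (Real.pi / 2)) ^ n * (Real.pi ^ 2 / 8) ^ n) * (n.factorial * x) +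
          (N : ℝ) ^ n * n * (2 * Real.pi) ^ n * (2 * 0))) := by
      apply Tendsto.const_add
      apply Tendsto.const_mul
      apply Tendsto.const_mul
      exact tendsto_id.mono_left nhdsWithin_le_nhds
    rw [mul_zero, mul_zero, add_zero] at h3
    refine ge_of_tendsto h3 ?_
    filter_upwards [self_mem_nhdsWithin] with δ hδ
    exact hlim δ hδ
  have hconst : (2 / (Real.pi / 2)) ^ n * (Real.pi ^ 2 / 8) ^ n = (Real.pi / 2) ^ n := by
    rw [← mul_pow]
    congr 1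
    field_simp
    ring
  rw [hconst] at hfin
  have h4 : (4:ℝ) ^ n ≤ x := by
    have h5 : (2 * Real.pi) ^ n = 4 ^ n * (Real.pi / 2) ^ n := by
      rw [← mul_pow]
      congr 1
      ring
    rw [h5] at hfin
    have h6 : (n.factorial : ℝ) * (4 ^ n * (Real.pi / 2) ^ n) =
        (4:ℝ) ^ n * ((Real.pi / 2) ^ n * n.factorial) := by ring
    have h7 : (Real.pi / 2) ^ n * (n.factorial * x) = x * ((Real.pi / 2) ^ n * n.factorial) := by
      ring
    rw [h6, h7] at hfin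
    exact le_of_mul_le_mul_right hfin (by positivity)
  rw [hIVx]
  exact ENNReal.ofReal_le_ofReal h4

/-- `mahler_fin` from `main_err` (for the merge into `FS.lean`) -/
theorem mahler_fin_of
    (main_err : ∀ (l : Fin N → Fin n → ℝ) (i0 : Fin n → Fin N) (_ : dt l i0 ≠ 0)
      (G : (Fin n → ℝ) → ℝ) (_ : Measurable G)
      (_ : ∀ (i : Fin n → Fin N) (s : Fin n → Bool) (c : Fin n → ℝ), (∀ a, 0 < c a) →
        G (∑ a, (c a * sg (s a)) • l (i a)) ≤ ∑ a, c a) (a δ : ℝ) (_ : 1 / 4 ≤ a) (_ : a < 1)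
      (_ : 0 < δ),
      ENNReal.ofReal (n.factorial * (2 * Real.pi) ^ n) ≤
      ENNReal.ofReal ((2 / Real.arctan (2 * δ / (1 - a))) ^ n * (Real.pi ^ 2 / 8) ^ n) *
        (n.factorial * (∫⁻ η : Fin n → ℝ, ENNReal.ofReal (Real.exp (-(G η)))) *
          volume {x : Fin n → ℝ | ∀ k, |∑ c, l k c * x c| ≤ 1}) +
      ENNReal.ofReal ((N : ℝ) ^ n * n * (2 * Real.pi) ^ n * (2 * δ)))
    (l : Fin N → Fin n → ℝ) (i0 : Fin n → Fin N) (h0 : dt l i0 ≠ 0)
    (G : (Fin n → ℝ) → ℝ) (hGm : Measurable G)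
    (hG : ∀ (i : Fin n → Fin N) (s : Fin n → Bool) (c : Fin n → ℝ), (∀ a, 0 < c a) →
      G (∑ a, (c a * sg (s a)) • l (i a)) ≤ ∑ a, c a) :
    ENNReal.ofReal (4 ^ n) ≤ (∫⁻ η : Fin n → ℝ, ENNReal.ofReal (Real.exp (-(G η)))) *
      volume {x : Fin n → ℝ | ∀ k, |∑ c, l k c * x c| ≤ 1} :=
  fs2_limit n N _ _ (fun a δ ha ha1 hδ => main_err l i0 h0 G hGm hG a δ ha ha1 hδ)

end H3M
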