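import Pool.Agent.H3M.BM
set_option autoImplicit false
noncomputable section
open MeasureTheory
namespace H3M
variable {n N : ℕ}

/-- existence of profiles -/
theorem exists_prof' (a b : ℝ) (ha : 0 < a) (hab : a < b) : ∃ φ, Prof φ a b := by
  have hba : 0 < b - a := by linarith
  refine ⟨fun x => 1 - Real.smoothTransition ((x - a) / (b - a)), ?_, ?_, ?_, ?_, ha, hab⟩
  · refine contDiff_const.sub (Real.smoothTransition.contDiff.comp ?_)
    exact (contDiff_id.sub contDiff_const).div_const _
  · intro x hx
    have : Real.smoothTransition ((x - a) / (b - a)) = 0 :=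
      Real.smoothTransition.zero_of_nonpos (div_nonpos_of_nonpos_of_nonneg (by linarith) hba.le)
    simp [this]
  · intro x hx
    have : Real.smoothTransition ((x - a) / (b - a)) = 1 :=
      Real.smoothTransition.one_of_one_le (by rw [le_div_iff₀ hba]; linarith)
    simp [this]
  · intro x y hxy
    have := Real.smoothTransition.monotone
      (show (x - a) / (b - a) ≤ (y - a) / (b - a) by gcongr)
    simp only
    linarith

/-- the density of `W` is measurable -/
theorem measurable_rW (φ : ℝ → ℝ) (a b : ℝ) (hφ : Prof φ a b) (R : ℂ → ℂ) (W : Set ℂ)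
    (h : Conf R W) : Measurable (rW φ R W) := by
  classical
  have hW : MeasurableSet W := h.isOpen.measurableSet
  have hR : ContinuousOn R W := h.diff.continuousOn
  have hR' : ContinuousOn (deriv R) W := (h.diff.deriv h.isOpen).continuousOn
  have hd : Continuous (dF φ) := by
    unfold dF
    exact continuous_const.mul (hφ.smooth.continuous_deriv (by norm_num))
  have h1 : ContinuousOn (fun w => dF φ (‖R w‖ ^ 2) * ‖deriv R w‖ ^ 2) W :=
    (hd.comp_continuousOn (hR.norm.pow 2)).mul (hR'.norm.pow 2)
  unfold rW
  refine measurable_of_restrict_of_restrict_compl hW ?_ ?_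
  · have : W.domRestrict (fun w => if w ∈ W then dF φ (‖R w‖ ^ 2) * ‖deriv R w‖ ^ 2 else 0) =
        W.domRestrict (fun w => dF φ (‖R w‖ ^ 2) * ‖deriv R w‖ ^ 2) := by
      funext x; simp [Set.domRestrict]
    rw [this]
    exact (continuousOn_iff_continuous_domRestrict.1 h1).measurable
  · have : Wᶜ.domRestrict (fun w => if w ∈ W then dF φ (‖R w‖ ^ 2) * ‖deriv R w‖ ^ 2 else 0) =
        fun _ => 0 := by
      funext x
      have := x.2
      simp only [Set.mem_compl_iff] at this
      simp [Set.domRestrict, this]
    rw [this]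
    exact measurable_const

theorem measurableSet_bad (R : ℂ → ℂ) (W : Set ℂ) (h : Conf R W) (δ : ℝ) :
    MeasurableSet {w | w ∈ W ∧ |(R w).im| < δ} := by
  have hW : MeasurableSet W := h.isOpen.measurableSet
  have hR : ContinuousOn R W := h.diff.continuousOn
  have h1 : ContinuousOn (fun w => |(R w).im|) W :=
    (Complex.continuous_im.comp_continuousOn hR).abs
  have := h1.isOpen_inter_preimage h.isOpen (isOpen_Iio (a := δ))
  exact this.measurableSet

/-- the bad part of the density is measurable -/
theorem measurable_bad (φ : ℝ → ℝ) (a b : ℝ) (hφ : Prof φ a b) (R : ℂ → ℂ) (W : Set ℂ)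
    (h : Conf R W) (δ : ℝ) :
    Measurable (fun w => (if |(R w).im| < δ then ENNReal.ofReal (rW φ R W w) else 0)) := by
  classical
  have : (fun w => (if |(R w).im| < δ then ENNReal.ofReal (rW φ R W w) else 0)) =
      fun w => (if w ∈ {w | w ∈ W ∧ |(R w).im| < δ} then ENNReal.ofReal (rW φ R W w) else 0) := by
    funext w
    by_cases hw : w ∈ W
    · simp [hw]
    · simp [hw, rW]
  rw [this]
  exact Measurable.ite (measurableSet_bad R W h δ)
    (measurable_rW φ a b hφ R W h).ennreal_ofReal measurable_const

/-- one bad factor -/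
theorem bad_prod (φ : ℝ → ℝ) (a b : ℝ) (hφ : Prof φ a b) (R : ℂ → ℂ) (W : Set ℂ)
    (h : Conf R W) (δ : ℝ) (hδ : 0 < δ) (ha : 1 / 4 ≤ a) (l : Fin N → Fin n → ℝ)
    (i : Fin n → Fin N) (a0 : Fin n) :
    ENNReal.ofReal ((dt l i) ^ 2) * ∫⁻ z : Ph n, ∏ c, (if c = a0 then
      (if |(R (lf (l (i c)) z)).im| < δ then ENNReal.ofReal (rW φ R W (lf (l (i c)) z)) else 0)
      else ENNReal.ofReal (rW φ R W (lf (l (i c)) z))) ≤
    ENNReal.ofReal ((2 * Real.pi) ^ n * (2 * δ)) := by
  classical
  by_cases hd : dt l i = 0
  · simp [hd]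
  · have hm := lin_change l i hd (fun c w => if c = a0 then
      (if |(R w).im| < δ then ENNReal.ofReal (rW φ R W w) else 0)
      else ENNReal.ofReal (rW φ R W w)) (by
        intro c
        by_cases hc : c = a0
        · simp only [hc, if_true]
          exact measurable_bad φ a b hφ R W h δ
        · simp only [hc, if_false]
          exact (measurable_rW φ a b hφ R W h).ennreal_ofReal)
    rw [hm]
    have hs : 1 / 2 ≤ Real.sqrt a := by
      rw [show (1 / 2 : ℝ) = Real.sqrt (1 / 4) by
        rw [show (1 / 4 : ℝ) = (1 / 2) ^ 2 by norm_num, Real.sqrt_sq (by norm_num)]]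
      exact Real.sqrt_le_sqrt ha
    have hb : 2 * Real.pi * δ / Real.sqrt a ≤ 2 * Real.pi * (2 * δ) := by
      rw [div_le_iff₀ (by linarith)]
      have : 0 < 2 * Real.pi * δ := by positivity
      nlinarith
    calc ∏ c, ∫⁻ w : ℂ, (if c = a0 then
          (if |(R w).im| < δ then ENNReal.ofReal (rW φ R W w) else 0)
          else ENNReal.ofReal (rW φ R W w))
        ≤ ∏ c : Fin n, (if c = a0 then ENNReal.ofReal (2 * Real.pi * (2 * δ)) else
            ENNReal.ofReal (2 * Real.pi)) := by
          refine Finset.prod_le_prod' fun c _ => ?_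
          by_cases hc : c = a0
          · simp only [hc, if_true]
            exact (bad_W φ a b hφ R W h δ hδ).trans (ENNReal.ofReal_le_ofReal hb)
          · simp only [hc, if_false]
            exact mass_W φ a b hφ R W h
      _ = ENNReal.ofReal ((2 * Real.pi) ^ n * (2 * δ)) := by
          rw [← Finset.mul_prod_erase Finset.univ _ (Finset.mem_univ a0)]
          simp only [if_true]
          rw [Finset.prod_congr rfl (g := fun _ => ENNReal.ofReal (2 * Real.pi))
            (fun c hc => by simp [Finset.ne_of_mem_erase hc])]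
          rw [Finset.prod_const, Finset.card_erase_of_mem (Finset.mem_univ a0), Finset.card_univ,
            Fintype.card_fin, ← ENNReal.ofReal_pow (by positivity),
            ← ENNReal.ofReal_mul (by positivity)]
          congr 1
          have hn : 0 < n := lt_of_le_of_lt (Nat.zero_le _) a0.2
          obtain ⟨k, rfl⟩ : ∃ k, n = k + 1 := ⟨n - 1, by omega⟩
          simp only [Nat.add_sub_cancel]
          ring

end H3M
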