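import Pool.Agent.H3M.FSb
import Pool.Agent.H3M.V
set_option autoImplicit false
noncomputable section
open MeasureTheory
open scoped Pointwise
namespace H3M
variable {n N : ℕ}

theorem pW_nonneg (φ : ℝ → ℝ) (a b : ℝ) (hφ : Prof φ a b) (R : ℂ → ℂ) (W : Set ℂ) (w : ℂ) :
    0 ≤ pW φ R W w := by
  unfold pW
  split_ifs
  · rw [← hφ.zero (max b (‖R w‖ ^ 2)) (le_max_left _ _)]
    exact hφ.anti (le_max_right _ _)
  · exact le_rfl

theorem pW_le_one (φ : ℝ → ℝ) (a b : ℝ) (hφ : Prof φ a b) (R : ℂ → ℂ) (W : Set ℂ) (w : ℂ) :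
    pW φ R W w ≤ 1 := by
  unfold pW
  split_ifs
  · rw [← hφ.one (min a (‖R w‖ ^ 2)) (min_le_left _ _)]
    exact hφ.anti (min_le_right _ _)
  · norm_num

theorem dF_nonneg (φ : ℝ → ℝ) (a b : ℝ) (hφ : Prof φ a b) (x : ℝ) : 0 ≤ dF φ x := by
  unfold dF
  have := hφ.anti.deriv_nonpos (x := x)
  linarith

theorem rW_nonneg (φ : ℝ → ℝ) (a b : ℝ) (hφ : Prof φ a b) (R : ℂ → ℂ) (W : Set ℂ) (w : ℂ) :
    0 ≤ rW φ R W w := by
  unfold rW
  split_ifs
  · exact mul_nonneg (dF_nonneg φ a b hφ _) (by positivity)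
  · exact le_rfl

/-- `pW` is continuous on the whole plane -/
theorem continuous_pW (φ : ℝ → ℝ) (a b : ℝ) (hφ : Prof φ a b) (hb : b < 1) (R : ℂ → ℂ)
    (W : Set ℂ) (h : Conf R W) : Continuous (pW φ R W) := by
  classical
  have hR : ContinuousOn R W := h.diff.continuousOn
  have h1 : ContinuousOn (fun w => φ (‖R w‖ ^ 2)) W :=
    hφ.smooth.continuous.comp_continuousOn (hR.norm.pow 2)
  have hb0 : 0 < b := hφ.ha.trans hφ.hab
  set K : Set ℂ := {w | w ∈ W ∧ ‖R w‖ ≤ Real.sqrt b} with hK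
  have hKc : IsCompact K := h.cpt _ (by
    rw [show (1 : ℝ) = Real.sqrt 1 by simp]
    exact Real.sqrt_lt_sqrt hb0.le hb)
  have hz : ∀ w ∉ K, pW φ R W w = 0 := by
    intro w hw
    unfold pW
    split_ifs with hwW
    · apply hφ.zero
      have : Real.sqrt b < ‖R w‖ := by
        by_contra hcon
        exact hw ⟨hwW, not_lt.1 hcon⟩
      calc b = Real.sqrt b ^ 2 := (Real.sq_sqrt hb0.le).symm
        _ ≤ ‖R w‖ ^ 2 := by gcongr
    · rfl
  rw [continuous_iff_continuousAt]
  intro w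
  by_cases hw : w ∈ W
  · have h2 : ContinuousAt (fun w => φ (‖R w‖ ^ 2)) w := h1.continuousAt (h.isOpen.mem_nhds hw)
    refine h2.congr ?_
    filter_upwards [h.isOpen.mem_nhds hw] with u hu
    simp [pW, hu]
  · have hwK : w ∈ Kᶜ := fun hh => hw hh.1
    have : ContinuousAt (fun _ : ℂ => (0 : ℝ)) w := continuousAt_const
    refine this.congr ?_
    filter_upwards [hKc.isClosed.isOpen_compl.mem_nhds hwK] with u hu
    exact (hz u hu).symm

/-- the vertical derivative is measurable -/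
theorem measurable_dpW (φ : ℝ → ℝ) (a b : ℝ) (hφ : Prof φ a b) (hb : b < 1) (R : ℂ → ℂ)
    (W : Set ℂ) (h : Conf R W) :
    Measurable (fun x : ℝ × ℝ => |deriv (fun y : ℝ => pW φ R W ⟨x.1, y⟩) x.2|) := by
  have hc : Continuous (Function.uncurry fun (x y : ℝ) => pW φ R W ⟨x, y⟩) := by
    have : Continuous (fun x : ℝ × ℝ => (⟨x.1, x.2⟩ : ℂ)) := by
      have := Complex.equivRealProdCLM.symm.continuous
      exact this
    exact (continuous_pW φ a b hφ hb R W h).comp this
  exact (measurable_deriv_with_param hc).abs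

theorem continuous_lf (l : Fin n → ℝ) : Continuous (lf l) := by
  have h1 : Continuous (fun z : Ph n => ((∑ a, l a * z.1 a, ∑ a, l a * z.2 a) : ℝ × ℝ)) := by
    fun_prop
  exact Complex.equivRealProdCLM.symm.continuous.comp h1

/-- the volume of the slab polytope scales -/
theorem volume_slab (l : Fin N → Fin n → ℝ) (r : ℝ) (hr : 0 < r) :
    volume {x : Fin n → ℝ | ∀ k, |∑ c, l k c * x c| ≤ r} =
      ENNReal.ofReal (r ^ n) * volume {x : Fin n → ℝ | ∀ k, |∑ c, l k c * x c| ≤ 1} := by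
  have h1 : {x : Fin n → ℝ | ∀ k, |∑ c, l k c * x c| ≤ r} =
      r • {x : Fin n → ℝ | ∀ k, |∑ c, l k c * x c| ≤ 1} := by
    ext x
    rw [Set.mem_smul_set_iff_inv_smul_mem₀ hr.ne']
    simp only [Set.mem_ofPred_eq, Pi.smul_apply, smul_eq_mul]
    refine forall_congr' fun k => ?_
    have : ∑ c, l k c * (r⁻¹ * x c) = r⁻¹ * ∑ c, l k c * x c := by
      rw [Finset.mul_sum]
      refine Finset.sum_congr rfl fun c _ => ?_
      ring
    rw [this, abs_mul, abs_of_pos (inv_pos.2 hr), inv_mul_le_iff₀ hr, mul_one]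
  rw [h1, Measure.addHaar_smul]
  congr 2
  rw [Module.finrank_fintype_fun_eq_card, Fintype.card_fin, abs_of_pos (by positivity)]

theorem measurableSet_slab (l : Fin N → Fin n → ℝ) (r : ℝ) :
    MeasurableSet {x : Fin n → ℝ | ∀ k, |∑ c, l k c * x c| ≤ r} := by
  have : {x : Fin n → ℝ | ∀ k, |∑ c, l k c * x c| ≤ r} =
      ⋂ k, {x : Fin n → ℝ | |∑ c, l k c * x c| ≤ r} := by
    ext x; simp
  rw [this]
  refine MeasurableSet.iInter fun k => ?_
  exact (isClosed_le (by fun_prop) continuous_const).measurableSet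

/-- the good terms: vertical derivative, Fubini and the vertex lemma -/
theorem good_part (φ : ℝ → ℝ) (a b : ℝ) (hφ : Prof φ a b) (hb : b < 1) (R : ℂ → ℂ) (W : Set ℂ)
    (h : QConf R W) (l : Fin N → Fin n → ℝ)
    (G : (Fin n → ℝ) → ℝ) (hGm : Measurable G)
    (hG : ∀ (i : Fin n → Fin N) (s : Fin n → Bool) (c : Fin n → ℝ), (∀ a, 0 < c a) →
      G (∑ a, (c a * sg (s a)) • l (i a)) ≤ ∑ a, c a) (δ : ℝ) (ha1 : a < 1) (hδ : 0 < δ) :
    ∑ i : Fin n → Fin N, ENNReal.ofReal ((dt l i) ^ 2) * ∫⁻ z : Ph n,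
      ENNReal.ofReal ((∏ a, (if δ ≤ |(R (lf (l (i a)) z)).im| then
          rW φ R W (lf (l (i a)) z) else 0)) *
        ∏ k ∈ Finset.univ.filter (fun k => ∀ a, i a ≠ k), pW φ R W (lf (l k) z)) ≤
      ENNReal.ofReal ((2 / Real.arctan (2 * δ / (1 - a))) ^ n * (Real.pi ^ 2 / 8) ^ n) *
        (n.factorial * (∫⁻ η : Fin n → ℝ, ENNReal.ofReal (Real.exp (-(G η)))) *
          volume {x : Fin n → ℝ | ∀ k, |∑ c, l k c * x c| ≤ 1}) := by
  classical
  set C : ℝ := 2 / Real.arctan (2 * δ / (1 - a)) with hC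
  have harc : 0 < Real.arctan (2 * δ / (1 - a)) := by
    rw [Real.arctan_pos]
    have : 0 < 1 - a := by linarith
    positivity
  have hC0 : 0 < C := by positivity
  set D : ℂ → ℝ := fun w => |deriv (fun y : ℝ => pW φ R W ⟨w.re, y⟩) w.im| with hD
  have hDm : Measurable D := by
    have := (measurable_dpW φ a b hφ hb R W h.toConf).comp
      (Complex.measurable_re.prodMk Complex.measurable_im)
    exact this
  have hD0 : ∀ w, 0 ≤ D w := fun w => abs_nonneg _
  have hpt : ∀ w : ℂ, (if δ ≤ |(R w).im| then rW φ R W w else 0) ≤ C * D w := by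
    intro w
    split_ifs with hw
    · have := rW_le φ a b hφ hb R W h δ hδ w.re w.im (by simpa using hw)
      rw [Complex.eta] at this
      have h2 : rW φ R W w * (Real.arctan (2 * δ / (1 - a)) / 2) ≤ D w := this
      rw [hC]
      rw [div_mul_eq_mul_div, le_div_iff₀ harc]
      linarith
    · exact mul_nonneg hC0.le (hD0 w)
  have hpt0 : ∀ w : ℂ, 0 ≤ (if δ ≤ |(R w).im| then rW φ R W w else 0) := by
    intro w
    split_ifs
    · exact rW_nonneg φ a b hφ R W w
    · exact le_rfl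
  set f : (Fin n → Fin N) → Ph n → ENNReal := fun i z =>
    ENNReal.ofReal ((∏ a, D (lf (l (i a)) z)) *
        ∏ k ∈ Finset.univ.filter (fun k => ∀ a, i a ≠ k), pW φ R W (lf (l k) z)) with hf
  have hfm : ∀ i, Measurable (f i) := by
    intro i
    refine (Measurable.mul ?_ ?_).ennreal_ofReal
    · exact Finset.measurable_prod _ fun a _ => hDm.comp (continuous_lf _).measurable
    · exact Finset.measurable_prod _ fun k _ =>
        (continuous_pW φ a b hφ hb R W h.toConf).measurable.comp (continuous_lf _).measurable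
  have hle1 : ∀ i (z : Ph n), ENNReal.ofReal ((∏ a, (if δ ≤ |(R (lf (l (i a)) z)).im| then
          rW φ R W (lf (l (i a)) z) else 0)) *
        ∏ k ∈ Finset.univ.filter (fun k => ∀ a, i a ≠ k), pW φ R W (lf (l k) z)) ≤
        ENNReal.ofReal (C ^ n) * f i z := by
    intro i z
    rw [hf, ← ENNReal.ofReal_mul (by positivity)]
    apply ENNReal.ofReal_le_ofReal
    have h1 : (∏ a, (if δ ≤ |(R (lf (l (i a)) z)).im| then
          rW φ R W (lf (l (i a)) z) else 0)) ≤ ∏ a, (C * D (lf (l (i a)) z)) :=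
      Finset.prod_le_prod (fun a _ => hpt0 _) (fun a _ => hpt _)
    rw [Finset.prod_mul_distrib, Finset.prod_const, Finset.card_univ, Fintype.card_fin] at h1
    have h2 : 0 ≤ ∏ k ∈ Finset.univ.filter (fun k => ∀ a, i a ≠ k), pW φ R W (lf (l k) z) :=
      Finset.prod_nonneg fun k _ => pW_nonneg φ a b hφ R W _
    calc _ ≤ (C ^ n * ∏ a, D (lf (l (i a)) z)) *
          ∏ k ∈ Finset.univ.filter (fun k => ∀ a, i a ≠ k), pW φ R W (lf (l k) z) :=
          mul_le_mul_of_nonneg_right h1 h2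
      _ = _ := by ring
  have hstep1 : ∀ i, ∫⁻ z : Ph n, ENNReal.ofReal ((∏ a, (if δ ≤ |(R (lf (l (i a)) z)).im| then
          rW φ R W (lf (l (i a)) z) else 0)) *
        ∏ k ∈ Finset.univ.filter (fun k => ∀ a, i a ≠ k), pW φ R W (lf (l k) z)) ≤
        ENNReal.ofReal (C ^ n) * ∫⁻ z, f i z := by
    intro i
    rw [← lintegral_const_mul _ (hfm i)]
    exact lintegral_mono (hle1 i)
  set I : ENNReal := ∫⁻ η : Fin n → ℝ, ENNReal.ofReal (Real.exp (-(G η))) with hI
  set S : Set (Fin n → ℝ) := {x : Fin n → ℝ | ∀ k, |∑ c, l k c * x c| ≤ Real.pi ^ 2 / 8} with hS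
  have hSm : MeasurableSet S := measurableSet_slab l _
  -- the vertex lemma on vertical fibres
  have hfib : ∀ x : Fin n → ℝ, ∑ i : Fin n → Fin N, ENNReal.ofReal ((dt l i) ^ 2) *
      ∫⁻ y : Fin n → ℝ, f i (x, y) ≤ (n.factorial * I) * S.indicator 1 x := by
    intro x
    have hP : ∀ k, LP (fun y : ℝ => pW φ R W ⟨∑ c, l k c * x c, y⟩) := by
      intro k
      obtain ⟨h1, h2, h3, h4, -⟩ := pW_vertical φ a b hφ hb R W h (∑ c, l k c * x c)
      exact ⟨h1, h2, h3, h4⟩
    have hv := vertex l (fun k => fun y : ℝ => pW φ R W ⟨∑ c, l k c * x c, y⟩) hP G hGm hG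
    refine hv.trans ?_
    have hle : ENNReal.ofReal (∏ k, pW φ R W ⟨∑ c, l k c * x c, 0⟩) ≤ S.indicator 1 x := by
      by_cases hx : x ∈ S
      · rw [Set.indicator_of_mem hx]
        rw [Pi.one_apply, ← ENNReal.ofReal_one]
        apply ENNReal.ofReal_le_ofReal
        exact Finset.prod_le_one (fun k _ => pW_nonneg φ a b hφ R W _)
          (fun k _ => pW_le_one φ a b hφ R W _)
      · rw [Set.indicator_of_notMem hx]
        have : ∃ k, Real.pi ^ 2 / 8 < |∑ c, l k c * x c| := by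
          by_contra hcon
          push Not at hcon
          exact hx hcon
        obtain ⟨k, hk⟩ := this
        have h0 := (pW_vertical φ a b hφ hb R W h (∑ c, l k c * x c)).2.2.2.2 hk 0
        rw [Finset.prod_eq_zero (Finset.mem_univ k) h0]
        simp
    calc (n.factorial : ENNReal) * ENNReal.ofReal (∏ k, pW φ R W ⟨∑ c, l k c * x c, 0⟩) * I
        ≤ n.factorial * S.indicator 1 x * I := by gcongr
      _ = _ := by ring
  have hfub : ∀ i, ∫⁻ z : Ph n, f i z = ∫⁻ x : Fin n → ℝ, ∫⁻ y : Fin n → ℝ, f i (x, y) := by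
    intro i
    rw [Measure.volume_eq_prod, lintegral_prod _ (hfm i).aemeasurable]
  have hinner : ∀ i, Measurable fun x : Fin n → ℝ => ∫⁻ y : Fin n → ℝ, f i (x, y) :=
    fun i => (hfm i).lintegral_prod_right'
  have htot : ∑ i : Fin n → Fin N, ENNReal.ofReal ((dt l i) ^ 2) * ∫⁻ z, f i z ≤
      (n.factorial * I) * volume S := by
    calc ∑ i : Fin n → Fin N, ENNReal.ofReal ((dt l i) ^ 2) * ∫⁻ z, f i z
        = ∑ i : Fin n → Fin N, ∫⁻ x, ENNReal.ofReal ((dt l i) ^ 2) *
            ∫⁻ y : Fin n → ℝ, f i (x, y) := by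
          refine Finset.sum_congr rfl fun i _ => ?_
          rw [hfub i, lintegral_const_mul _ (hinner i)]
      _ = ∫⁻ x, ∑ i : Fin n → Fin N, ENNReal.ofReal ((dt l i) ^ 2) *
            ∫⁻ y : Fin n → ℝ, f i (x, y) := by
          rw [lintegral_finsetSum]
          exact fun i _ => (hinner i).const_mul _
      _ ≤ ∫⁻ x, (n.factorial * I) * S.indicator 1 x := lintegral_mono hfib
      _ = (n.factorial * I) * volume S := by
          rw [lintegral_const_mul _ (measurable_one.indicator hSm), lintegral_indicator_one hSm]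
  calc _ ≤ ∑ i : Fin n → Fin N, ENNReal.ofReal ((dt l i) ^ 2) *
        (ENNReal.ofReal (C ^ n) * ∫⁻ z, f i z) := by
        refine Finset.sum_le_sum fun i _ => ?_
        gcongr
        exact hstep1 i
    _ = ENNReal.ofReal (C ^ n) * ∑ i : Fin n → Fin N,
        ENNReal.ofReal ((dt l i) ^ 2) * ∫⁻ z, f i z := by
        rw [Finset.mul_sum]
        refine Finset.sum_congr rfl fun i _ => ?_
        ring
    _ ≤ ENNReal.ofReal (C ^ n) * ((n.factorial * I) * volume S) := by gcongr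
    _ = _ := by
        rw [hS, volume_slab l _ (by positivity), ENNReal.ofReal_mul (by positivity)]
        ring

end H3M
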