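import Pool.Agent.H3M.FS
set_option autoImplicit false
noncomputable section
open MeasureTheory
open scoped RealInnerProductSpace
namespace H3M

/-- centrally symmetric convex bodies in `ℝⁿ` -/
structure IsSymConvexBody {n : ℕ} (K : Set (EuclideanSpace ℝ (Fin n))) : Prop where
  isCompact : IsCompact K
  convex : Convex ℝ K
  interior_nonempty : (interior K).Nonempty
  neg_mem : ∀ x ∈ K, -x ∈ K

/-- the polar body -/
def polarBody {n : ℕ} (K : Set (EuclideanSpace ℝ (Fin n))) : Set (EuclideanSpace ℝ (Fin n)) :=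
  {y | ∀ x ∈ K, ⟪x, y⟫ ≤ 1}

/-- `∫ exp(-h_K) = n! vol(K°)` for the support function `h_K` -/
theorem integral_exp_support {n : ℕ} (K : Set (EuclideanSpace ℝ (Fin n)))
    (hK : IsSymConvexBody K) :
    ∃ G : (Fin n → ℝ) → ℝ, Measurable G ∧
      (∀ η : Fin n → ℝ, ∀ C, (∀ x ∈ K, ∑ c, η c * x c ≤ C) → G η ≤ C) ∧
      ∫⁻ η : Fin n → ℝ, ENNReal.ofReal (Real.exp (-(G η))) =
        n.factorial * volume (polarBody K) := by
  sorry

/-- approximation of `K` from outside by finitely many symmetric slabs -/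
theorem slab_approx {n : ℕ} (hn : 0 < n) (K : Set (EuclideanSpace ℝ (Fin n)))
    (hK : IsSymConvexBody K) (r : ENNReal) (hr : volume K < r) :
    ∃ (N : ℕ) (l : Fin N → Fin n → ℝ) (i0 : Fin n → Fin N), dt l i0 ≠ 0 ∧
      (∀ k, ∀ x ∈ K, |∑ c, l k c * x c| ≤ 1) ∧
      volume {x : Fin n → ℝ | ∀ k, |∑ c, l k c * x c| ≤ 1} < r := by
  sorry

/-- **Mahler's conjecture for symmetric bodies** -/
theorem mahler {n : ℕ} (K : Set (EuclideanSpace ℝ (Fin n))) (hK : IsSymConvexBody K) :
    ENNReal.ofReal (4 ^ n / n.factorial) ≤ volume K * volume (polarBody K) := by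
  sorry

end H3M
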