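import Mathlib
set_option autoImplicit false

/-!
Task GE1 (helper152): `∫ exp(-h_K) = n! vol(K°)` for the support function `h_K` of a symmetric
convex body. (Imports only Mathlib; `GE.lean` can use `integral_exp_support_core`.)
-/

noncomputable section
open MeasureTheory
open scoped RealInnerProductSpace
namespace H3M

/-- support function -/
def GE1_G {n : ℕ} (K : Set (EuclideanSpace ℝ (Fin n))) (η : Fin n → ℝ) : ℝ :=
  sSup ((fun x : EuclideanSpace ℝ (Fin n) => ∑ c, η c * x c) '' K)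

section
variable {n : ℕ} {K : Set (EuclideanSpace ℝ (Fin n))}

theorem GE1_le (hc : IsCompact K) (η : Fin n → ℝ) {x : EuclideanSpace ℝ (Fin n)} (hx : x ∈ K) :
    ∑ c, η c * x c ≤ GE1_G K η := by
  refine le_csSup ?_ ⟨x, hx, rfl⟩
  refine (hc.image ?_).bddAbove
  fun_prop

theorem GE1_G_le (hne : K.Nonempty) {η : Fin n → ℝ} {C : ℝ}
    (h : ∀ x ∈ K, ∑ c, η c * x c ≤ C) : GE1_G K η ≤ C := by
  refine csSup_le (hne.image _) ?_
  rintro _ ⟨x, hx, rfl⟩
  exact h x hx

theorem GE1_abs_le (hc : IsCompact K) (hneg : ∀ x ∈ K, -x ∈ K) (η : Fin n → ℝ)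
    {x : EuclideanSpace ℝ (Fin n)} (hx : x ∈ K) : |∑ c, η c * x c| ≤ GE1_G K η := by
  rw [abs_le]
  refine ⟨?_, GE1_le hc η hx⟩
  have h := GE1_le hc η (hneg x hx)
  have e : ∑ c, η c * (-x) c = -∑ c, η c * x c := by
    rw [← Finset.sum_neg_distrib]
    refine Finset.sum_congr rfl fun c _ => ?_
    simp
  rw [e] at h
  linarith

theorem GE1_zero (hne : K.Nonempty) : GE1_G K 0 = 0 := by
  unfold GE1_G
  have : (fun x : EuclideanSpace ℝ (Fin n) => ∑ c, (0 : Fin n → ℝ) c * x c) '' K = {0} := by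
    ext t
    simp only [Pi.zero_apply, zero_mul, Finset.sum_const_zero, Set.mem_image,
      Set.mem_singleton_iff]
    constructor
    · rintro ⟨_, _, rfl⟩
      rfl
    · rintro rfl
      obtain ⟨x, hx⟩ := hne
      exact ⟨x, hx, rfl⟩
  rw [this, csSup_singleton]

theorem GE1_add (hc : IsCompact K) (hne : K.Nonempty) (η η' : Fin n → ℝ) :
    GE1_G K (η + η') ≤ GE1_G K η + GE1_G K η' := by
  refine GE1_G_le hne fun x hx => ?_
  have e : ∑ c, (η + η') c * x c = ∑ c, η c * x c + ∑ c, η' c * x c := by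
    rw [← Finset.sum_add_distrib]
    refine Finset.sum_congr rfl fun c _ => ?_
    simp only [Pi.add_apply]
    ring
  rw [e]
  exact add_le_add (GE1_le hc η hx) (GE1_le hc η' hx)

theorem GE1_smul (hc : IsCompact K) (hne : K.Nonempty) (hneg : ∀ x ∈ K, -x ∈ K) (r : ℝ)
    (η : Fin n → ℝ) : GE1_G K (r • η) ≤ |r| * GE1_G K η := by
  refine GE1_G_le hne fun x hx => ?_
  have e : ∑ c, (r • η) c * x c = r * ∑ c, η c * x c := by
    rw [Finset.mul_sum]
    refine Finset.sum_congr rfl fun c _ => ?_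
    simp only [Pi.smul_apply, smul_eq_mul]
    ring
  rw [e]
  refine (le_abs_self _).trans ?_
  rw [abs_mul]
  exact mul_le_mul_of_nonneg_left (GE1_abs_le hc hneg η hx) (abs_nonneg r)

theorem GE1_neg (hc : IsCompact K) (hne : K.Nonempty) (hneg : ∀ x ∈ K, -x ∈ K)
    (η : Fin n → ℝ) : GE1_G K (-η) = GE1_G K η := by
  have h1 : ∀ η : Fin n → ℝ, GE1_G K (-η) ≤ GE1_G K η := by
    intro η
    have := GE1_smul hc hne hneg (-1) η
    simpa using this
  refine le_antisymm (h1 η) ?_
  have := h1 (-η)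
  rwa [neg_neg] at this

theorem GE1_eq_zero (hc : IsCompact K) (hi : (interior K).Nonempty) (hneg : ∀ x ∈ K, -x ∈ K)
    {η : Fin n → ℝ} (h : GE1_G K η = 0) : η = 0 := by
  obtain ⟨x0, hx0⟩ := hi
  obtain ⟨ε, hε, hball⟩ := Metric.isOpen_iff.1 isOpen_interior x0 hx0
  have h0 : ∀ x ∈ K, ∑ c, η c * x c = 0 := by
    intro x hx
    have := GE1_abs_le hc hneg η hx
    rw [h] at this
    exact abs_nonpos_iff.1 this
  set v : EuclideanSpace ℝ (Fin n) := WithLp.toLp 2 η with hv
  set t : ℝ := ε / (2 * (‖v‖ + 1)) with ht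
  have hvn : 0 < ‖v‖ + 1 := by positivity
  have htpos : 0 < t := by positivity
  have hx1 : x0 + t • v ∈ K := by
    apply interior_subset
    apply hball
    rw [Metric.mem_ball, dist_eq_norm, add_sub_cancel_left, norm_smul, Real.norm_eq_abs,
      abs_of_pos htpos, ht, div_mul_eq_mul_div, div_lt_iff₀ (by positivity)]
    nlinarith [norm_nonneg v]
  have e0 := h0 x0 (interior_subset hx0)
  have e1 := h0 _ hx1
  have e2 : ∑ c, η c * (x0 + t • v) c = ∑ c, η c * x0 c + t * ∑ c, η c * η c := by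
    rw [Finset.mul_sum, ← Finset.sum_add_distrib]
    refine Finset.sum_congr rfl fun c _ => ?_
    simp only [hv, PiLp.add_apply, PiLp.smul_apply, smul_eq_mul]
    ring
  rw [e2, e0, zero_add] at e1
  have e3 : ∑ c, η c * η c = 0 := by
    rcases mul_eq_zero.1 e1 with h1 | h1
    · exact absurd h1 htpos.ne'
    · exact h1
  rw [Finset.sum_eq_zero_iff_of_nonneg (fun c _ => mul_self_nonneg _)] at e3
  funext c
  exact mul_self_eq_zero.1 (e3 c (Finset.mem_univ c))

theorem GE1_continuous (hc : IsCompact K) (hne : K.Nonempty) : Continuous (GE1_G K) := by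
  obtain ⟨R, hR⟩ := hc.isBounded.exists_norm_le
  have hR0 : 0 ≤ R := by
    obtain ⟨x, hx⟩ := hne
    exact (norm_nonneg x).trans (hR x hx)
  have hb : ∀ η : Fin n → ℝ, GE1_G K η ≤ (n * R) * ‖η‖ := by
    intro η
    refine GE1_G_le hne fun x hx => ?_
    calc ∑ c, η c * x c ≤ ∑ _c : Fin n, ‖η‖ * R := by
          refine Finset.sum_le_sum fun c _ => ?_
          refine (le_abs_self _).trans ?_
          rw [abs_mul]
          refine mul_le_mul (norm_le_pi_norm η c) ?_ (abs_nonneg _) (norm_nonneg _)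
          exact (PiLp.norm_apply_le x c).trans (hR x hx)
      _ = (n * R) * ‖η‖ := by
          rw [Finset.sum_const, Finset.card_univ, Fintype.card_fin, nsmul_eq_mul]
          ring
  have hl : ∀ η η' : Fin n → ℝ, GE1_G K η - GE1_G K η' ≤ (n * R) * dist η η' := by
    intro η η'
    have h1 := GE1_add hc hne (η - η') η'
    rw [sub_add_cancel] at h1
    have h2 := hb (η - η')
    rw [dist_eq_norm]
    linarith
  have hL : LipschitzWith ⟨n * R, by positivity⟩ (GE1_G K) := by
    refine LipschitzWith.of_dist_le_mul fun η η' => ?_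
    rw [Real.dist_eq, abs_le]
    have h1 := hl η η'
    have h2 := hl η' η
    rw [dist_comm η' η] at h2
    constructor
    · show -((n * R) * dist η η') ≤ _
      linarith
    · exact h1
  exact hL.continuous

theorem GE1_lt_eq_le (hc : IsCompact K) (hi : (interior K).Nonempty) (hneg : ∀ x ∈ K, -x ∈ K) :
    volume {η : Fin n → ℝ | GE1_G K η ≤ 1} = volume {η : Fin n → ℝ | GE1_G K η < 1} := by
  have hne : K.Nonempty := hi.mono interior_subset
  rcases Nat.eq_zero_or_pos n with h | h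
  · subst h
    congr 1
    ext η
    have : η = 0 := Subsingleton.elim _ _
    rw [Set.mem_setOf_eq, Set.mem_setOf_eq, this, GE1_zero hne]
    norm_num
  · haveI : Nonempty (Fin n) := ⟨⟨0, h⟩⟩
    exact measure_le_eq_lt volume (GE1_zero hne) (GE1_neg hc hne hneg) (GE1_add hc hne)
      (fun hx => GE1_eq_zero hc hi hneg hx) (GE1_smul hc hne hneg) 1

theorem GE1_integral (hc : IsCompact K) (hi : (interior K).Nonempty) (hneg : ∀ x ∈ K, -x ∈ K) :
    ∫⁻ η : Fin n → ℝ, ENNReal.ofReal (Real.exp (-(GE1_G K η))) =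
      n.factorial * volume {η : Fin n → ℝ | GE1_G K η < 1} := by
  have hne : K.Nonempty := hi.mono interior_subset
  have h1 := measure_lt_one_eq_integral_div_gamma (volume : Measure (Fin n → ℝ)) (GE1_zero hne)
    (GE1_neg hc hne hneg) (GE1_add hc hne) (fun hx => GE1_eq_zero hc hi hneg hx)
    (GE1_smul hc hne hneg) one_pos
  simp only [Real.rpow_one] at h1
  rw [Module.finrank_fin_fun, div_one, Real.Gamma_nat_eq_factorial] at h1
  have hpos : 0 < volume {η : Fin n → ℝ | GE1_G K η < 1} := by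
    apply IsOpen.measure_pos
    · exact isOpen_lt (GE1_continuous hc hne) continuous_const
    · exact ⟨0, by rw [Set.mem_setOf_eq, GE1_zero hne]; norm_num⟩
  have hint : Integrable (fun η : Fin n → ℝ => Real.exp (-(GE1_G K η))) := by
    by_contra hcon
    rw [integral_undef hcon, zero_div, ENNReal.ofReal_zero] at h1
    exact hpos.ne' h1
  rw [h1, ← ofReal_integral_eq_lintegral_ofReal hint (Filter.Eventually.of_forall fun η =>
    (Real.exp_pos _).le), ← ENNReal.ofReal_natCast, ← ENNReal.ofReal_mul (by positivity)]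
  congr 1
  have : (n.factorial : ℝ) ≠ 0 := by positivity
  field_simp

end

/-- `∫ exp(-h_K) = n! vol(K°)` for the support function `h_K` -/
theorem integral_exp_support_core {n : ℕ} (K : Set (EuclideanSpace ℝ (Fin n)))
    (hc : IsCompact K) (hi : (interior K).Nonempty) (hneg : ∀ x ∈ K, -x ∈ K) :
    ∃ G : (Fin n → ℝ) → ℝ, Measurable G ∧
      (∀ η : Fin n → ℝ, ∀ C, (∀ x ∈ K, ∑ c, η c * x c ≤ C) → G η ≤ C) ∧
      ∫⁻ η : Fin n → ℝ, ENNReal.ofReal (Real.exp (-(G η))) =
        n.factorial * volume {y : EuclideanSpace ℝ (Fin n) | ∀ x ∈ K, ⟪x, y⟫ ≤ 1} := by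
  have hne : K.Nonempty := hi.mono interior_subset
  refine ⟨GE1_G K, (GE1_continuous hc hne).measurable, fun η C h => GE1_G_le hne h, ?_⟩
  rw [GE1_integral hc hi hneg, ← GE1_lt_eq_le hc hi hneg]
  congr 1
  have hset : {y : EuclideanSpace ℝ (Fin n) | ∀ x ∈ K, ⟪x, y⟫ ≤ 1} =
      (@WithLp.ofLp 2 (Fin n → ℝ)) ⁻¹' {η : Fin n → ℝ | GE1_G K η ≤ 1} := by
    ext y
    rw [Set.mem_setOf_eq, Set.mem_preimage, Set.mem_setOf_eq]
    have e : ∀ x : EuclideanSpace ℝ (Fin n), ⟪x, y⟫ = ∑ c, y c * x c := by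
      intro x
      rw [PiLp.inner_apply]
      refine Finset.sum_congr rfl fun c _ => ?_
      simp
    constructor
    · intro h
      refine GE1_G_le hne fun x hx => ?_
      have := h x hx
      rw [e] at this
      exact this
    · intro h x hx
      rw [e]
      exact (GE1_le hc _ hx).trans h
  rw [hset, (PiLp.volume_preserving_ofLp (Fin n)).measure_preimage]
  exact (measurableSet_le (GE1_continuous hc hne).measurable measurable_const).nullMeasurableSet

end H3M
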