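import Pool.Agent.H3M.GE
set_option autoImplicit false
noncomputable section
open MeasureTheory
open scoped RealInnerProductSpace
namespace H3M

theorem slab_approx_ {n : ℕ} (hn : 0 < n) (K : Set (EuclideanSpace ℝ (Fin n)))
    (hK : IsSymConvexBody K) (r : ENNReal) (hr : volume K < r) :
    ∃ (N : ℕ) (l : Fin N → Fin n → ℝ) (i0 : Fin n → Fin N), dt l i0 ≠ 0 ∧
      (∀ k, ∀ x ∈ K, |∑ c, l k c * x c| ≤ 1) ∧
      volume {x : Fin n → ℝ | ∀ k, |∑ c, l k c * x c| ≤ 1} < r := by
  classical
  -- boundedness of `K`
  obtain ⟨R, hR0, hR⟩ : ∃ R : ℝ, 0 < R ∧ ∀ x ∈ K, ∀ c, |x c| ≤ R := by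
    obtain ⟨R, hR⟩ := hK.isCompact.isBounded.exists_norm_le
    refine ⟨max R 1, lt_of_lt_of_le one_pos (le_max_right _ _), fun x hx c => ?_⟩
    have h1 : ‖x c‖ ≤ ‖x‖ := PiLp.norm_apply_le x c
    rw [Real.norm_eq_abs] at h1
    exact h1.trans ((hR x hx).trans (le_max_left _ _))
  -- the polar set as a set of coefficient vectors
  let P : Set (Fin n → ℝ) := {f | ∀ x ∈ K, |∑ c, f c * x c| ≤ 1}
  have hP0 : (0 : Fin n → ℝ) ∈ P := by
    intro x _
    have : ∑ c, (0 : Fin n → ℝ) c * x c = 0 := by
      apply Finset.sum_eq_zero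
      intro c _
      rw [Pi.zero_apply, zero_mul]
    rw [this, abs_zero]
    exact zero_le_one
  haveI : Nonempty P := ⟨⟨0, hP0⟩⟩
  let u : ℕ → P := TopologicalSpace.denseSeq P
  have hu : DenseRange u := TopologicalSpace.denseRange_denseSeq P
  -- the sets
  let S : ℕ → Set (Fin n → ℝ) := fun m =>
    {x | (∀ c, |x c| ≤ R) ∧ ∀ j, j < m → |∑ c, (u j).1 c * x c| ≤ 1}
  have hSanti : Antitone S := by
    intro a b hab x hx
    exact ⟨hx.1, fun j hj => hx.2 j (lt_of_lt_of_le hj hab)⟩
  have hScl : ∀ m, IsClosed (S m) := by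
    intro m
    have : S m = (⋂ c, {x : Fin n → ℝ | |x c| ≤ R}) ∩
        ⋂ j, ⋂ (_ : j < m), {x : Fin n → ℝ | |∑ c, (u j).1 c * x c| ≤ 1} := by
      ext x
      simp only [S, Set.mem_setOf_eq, Set.mem_inter_iff, Set.mem_iInter]
    rw [this]
    apply IsClosed.inter
    · apply isClosed_iInter
      intro c
      exact isClosed_le (continuous_abs.comp (continuous_apply c)) continuous_const
    · apply isClosed_iInter
      intro j
      apply isClosed_iInter
      intro _
      apply isClosed_le _ continuous_const
      exact continuous_abs.comp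
        (continuous_finsetSum _ fun c _ => continuous_const.mul (continuous_apply c))
  have hSfin : volume (S 0) ≠ ⊤ := by
    have hsub : S 0 ⊆ Set.Icc (fun _ => -R) (fun _ => R) := by
      intro x hx
      exact ⟨fun c => (abs_le.1 (hx.1 c)).1, fun c => (abs_le.1 (hx.1 c)).2⟩
    exact ne_top_of_le_ne_top (isCompact_Icc.measure_lt_top).ne (measure_mono hsub)
  let K' : Set (Fin n → ℝ) := {x | WithLp.toLp 2 x ∈ K}
  have hK' : volume K' = volume K := by
    have := (PiLp.volume_preserving_toLp (Fin n)).measure_preimage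
      hK.isCompact.isClosed.measurableSet.nullMeasurableSet
    exact this
  have hinter : (⋂ m, S m) ⊆ K' := by
    intro x hx
    by_contra hxK
    have hxK : WithLp.toLp 2 x ∉ K := hxK
    obtain ⟨f, t, hft, htx⟩ := geometric_hahn_banach_closed_point hK.convex
      hK.isCompact.isClosed hxK
    have h0K : (0 : EuclideanSpace ℝ (Fin n)) ∈ K := by
      obtain ⟨y, hy⟩ := hK.interior_nonempty
      have hy := interior_subset hy
      have h2 := hK.convex hy (hK.neg_mem y hy) (by norm_num : (0:ℝ) ≤ 1/2)
        (by norm_num : (0:ℝ) ≤ 1/2) (by norm_num)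
      rw [smul_neg, add_neg_cancel] at h2
      exact h2
    have ht0 : 0 < t := by
      have := hft 0 h0K
      rwa [map_zero] at this
    -- coefficient vector of `f / t`
    let g : Fin n → ℝ := fun c => f (EuclideanSpace.single c 1) / t
    have hg : ∀ y : EuclideanSpace ℝ (Fin n), ∑ c, g c * y c = f y / t := by
      intro y
      have hy : y = ∑ c, (y c) • EuclideanSpace.single c (1:ℝ) := by
        ext i
        rw [WithLp.ofLp_sum, Finset.sum_apply]
        simp
      conv_rhs => rw [hy, map_sum]
      rw [Finset.sum_div]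
      apply Finset.sum_congr rfl
      intro c _
      rw [map_smul, smul_eq_mul]
      simp only [g]
      ring
    have hgP : g ∈ P := by
      intro y hy
      rw [hg y, abs_div, abs_of_pos ht0, div_le_one ht0, abs_le]
      constructor
      · have := hft (-y) (hK.neg_mem y hy)
        rw [map_neg] at this
        linarith
      · exact (hft y hy).le
    -- density
    have hcl : |∑ c, g c * x c| ≤ 1 := by
      have hcont : Continuous fun h : P => |∑ c, h.1 c * x c| :=
        continuous_abs.comp (continuous_finsetSum _ fun c _ =>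
          ((continuous_apply c).comp continuous_subtype_val).mul continuous_const)
      have hclosed : IsClosed {h : P | |∑ c, h.1 c * x c| ≤ 1} := isClosed_le hcont continuous_const
      have hmem : (⟨g, hgP⟩ : P) ∈ closure (Set.range u) := hu _
      have hsub : Set.range u ⊆ {h : P | |∑ c, h.1 c * x c| ≤ 1} := by
        rintro _ ⟨j, rfl⟩
        have := Set.mem_iInter.1 hx (j + 1)
        exact this.2 j (Nat.lt_succ_self j)
      exact closure_minimal hsub hclosed hmem
    have h1 : ∑ c, g c * x c = f (WithLp.toLp 2 x) / t := hg (WithLp.toLp 2 x)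
    rw [h1, abs_le] at hcl
    have h2 : 1 < f (WithLp.toLp 2 x) / t := by
      rw [lt_div_iff₀ ht0, one_mul]
      exact htx
    linarith [hcl.2]
  have htend := tendsto_measure_iInter_atTop (μ := (volume : Measure (Fin n → ℝ))) (s := S)
    (fun m => (hScl m).measurableSet.nullMeasurableSet) hSanti ⟨0, hSfin⟩
  have hlt : volume (⋂ m, S m) < r := lt_of_le_of_lt (measure_mono hinter) (by rw [hK']; exact hr)
  obtain ⟨m, hm⟩ := (htend.eventually (Iio_mem_nhds hlt)).exists
  refine ⟨n + m, Fin.append (fun c : Fin n => Pi.single c (1 / R)) (fun j : Fin m => (u j.1).1),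
    Fin.castAdd m, ?_, ?_, ?_⟩
  · have : dt (Fin.append (fun c : Fin n => Pi.single c (1 / R)) (fun j : Fin m => (u j.1).1))
        (Fin.castAdd m) = (1 / R) ^ n := by
      unfold dt
      have hmat : (Matrix.of fun a : Fin n =>
          Fin.append (fun c : Fin n => (Pi.single c (1 / R) : Fin n → ℝ))
            (fun j : Fin m => (u j.1).1) (Fin.castAdd m a)) =
          Matrix.diagonal (fun _ : Fin n => 1 / R) := by
        ext a b
        rw [Matrix.of_apply, Fin.append_left, Matrix.diagonal_apply, Pi.single_apply]
        by_cases h : a = b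
        · rw [if_pos h.symm, if_pos h]
        · rw [if_neg (fun h' => h h'.symm), if_neg h]
      rw [hmat, Matrix.det_diagonal, Finset.prod_const, Finset.card_univ, Fintype.card_fin]
    rw [this]
    positivity
  · intro k x hx
    refine Fin.addCases (fun c => ?_) (fun j => ?_) k
    · rw [Fin.append_left]
      have : ∑ b, (Pi.single c (1 / R) : Fin n → ℝ) b * x b = 1 / R * x c := by
        rw [Finset.sum_eq_single c]
        · rw [Pi.single_eq_same]
        · intro b _ hb
          rw [Pi.single_eq_of_ne hb, zero_mul]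
        · intro h
          exact absurd (Finset.mem_univ c) h
      rw [this, abs_mul, abs_of_pos (by positivity), one_div, ← div_eq_inv_mul, div_le_one hR0]
      exact hR x hx c
    · rw [Fin.append_right]
      exact (u j.1).2 x hx
  · refine lt_of_le_of_lt (measure_mono ?_) hm
    intro x hx
    refine ⟨fun c => ?_, fun j hj => ?_⟩
    · have := hx (Fin.castAdd m c)
      rw [Fin.append_left] at this
      have h2 : ∑ b, (Pi.single c (1 / R) : Fin n → ℝ) b * x b = 1 / R * x c := by
        rw [Finset.sum_eq_single c]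
        · rw [Pi.single_eq_same]
        · intro b _ hb
          rw [Pi.single_eq_of_ne hb, zero_mul]
        · intro h
          exact absurd (Finset.mem_univ c) h
      rw [h2, abs_mul, abs_of_pos (by positivity), one_div, ← div_eq_inv_mul, div_le_one hR0] at this
      exact this
    · have := hx (Fin.natAdd n ⟨j, hj⟩)
      rw [Fin.append_right] at this
      exact this

end H3M
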