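import Pool.Agent.H3M.GE
set_option autoImplicit false
noncomputable section
open MeasureTheory Filter Topology
open scoped RealInnerProductSpace
namespace H3M

namespace GE3

/-- the volume of the whole space in dimension zero -/
theorem volume_univ_zero : volume (Set.univ : Set (EuclideanSpace ℝ (Fin 0))) = 1 := by
  have h := (EuclideanSpace.volume_preserving_symm_measurableEquiv_toLp (Fin 0)).measure_preimage_equiv
    (Set.univ : Set (Fin 0 → ℝ))
  rw [Set.preimage_univ] at h
  rw [h]
  simp [volume_pi]

theorem mahler_zero (K : Set (EuclideanSpace ℝ (Fin 0))) (hK : IsSymConvexBody K) :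
    ENNReal.ofReal (4 ^ 0 / (Nat.factorial 0 : ℕ)) ≤ volume K * volume (polarBody K) := by
  have h1 : K = Set.univ := by
    obtain ⟨x, hx⟩ := hK.interior_nonempty
    rw [Set.eq_univ_iff_forall]
    intro y
    rw [Subsingleton.elim y x]
    exact interior_subset hx
  have h2 : polarBody K = Set.univ := by
    rw [Set.eq_univ_iff_forall]
    intro y x _
    rw [Subsingleton.elim y 0, inner_zero_right]
    exact zero_le_one
  rw [h2, h1, volume_univ_zero]
  simp

/-- the bound for every number larger than the volume -/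
theorem key {n : ℕ} (hn : 0 < n) (K : Set (EuclideanSpace ℝ (Fin n))) (hK : IsSymConvexBody K)
    (r : ENNReal) (hr : volume K < r) :
    ENNReal.ofReal (4 ^ n / n.factorial) ≤ volume (polarBody K) * r := by
  obtain ⟨N, l, i0, h0, hl, hv⟩ := slab_approx hn K hK r hr
  obtain ⟨G, hGm, hG1, hG2⟩ := integral_exp_support K hK
  have hG : ∀ (i : Fin n → Fin N) (s : Fin n → Bool) (c : Fin n → ℝ), (∀ a, 0 < c a) →
      G (∑ a, (c a * sg (s a)) • l (i a)) ≤ ∑ a, c a := by
    intro i s c hc
    apply hG1
    intro x hx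
    have e : ∑ b, (∑ a, (c a * sg (s a)) • l (i a)) b * x b =
        ∑ a, (c a * sg (s a)) * ∑ b, l (i a) b * x b := by
      simp only [Finset.sum_apply, Pi.smul_apply, smul_eq_mul, Finset.sum_mul, Finset.mul_sum]
      rw [Finset.sum_comm]
      exact Finset.sum_congr rfl fun a _ => Finset.sum_congr rfl fun b _ => by ring
    rw [e]
    refine Finset.sum_le_sum fun a _ => ?_
    have h1 := hl (i a) x hx
    have h2 : |sg (s a)| = 1 := by
      unfold sg
      split_ifs <;> simp
    calc (c a * sg (s a)) * ∑ b, l (i a) b * x b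
        ≤ |(c a * sg (s a)) * ∑ b, l (i a) b * x b| := le_abs_self _
      _ = c a * |∑ b, l (i a) b * x b| := by
          rw [abs_mul, abs_mul, h2, abs_of_pos (hc a), mul_one]
      _ ≤ c a * 1 := mul_le_mul_of_nonneg_left h1 (hc a).le
      _ = c a := mul_one _
  have h := mahler_fin l i0 h0 G hGm hG
  rw [hG2] at h
  have hf : (0 : ℝ) < (n.factorial : ℝ) := by exact_mod_cast n.factorial_pos
  rw [ENNReal.ofReal_div_of_pos hf, ENNReal.ofReal_natCast]
  apply ENNReal.div_le_of_le_mul
  calc ENNReal.ofReal (4 ^ n) ≤ n.factorial * volume (polarBody K) *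
        volume {x : Fin n → ℝ | ∀ k, |∑ c, l k c * x c| ≤ 1} := h
    _ ≤ n.factorial * volume (polarBody K) * r := mul_le_mul_right hv.le _
    _ = volume (polarBody K) * r * n.factorial := by ring

end GE3

/-- **Mahler's conjecture for symmetric bodies** -/
theorem mahler' {n : ℕ} (K : Set (EuclideanSpace ℝ (Fin n))) (hK : IsSymConvexBody K) :
    ENNReal.ofReal (4 ^ n / n.factorial) ≤ volume K * volume (polarBody K) := by
  rcases Nat.eq_zero_or_pos n with h0 | hn
  · subst h0
    exact GE3.mahler_zero K hK
  have hV0 : volume K ≠ 0 :=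
    (Measure.measure_pos_of_nonempty_interior volume hK.interior_nonempty).ne'
  have hV1 : volume K < ⊤ := hK.isCompact.measure_lt_top
  have hne : (𝓝[>] (volume K)).NeBot := nhdsGT_neBot_of_exists_gt ⟨⊤, hV1⟩
  have ht : Tendsto (fun r : ENNReal => volume (polarBody K) * r) (𝓝[>] (volume K))
      (𝓝 (volume (polarBody K) * volume K)) :=
    (ENNReal.Tendsto.const_mul tendsto_id (Or.inl hV0)).mono_left nhdsWithin_le_nhds
  rw [mul_comm]
  refine ge_of_tendsto ht ?_
  filter_upwards [self_mem_nhdsWithin] with r hr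
  exact GE3.key hn K hK r hr

end H3M
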