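import Pool.Agent.H3M.Defs
set_option autoImplicit false
noncomputable section
open MeasureTheory
namespace H3M
variable {n : ℕ}

namespace IBPaux

/-- `lf l0` as a continuous linear map -/
def lfL (l0 : Fin n → ℝ) : Ph n →L[ℝ] ℂ :=
  LinearMap.toContinuousLinearMap
    { toFun := lf l0
      map_add' := by
        intro x y
        apply Complex.ext
        · simp [lf, mul_add, Finset.sum_add_distrib]
        · simp [lf, mul_add, Finset.sum_add_distrib]
      map_smul' := by
        intro c x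
        apply Complex.ext
        · simp [lf, Finset.mul_sum, mul_left_comm]
        · simp [lf, Finset.mul_sum, mul_left_comm] }

theorem lfL_apply (l0 : Fin n → ℝ) (z : Ph n) : lfL l0 z = lf l0 z := rfl

/-- continuity forces `f = 0` also on the sphere -/
theorem zero_on {f : ℂ → ℂ} (hf : Continuous f) {R : ℝ} (hf0 : ∀ w, R < ‖w‖ → f w = 0) {w : ℂ}
    (hw : R ≤ ‖w‖) : f w = 0 := by
  obtain ⟨u, hu⟩ : ∃ u : ℂ, ∀ t : ℝ, 0 < t → ‖w‖ < ‖w + t * u‖ := by
    by_cases h : w = 0
    · refine ⟨1, fun t ht => ?_⟩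
      rw [h, norm_zero, zero_add, mul_one, Complex.norm_real]
      exact norm_pos_iff.mpr ht.ne'
    · refine ⟨w, fun t ht => ?_⟩
      have h1 : w + t * w = ((1 + t : ℝ) : ℂ) * w := by
        push_cast
        ring
      rw [h1, norm_mul, Complex.norm_real, Real.norm_of_nonneg (by linarith)]
      have h2 : 0 < ‖w‖ := norm_pos_iff.mpr h
      nlinarith
  have hc : Continuous (fun t : ℝ => f (w + t * u)) := hf.comp (by fun_prop)
  have h1 : Filter.Tendsto (fun t : ℝ => f (w + t * u)) (nhdsWithin 0 (Set.Ioi 0)) (nhds (f w)) := by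
    have h2 := (hc.tendsto 0).mono_left (nhdsWithin_le_nhds (s := Set.Ioi (0:ℝ)))
    simpa using h2
  have h3 : Filter.Tendsto (fun t : ℝ => f (w + t * u)) (nhdsWithin 0 (Set.Ioi 0)) (nhds 0) := by
    refine Filter.Tendsto.congr' ?_ tendsto_const_nhds
    filter_upwards [self_mem_nhdsWithin] with t ht
    exact (hf0 _ (hw.trans_lt (hu t ht))).symm
  exact tendsto_nhds_unique h1 h3

theorem fderiv_zero {f : ℂ → ℂ} {R : ℝ} (hf0 : ∀ w, R < ‖w‖ → f w = 0) {w : ℂ}
    (hw : R < ‖w‖) : fderiv ℝ f w = 0 := by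
  have h1 : f =ᶠ[nhds w] fun _ => 0 := by
    filter_upwards [(isOpen_lt continuous_const continuous_norm).mem_nhds hw] with w' hw'
    exact hf0 w' hw'
  rw [h1.fderiv_eq]
  simp

theorem fderiv_H_zero (l0 : Fin n → ℝ) {H : Ph n → ℝ} {R C : ℝ}
    (hH0 : ∀ z, C < ‖z‖ → ‖lf l0 z‖ ≤ R → H z = 0) {z : Ph n} (h1 : C < ‖z‖)
    (h2 : ‖lf l0 z‖ < R) : fderiv ℝ H z = 0 := by
  have h3 : H =ᶠ[nhds z] fun _ => 0 := by
    have h4 : IsOpen {z : Ph n | ‖lfL l0 z‖ < R} :=
      isOpen_lt ((lfL l0).continuous.norm) continuous_const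
    filter_upwards [(isOpen_lt continuous_const continuous_norm).mem_nhds h1, h4.mem_nhds h2]
      with z' a b
    exact hH0 z' a (le_of_lt b)
  rw [h3.fderiv_eq]
  simp

theorem int_of {F : Ph n → ℝ} (hF : Continuous F) (C : ℝ) (h : ∀ z, C < ‖z‖ → F z = 0) :
    Integrable F := by
  refine hF.integrable_of_hasCompactSupport ?_
  refine HasCompactSupport.intro (isCompact_closedBall (0 : Ph n) C) (fun z hz => ?_)
  rw [Metric.mem_closedBall, dist_zero_right, not_le] at hz
  exact h z hz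

/-- one direction; `c` is the real or imaginary part -/
theorem one_dir (l0 : Fin n → ℝ) (f : ℂ → ℂ) (hf : ContDiff ℝ 1 f)
    (H : Ph n → ℝ) (hH : ContDiff ℝ 1 H) (R C : ℝ) (hf0 : ∀ w, R < ‖w‖ → f w = 0)
    (hH0 : ∀ z, C < ‖z‖ → ‖lf l0 z‖ ≤ R → H z = 0) (c : ℂ →L[ℝ] ℝ) (v : Ph n) :
    Integrable (fun z : Ph n => H z * c (fderiv ℝ f (lf l0 z) (lf l0 v))) ∧
    Integrable (fun z : Ph n => fderiv ℝ H z v * c (f (lf l0 z))) ∧
    ∫ z : Ph n, H z * c (fderiv ℝ f (lf l0 z) (lf l0 v)) =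
      -∫ z : Ph n, fderiv ℝ H z v * c (f (lf l0 z)) := by
  have hlc : Continuous (fun z : Ph n => lf l0 z) := (lfL l0).continuous
  have hfd : Differentiable ℝ f := hf.differentiable (by norm_num)
  have hg : Differentiable ℝ (fun z : Ph n => c (f (lfL l0 z))) :=
    c.differentiable.comp (hfd.comp (lfL l0).differentiable)
  have hg' : ∀ z, fderiv ℝ (fun z : Ph n => c (f (lfL l0 z))) z v =
      c (fderiv ℝ f (lf l0 z) (lf l0 v)) := by
    intro z
    have h1 : HasFDerivAt (fun z : Ph n => c (f (lfL l0 z)))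
        (c.comp ((fderiv ℝ f (lfL l0 z)).comp (lfL l0))) z :=
      c.hasFDerivAt.comp z ((hfd (lfL l0 z)).hasFDerivAt.comp z (lfL l0).hasFDerivAt)
    rw [h1.fderiv]
    rfl
  have hfc : Continuous (fun z : Ph n => fderiv ℝ f (lf l0 z) (lf l0 v)) :=
    ((hf.continuous_fderiv (by norm_num)).comp hlc).clm_apply continuous_const
  have hHc : Continuous (fun z : Ph n => fderiv ℝ H z v) :=
    (hH.continuous_fderiv (by norm_num)).clm_apply continuous_const
  have i1 : Integrable (fun z : Ph n => H z * c (fderiv ℝ f (lf l0 z) (lf l0 v))) := by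
    refine int_of (hH.continuous.mul (c.continuous.comp hfc)) C (fun z hz => ?_)
    rcases le_or_gt ‖lf l0 z‖ R with h | h
    · rw [hH0 z hz h, zero_mul]
    · rw [fderiv_zero hf0 h]
      simp
  have i2 : Integrable (fun z : Ph n => fderiv ℝ H z v * c (f (lf l0 z))) := by
    refine int_of (hHc.mul (c.continuous.comp (hf.continuous.comp hlc))) C (fun z hz => ?_)
    rcases lt_or_ge ‖lf l0 z‖ R with h | h
    · rw [fderiv_H_zero l0 hH0 hz h]
      simp
    · rw [zero_on hf.continuous hf0 h]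
      simp
  have i3 : Integrable (fun z : Ph n => H z * c (f (lf l0 z))) := by
    refine int_of (hH.continuous.mul (c.continuous.comp (hf.continuous.comp hlc))) C
      (fun z hz => ?_)
    rcases le_or_gt ‖lf l0 z‖ R with h | h
    · rw [hH0 z hz h, zero_mul]
    · rw [hf0 _ h]
      simp
  refine ⟨i1, i2, ?_⟩
  have hH' : (volume : Measure (Ph n)).IsAddHaarMeasure :=
    MeasureTheory.Measure.prod.instIsAddHaarMeasure volume volume
  have key := integral_mul_fderiv_eq_neg_fderiv_mul_of_integrable (μ := (volume : Measure (Ph n)))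
    (f := H) (g := fun z : Ph n => c (f (lfL l0 z))) (v := v) i2
    (by simp only [hg']; exact i1) i3 (fun x _ => hH.differentiable (by norm_num) x)
    (fun x _ => hg x)
  simp only [hg'] at key
  exact key

end IBPaux

open IBPaux in
/-- integration by parts along the two directions `(e,0)`, `(0,e)` dual to the form `l0` -/
theorem ibp (l0 e : Fin n → ℝ) (he : ∑ c, l0 c * e c = 1) (f : ℂ → ℂ) (hf : ContDiff ℝ 1 f)
    (H : Ph n → ℝ) (hH : ContDiff ℝ 1 H) (R C : ℝ) (hf0 : ∀ w, R < ‖w‖ → f w = 0)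
    (hH0 : ∀ z, C < ‖z‖ → ‖lf l0 z‖ ≤ R → H z = 0) :
    ∫ z, H z * ((fderiv ℝ f (lf l0 z) 1).re + (fderiv ℝ f (lf l0 z) Complex.I).im) =
      -∫ z, dot (f (lf l0 z)) ⟨fderiv ℝ H z (e, 0), fderiv ℝ H z (0, e)⟩ := by
  have e1 : lf l0 ((e, 0) : Ph n) = 1 := by
    apply Complex.ext
    · simp [lf, he]
    · simp [lf]
  have e2 : lf l0 ((0, e) : Ph n) = Complex.I := by
    apply Complex.ext
    · simp [lf]
    · simp [lf, he]
  obtain ⟨a1, a2, a3⟩ := one_dir l0 f hf H hH R C hf0 hH0 Complex.reCLM ((e, 0) : Ph n)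
  obtain ⟨b1, b2, b3⟩ := one_dir l0 f hf H hH R C hf0 hH0 Complex.imCLM ((0, e) : Ph n)
  rw [e1] at a1 a3
  rw [e2] at b1 b3
  have h1 : (fun z : Ph n => H z * ((fderiv ℝ f (lf l0 z) 1).re +
      (fderiv ℝ f (lf l0 z) Complex.I).im)) = fun z : Ph n =>
      H z * Complex.reCLM (fderiv ℝ f (lf l0 z) 1) +
        H z * Complex.imCLM (fderiv ℝ f (lf l0 z) Complex.I) := by
    funext z
    rw [Complex.reCLM_apply, Complex.imCLM_apply]
    ring
  have h2 : (fun z : Ph n => dot (f (lf l0 z)) ⟨fderiv ℝ H z (e, 0), fderiv ℝ H z (0, e)⟩) =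
      fun z : Ph n => fderiv ℝ H z (e, 0) * Complex.reCLM (f (lf l0 z)) +
        fderiv ℝ H z (0, e) * Complex.imCLM (f (lf l0 z)) := by
    funext z
    rw [Complex.reCLM_apply, Complex.imCLM_apply, dot]
    ring
  rw [h1, h2, integral_add a1 b1, integral_add a2 b2, a3, b3]
  ring

end H3M
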