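import Pool.Agent.H3M.Defs
set_option autoImplicit false
noncomputable section
namespace H3M
variable {n N : ℕ}

/-- the first column is a combination of the others -/
theorem Lam_lf (l : Fin N → Fin n → ℝ) (j : Fin (n + 1) → Fin N) (z : Ph n) :
    Lam l j (fun b => lf (l (j b)) z) = 0 := by
  sorry

/-- permuting the rows -/
theorem Lam_perm (l : Fin N → Fin n → ℝ) (j : Fin (n + 1) → Fin N) (y : Fin (n + 1) → ℂ)
    (σ : Equiv.Perm (Fin (n + 1))) :
    Lam l (j ∘ σ) (y ∘ σ) = ((Equiv.Perm.sign σ : ℤ) : ℂ) * Lam l j y := by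
  sorry

/-- expansion along the first column -/
theorem Lam_expand (l : Fin N → Fin n → ℝ) (j : Fin (n + 1) → Fin N) (y : Fin (n + 1) → ℂ) :
    Lam l j y = ∑ b : Fin (n + 1), (-1) ^ (b : ℕ) * y b *
      ((dt l (fun a => j (b.succAbove a)) : ℝ) : ℂ) := by
  sorry

theorem Lam_smul (l : Fin N → Fin n → ℝ) (j : Fin (n + 1) → Fin N) (y y' : Fin (n + 1) → ℂ)
    (c c' : ℂ) : Lam l j (fun b => c * y b + c' * y' b) = c * Lam l j y + c' * Lam l j y' := by
  sorry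

/-- the dual basis -/
theorem exists_dual (l : Fin N → Fin n → ℝ) (i : Fin n → Fin N) (h : dt l i ≠ 0) :
    ∃ e : Fin n → Fin n → ℝ, ∀ a b, ∑ c, l (i b) c * e a c = if a = b then 1 else 0 := by
  sorry

theorem Lam_cons (l : Fin N → Fin n → ℝ) (i : Fin n → Fin N) (k : Fin N)
    (e : Fin n → Fin n → ℝ) (he : ∀ a b, ∑ c, l (i b) c * e a c = if a = b then 1 else 0)
    (y : Fin (n + 1) → ℂ) :
    Lam l (Fin.cons k i) y =
      ((dt l i : ℝ) : ℂ) * (y 0 - ∑ a, ((∑ c, l k c * e a c : ℝ) : ℂ) * y a.succ) := by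
  sorry

/-- a spanning tuple bounds `z` -/
theorem bdd_of_dt (l : Fin N → Fin n → ℝ) (i : Fin n → Fin N) (h : dt l i ≠ 0) (R : ℝ) :
    ∃ C : ℝ, ∀ z : Ph n, (∀ a, ‖lf (l (i a)) z‖ ≤ R) → ‖z‖ ≤ C := by
  sorry

end H3M
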