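import Pool.Agent.H3M.Defs
set_option autoImplicit false
noncomputable section
namespace H3M
variable {n N : ℕ}

/-- the first column is a combination of the others -/
theorem Lam_lf' (l : Fin N → Fin n → ℝ) (j : Fin (n + 1) → Fin N) (z : Ph n) :
    Lam l j (fun b => lf (l (j b)) z) = 0 := by
  unfold Lam
  rw [← Matrix.exists_mulVec_eq_zero_iff]
  refine ⟨(Fin.cons (-1) (fun a => (z.1 a : ℂ) + (z.2 a : ℂ) * Complex.I) : Fin (n + 1) → ℂ),
    ?_, ?_⟩
  · intro h
    have h0 := congrFun h 0
    rw [Fin.cons_zero] at h0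
    simp at h0
  · funext b
    rw [Matrix.mulVec, dotProduct, Fin.sum_univ_succ]
    simp only [Matrix.of_apply, Fin.cons_zero, Fin.cons_succ, Pi.zero_apply]
    have e1 : lf (l (j b)) z = ∑ a, ((l (j b) a : ℝ) : ℂ) *
        ((z.1 a : ℂ) + (z.2 a : ℂ) * Complex.I) := by
      apply Complex.ext
      · unfold lf
        rw [Complex.re_sum]
        show (∑ a, l (j b) a * z.1 a) = _
        apply Finset.sum_congr rfl
        intro a _
        simp
      · unfold lf
        rw [Complex.im_sum]
        show (∑ a, l (j b) a * z.2 a) = _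
        apply Finset.sum_congr rfl
        intro a _
        simp
    rw [e1]
    ring

/-- permuting the rows -/
theorem Lam_perm' (l : Fin N → Fin n → ℝ) (j : Fin (n + 1) → Fin N) (y : Fin (n + 1) → ℂ)
    (σ : Equiv.Perm (Fin (n + 1))) :
    Lam l (j ∘ σ) (y ∘ σ) = ((Equiv.Perm.sign σ : ℤ) : ℂ) * Lam l j y := by
  unfold Lam
  rw [← Matrix.det_permute]
  rfl

/-- expansion along the first column -/
theorem Lam_expand' (l : Fin N → Fin n → ℝ) (j : Fin (n + 1) → Fin N) (y : Fin (n + 1) → ℂ) :
    Lam l j y = ∑ b : Fin (n + 1), (-1) ^ (b : ℕ) * y b *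
      ((dt l (fun a => j (b.succAbove a)) : ℝ) : ℂ) := by
  unfold Lam
  rw [Matrix.det_succ_column_zero]
  refine Finset.sum_congr rfl fun b _ => ?_
  congr 1
  unfold dt
  have e := RingHom.map_det Complex.ofRealHom
    (Matrix.of fun a : Fin n => l (j (b.succAbove a)))
  rw [Complex.ofRealHom_eq_coe] at e
  rw [e]
  congr 1

theorem Lam_smul' (l : Fin N → Fin n → ℝ) (j : Fin (n + 1) → Fin N) (y y' : Fin (n + 1) → ℂ)
    (c c' : ℂ) : Lam l j (fun b => c * y b + c' * y' b) = c * Lam l j y + c' * Lam l j y' := by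
  rw [Lam_expand', Lam_expand', Lam_expand', Finset.mul_sum, Finset.mul_sum,
    ← Finset.sum_add_distrib]
  refine Finset.sum_congr rfl fun b _ => ?_
  ring

end H3M
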