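import Pool.Agent.H3M.Defs

/-!
# Task LA2: dual basis and the determinant `Lam` of an extended tuple
-/

set_option autoImplicit false
noncomputable section
namespace H3M
variable {n N : ℕ}

/-- the dual basis -/
theorem exists_dual' (l : Fin N → Fin n → ℝ) (i : Fin n → Fin N) (h : dt l i ≠ 0) :
    ∃ e : Fin n → Fin n → ℝ, ∀ a b, ∑ c, l (i b) c * e a c = if a = b then 1 else 0 := by
  obtain ⟨M, hM⟩ : ∃ M : Matrix (Fin n) (Fin n) ℝ, M = Matrix.of fun a => l (i a) := ⟨_, rfl⟩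
  have hdet : IsUnit M.det := by
    rw [hM]
    exact isUnit_iff_ne_zero.2 h
  refine ⟨fun a c => M⁻¹ c a, fun a b => ?_⟩
  have h1 := Matrix.mul_nonsing_inv M hdet
  have h2 := congrFun (congrFun h1 b) a
  rw [Matrix.mul_apply, Matrix.one_apply] at h2
  have h3 : ∀ c, M b c = l (i b) c := fun c => by rw [hM]; rfl
  simp only [h3] at h2
  rw [h2]
  simp only [eq_comm]

theorem dual_left {l : Fin N → Fin n → ℝ} {i : Fin n → Fin N} {e : Fin n → Fin n → ℝ}
    (he : ∀ a b, ∑ c, l (i b) c * e a c = if a = b then 1 else 0) (c c' : Fin n) :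
    ∑ a, e a c * l (i a) c' = if c = c' then 1 else 0 := by
  have h1 : (Matrix.of fun a => l (i a)) * (Matrix.of e).transpose = 1 := by
    ext b a
    rw [Matrix.mul_apply, Matrix.one_apply]
    simp only [Matrix.transpose_apply, Matrix.of_apply]
    rw [he a b]
    simp only [eq_comm]
  have h2 := mul_eq_one_comm.1 h1
  have h3 := congrFun (congrFun h2 c) c'
  rw [Matrix.mul_apply, Matrix.one_apply] at h3
  exact h3

theorem dual_comb {l : Fin N → Fin n → ℝ} {i : Fin n → Fin N} {e : Fin n → Fin n → ℝ}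
    (he : ∀ a b, ∑ c, l (i b) c * e a c = if a = b then 1 else 0) (v : Fin n → ℝ) (c' : Fin n) :
    ∑ a, (∑ c, v c * e a c) * l (i a) c' = v c' := by
  calc ∑ a, (∑ c, v c * e a c) * l (i a) c' = ∑ a, ∑ c, v c * (e a c * l (i a) c') := by
        refine Finset.sum_congr rfl fun a _ => ?_
        rw [Finset.sum_mul]
        exact Finset.sum_congr rfl fun c _ => by ring
    _ = ∑ c, v c * ∑ a, e a c * l (i a) c' := by
        rw [Finset.sum_comm]
        exact Finset.sum_congr rfl fun c _ => by rw [Finset.mul_sum]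
    _ = v c' := by
        simp only [dual_left he, mul_ite, mul_one, mul_zero, Finset.sum_ite_eq', Finset.mem_univ,
          if_true]

theorem Lam_cons' (l : Fin N → Fin n → ℝ) (i : Fin n → Fin N) (k : Fin N)
    (e : Fin n → Fin n → ℝ) (he : ∀ a b, ∑ c, l (i b) c * e a c = if a = b then 1 else 0)
    (y : Fin (n + 1) → ℂ) :
    Lam l (Fin.cons k i) y =
      ((dt l i : ℝ) : ℂ) * (y 0 - ∑ a, ((∑ c, l k c * e a c : ℝ) : ℂ) * y a.succ) := by
  obtain ⟨A, hA⟩ : ∃ A : Matrix (Fin (n + 1)) (Fin (n + 1)) ℂ, A = Matrix.of fun b : Fin (n + 1) =>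
    (Fin.cons (y b) (fun a => ((l ((Fin.cons k i : Fin (n + 1) → Fin N) b) a : ℝ) : ℂ)) :
      Fin (n + 1) → ℂ) := ⟨_, rfl⟩
  obtain ⟨cf, hcf⟩ : ∃ cf : Fin (n + 1) → ℂ,
      cf = Fin.cons 1 (fun a => -((∑ c, l k c * e a c : ℝ) : ℂ)) := ⟨_, rfl⟩
  have h1 : Lam l (Fin.cons k i) y = A.det := by rw [hA]; rfl
  have h2 := Matrix.det_updateRow_sum A 0 cf
  have h3 : cf 0 = 1 := by rw [hcf]; rfl
  rw [h3, one_smul] at h2
  have e0 : ∀ b, A b 0 = y b := fun b => by rw [hA]; rfl
  have e1 : ∀ c : Fin n, A 0 c.succ = ((l k c : ℝ) : ℂ) := fun c => by rw [hA]; rfl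
  have e2 : ∀ a c : Fin n, A a.succ c.succ = ((l (i a) c : ℝ) : ℂ) := fun a c => by rw [hA]; rfl
  have r0 : (∑ k, cf k • A k) 0 = y 0 - ∑ a, ((∑ c, l k c * e a c : ℝ) : ℂ) * y a.succ := by
    rw [Finset.sum_apply, Fin.sum_univ_succ]
    simp only [Pi.smul_apply, smul_eq_mul, e0, h3, one_mul]
    rw [sub_eq_add_neg, ← Finset.sum_neg_distrib]
    congr 1
    refine Finset.sum_congr rfl fun a _ => ?_
    rw [hcf, Fin.cons_succ]
    ring
  have r1 : ∀ c : Fin n, (∑ k, cf k • A k) c.succ = 0 := by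
    intro c
    rw [Finset.sum_apply, Fin.sum_univ_succ]
    simp only [Pi.smul_apply, smul_eq_mul, e1, e2, h3, one_mul]
    have h4 := dual_comb he (l k) c
    have h5 : ∑ a : Fin n, cf a.succ * ((l (i a) c : ℝ) : ℂ) = -((l k c : ℝ) : ℂ) := by
      rw [← h4]
      push_cast
      rw [← Finset.sum_neg_distrib]
      refine Finset.sum_congr rfl fun a _ => ?_
      rw [hcf, Fin.cons_succ]
      push_cast
      ring
    rw [h5]
    ring
  obtain ⟨U, hU⟩ : ∃ U, U = A.updateRow 0 (∑ k, cf k • A k) := ⟨_, rfl⟩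
  rw [← hU] at h2
  have h6 : ∀ c : Fin n, U 0 c.succ = 0 := by
    intro c
    rw [hU, Matrix.updateRow_self]
    exact r1 c
  have h7 : U 0 0 = y 0 - ∑ a, ((∑ c, l k c * e a c : ℝ) : ℂ) * y a.succ := by
    rw [hU, Matrix.updateRow_self]
    exact r0
  have h8 : (U.submatrix Fin.succ (Fin.succAbove 0)).det = ((dt l i : ℝ) : ℂ) := by
    unfold dt
    have h9 : ((Matrix.det (Matrix.of fun a => l (i a)) : ℝ) : ℂ) =
        ((Matrix.of fun a => l (i a)).map (fun x : ℝ => (x : ℂ))).det :=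
      RingHom.map_det Complex.ofRealHom _
    rw [h9]
    congr 1
    ext a c
    rw [Matrix.submatrix_apply, hU, Matrix.updateRow_ne (Fin.succ_ne_zero a),
      Fin.succAbove_zero, e2]
    rfl
  rw [h1, ← h2, Matrix.det_succ_row_zero, Fin.sum_univ_succ]
  have hz : ∑ c : Fin n, (-1) ^ ((Fin.succ c : Fin (n + 1)) : ℕ) * U 0 c.succ *
      (U.submatrix Fin.succ c.succ.succAbove).det = 0 :=
    Finset.sum_eq_zero (fun c _ => by rw [h6 c]; ring)
  rw [hz, add_zero, h7, h8]
  simp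
  ring

/-- a spanning tuple bounds `z` -/
theorem bdd_of_dt' (l : Fin N → Fin n → ℝ) (i : Fin n → Fin N) (h : dt l i ≠ 0) (R : ℝ) :
    ∃ C : ℝ, ∀ z : Ph n, (∀ a, ‖lf (l (i a)) z‖ ≤ R) → ‖z‖ ≤ C := by
  obtain ⟨e, he⟩ := exists_dual' l i h
  refine ⟨∑ c, ∑ a, |R| * |e a c|, fun z hz => ?_⟩
  have h0 : 0 ≤ ∑ c, ∑ a, |R| * |e a c| := by positivity
  have key : ∀ x : Fin n → ℝ, (∀ a, |∑ c, l (i a) c * x c| ≤ |R|) → ∀ c,
      ‖x c‖ ≤ ∑ c, ∑ a, |R| * |e a c| := by
    intro x hx c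
    have h1 : x c = ∑ a, (∑ c', l (i a) c' * x c') * e a c := by
      calc x c = ∑ c', (if c = c' then 1 else 0) * x c' := by simp
        _ = ∑ c', (∑ a, e a c * l (i a) c') * x c' := by
            refine Finset.sum_congr rfl fun c' _ => ?_
            rw [dual_left he c c']
        _ = ∑ a, (∑ c', l (i a) c' * x c') * e a c := by
            simp only [Finset.sum_mul]
            rw [Finset.sum_comm]
            exact Finset.sum_congr rfl fun a _ => Finset.sum_congr rfl fun c' _ => by ring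
    rw [Real.norm_eq_abs, h1]
    calc |∑ a, (∑ c', l (i a) c' * x c') * e a c| ≤
          ∑ a, |(∑ c', l (i a) c' * x c') * e a c| := Finset.abs_sum_le_sum_abs _ _
      _ ≤ ∑ a, |R| * |e a c| := by
          refine Finset.sum_le_sum fun a _ => ?_
          rw [abs_mul]
          exact mul_le_mul_of_nonneg_right (hx a) (abs_nonneg _)
      _ ≤ ∑ c, ∑ a, |R| * |e a c| :=
          Finset.single_le_sum (f := fun c => ∑ a, |R| * |e a c|)
            (fun c _ => by positivity) (Finset.mem_univ c)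
  rw [Prod.norm_def, max_le_iff]
  constructor
  · rw [pi_norm_le_iff_of_nonneg h0]
    refine key z.1 fun a => ?_
    have h1 := (Complex.abs_re_le_norm (lf (l (i a)) z)).trans ((hz a).trans (le_abs_self R))
    exact h1
  · rw [pi_norm_le_iff_of_nonneg h0]
    refine key z.2 fun a => ?_
    have h1 := (Complex.abs_im_le_norm (lf (l (i a)) z)).trans ((hz a).trans (le_abs_self R))
    exact h1

end H3M
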