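import Pool.Agent.H3M.Defs
set_option autoImplicit false
noncomputable section
open MeasureTheory
namespace H3M
variable {n N : ℕ}

/-- product of functions of one coordinate -/
theorem lc1_lintegral_pi {E : Type} [MeasureSpace E] [SigmaFinite (volume : Measure E)]
    (n : ℕ) (g : Fin n → E → ENNReal) (hg : ∀ a, Measurable (g a)) :
    ∫⁻ x : Fin n → E, ∏ a, g a (x a) = ∏ a, ∫⁻ w : E, g a w := by
  induction n with
  | zero =>
    simp only [Finset.univ_eq_empty, Finset.prod_empty, lintegral_one]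
    rw [volume_pi, Measure.pi_univ]
    simp
  | succ n ih =>
    have e := (volume_preserving_piFinSuccAbove (fun _ : Fin (n + 1) => E) 0).symm
    rw [← e.lintegral_comp_emb (MeasurableEquiv.measurableEmbedding _)]
    have h1 : ∀ p : E × (Fin n → E), ∏ a, g a
        ((MeasurableEquiv.piFinSuccAbove (fun _ : Fin (n + 1) => E) 0).symm p a) =
        g 0 p.1 * ∏ a : Fin n, g a.succ (p.2 a) := by
      intro p
      rw [Fin.prod_univ_succ]
      rfl
    simp_rw [h1]
    have hm : Measurable fun x : Fin n → E => ∏ a : Fin n, g a.succ (x a) :=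
      Finset.measurable_prod _ fun a _ => (hg a.succ).comp (measurable_pi_apply a)
    rw [Measure.volume_eq_prod]
    rw [lintegral_prod_mul (hg 0).aemeasurable hm.aemeasurable, ih _ fun a => hg a.succ,
      Fin.prod_univ_succ]

/-- linear change of variables in `ℝⁿ` -/
theorem lc1_matrix (M : Matrix (Fin n) (Fin n) ℝ) (hM : M.det ≠ 0) (F : (Fin n → ℝ) → ENNReal)
    (hF : Measurable F) :
    ENNReal.ofReal |M.det| * ∫⁻ x : Fin n → ℝ, F (M.mulVec x) = ∫⁻ x : Fin n → ℝ, F x := by
  have h1 := Real.map_matrix_volume_pi_eq_smul_volume_pi hM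
  have h2 : ∫⁻ x : Fin n → ℝ, F (M.mulVec x) =
      ENNReal.ofReal |M.det⁻¹| * ∫⁻ x : Fin n → ℝ, F x := by
    have h3 : ∫⁻ x : Fin n → ℝ, F (Matrix.toLin' M x) =
        ∫⁻ x, F x ∂(Measure.map (Matrix.toLin' M) volume) := by
      rw [lintegral_map hF]
      exact (LinearMap.continuous_of_finiteDimensional _).measurable
    rw [h1, lintegral_smul_measure] at h3
    simpa [Matrix.toLin'_apply] using h3
  rw [h2, ← mul_assoc, ← ENNReal.ofReal_mul (abs_nonneg _), abs_inv,
    mul_inv_cancel₀ (abs_ne_zero.2 hM), ENNReal.ofReal_one, one_mul]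

/-- linear change of variables `z ↦ (w_{i a}(z))_a` -/
theorem lin_change' (l : Fin N → Fin n → ℝ) (i : Fin n → Fin N) (h : dt l i ≠ 0)
    (g : Fin n → ℂ → ENNReal) (hg : ∀ a, Measurable (g a)) :
    ENNReal.ofReal ((dt l i) ^ 2) * ∫⁻ z : Ph n, ∏ a, g a (lf (l (i a)) z) =
      ∏ a, ∫⁻ w : ℂ, g a w := by
  set M : Matrix (Fin n) (Fin n) ℝ := Matrix.of fun a => l (i a) with hMdef
  have hdet : M.det = dt l i := rfl
  have hM : M.det ≠ 0 := h
  set H : Ph n → ENNReal := fun z => ∏ a, g a ⟨z.1 a, z.2 a⟩ with hH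
  have hmk : Measurable fun p : ℝ × ℝ => (⟨p.1, p.2⟩ : ℂ) :=
    Complex.measurableEquivRealProd.symm.measurable
  have hHm : Measurable H := by
    refine Finset.measurable_prod _ fun a _ => ?_
    refine (hg a).comp (hmk.comp (f := fun z : Ph n => (z.1 a, z.2 a)) ?_)
    exact ((measurable_pi_apply a).comp measurable_fst).prodMk
      ((measurable_pi_apply a).comp measurable_snd)
  have e1 : ∀ z : Ph n, ∏ a, g a (lf (l (i a)) z) = H (M.mulVec z.1, M.mulVec z.2) := by
    intro z
    rfl
  have hMm : Measurable fun x : Fin n → ℝ => M.mulVec x := by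
    have h0 := (LinearMap.continuous_of_finiteDimensional (Matrix.toLin' M)).measurable
    have h1 : (fun x : Fin n → ℝ => M.mulVec x) = Matrix.toLin' M := by
      funext x
      exact (Matrix.toLin'_apply M x).symm
    rw [h1]
    exact h0
  have e2 : ENNReal.ofReal ((dt l i) ^ 2) * ∫⁻ z : Ph n, H (M.mulVec z.1, M.mulVec z.2) =
      ∫⁻ z : Ph n, H z := by
    have hm1 : Measurable fun z : Ph n => H (M.mulVec z.1, M.mulVec z.2) :=
      hHm.comp ((hMm.comp measurable_fst).prodMk (hMm.comp measurable_snd))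
    rw [Measure.volume_eq_prod, lintegral_prod _ hm1.aemeasurable, lintegral_prod _ hHm.aemeasurable]
    have hsq : ENNReal.ofReal ((dt l i) ^ 2) = ENNReal.ofReal |M.det| * ENNReal.ofReal |M.det| := by
      rw [← ENNReal.ofReal_mul (abs_nonneg _), ← hdet, abs_mul_abs_self, sq]
    rw [hsq, mul_assoc]
    have hG : Measurable fun u : Fin n → ℝ => ∫⁻ v : Fin n → ℝ, H (u, v) :=
      hHm.lintegral_prod_right'
    rw [← lc1_matrix M hM _ hG]
    congr 1
    rw [← lintegral_const_mul _ ?_]
    · refine lintegral_congr fun x => ?_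
      exact lc1_matrix M hM (fun v => H (M.mulVec x, v)) (hHm.comp measurable_prodMk_left)
    · exact hm1.lintegral_prod_right'
  simp_rw [e1]
  rw [e2]
  have e3 := volume_measurePreserving_arrowProdEquivProdArrow ℝ ℝ (Fin n)
  rw [← e3.lintegral_comp_emb (MeasurableEquiv.measurableEmbedding _)]
  have e4 : ∀ w : Fin n → ℝ × ℝ, H (MeasurableEquiv.arrowProdEquivProdArrow ℝ ℝ (Fin n) w) =
      ∏ a, g a ⟨(w a).1, (w a).2⟩ := fun w => rfl
  simp_rw [e4]
  rw [lc1_lintegral_pi n (fun a (p : ℝ × ℝ) => g a ⟨p.1, p.2⟩) fun a => (hg a).comp hmk]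
  refine Finset.prod_congr rfl fun a _ => ?_
  rw [← Complex.volume_preserving_equiv_real_prod.symm.lintegral_comp_emb
    (MeasurableEquiv.measurableEmbedding _)]
  rfl

end H3M
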