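import Pool.Agent.H3M.Defs
set_option autoImplicit false
noncomputable section
open MeasureTheory Set
namespace H3M

theorem lc2_dF_nonneg {φ : ℝ → ℝ} {a b : ℝ} (hφ : Prof φ a b) (x : ℝ) : 0 ≤ dF φ x := by
  have : deriv φ x ≤ 0 := hφ.anti.deriv_nonpos
  unfold dF; linarith

theorem lc2_dF_cont {φ : ℝ → ℝ} {a b : ℝ} (hφ : Prof φ a b) : Continuous (dF φ) := by
  have h : Continuous (deriv φ) := hφ.smooth.continuous_deriv (by norm_num)
  unfold dF; exact continuous_const.mul h

theorem lc2_dF_zero_le {φ : ℝ → ℝ} {a b : ℝ} (hφ : Prof φ a b) {x : ℝ} (hx : x < a) :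
    dF φ x = 0 := by
  have : φ =ᶠ[nhds x] fun _ => 1 := by
    filter_upwards [Iio_mem_nhds hx] with y hy
    exact hφ.one y (le_of_lt hy)
  have h2 : deriv φ x = 0 := by rw [this.deriv_eq]; simp
  unfold dF; rw [h2]; simp

theorem lc2_rad_int {φ : ℝ → ℝ} {a b : ℝ} (hφ : Prof φ a b) :
    ∫⁻ r in Ioi (0 : ℝ), ENNReal.ofReal (r * dF φ (r ^ 2)) = 1 := by
  have hd : ∀ x ∈ Ici (0 : ℝ), HasDerivAt (fun r : ℝ => - φ (r ^ 2)) (x * dF φ (x ^ 2)) x := by
    intro x _
    have h1 : HasDerivAt φ (deriv φ (x ^ 2)) (x ^ 2) :=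
      ((hφ.smooth.differentiable (by norm_num)) _).hasDerivAt
    have h2 : HasDerivAt (fun r : ℝ => r ^ 2) (2 * x) x := by
      simpa using hasDerivAt_pow 2 x
    have h4 : HasDerivAt (fun r : ℝ => φ (r ^ 2)) (deriv φ (x ^ 2) * (2 * x)) x :=
      HasDerivAt.comp x (h := fun r : ℝ => r ^ 2) h1 h2
    have h3 := h4.neg
    refine h3.congr_deriv ?_
    unfold dF; ring
  have hpos : ∀ x ∈ Ioi (0 : ℝ), 0 ≤ x * dF φ (x ^ 2) := fun x hx =>
    mul_nonneg (le_of_lt hx) (lc2_dF_nonneg hφ _)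
  have ht : Filter.Tendsto (fun r : ℝ => - φ (r ^ 2)) Filter.atTop (nhds 0) := by
    have : (fun _ : ℝ => (0 : ℝ)) =ᶠ[Filter.atTop] fun r : ℝ => - φ (r ^ 2) := by
      filter_upwards [Filter.eventually_ge_atTop (max 1 b)] with r hr
      have h1 : 1 ≤ r := le_trans (le_max_left _ _) hr
      have h2 : b ≤ r := le_trans (le_max_right _ _) hr
      rw [hφ.zero (r ^ 2) (by nlinarith)]; simp
    exact Filter.Tendsto.congr' this tendsto_const_nhds
  have hI := integral_Ioi_of_hasDerivAt_of_nonneg' hd hpos ht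
  have hi := integrableOn_Ioi_deriv_of_nonneg' hd hpos ht
  have h0 : φ 0 = 1 := hφ.one 0 (le_of_lt hφ.ha)
  rw [← ofReal_integral_eq_lintegral_ofReal hi
    (by
      filter_upwards [ae_restrict_mem measurableSet_Ioi] with x hx
      exact hpos x hx), hI]
  simp [h0]

/-- the mass of a radial density -/
theorem mass_disc' (φ : ℝ → ℝ) (a b : ℝ) (hφ : Prof φ a b) :
    ∫⁻ w : ℂ, ENNReal.ofReal (dF φ (‖w‖ ^ 2)) = ENNReal.ofReal (2 * Real.pi) := by
  have hm : Measurable fun r : ℝ => ENNReal.ofReal (r * dF φ (r ^ 2)) :=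
    (continuous_id.mul ((lc2_dF_cont hφ).comp (continuous_pow 2))).measurable.ennreal_ofReal
  rw [← Complex.lintegral_comp_polarCoord_symm]
  have h1 : ∫⁻ p in polarCoord.target, ENNReal.ofReal p.1 •
      ENNReal.ofReal (dF φ (‖Complex.polarCoord.symm p‖ ^ 2)) =
      ∫⁻ p in Ioi (0 : ℝ) ×ˢ Ioo (-Real.pi) Real.pi,
        ENNReal.ofReal (p.1 * dF φ (p.1 ^ 2)) * 1 := by
    refine setLIntegral_congr_fun (measurableSet_Ioi.prod measurableSet_Ioo) ?_
    intro p hp
    have hp1 : 0 < p.1 := hp.1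
    simp only [Complex.norm_polarCoord_symm, sq_abs, smul_eq_mul, mul_one]
    rw [ENNReal.ofReal_mul hp1.le]
  rw [h1, Measure.volume_eq_prod, ← Measure.prod_restrict,
    lintegral_prod_mul (f := fun r : ℝ => ENNReal.ofReal (r * dF φ (r ^ 2)))
      (g := fun _ : ℝ => (1 : ENNReal)) hm.aemeasurable aemeasurable_const, lc2_rad_int hφ]
  simp only [lintegral_const, Measure.restrict_apply MeasurableSet.univ, univ_inter,
    Real.volume_Ioo, one_mul]
  congr 1; ring

theorem lc2_sin_lower {t : ℝ} (h1 : -Real.pi ≤ t) (h2 : t ≤ Real.pi) :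
    2 / Real.pi * |t| ≤ |Real.sin t| ∨ 2 / Real.pi * (Real.pi - |t|) ≤ |Real.sin t| := by
  have hs : |Real.sin t| = Real.sin |t| := by
    rcases le_total 0 t with h | h
    · rw [abs_of_nonneg h, abs_of_nonneg (Real.sin_nonneg_of_nonneg_of_le_pi h h2)]
    · rw [abs_of_nonpos h, Real.sin_neg,
        abs_of_nonpos (Real.sin_nonpos_of_nonpos_of_neg_pi_le h h1)]
  have hta : |t| ≤ Real.pi := abs_le.2 ⟨h1, h2⟩
  rcases le_total |t| (Real.pi / 2) with h | h
  · left
    rw [hs]; exact Real.mul_le_sin (abs_nonneg _) h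
  · right
    rw [hs, ← Real.sin_pi_sub]
    exact Real.mul_le_sin (by linarith) (by linarith)

theorem lc2_angle_vol {r δ : ℝ} (hr : 0 < r) (hδ : 0 < δ) :
    (volume.restrict (Ioo (-Real.pi) Real.pi)) {t : ℝ | |r * Real.sin t| < δ} ≤
      ENNReal.ofReal (2 * Real.pi * δ / r) := by
  have hpi := Real.pi_pos
  set c : ℝ := Real.pi * δ / (2 * r) with hc
  have hcpos : 0 < c := by positivity
  have hmeas : MeasurableSet {t : ℝ | |r * Real.sin t| < δ} :=
    (isOpen_lt (by fun_prop) continuous_const).measurableSet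
  rw [Measure.restrict_apply hmeas]
  have hsub : {t : ℝ | |r * Real.sin t| < δ} ∩ Ioo (-Real.pi) Real.pi ⊆
      Ioo (-c) c ∪ (Ioo (Real.pi - c) Real.pi ∪ Ioo (-Real.pi) (-Real.pi + c)) := by
    rintro t ⟨ht, h1, h2⟩
    have ht' : r * |Real.sin t| < δ := by
      have : |r * Real.sin t| < δ := ht
      rwa [abs_mul, abs_of_pos hr] at this
    have key : ∀ x : ℝ, 2 / Real.pi * x ≤ |Real.sin t| → x < c := by
      intro x hx
      have h3 : r * (2 / Real.pi * x) < δ := lt_of_le_of_lt (mul_le_mul_of_nonneg_left hx hr.le) ht'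
      rw [hc, lt_div_iff₀ (by positivity)]
      have h4 : r * (2 / Real.pi * x) * Real.pi < δ * Real.pi := mul_lt_mul_of_pos_right h3 hpi
      have h5 : r * (2 / Real.pi * x) * Real.pi = x * (2 * r) := by field_simp
      linarith
    rcases lc2_sin_lower h1.le h2.le with h | h
    · left
      have := key _ h
      exact abs_lt.1 this
    · right
      have h3 := key _ h
      rcases le_total 0 t with h0 | h0
      · left
        rw [abs_of_nonneg h0] at h3
        exact ⟨by linarith, h2⟩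
      · right
        rw [abs_of_nonpos h0] at h3
        exact ⟨h1, by linarith⟩
  refine le_trans (measure_mono hsub) ?_
  refine le_trans (measure_union_le _ _) ?_
  refine le_trans (add_le_add le_rfl (measure_union_le _ _)) ?_
  rw [Real.volume_Ioo, Real.volume_Ioo, Real.volume_Ioo, ← ENNReal.ofReal_add (by linarith) (by linarith),
    ← ENNReal.ofReal_add (by linarith) (by linarith)]
  apply ENNReal.ofReal_le_ofReal
  rw [hc]
  apply le_of_eq
  field_simp
  ring

/-- the mass of a radial density near the real axis -/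
theorem mass_strip' (φ : ℝ → ℝ) (a b : ℝ) (hφ : Prof φ a b) (δ : ℝ) (hδ : 0 < δ) :
    ∫⁻ w : ℂ, (if |w.im| < δ then ENNReal.ofReal (dF φ (‖w‖ ^ 2)) else 0) ≤
      ENNReal.ofReal (2 * Real.pi * δ / Real.sqrt a) := by
  have hpi := Real.pi_pos
  have hsa : 0 < Real.sqrt a := Real.sqrt_pos.2 hφ.ha
  have hcon : Continuous fun r : ℝ => r * dF φ (r ^ 2) :=
    continuous_id.mul ((lc2_dF_cont hφ).comp (continuous_pow 2))
  have hm : Measurable fun r : ℝ => ENNReal.ofReal (r * dF φ (r ^ 2)) :=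
    hcon.measurable.ennreal_ofReal
  rw [← Complex.lintegral_comp_polarCoord_symm]
  have h1 : ∫⁻ p in polarCoord.target, ENNReal.ofReal p.1 •
      (if |(Complex.polarCoord.symm p).im| < δ then
        ENNReal.ofReal (dF φ (‖Complex.polarCoord.symm p‖ ^ 2)) else 0) =
      ∫⁻ p in Ioi (0 : ℝ) ×ˢ Ioo (-Real.pi) Real.pi,
        (if |p.1 * Real.sin p.2| < δ then ENNReal.ofReal (p.1 * dF φ (p.1 ^ 2)) else 0) := by
    refine setLIntegral_congr_fun (measurableSet_Ioi.prod measurableSet_Ioo) ?_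
    intro p hp
    have hp1 : 0 < p.1 := hp.1
    have him : (Complex.polarCoord.symm p).im = p.1 * Real.sin p.2 := by
      rw [Complex.polarCoord_symm_apply]
      simp [Complex.cos_ofReal_im, Complex.sin_ofReal_re]
    simp only [Complex.norm_polarCoord_symm, sq_abs, smul_eq_mul, him]
    split_ifs
    · rw [ENNReal.ofReal_mul hp1.le]
    · simp
  have hms : Measurable fun p : ℝ × ℝ =>
      (if |p.1 * Real.sin p.2| < δ then ENNReal.ofReal (p.1 * dF φ (p.1 ^ 2)) else 0) := by
    refine Measurable.ite ?_ ?_ measurable_const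
    · exact (isOpen_lt (by fun_prop) continuous_const).measurableSet
    · exact hm.comp measurable_fst
  rw [h1, Measure.volume_eq_prod, ← Measure.prod_restrict,
    lintegral_prod _ hms.aemeasurable]
  have h2 : ∀ r ∈ Ioi (0 : ℝ), (∫⁻ t in Ioo (-Real.pi) Real.pi,
      (if |r * Real.sin t| < δ then ENNReal.ofReal (r * dF φ (r ^ 2)) else 0)) ≤
      ENNReal.ofReal (2 * Real.pi * δ / Real.sqrt a) * ENNReal.ofReal (r * dF φ (r ^ 2)) := by
    intro r hr
    have hr0 : 0 < r := hr
    have hmeas : MeasurableSet {t : ℝ | |r * Real.sin t| < δ} :=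
      (isOpen_lt (by fun_prop) continuous_const).measurableSet
    have e1 : (∫⁻ t in Ioo (-Real.pi) Real.pi,
      (if |r * Real.sin t| < δ then ENNReal.ofReal (r * dF φ (r ^ 2)) else 0)) =
        ENNReal.ofReal (r * dF φ (r ^ 2)) *
        (volume.restrict (Ioo (-Real.pi) Real.pi)) {t : ℝ | |r * Real.sin t| < δ} := by
      rw [← lintegral_indicator_const hmeas]
      rfl
    rw [e1]
    rcases lt_or_ge (r ^ 2) a with h | h
    · rw [lc2_dF_zero_le hφ h]; simp
    · rw [mul_comm]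
      refine mul_le_mul' ?_ le_rfl
      refine le_trans (lc2_angle_vol hr0 hδ) ?_
      apply ENNReal.ofReal_le_ofReal
      have : Real.sqrt a ≤ r := Real.sqrt_le_iff.2 ⟨hr0.le, h⟩
      exact div_le_div_of_nonneg_left (by positivity) hsa this
  refine le_trans (setLIntegral_mono (by exact (measurable_const.mul hm)) h2) ?_
  rw [lintegral_const_mul _ hm, lc2_rad_int hφ, mul_one]

end H3M
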