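import Pool.Agent.H3M.Defs
set_option autoImplicit false
noncomputable section
namespace H3M

/-- `p` on `O` -/
def pO (φ : ℝ → ℝ) (ε : ℝ) (X : ℝ → ℂ → ℂ) (t : ℝ) (w : ℂ) : ℝ := φ (‖X t w‖ ^ 2) + ε

/-- `ρ` on `O` -/
def rO (φ : ℝ → ℝ) (X Xw : ℝ → ℂ → ℂ) (t : ℝ) (w : ℂ) : ℝ :=
  dF φ (‖X t w‖ ^ 2) * ‖Xw t w‖ ^ 2

/-- `m` on `O` -/
def mO (φ : ℝ → ℝ) (ε : ℝ) (X Xw : ℝ → ℂ → ℂ) (t : ℝ) (w : ℂ) : ℝ :=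
  rO φ X Xw t w / pO φ ε X t w

/-- the time derivative of `ρ` on `O` -/
def rtO (φ : ℝ → ℝ) (X Xw Xt Xwt : ℝ → ℂ → ℂ) (t : ℝ) (w : ℂ) : ℝ :=
  deriv (dF φ) (‖X t w‖ ^ 2) * (2 * dot (X t w) (Xt t w)) * ‖Xw t w‖ ^ 2 +
    dF φ (‖X t w‖ ^ 2) * (2 * dot (Xw t w) (Xwt t w))

/-- the divergence `-∂ₜ m` on `O` -/
def DO (φ : ℝ → ℝ) (ε : ℝ) (X Xw Xt Xwt : ℝ → ℂ → ℂ) (t : ℝ) (w : ℂ) : ℝ :=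
  -(rtO φ X Xw Xt Xwt t w * pO φ ε X t w +
    rO φ X Xw t w * (dF φ (‖X t w‖ ^ 2) * dot (X t w) (Xt t w))) / pO φ ε X t w ^ 2

end H3M
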