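import Pool.Agent.H3M.Defs
import Pool.Agent.H3M.PXdefs
set_option autoImplicit false
noncomputable section
open Filter Topology Set
namespace H3M

theorem Prof.nonneg {φ : ℝ → ℝ} {a b : ℝ} (h : Prof φ a b) (x : ℝ) : 0 ≤ φ x := by
  have h1 := h.anti (le_max_left x b)
  rw [h.zero _ (le_max_right x b)] at h1
  exact h1

theorem Prof.dF_smooth {φ : ℝ → ℝ} {a b : ℝ} (h : Prof φ a b) : ContDiff ℝ 2 (dF φ) := by
  have h1 : ContDiff ℝ 2 (deriv φ) := by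
    have h2 : ContDiff ℝ ((2 : ℕ) + (1 : ℕ)) φ := by
      have := h.smooth
      norm_cast at this ⊢
    simpa using ContDiff.iterate_deriv' 2 1 h2
  exact contDiff_const.mul h1

theorem Prof.dF_cont {φ : ℝ → ℝ} {a b : ℝ} (h : Prof φ a b) : Continuous (dF φ) :=
  h.dF_smooth.continuous

theorem Prof.ddF_cont {φ : ℝ → ℝ} {a b : ℝ} (h : Prof φ a b) : Continuous (deriv (dF φ)) :=
  h.dF_smooth.continuous_deriv (by norm_num)

theorem Prof.cont {φ : ℝ → ℝ} {a b : ℝ} (h : Prof φ a b) : Continuous φ := h.smooth.continuous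

theorem Prof.ev_zero {φ : ℝ → ℝ} {a b : ℝ} (h : Prof φ a b) {x : ℝ} (hx : b < x) :
    φ =ᶠ[𝓝 x] fun _ => 0 := by
  filter_upwards [lt_mem_nhds hx] with y hy
  exact h.zero y hy.le

theorem Prof.dF_zero {φ : ℝ → ℝ} {a b : ℝ} (h : Prof φ a b) {x : ℝ} (hx : b < x) :
    dF φ x = 0 := by
  rw [dF, (h.ev_zero hx).deriv_eq]
  simp

theorem Prof.ddF_zero {φ : ℝ → ℝ} {a b : ℝ} (h : Prof φ a b) {x : ℝ} (hx : b < x) :
    deriv (dF φ) x = 0 := by
  have h1 : dF φ =ᶠ[𝓝 x] fun _ => 0 := by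
    filter_upwards [lt_mem_nhds hx] with y hy
    exact h.dF_zero hy
  rw [h1.deriv_eq]
  simp

section

variable {φ : ℝ → ℝ} {a b : ℝ} {X Xw Xt Xwt Xww : ℝ → ℂ → ℂ} {O : Set (ℝ × ℂ)} {ε : ℝ}

theorem pO_pos (hφ : Prof φ a b) (hε : 0 < ε) (t : ℝ) (w : ℂ) : 0 < pO φ ε X t w :=
  add_pos_of_nonneg_of_pos (hφ.nonneg _) hε

theorem pX_nonneg (hφ : Prof φ a b) (t : ℝ) (w : ℂ) : 0 ≤ pX φ X O t w := by
  unfold pX
  split_ifs
  · exact hφ.nonneg _
  · exact le_rfl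

theorem pX_of_mem {t : ℝ} {w : ℂ} (h : (t, w) ∈ O) : pX φ X O t w + ε = pO φ ε X t w := by
  rw [pX, if_pos h, pO]

theorem rX_of_mem {t : ℝ} {w : ℂ} (h : (t, w) ∈ O) : rX φ X Xw O t w = rO φ X Xw t w := by
  rw [rX, if_pos h, rO]

theorem mX_of_mem {t : ℝ} {w : ℂ} (h : (t, w) ∈ O) :
    rX φ X Xw O t w / (pX φ X O t w + ε) = mO φ ε X Xw t w := by
  rw [rX_of_mem h, pX_of_mem h, mO]

open Classical in
/-- the divergence, glued -/
def DX (φ : ℝ → ℝ) (ε : ℝ) (X Xw Xt Xwt : ℝ → ℂ → ℂ) (O : Set (ℝ × ℂ)) (t : ℝ) (w : ℂ) : ℝ :=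
  if (t, w) ∈ O then DO φ ε X Xw Xt Xwt t w else 0

theorem px_out (hφ : Prof φ a b) {T : Set ℝ}
    (hcl : ∀ x ∈ closure {x : ℝ × ℂ | x ∈ O ∧ ‖X x.1 x.2‖ ^ 2 ≤ b}, x.1 ∈ T → x ∈ O)
    {x : ℝ × ℂ} (hx : x.1 ∈ T) (hO : x ∉ O) :
    ∀ᶠ y in 𝓝 x, pX φ X O y.1 y.2 = 0 ∧ rX φ X Xw O y.1 y.2 = 0 ∧
      DX φ ε X Xw Xt Xwt O y.1 y.2 = 0 := by
  have h1 : x ∉ closure {x : ℝ × ℂ | x ∈ O ∧ ‖X x.1 x.2‖ ^ 2 ≤ b} := fun h => hO (hcl x h hx)
  have h2 := isClosed_closure.isOpen_compl.mem_nhds h1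
  filter_upwards [h2] with y hy
  have hy' : y ∉ {x : ℝ × ℂ | x ∈ O ∧ ‖X x.1 x.2‖ ^ 2 ≤ b} := fun h => hy (subset_closure h)
  by_cases hyO : (y.1, y.2) ∈ O
  · have hb : b < ‖X y.1 y.2‖ ^ 2 := by
      by_contra hle
      exact hy' ⟨hyO, not_lt.1 hle⟩
    refine ⟨?_, ?_, ?_⟩
    · rw [pX, if_pos hyO]
      exact hφ.zero _ hb.le
    · rw [rX, if_pos hyO, hφ.dF_zero hb, zero_mul]
    · rw [DX, if_pos hyO, DO, rtO, rO, hφ.dF_zero hb, hφ.ddF_zero hb]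
      simp
  · refine ⟨?_, ?_, ?_⟩
    · rw [pX, if_neg hyO]
    · rw [rX, if_neg hyO]
    · rw [DX, if_neg hyO]

theorem px_cont {F : Type} [TopologicalSpace F] {f g : ℝ × ℂ → F} {c : F} {T : Set ℝ}
    (hO : IsOpen O)
    (hg : ContinuousOn g O) (hfg : ∀ x ∈ O, f x = g x)
    (hout : ∀ x : ℝ × ℂ, x.1 ∈ T → x ∉ O → ∀ᶠ y in 𝓝 x, f y = c) :
    ContinuousOn f (T ×ˢ Set.univ) := by
  intro x hx
  apply ContinuousAt.continuousWithinAt
  by_cases hxO : x ∈ O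
  · have h1 : ContinuousAt g x := hg.continuousAt (hO.mem_nhds hxO)
    refine h1.congr ?_
    filter_upwards [hO.mem_nhds hxO] with y hy
    exact (hfg y hy).symm
  · have h1 : ContinuousAt (fun _ : ℝ × ℂ => c) x := continuousAt_const
    refine h1.congr ?_
    filter_upwards [hout x hx.1 hxO] with y hy
    exact hy.symm

theorem dot_cont {f g : ℝ × ℂ → ℂ} {s : Set (ℝ × ℂ)} (hf : ContinuousOn f s)
    (hg : ContinuousOn g s) : ContinuousOn (fun x => dot (f x) (g x)) s := by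
  unfold dot
  exact ((Complex.continuous_re.comp_continuousOn hf).mul
    (Complex.continuous_re.comp_continuousOn hg)).add
    ((Complex.continuous_im.comp_continuousOn hf).mul
    (Complex.continuous_im.comp_continuousOn hg))

theorem pO_contOn (hφ : Prof φ a b) (hX : XD X Xw Xt Xwt Xww O) :
    ContinuousOn (fun x : ℝ × ℂ => pO φ ε X x.1 x.2) O :=
  (hφ.cont.comp_continuousOn (hX.c0.norm.pow 2)).add continuousOn_const

theorem rO_contOn (hφ : Prof φ a b) (hX : XD X Xw Xt Xwt Xww O) :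
    ContinuousOn (fun x : ℝ × ℂ => rO φ X Xw x.1 x.2) O :=
  (hφ.dF_cont.comp_continuousOn (hX.c0.norm.pow 2)).mul (hX.cw.norm.pow 2)

theorem mO_contOn (hφ : Prof φ a b) (hX : XD X Xw Xt Xwt Xww O) (hε : 0 < ε) :
    ContinuousOn (fun x : ℝ × ℂ => mO φ ε X Xw x.1 x.2) O :=
  (rO_contOn hφ hX).div (pO_contOn hφ hX) fun _ _ => (pO_pos hφ hε _ _).ne'

theorem rtO_contOn (hφ : Prof φ a b) (hX : XD X Xw Xt Xwt Xww O) :
    ContinuousOn (fun x : ℝ × ℂ => rtO φ X Xw Xt Xwt x.1 x.2) O :=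
  (((hφ.ddF_cont.comp_continuousOn (hX.c0.norm.pow 2)).mul
    (continuousOn_const.mul (dot_cont hX.c0 hX.ct))).mul (hX.cw.norm.pow 2)).add
    ((hφ.dF_cont.comp_continuousOn (hX.c0.norm.pow 2)).mul
    (continuousOn_const.mul (dot_cont hX.cw hX.cwt)))

theorem DO_contOn (hφ : Prof φ a b) (hX : XD X Xw Xt Xwt Xww O) (hε : 0 < ε) :
    ContinuousOn (fun x : ℝ × ℂ => DO φ ε X Xw Xt Xwt x.1 x.2) O :=
  (((rtO_contOn hφ hX).mul (pO_contOn hφ hX)).add ((rO_contOn hφ hX).mul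
    ((hφ.dF_cont.comp_continuousOn (hX.c0.norm.pow 2)).mul
    (dot_cont hX.c0 hX.ct)))).neg.div ((pO_contOn hφ hX).pow 2) fun _ _ =>
    (pow_pos (pO_pos hφ hε _ _) 2).ne'

/-! smoothness in `w` -/

theorem px_slice (hX : XD X Xw Xt Xwt Xww O) (t : ℝ) : IsOpen {w : ℂ | (t, w) ∈ O} :=
  hX.isOpen.preimage (continuous_const.prodMk continuous_id)

theorem X_smooth (hX : XD X Xw Xt Xwt Xww O) {t : ℝ} {w : ℂ} (h : (t, w) ∈ O) :
    ContDiffAt ℂ 1 (X t) w := by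
  have h1 : DifferentiableOn ℂ (X t) {w : ℂ | (t, w) ∈ O} := fun w' hw' =>
    (hX.hw t w' hw').differentiableAt.differentiableWithinAt
  exact (h1.contDiffOn (px_slice hX t)).contDiffAt ((px_slice hX t).mem_nhds h)

theorem Xw_smooth (hX : XD X Xw Xt Xwt Xww O) {t : ℝ} {w : ℂ} (h : (t, w) ∈ O) :
    ContDiffAt ℂ 1 (Xw t) w := by
  have h1 : DifferentiableOn ℂ (Xw t) {w : ℂ | (t, w) ∈ O} := fun w' hw' =>
    (hX.hww t w' hw').differentiableAt.differentiableWithinAt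
  exact (h1.contDiffOn (px_slice hX t)).contDiffAt ((px_slice hX t).mem_nhds h)

theorem Xt_smooth (hX : XD X Xw Xt Xwt Xww O) {t : ℝ} {w : ℂ} (h : (t, w) ∈ O) :
    ContDiffAt ℂ 1 (Xt t) w := by
  have h1 : DifferentiableOn ℂ (Xt t) {w : ℂ | (t, w) ∈ O} := fun w' hw' =>
    (hX.htw t w' hw').differentiableAt.differentiableWithinAt
  exact (h1.contDiffOn (px_slice hX t)).contDiffAt ((px_slice hX t).mem_nhds h)

theorem pO_smooth (hφ : Prof φ a b) (hX : XD X Xw Xt Xwt Xww O) {t : ℝ} {w : ℂ}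
    (h : (t, w) ∈ O) : ContDiffAt ℝ 1 (pO φ ε X t) w := by
  have h1 : ContDiffAt ℝ 1 (fun w => ‖X t w‖ ^ 2) w :=
    ((X_smooth hX h).restrict_scalars ℝ).norm_sq ℝ
  have h2 : ContDiff ℝ 1 φ := hφ.smooth.of_le (by norm_num)
  exact (h2.contDiffAt.comp w h1).add contDiffAt_const

theorem rO_smooth (hφ : Prof φ a b) (hX : XD X Xw Xt Xwt Xww O) {t : ℝ} {w : ℂ}
    (h : (t, w) ∈ O) : ContDiffAt ℝ 1 (rO φ X Xw t) w := by
  have h1 : ContDiffAt ℝ 1 (fun w => ‖X t w‖ ^ 2) w :=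
    ((X_smooth hX h).restrict_scalars ℝ).norm_sq ℝ
  have h3 : ContDiffAt ℝ 1 (fun w => ‖Xw t w‖ ^ 2) w :=
    ((Xw_smooth hX h).restrict_scalars ℝ).norm_sq ℝ
  have h2 : ContDiff ℝ 1 (dF φ) := hφ.dF_smooth.of_le (by norm_num)
  exact (h2.contDiffAt.comp w h1).mul h3

theorem mO_smooth (hφ : Prof φ a b) (hX : XD X Xw Xt Xwt Xww O) (hε : 0 < ε) {t : ℝ} {w : ℂ}
    (h : (t, w) ∈ O) : ContDiffAt ℝ 1 (mO φ ε X Xw t) w :=
  (rO_smooth hφ hX h).div (pO_smooth hφ hX h) (pO_pos hφ hε _ _).ne'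

theorem v_smooth (hX : XD X Xw Xt Xwt Xww O) {t : ℝ} {w : ℂ}
    (h : (t, w) ∈ O) : ContDiffAt ℝ 1 (fun w => -(Xt t w) / Xw t w) w :=
  ((Xt_smooth hX h).neg.div (Xw_smooth hX h) (hX.ne t w h)).restrict_scalars ℝ

theorem mv_smooth (hφ : Prof φ a b) (hX : XD X Xw Xt Xwt Xww O) (hε : 0 < ε) {t : ℝ} {w : ℂ}
    (h : (t, w) ∈ O) :
    ContDiffAt ℝ 1 (fun w => (mO φ ε X Xw t w : ℂ) * (-(Xt t w) / Xw t w)) w :=
  (Complex.ofRealCLM.contDiff.contDiffAt.comp w (mO_smooth hφ hX hε h)).mul (v_smooth hX h)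

theorem dot_qv (X Xw Xt : ℂ) (h : Xw ≠ 0) (r : ℝ) :
    (r * ‖Xw‖ ^ 2) * dot (X / Xw) (-Xt / Xw) = -(r * dot X Xt) := by
  have h1 : Complex.normSq Xw ≠ 0 := by simpa using h
  have h2 : Complex.normSq Xw = Xw.re * Xw.re + Xw.im * Xw.im := Complex.normSq_apply Xw
  rw [Complex.sq_norm, dot, dot, Complex.div_re, Complex.div_im, Complex.div_re, Complex.div_im,
    Complex.neg_re, Complex.neg_im]
  have h3 : Xw.re ^ 2 + Xw.im ^ 2 ≠ 0 := by
    rw [h2] at h1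
    intro h4
    apply h1
    rw [← h4]
    ring
  rw [h2, ← pow_two, ← pow_two]
  field_simp
  ring

/-- assembly from the pointwise identities -/
theorem flow_of_X_aux (φ : ℝ → ℝ) (a b : ℝ) (hφ : Prof φ a b) (X Xw Xt Xwt Xww : ℝ → ℂ → ℂ)
    (O : Set (ℝ × ℂ)) (hX : XD X Xw Xt Xwt Xww O) (T : Set ℝ)
    (hcl : ∀ x ∈ closure {x : ℝ × ℂ | x ∈ O ∧ ‖X x.1 x.2‖ ^ 2 ≤ b}, x.1 ∈ T → x ∈ O)
    (R : ℝ) (hR : ∀ t ∈ T, ∀ w, (t, w) ∈ O → ‖X t w‖ ^ 2 ≤ b → ‖w‖ ≤ R) (ε : ℝ) (hε : 0 < ε)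
    (pO_t : ∀ t w, (t, w) ∈ O → HasDerivAt (fun s => pO φ ε X s w)
      (-(dF φ (‖X t w‖ ^ 2) * dot (X t w) (Xt t w))) t)
    (mO_t : ∀ t w, (t, w) ∈ O → HasDerivAt (fun s => mO φ ε X Xw s w)
      (-(DO φ ε X Xw Xt Xwt t w)) t)
    (pO_w : ∀ t w, (t, w) ∈ O → DifferentiableAt ℝ (pO φ ε X t) w ∧
      ∀ h, fderiv ℝ (pO φ ε X t) w h = -(rO φ X Xw t w * dot (X t w / Xw t w) h))
    (DO_eq : ∀ t w, (t, w) ∈ O → DO φ ε X Xw Xt Xwt t w =
      (fderiv ℝ (fun w => (mO φ ε X Xw t w : ℂ) * (-(Xt t w) / Xw t w)) w 1).re +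
      (fderiv ℝ (fun w => (mO φ ε X Xw t w : ℂ) * (-(Xt t w) / Xw t w)) w Complex.I).im) :
    ∃ Dv : ℝ → ℂ → ℝ, Flow (fun t w => pX φ X O t w + ε)
      (fun t w => rX φ X Xw O t w / (pX φ X O t w + ε))
      (fun t w => X t w / Xw t w) (fun t w => -(Xt t w) / Xw t w) Dv T R := by
  have hXw : ContinuousOn (fun x : ℝ × ℂ => X x.1 x.2 / Xw x.1 x.2) O :=
    hX.c0.div hX.cw fun x hx => hX.ne x.1 x.2 hx
  have hv : ContinuousOn (fun x : ℝ × ℂ => -(Xt x.1 x.2) / Xw x.1 x.2) O :=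
    hX.ct.neg.div hX.cw fun x hx => hX.ne x.1 x.2 hx
  have hsl : ∀ t w, (t, w) ∈ O → ∀ᶠ w' in 𝓝 w, (t, w') ∈ O := fun t w h =>
    (px_slice hX t).mem_nhds h
  have htl : ∀ t w, (t, w) ∈ O → ∀ᶠ s in 𝓝 t, (s, w) ∈ O := fun t w h =>
    (hX.isOpen.preimage (continuous_id.prodMk continuous_const)).mem_nhds h
  have hout : ∀ t ∈ T, ∀ w, (t, w) ∉ O → ∀ᶠ y : ℝ × ℂ in 𝓝 (t, w), pX φ X O y.1 y.2 = 0 ∧
      rX φ X Xw O y.1 y.2 = 0 ∧ DX φ ε X Xw Xt Xwt O y.1 y.2 = 0 := fun t ht w h =>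
    px_out hφ hcl ht h
  have houtw : ∀ t ∈ T, ∀ w, (t, w) ∉ O → ∀ᶠ w' in 𝓝 w, pX φ X O t w' = 0 ∧
      rX φ X Xw O t w' = 0 ∧ DX φ ε X Xw Xt Xwt O t w' = 0 := fun t ht w h =>
    (continuous_const.prodMk continuous_id).continuousAt.eventually (hout t ht w h)
  have houtt : ∀ t ∈ T, ∀ w, (t, w) ∉ O → ∀ᶠ s in 𝓝 t, pX φ X O s w = 0 ∧
      rX φ X Xw O s w = 0 ∧ DX φ ε X Xw Xt Xwt O s w = 0 := fun t ht w h =>
    (continuous_id.prodMk continuous_const).continuousAt.eventually (hout t ht w h)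
  refine ⟨DX φ ε X Xw Xt Xwt O, ?_⟩
  constructor
  · -- pos
    intro t _ w
    exact add_pos_of_nonneg_of_pos (pX_nonneg hφ t w) hε
  · -- p_cont
    refine px_cont (c := ε) hX.isOpen (pO_contOn (ε := ε) hφ hX) (fun x hx => pX_of_mem hx) ?_
    intro x hxT hxO
    filter_upwards [hout x.1 hxT x.2 hxO] with y hy
    rw [hy.1, zero_add]
  · -- m_cont
    refine px_cont (c := 0) hX.isOpen (mO_contOn (ε := ε) hφ hX hε) (fun x hx => mX_of_mem hx) ?_
    intro x hxT hxO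
    filter_upwards [hout x.1 hxT x.2 hxO] with y hy
    rw [hy.2.1, zero_div]
  · -- s_cont
    refine px_cont (c := 0) hX.isOpen ((mO_contOn (ε := ε) hφ hX hε).mul (dot_cont hXw hv))
      (fun x hx => ?_) ?_
    · rw [mX_of_mem hx]
      rfl
    · intro x hxT hxO
      filter_upwards [hout x.1 hxT x.2 hxO] with y hy
      rw [hy.2.1, zero_div, zero_mul]
  · -- D_cont
    refine px_cont (c := 0) hX.isOpen (DO_contOn (ε := ε) hφ hX hε)
      (fun x hx => ?_) ?_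
    · rw [DX, if_pos hx]
    · intro x hxT hxO
      filter_upwards [hout x.1 hxT x.2 hxO] with y hy
      exact hy.2.2
  · -- r_cont
    intro t ht
    rw [continuous_iff_continuousAt]
    intro w
    by_cases h : (t, w) ∈ O
    · have h1 : ContinuousAt (fun w : ℂ => ((mO φ ε X Xw t w : ℝ) : ℂ) * (X t w / Xw t w)) w :=
        ((Complex.continuous_ofReal.continuousAt.comp (mO_smooth hφ hX hε h).continuousAt).mul
          ((X_smooth hX h).continuousAt.div (Xw_smooth hX h).continuousAt (hX.ne t w h)))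
      refine h1.congr ?_
      filter_upwards [hsl t w h] with w' hw'
      rw [mX_of_mem hw']
    · have h1 : ContinuousAt (fun _ : ℂ => (0 : ℂ)) w := continuousAt_const
      refine h1.congr ?_
      filter_upwards [houtw t ht w h] with w' hw'
      rw [hw'.2.1, zero_div, Complex.ofReal_zero, zero_mul]
  · -- m_w
    intro t ht
    rw [contDiff_iff_contDiffAt]
    intro w
    by_cases h : (t, w) ∈ O
    · refine (mO_smooth (ε := ε) hφ hX hε h).congr_of_eventuallyEq ?_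
      filter_upwards [hsl t w h] with w' hw'
      rw [mX_of_mem hw']
    · refine (contDiffAt_const (c := (0 : ℝ))).congr_of_eventuallyEq ?_
      filter_upwards [houtw t ht w h] with w' hw'
      rw [hw'.2.1, zero_div]
  · -- u_w
    intro t ht
    rw [contDiff_iff_contDiffAt]
    intro w
    by_cases h : (t, w) ∈ O
    · refine (mv_smooth (ε := ε) hφ hX hε h).congr_of_eventuallyEq ?_
      filter_upwards [hsl t w h] with w' hw'
      rw [mX_of_mem hw']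
    · refine (contDiffAt_const (c := (0 : ℂ))).congr_of_eventuallyEq ?_
      filter_upwards [houtw t ht w h] with w' hw'
      rw [hw'.2.1, zero_div, Complex.ofReal_zero, zero_mul]
  · -- p_t
    intro t ht w
    by_cases h : (t, w) ∈ O
    · have h1 := pO_t t w h
      have h2 : (pX φ X O t w + ε) * (rX φ X Xw O t w / (pX φ X O t w + ε) *
          dot (X t w / Xw t w) (-(Xt t w) / Xw t w)) =
          -(dF φ (‖X t w‖ ^ 2) * dot (X t w) (Xt t w)) := by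
        rw [← dot_qv _ _ _ (hX.ne t w h), ← mul_assoc, mul_div_cancel₀, rX_of_mem h, rO]
        rw [pX_of_mem h]
        exact (pO_pos hφ hε _ _).ne'
      rw [h2]
      refine h1.congr_of_eventuallyEq ?_
      filter_upwards [htl t w h] with s hs
      rw [pX_of_mem hs]
    · have h0 := (houtt t ht w h).self_of_nhds
      rw [h0.2.1, zero_div, zero_mul, mul_zero]
      refine (hasDerivAt_const t ε).congr_of_eventuallyEq ?_
      filter_upwards [houtt t ht w h] with s hs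
      rw [hs.1, zero_add]
  · -- m_t
    intro t ht w
    by_cases h : (t, w) ∈ O
    · have h1 := mO_t t w h
      rw [DX, if_pos h]
      refine h1.congr_of_eventuallyEq ?_
      filter_upwards [htl t w h] with s hs
      rw [mX_of_mem hs]
    · have h0 := (houtt t ht w h).self_of_nhds
      rw [h0.2.2, neg_zero]
      refine (hasDerivAt_const t (0 : ℝ)).congr_of_eventuallyEq ?_
      filter_upwards [houtt t ht w h] with s hs
      rw [hs.2.1, zero_div]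
  · -- p_w
    intro t ht w
    by_cases h : (t, w) ∈ O
    · obtain ⟨h1, h2⟩ := pO_w t w h
      have h3 : (fun w => pX φ X O t w + ε) =ᶠ[𝓝 w] pO φ ε X t := by
        filter_upwards [hsl t w h] with w' hw'
        rw [pX_of_mem hw']
      refine ⟨h1.congr_of_eventuallyEq h3, fun k => ?_⟩
      rw [h3.fderiv_eq, h2 k, ← mul_assoc, mul_div_cancel₀, rX_of_mem h]
      rw [pX_of_mem h]
      exact (pO_pos hφ hε _ _).ne'
    · have h3 : (fun w => pX φ X O t w + ε) =ᶠ[𝓝 w] fun _ => ε := by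
        filter_upwards [houtw t ht w h] with w' hw'
        rw [hw'.1, zero_add]
      refine ⟨(differentiableAt_const ε).congr_of_eventuallyEq h3, fun k => ?_⟩
      have h0 := (houtw t ht w h).self_of_nhds
      rw [h3.fderiv_eq, h0.2.1, zero_div, zero_mul, mul_zero, neg_zero]
      simp
  · -- div_eq
    intro t ht w
    by_cases h : (t, w) ∈ O
    · have h3 : (fun w => ((rX φ X Xw O t w / (pX φ X O t w + ε) : ℝ) : ℂ) *
          (-(Xt t w) / Xw t w)) =ᶠ[𝓝 w]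
          fun w => (mO φ ε X Xw t w : ℂ) * (-(Xt t w) / Xw t w) := by
        filter_upwards [hsl t w h] with w' hw'
        rw [mX_of_mem hw']
      rw [h3.fderiv_eq, DX, if_pos h]
      exact DO_eq t w h
    · have h3 : (fun w => ((rX φ X Xw O t w / (pX φ X O t w + ε) : ℝ) : ℂ) *
          (-(Xt t w) / Xw t w)) =ᶠ[𝓝 w] fun _ => (0 : ℂ) := by
        filter_upwards [houtw t ht w h] with w' hw'
        rw [hw'.2.1, zero_div, Complex.ofReal_zero, zero_mul]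
      rw [h3.fderiv_eq, DX, if_neg h]
      simp
  · -- supp
    intro t ht w hw
    by_cases h : (t, w) ∈ O
    · have hb : b < ‖X t w‖ ^ 2 := by
        by_contra hle
        exact absurd (hR t ht w h (not_lt.1 hle)) (not_le.2 hw)
      rw [rX, if_pos h, hφ.dF_zero hb, zero_mul, zero_div]
    · rw [rX, if_neg h, zero_div]

end

end H3M
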