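import Pool.Agent.H3M.Defs
import Pool.Agent.H3M.PXdefs
import Pool.Agent.H3M.PXb
set_option autoImplicit false
noncomputable section
open Filter Topology Set
namespace H3M

section

variable {φ : ℝ → ℝ} {a b : ℝ} {X Xw Xt Xwt Xww : ℝ → ℂ → ℂ} {O : Set (ℝ × ℂ)} {ε : ℝ}

theorem hasDerivAt_normsq {x : ℝ → ℂ} {x' : ℂ} {s : ℝ} (hx : HasDerivAt x x' s) :
    HasDerivAt (fun s => ‖x s‖ ^ 2) (2 * dot (x s) x') s := by
  have h1 := hx.norm_sq
  have h2 : inner ℝ (x s) x' = dot (x s) x' := by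
    rw [Complex.inner, dot, Complex.mul_re, Complex.conj_re, Complex.conj_im]
    ring
  rw [h2] at h1
  exact h1

theorem curve_p (hφ : Prof φ a b) {x : ℝ → ℂ} {x' : ℂ} {s : ℝ} (hx : HasDerivAt x x' s) :
    HasDerivAt (fun s => φ (‖x s‖ ^ 2) + ε) (-(dF φ (‖x s‖ ^ 2) * dot (x s) x')) s := by
  have h1 : HasDerivAt φ (deriv φ (‖x s‖ ^ 2)) (‖x s‖ ^ 2) :=
    (hφ.smooth.differentiable (by norm_num)).differentiableAt.hasDerivAt
  have h2 := (h1.comp s (hasDerivAt_normsq hx)).add_const ε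
  refine h2.congr_deriv ?_
  rw [dF]
  ring

theorem curve_r (hφ : Prof φ a b) {x y : ℝ → ℂ} {x' y' : ℂ} {s : ℝ} (hx : HasDerivAt x x' s)
    (hy : HasDerivAt y y' s) :
    HasDerivAt (fun s => dF φ (‖x s‖ ^ 2) * ‖y s‖ ^ 2)
      (deriv (dF φ) (‖x s‖ ^ 2) * (2 * dot (x s) x') * ‖y s‖ ^ 2 +
        dF φ (‖x s‖ ^ 2) * (2 * dot (y s) y')) s := by
  have h1 : HasDerivAt (dF φ) (deriv (dF φ) (‖x s‖ ^ 2)) (‖x s‖ ^ 2) :=
    (hφ.dF_smooth.differentiable (by norm_num)).differentiableAt.hasDerivAt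
  exact (h1.comp s (hasDerivAt_normsq hx)).mul (hasDerivAt_normsq hy)

theorem curve_m (hφ : Prof φ a b) (hε : 0 < ε) {x y : ℝ → ℂ} {x' y' : ℂ} {s : ℝ}
    (hx : HasDerivAt x x' s) (hy : HasDerivAt y y' s) :
    HasDerivAt (fun s => dF φ (‖x s‖ ^ 2) * ‖y s‖ ^ 2 / (φ (‖x s‖ ^ 2) + ε))
      (((deriv (dF φ) (‖x s‖ ^ 2) * (2 * dot (x s) x') * ‖y s‖ ^ 2 +
        dF φ (‖x s‖ ^ 2) * (2 * dot (y s) y')) * (φ (‖x s‖ ^ 2) + ε) -
        dF φ (‖x s‖ ^ 2) * ‖y s‖ ^ 2 * (-(dF φ (‖x s‖ ^ 2) * dot (x s) x'))) /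
        (φ (‖x s‖ ^ 2) + ε) ^ 2) s :=
  (curve_r hφ hx hy).div (curve_p hφ hx)
    (add_pos_of_nonneg_of_pos (hφ.nonneg _) hε).ne'

theorem pO_t (hφ : Prof φ a b) (hX : XD X Xw Xt Xwt Xww O) (t : ℝ) (w : ℂ) (h : (t, w) ∈ O) :
    HasDerivAt (fun s => pO φ ε X s w)
      (-(dF φ (‖X t w‖ ^ 2) * dot (X t w) (Xt t w))) t :=
  curve_p hφ (hX.ht t w h)

theorem mO_t (hφ : Prof φ a b) (hX : XD X Xw Xt Xwt Xww O) (hε : 0 < ε) (t : ℝ) (w : ℂ)
    (h : (t, w) ∈ O) :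
    HasDerivAt (fun s => mO φ ε X Xw s w) (-(DO φ ε X Xw Xt Xwt t w)) t := by
  refine (curve_m hφ hε (hX.ht t w h) (hX.hwt t w h)).congr_deriv ?_
  rw [DO, rtO, rO, pO]
  ring

/-- derivative along a real line -/
theorem line_deriv {f : ℂ → ℂ} {f' w : ℂ} (hf : HasDerivAt f f' w) (h : ℂ) :
    HasDerivAt (fun s : ℝ => f (w + s * h)) (f' * h) 0 := by
  have h1 : HasDerivAt (fun s : ℝ => w + (s : ℂ) * h) h 0 := by
    have h2 := ((Complex.ofRealCLM.hasDerivAt (x := (0 : ℝ))).mul_const h).const_add w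
    simpa using h2
  have h3 : HasDerivAt f f' (w + ((0 : ℝ) : ℂ) * h) := by simpa using hf
  exact h3.comp (0 : ℝ) h1

theorem fderiv_of_line {F : Type} [NormedAddCommGroup F] [NormedSpace ℝ F] {f : ℂ → F} {w h : ℂ}
    {y : F} (hf : DifferentiableAt ℝ f w)
    (hl : HasDerivAt (fun s : ℝ => f (w + s * h)) y 0) : fderiv ℝ f w h = y := by
  have h1 : HasDerivAt (fun s : ℝ => w + (s : ℂ) * h) h 0 := by
    have h2 := ((Complex.ofRealCLM.hasDerivAt (x := (0 : ℝ))).mul_const h).const_add w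
    simpa using h2
  have h3 : HasFDerivAt f (fderiv ℝ f w) (w + ((0 : ℝ) : ℂ) * h) := by
    simpa using hf.hasFDerivAt
  exact (h3.comp_hasDerivAt (0 : ℝ) h1).unique hl

theorem pO_w (hφ : Prof φ a b) (hX : XD X Xw Xt Xwt Xww O) (t : ℝ) (w : ℂ) (h : (t, w) ∈ O) :
    DifferentiableAt ℝ (pO φ ε X t) w ∧
      ∀ h, fderiv ℝ (pO φ ε X t) w h = -(rO φ X Xw t w * dot (X t w / Xw t w) h) := by
  have hd : DifferentiableAt ℝ (pO φ ε X t) w := (pO_smooth hφ hX h).differentiableAt (by norm_num)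
  refine ⟨hd, fun k => ?_⟩
  have h1 := curve_p (ε := ε) hφ (line_deriv (hX.hw t w h) k)
  rw [fderiv_of_line hd h1]
  have h2 : dot (X t w) (Xw t w * k) = ‖Xw t w‖ ^ 2 * dot (X t w / Xw t w) k := by
    have h3 : Complex.normSq (Xw t w) = (Xw t w).re ^ 2 + (Xw t w).im ^ 2 := by
      rw [Complex.normSq_apply]
      ring
    have h4 : (Xw t w).re ^ 2 + (Xw t w).im ^ 2 ≠ 0 := by
      rw [← h3]
      simpa using hX.ne t w h
    rw [Complex.sq_norm, dot, dot, Complex.div_re, Complex.div_im, Complex.mul_re,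
      Complex.mul_im, h3]
    field_simp
    ring
  simp only [Complex.ofReal_zero, zero_mul, add_zero]
  rw [h2, rO]
  ring

theorem DO_eq (hφ : Prof φ a b) (hX : XD X Xw Xt Xwt Xww O) (hε : 0 < ε) (t : ℝ) (w : ℂ)
    (h : (t, w) ∈ O) : DO φ ε X Xw Xt Xwt t w =
      (fderiv ℝ (fun w => (mO φ ε X Xw t w : ℂ) * (-(Xt t w) / Xw t w)) w 1).re +
      (fderiv ℝ (fun w => (mO φ ε X Xw t w : ℂ) * (-(Xt t w) / Xw t w)) w Complex.I).im := by
  have hd := (mv_smooth hφ hX hε h).differentiableAt (by norm_num)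
  obtain ⟨u', hu'⟩ : ∃ u', u' = (-(Xwt t w) * Xw t w - -(Xt t w) * Xww t w) / Xw t w ^ 2 :=
    ⟨_, rfl⟩
  have hv : HasDerivAt (fun w => -(Xt t w) / Xw t w) u' w := by
    rw [hu']
    exact ((hX.htw t w h).neg.div (hX.hww t w h) (hX.ne t w h))
  have hk : ∀ k : ℂ, fderiv ℝ (fun w => (mO φ ε X Xw t w : ℂ) * (-(Xt t w) / Xw t w)) w k =
      ((((deriv (dF φ) (‖X t w‖ ^ 2) * (2 * dot (X t w) (Xw t w * k)) * ‖Xw t w‖ ^ 2 +
        dF φ (‖X t w‖ ^ 2) * (2 * dot (Xw t w) (Xww t w * k))) * (φ (‖X t w‖ ^ 2) + ε) -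
        dF φ (‖X t w‖ ^ 2) * ‖Xw t w‖ ^ 2 *
          (-(dF φ (‖X t w‖ ^ 2) * dot (X t w) (Xw t w * k)))) /
        (φ (‖X t w‖ ^ 2) + ε) ^ 2 : ℝ) : ℂ) * (-(Xt t w) / Xw t w) +
      (mO φ ε X Xw t w : ℂ) * (u' * k) := by
    intro k
    refine fderiv_of_line hd ?_
    have h1 := curve_m (ε := ε) hφ hε (line_deriv (hX.hw t w h) k) (line_deriv (hX.hww t w h) k)
    have h2 := h1.ofReal_comp.mul (line_deriv hv k)
    simp only [Complex.ofReal_zero, zero_mul, add_zero] at h2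
    exact h2
  rw [hk, hk]
  obtain ⟨u, hu⟩ : ∃ u, u = -(Xt t w) / Xw t w := ⟨_, rfl⟩
  have hne := hX.ne t w h
  have h1 : Xt t w = -(Xw t w * u) := by
    rw [hu]
    field_simp
  have h2 : Xwt t w = -(Xw t w * u' + Xww t w * u) := by
    rw [hu', hu]
    field_simp
    ring
  rw [← hu]
  have hP : φ (‖X t w‖ ^ 2) + ε ≠ 0 := (add_pos_of_nonneg_of_pos (hφ.nonneg _) hε).ne'
  rw [DO, rtO, mO, rO, pO, h1, h2, Complex.sq_norm (Xw t w), Complex.normSq_apply (Xw t w)]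
  generalize deriv (dF φ) (‖X t w‖ ^ 2) = f2 at *
  generalize dF φ (‖X t w‖ ^ 2) = f1 at *
  generalize φ (‖X t w‖ ^ 2) + ε = P at *
  generalize Xww t w = y at *
  generalize Xw t w = x at *
  generalize X t w = z at *
  simp only [dot, Complex.add_re, Complex.add_im, Complex.mul_re, Complex.mul_im, Complex.neg_re,
    Complex.neg_im, Complex.ofReal_re, Complex.ofReal_im, Complex.one_re, Complex.one_im,
    Complex.I_re, Complex.I_im]
  field_simp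
  ring

end

end H3M
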