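import Pool.Agent.H3M.Defs
import Pool.Agent.H3M.PXc
set_option autoImplicit false
noncomputable section
namespace H3M

/-- a conformal family gives a flow; `q = X / X_w`, `v = - X_t / X_w` -/
theorem flow_of_X (φ : ℝ → ℝ) (a b : ℝ) (hφ : Prof φ a b) (X Xw Xt Xwt Xww : ℝ → ℂ → ℂ)
    (O : Set (ℝ × ℂ)) (hX : XD X Xw Xt Xwt Xww O) (T : Set ℝ) (hT : IsOpen T)
    (hcl : ∀ x ∈ closure {x : ℝ × ℂ | x ∈ O ∧ ‖X x.1 x.2‖ ^ 2 ≤ b}, x.1 ∈ T → x ∈ O)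
    (R : ℝ) (hR : ∀ t ∈ T, ∀ w, (t, w) ∈ O → ‖X t w‖ ^ 2 ≤ b → ‖w‖ ≤ R) (ε : ℝ) (hε : 0 < ε) :
    ∃ Dv : ℝ → ℂ → ℝ, Flow (fun t w => pX φ X O t w + ε)
      (fun t w => rX φ X Xw O t w / (pX φ X O t w + ε))
      (fun t w => X t w / Xw t w) (fun t w => -(Xt t w) / Xw t w) Dv T R :=
  flow_of_X_aux φ a b hφ X Xw Xt Xwt Xww O hX T hcl R hR ε hε
    (fun t w h => pO_t hφ hX t w h) (fun t w h => mO_t hφ hX hε t w h)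
    (fun t w h => pO_w hφ hX t w h) (fun t w h => DO_eq hφ hX hε t w h)

end H3M
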