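import Pool.Agent.H3M.TD
import Pool.Agent.H3M.PX
import Pool.Agent.H3M.EP
set_option autoImplicit false
noncomputable section
open MeasureTheory
namespace H3M
variable {n N : ℕ}

namespace PA

/-- the scaling factor of the form `k` at time `t` -/
def g (S : Set (Fin N)) [DecidablePred (· ∈ S)] (k : Fin N) (t : ℝ) : ℝ :=
  if k ∈ S then 1 else t

/-- its derivative -/
def c (S : Set (Fin N)) [DecidablePred (· ∈ S)] (k : Fin N) : ℝ := if k ∈ S then 0 else 1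

theorem hasDerivAt_g (S : Set (Fin N)) [DecidablePred (· ∈ S)] (k : Fin N) (t : ℝ) :
    HasDerivAt (g S k) (c S k) t := by
  unfold g c
  by_cases h : k ∈ S
  · simp only [h, if_true]
    exact hasDerivAt_const t 1
  · simp only [h, if_false]
    exact hasDerivAt_id t

theorem continuous_g (S : Set (Fin N)) [DecidablePred (· ∈ S)] (k : Fin N) :
    Continuous (g S k) :=
  continuous_iff_continuousAt.2 fun t => (hasDerivAt_g S k t).continuousAt

theorem le_g (S : Set (Fin N)) [DecidablePred (· ∈ S)] (k : Fin N) {θ t : ℝ} (h1 : θ ≤ 1)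
    (h0 : 0 < θ) (ht : θ / 2 < t) : θ / 2 ≤ g S k t := by
  unfold g
  split_ifs
  · linarith
  · linarith

/-- the domain -/
def O (θ : ℝ) : Set (ℝ × ℂ) := {x : ℝ × ℂ | x.1 ∈ Set.Ioo (θ / 2) 2}

theorem xd (S : Set (Fin N)) [DecidablePred (· ∈ S)] (k : Fin N) {θ : ℝ} (h0 : 0 < θ)
    (h1 : θ ≤ 1) :
    XD (fun t w => ((g S k t : ℝ) : ℂ) * w) (fun t _ => ((g S k t : ℝ) : ℂ))
      (fun _ w => ((c S k : ℝ) : ℂ) * w) (fun _ _ => ((c S k : ℝ) : ℂ)) (fun _ _ => 0) (O θ) := by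
  have hg := continuous_g S k
  refine ⟨isOpen_Ioo.preimage continuous_fst, ?_, ?_, ?_, ?_, ?_, ?_, ?_, ?_, ?_, ?_, ?_⟩
  · exact ((Complex.continuous_ofReal.comp (hg.comp continuous_fst)).mul
      continuous_snd).continuousOn
  · exact (Complex.continuous_ofReal.comp (hg.comp continuous_fst)).continuousOn
  · exact (continuous_const.mul continuous_snd).continuousOn
  · exact continuousOn_const
  · exact continuousOn_const
  · intro t w _
    simpa using (hasDerivAt_id w).const_mul ((g S k t : ℝ) : ℂ)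
  · intro t w _
    exact ((hasDerivAt_g S k t).ofReal_comp).mul_const w
  · intro t w _
    exact hasDerivAt_const w _
  · intro t w _
    exact (hasDerivAt_g S k t).ofReal_comp
  · intro t w _
    simpa using (hasDerivAt_id w).const_mul ((c S k : ℝ) : ℂ)
  · intro t w h
    have h2 := le_g S k h1 h0 h.1
    have h3 : g S k t ≠ 0 := by
      have : 0 < θ / 2 := by linarith
      linarith
    exact_mod_cast h3

theorem prof_nonneg {φ : ℝ → ℝ} {a b : ℝ} (hφ : Prof φ a b) (x : ℝ) : 0 ≤ φ x := by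
  rcases le_total x b with h | h
  · rw [← hφ.zero b le_rfl]
    exact hφ.anti h
  · rw [hφ.zero x h]

theorem prof_le_one {φ : ℝ → ℝ} {a b : ℝ} (hφ : Prof φ a b) (x : ℝ) : φ x ≤ 1 := by
  rcases le_total x a with h | h
  · rw [hφ.one x h]
  · rw [← hφ.one a le_rfl]
    exact hφ.anti h

theorem dF_zero {φ : ℝ → ℝ} {a b : ℝ} (hφ : Prof φ a b) {x : ℝ} (hx : b < x) : dF φ x = 0 := by
  have h : HasDerivAt φ 0 x := by
    refine (hasDerivAt_const x (0 : ℝ)).congr_of_eventuallyEq ?_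
    filter_upwards [Ioi_mem_nhds hx] with y hy
    exact hφ.zero y (le_of_lt hy)
  unfold dF
  rw [h.deriv, mul_zero]

theorem continuous_dF {φ : ℝ → ℝ} {a b : ℝ} (hφ : Prof φ a b) : Continuous (dF φ) := by
  unfold dF
  exact continuous_const.mul (hφ.smooth.continuous_deriv (by norm_num))

theorem norm_bound (S : Set (Fin N)) [DecidablePred (· ∈ S)] (k : Fin N) {θ t b : ℝ}
    (h0 : 0 < θ) (h1 : θ ≤ 1) (ht : θ / 2 < t) {w : ℂ}
    (hw : ‖((g S k t : ℝ) : ℂ) * w‖ ^ 2 ≤ b) : ‖w‖ ≤ Real.sqrt b / (θ / 2) := by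
  have h2 := le_g S k h1 h0 ht
  have h3 : 0 < θ / 2 := by linarith
  rw [le_div_iff₀ h3]
  have h4 : ‖((g S k t : ℝ) : ℂ) * w‖ ≤ Real.sqrt b := Real.le_sqrt_of_sq_le hw
  rw [norm_mul, Complex.norm_real, Real.norm_of_nonneg (h3.le.trans h2)] at h4
  calc ‖w‖ * (θ / 2) ≤ ‖w‖ * g S k t := mul_le_mul_of_nonneg_left h2 (norm_nonneg _)
    _ = g S k t * ‖w‖ := mul_comm _ _
    _ ≤ _ := h4

theorem pX_eq (S : Set (Fin N)) [DecidablePred (· ∈ S)] (k : Fin N) (φ : ℝ → ℝ) {θ t : ℝ}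
    (ht : t ∈ Set.Ioo (θ / 2) 2) (w : ℂ) :
    pX φ (fun t w => ((g S k t : ℝ) : ℂ) * w) (O θ) t w =
      φ (‖((g S k t : ℝ) : ℂ) * w‖ ^ 2) := by
  unfold pX
  rw [if_pos (show (t, w) ∈ O θ from ht)]

theorem rX_eq (S : Set (Fin N)) [DecidablePred (· ∈ S)] (k : Fin N) (φ : ℝ → ℝ) {θ t : ℝ}
    (ht : t ∈ Set.Ioo (θ / 2) 2) (w : ℂ) :
    rX φ (fun t w => ((g S k t : ℝ) : ℂ) * w) (fun t _ => ((g S k t : ℝ) : ℂ)) (O θ) t w =
      (g S k t) ^ 2 * dF φ (‖((g S k t : ℝ) : ℂ) * w‖ ^ 2) := by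
  unfold rX
  rw [if_pos (show (t, w) ∈ O θ from ht), Complex.norm_real, Real.norm_eq_abs, sq_abs, mul_comm]

/-- the limit `ε → 0` at the time `t` -/
theorem tend (φ : ℝ → ℝ) (a b : ℝ) (hφ : Prof φ a b) (l : Fin N → Fin n → ℝ)
    (S : Set (Fin N)) [DecidablePred (· ∈ S)] (θ : ℝ) (h0 : 0 < θ) (h1 : θ ≤ 1) (t : ℝ)
    (ht : t ∈ Set.Ioo (θ / 2) 2) :
    Filter.Tendsto (fun ε : ℝ => Fm l
      (fun k w => pX φ (fun t w => ((g S k t : ℝ) : ℂ) * w) (O θ) t w + ε)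
      (fun k w => rX φ (fun t w => ((g S k t : ℝ) : ℂ) * w) (fun t _ => ((g S k t : ℝ) : ℂ))
        (O θ) t w / (pX φ (fun t w => ((g S k t : ℝ) : ℂ) * w) (O θ) t w + ε)))
      (nhdsWithin 0 (Set.Ioi 0))
      (nhds (F0 l (fun k w => φ (‖((g S k t : ℝ) : ℂ) * w‖ ^ 2))
        (fun k w => (g S k t) ^ 2 * dF φ (‖((g S k t : ℝ) : ℂ) * w‖ ^ 2)))) := by
  have h := Fm_tendsto l (fun k w => φ (‖((g S k t : ℝ) : ℂ) * w‖ ^ 2))
    (fun k w => (g S k t) ^ 2 * dF φ (‖((g S k t : ℝ) : ℂ) * w‖ ^ 2))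
    (fun k => hφ.smooth.continuous.comp (by fun_prop))
    (fun k => continuous_const.mul ((continuous_dF hφ).comp (by fun_prop)))
    (fun k w => prof_nonneg hφ _) (fun k w => prof_le_one hφ _)
    (Real.sqrt b / (θ / 2)) (fun k w hw => by
      rw [dF_zero hφ, mul_zero]
      by_contra hcon
      push Not at hcon
      have := norm_bound S k h0 h1 ht.1 hcon
      linarith)
  simp only [pX_eq S _ φ ht, rX_eq S _ φ ht]
  exact h

end PA

open PA

/-- Phase A, part 1: scaling some of the forms in the disc functional changes nothing -/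
theorem phaseA_const (φ : ℝ → ℝ) (a b : ℝ) (hφ : Prof φ a b) (l : Fin N → Fin n → ℝ)
    (S : Set (Fin N)) [DecidablePred (· ∈ S)] (θ : ℝ) (h0 : 0 < θ) (h1 : θ ≤ 1) :
    F0 l (fun k w => φ (‖((if k ∈ S then 1 else θ : ℝ) : ℂ) * w‖ ^ 2))
      (fun k w => (if k ∈ S then 1 else θ : ℝ) ^ 2 *
        dF φ (‖((if k ∈ S then 1 else θ : ℝ) : ℂ) * w‖ ^ 2)) =
    F0 l (fun _ w => φ (‖w‖ ^ 2)) (fun _ w => dF φ (‖w‖ ^ 2)) := by
  have hθ : θ ∈ Set.Ioo (θ / 2) 2 := ⟨by linarith, by linarith⟩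
  have hone : (1 : ℝ) ∈ Set.Ioo (θ / 2) 2 := ⟨by linarith, by norm_num⟩
  have key : ∀ ε : ℝ, 0 < ε →
      Fm l (fun k w => pX φ (fun t w => ((g S k t : ℝ) : ℂ) * w) (O θ) 1 w + ε)
      (fun k w => rX φ (fun t w => ((g S k t : ℝ) : ℂ) * w) (fun t _ => ((g S k t : ℝ) : ℂ))
        (O θ) 1 w / (pX φ (fun t w => ((g S k t : ℝ) : ℂ) * w) (O θ) 1 w + ε)) =
      Fm l (fun k w => pX φ (fun t w => ((g S k t : ℝ) : ℂ) * w) (O θ) θ w + ε)
      (fun k w => rX φ (fun t w => ((g S k t : ℝ) : ℂ) * w) (fun t _ => ((g S k t : ℝ) : ℂ))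
        (O θ) θ w / (pX φ (fun t w => ((g S k t : ℝ) : ℂ) * w) (O θ) θ w + ε)) := by
    intro ε hε
    have hflow : ∀ k : Fin N, ∃ Dv : ℝ → ℂ → ℝ,
        Flow (fun t w => pX φ (fun t w => ((g S k t : ℝ) : ℂ) * w) (O θ) t w + ε)
        (fun t w => rX φ (fun t w => ((g S k t : ℝ) : ℂ) * w) (fun t _ => ((g S k t : ℝ) : ℂ))
          (O θ) t w / (pX φ (fun t w => ((g S k t : ℝ) : ℂ) * w) (O θ) t w + ε))
        (fun t w => ((g S k t : ℝ) : ℂ) * w / ((g S k t : ℝ) : ℂ))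
        (fun t w => -(((c S k : ℝ) : ℂ) * w) / ((g S k t : ℝ) : ℂ)) Dv
        (Set.Ioo (θ / 2) 2) (Real.sqrt b / (θ / 2)) := by
      intro k
      exact flow_of_X φ a b hφ _ _ _ _ _ (O θ) (xd S k h0 h1) _ isOpen_Ioo
        (fun x _ hx => hx) _ (fun t ht w _ hw => norm_bound S k h0 h1 ht.1 hw) ε hε
    choose Dv hDv using hflow
    have hder : ∀ t ∈ Set.Ioo (θ / 2) 2, HasDerivAt (fun s =>
        Fm l (fun k w => pX φ (fun t w => ((g S k t : ℝ) : ℂ) * w) (O θ) s w + ε)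
        (fun k w => rX φ (fun t w => ((g S k t : ℝ) : ℂ) * w) (fun t _ => ((g S k t : ℝ) : ℂ))
          (O θ) s w / (pX φ (fun t w => ((g S k t : ℝ) : ℂ) * w) (O θ) s w + ε))) 0 t := by
      intro t ht
      refine transport_zero l _ _ _ _ Dv _ isOpen_Ioo _ hDv t ht ?_
      intro k w
      have h2 := le_g S k h1 h0 ht.1
      have h3 : ((g S k t : ℝ) : ℂ) ≠ 0 := by
        have : g S k t ≠ 0 := by
          have : 0 < θ / 2 := by linarith
          linarith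
        exact_mod_cast this
      field_simp
    have hsub : ∀ x ∈ Set.Icc θ 1, x ∈ Set.Ioo (θ / 2) 2 := fun x hx =>
      ⟨by linarith [hx.1], by linarith [hx.2]⟩
    exact constant_of_has_deriv_right_zero
      (fun x hx => (hder x (hsub x hx)).continuousAt.continuousWithinAt)
      (fun x hx => (hder x (hsub x ⟨hx.1, hx.2.le⟩)).hasDerivWithinAt) 1 ⟨h1, le_rfl⟩
  have t1 := tend φ a b hφ l S θ h0 h1 1 hone
  have t2 := tend φ a b hφ l S θ h0 h1 θ hθ
  have t3 := t1.congr' (by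
    filter_upwards [self_mem_nhdsWithin] with ε hε
    exact key ε hε)
  have h := tendsto_nhds_unique t2 t3
  have hg1 : ∀ k, g S k 1 = 1 := by
    intro k
    unfold g
    split_ifs <;> rfl
  simp only [hg1, Complex.ofReal_one, one_mul, one_pow] at h
  exact h

end H3M
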