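import Pool.Agent.H3M.TD
import Pool.Agent.H3M.PX
import Pool.Agent.H3M.EP
set_option autoImplicit false
noncomputable section
open MeasureTheory
namespace H3M
variable {n N : ℕ}

/-- the local data of the conformal dilations of a domain `W` -/
theorem XD_of_Conf (R : ℂ → ℂ) (W : Set ℂ) (h : Conf R W) :
    XD (fun t w => w * dslope R 0 ((t : ℂ) * w)) (fun t w => deriv R ((t : ℂ) * w))
      (fun t w => w ^ 2 * deriv (dslope R 0) ((t : ℂ) * w))
      (fun t w => w * deriv (deriv R) ((t : ℂ) * w))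
      (fun t w => (t : ℂ) * deriv (deriv R) ((t : ℂ) * w))
      {x : ℝ × ℂ | (x.1 : ℂ) * x.2 ∈ W} := by
  sorry

/-- Phase B: monotonicity along conformal dilations. -/
theorem phaseB (φ : ℝ → ℝ) (a b : ℝ) (hφ : Prof φ a b) (hb : b < 1) (R : ℂ → ℂ) (W : Set ℂ)
    (h : Conf R W) (l : Fin N → Fin n → ℝ) :
    F0 l (fun _ w => φ (‖w‖ ^ 2)) (fun _ w => dF φ (‖w‖ ^ 2)) ≤
      F0 l (fun _ => pW φ R W) (fun _ => rW φ R W) := by
  sorry

end H3M
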