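import Pool.Agent.H3M.Defs

/-! Task PB1 (helper89). -/

set_option autoImplicit false
noncomputable section
open MeasureTheory

namespace H3M

namespace PB1

theorem hasDeriv_mul_left (t w : ℂ) : HasDerivAt (fun w : ℂ => t * w) t w := by
  have h := (hasDerivAt_id w).const_mul t
  simpa using h

theorem hasDeriv_ofReal_mul (w : ℂ) (t : ℝ) : HasDerivAt (fun s : ℝ => (s : ℂ) * w) w t := by
  have h := (Complex.ofRealCLM.hasDerivAt (x := t)).mul_const w
  simpa using h

/-- composition of a holomorphic function with `s ↦ s w`, `s` real -/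
theorem comp_real {f : ℂ → ℂ} {f' : ℂ} {t : ℝ} {w : ℂ} (hf : HasDerivAt f f' ((t : ℂ) * w)) :
    HasDerivAt (fun s : ℝ => f ((s : ℂ) * w)) (f' * w) t :=
  hf.comp (𝕜 := ℝ) (𝕜' := ℂ) t (hasDeriv_ofReal_mul w t)

end PB1

open PB1

/-- the local data of the conformal dilations of a domain `W` -/
theorem XD_of_Conf' (R : ℂ → ℂ) (W : Set ℂ) (h : Conf R W) :
    XD (fun t w => w * dslope R 0 ((t : ℂ) * w)) (fun t w => deriv R ((t : ℂ) * w))
      (fun t w => w ^ 2 * deriv (dslope R 0) ((t : ℂ) * w))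
      (fun t w => w * deriv (deriv R) ((t : ℂ) * w))
      (fun t w => (t : ℂ) * deriv (deriv R) ((t : ℂ) * w))
      {x : ℝ × ℂ | (x.1 : ℂ) * x.2 ∈ W} := by
  have hW : W ∈ nhds (0 : ℂ) := h.isOpen.mem_nhds h.zero_mem
  set S : ℂ → ℂ := dslope R 0 with hS
  have hSd : DifferentiableOn ℂ S W := (Complex.differentiableOn_dslope hW).2 h.diff
  have hS'd : DifferentiableOn ℂ (deriv S) W := hSd.deriv h.isOpen
  have hR'd : DifferentiableOn ℂ (deriv R) W := h.diff.deriv h.isOpen
  have hR''d : DifferentiableOn ℂ (deriv (deriv R)) W := hR'd.deriv h.isOpen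
  have hRS : R = fun u => u * S u := by
    funext u
    have h1 := sub_smul_dslope R 0 u
    rw [h.R0] at h1
    simpa using h1.symm
  have hSat : ∀ u ∈ W, HasDerivAt S (deriv S u) u := fun u hu =>
    ((hSd u hu).differentiableAt (h.isOpen.mem_nhds hu)).hasDerivAt
  have hS'at : ∀ u ∈ W, HasDerivAt (deriv S) (deriv (deriv S) u) u := fun u hu =>
    ((hS'd u hu).differentiableAt (h.isOpen.mem_nhds hu)).hasDerivAt
  have hR'at : ∀ u ∈ W, HasDerivAt (deriv R) (deriv (deriv R) u) u := fun u hu =>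
    ((hR'd u hu).differentiableAt (h.isOpen.mem_nhds hu)).hasDerivAt
  have hR' : ∀ u ∈ W, deriv R u = S u + u * deriv S u := by
    intro u hu
    have h1 : HasDerivAt (fun u => u * S u) (1 * S u + u * deriv S u) u :=
      (hasDerivAt_id u).mul (hSat u hu)
    rw [hRS, h1.deriv, one_mul]
  have hR'' : ∀ u ∈ W, deriv (deriv R) u = 2 * deriv S u + u * deriv (deriv S) u := by
    intro u hu
    have h1 : HasDerivAt (fun u => S u + u * deriv S u)
        (deriv S u + (1 * deriv S u + u * deriv (deriv S) u)) u :=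
      (hSat u hu).add ((hasDerivAt_id u).mul (hS'at u hu))
    have h2 : deriv R =ᶠ[nhds u] fun u => S u + u * deriv S u := by
      filter_upwards [h.isOpen.mem_nhds hu] with v hv
      exact hR' v hv
    rw [h2.deriv_eq, h1.deriv]
    ring
  have hcont : Continuous (fun x : ℝ × ℂ => (x.1 : ℂ) * x.2) := by fun_prop
  have hcomp : ∀ f : ℂ → ℂ, ContinuousOn f W →
      ContinuousOn (fun x : ℝ × ℂ => f ((x.1 : ℂ) * x.2)) {x : ℝ × ℂ | (x.1 : ℂ) * x.2 ∈ W} := by
    intro f hf
    exact hf.comp hcont.continuousOn (fun x hx => hx)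
  refine ⟨h.isOpen.preimage hcont, ?_, ?_, ?_, ?_, ?_, ?_, ?_, ?_, ?_, ?_, ?_⟩
  · exact continuous_snd.continuousOn.mul (hcomp S hSd.continuousOn)
  · exact hcomp _ hR'd.continuousOn
  · exact (continuous_snd.pow 2).continuousOn.mul (hcomp _ hS'd.continuousOn)
  · exact continuous_snd.continuousOn.mul (hcomp _ hR''d.continuousOn)
  · exact (Complex.continuous_ofReal.comp continuous_fst).continuousOn.mul
      (hcomp _ hR''d.continuousOn)
  · intro t w htw
    have h1 : HasDerivAt (fun w : ℂ => S ((t : ℂ) * w)) (deriv S ((t : ℂ) * w) * (t : ℂ)) w :=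
      (hSat _ htw).comp w (hasDeriv_mul_left (t : ℂ) w)
    have h2 := (hasDerivAt_id w).mul h1
    have h3 : deriv R ((t : ℂ) * w) = 1 * S ((t : ℂ) * w) +
        id w * (deriv S ((t : ℂ) * w) * (t : ℂ)) := by
      rw [hR' _ htw]
      simp only [id]
      ring
    rw [h3]
    exact h2
  · intro t w htw
    have h1 := (comp_real (hSat _ htw)).const_mul w
    have h3 : w ^ 2 * deriv S ((t : ℂ) * w) = w * (deriv S ((t : ℂ) * w) * w) := by ring
    rw [h3]
    exact h1
  · intro t w htw
    have h1 : HasDerivAt (fun w : ℂ => deriv R ((t : ℂ) * w))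
        (deriv (deriv R) ((t : ℂ) * w) * (t : ℂ)) w :=
      (hR'at _ htw).comp w (hasDeriv_mul_left (t : ℂ) w)
    rw [mul_comm] at h1
    exact h1
  · intro t w htw
    have h1 := comp_real (hR'at _ htw)
    rw [mul_comm] at h1
    exact h1
  · intro t w htw
    have h1 : HasDerivAt (fun w : ℂ => deriv S ((t : ℂ) * w))
        (deriv (deriv S) ((t : ℂ) * w) * (t : ℂ)) w :=
      (hS'at _ htw).comp w (hasDeriv_mul_left (t : ℂ) w)
    have h2 := ((hasDerivAt_id w).pow 2).mul h1
    have h3 : w * deriv (deriv R) ((t : ℂ) * w) =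
        ((2 : ℕ) * id w ^ (2 - 1) * 1) * deriv S ((t : ℂ) * w) +
        (id ^ 2) w * (deriv (deriv S) ((t : ℂ) * w) * (t : ℂ)) := by
      rw [hR'' _ htw]
      simp only [id, Pi.pow_apply]
      push_cast
      ring
    rw [h3]
    exact h2
  · intro t w htw
    exact h.ne _ htw

end H3M
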