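import Pool.Agent.H3M.TD
import Pool.Agent.H3M.PX
import Pool.Agent.H3M.EP
set_option autoImplicit false
noncomputable section
open MeasureTheory Filter Topology
namespace H3M
variable {n N : ℕ}

namespace PB2

theorem prof_nonneg {φ : ℝ → ℝ} {a b : ℝ} (hφ : Prof φ a b) (x : ℝ) : 0 ≤ φ x := by
  have h1 : φ (max x b) = 0 := hφ.zero _ (le_max_right _ _)
  rw [← h1]; exact hφ.anti (le_max_left _ _)

theorem prof_le_one {φ : ℝ → ℝ} {a b : ℝ} (hφ : Prof φ a b) (x : ℝ) : φ x ≤ 1 := by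
  have h1 : φ (min x a) = 1 := hφ.one _ (min_le_right _ _)
  rw [← h1]; exact hφ.anti (min_le_left _ _)

theorem dF_nonneg {φ : ℝ → ℝ} {a b : ℝ} (hφ : Prof φ a b) (x : ℝ) : 0 ≤ dF φ x := by
  unfold dF
  have : deriv φ x ≤ 0 := by
    have := hφ.anti.neg.deriv_nonneg (x := x)
    have h2 : deriv (-φ) x = - deriv φ x := deriv.neg
    linarith [h2 ▸ this]
  linarith

/-- `dF φ x = 0` for `x > b` -/
theorem dF_eq_zero {φ : ℝ → ℝ} {a b : ℝ} (hφ : Prof φ a b) {x : ℝ} (hx : b < x) :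
    dF φ x = 0 := by
  unfold dF
  have : φ =ᶠ[𝓝 x] fun _ => (0 : ℝ) := by
    filter_upwards [lt_mem_nhds hx] with y hy
    exact hφ.zero y hy.le
  rw [this.deriv_eq]; simp

section conf
variable {R : ℂ → ℂ} {W : Set ℂ}

theorem S_zero (h : Conf R W) : dslope R 0 0 = 1 := by
  rw [dslope_same, h.R1]

theorem S_mul (h : Conf R W) (u : ℂ) : u * dslope R 0 u = R u := by
  by_cases hu : u = 0
  · subst hu; simp [h.R0]
  · rw [dslope_of_ne _ hu, slope_def_field, h.R0, sub_zero, sub_zero]; field_simp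

theorem S_ne (h : Conf R W) {u : ℂ} (hu : u ∈ W) : dslope R 0 u ≠ 0 := by
  by_cases h0 : u = 0
  · subst h0; rw [S_zero h]; exact one_ne_zero
  · intro hS
    have h1 := S_mul h u
    rw [hS, mul_zero] at h1
    exact h0 (h.inj hu h.zero_mem (by rw [← h1, h.R0]))

theorem S_diff (h : Conf R W) : DifferentiableOn ℂ (dslope R 0) W :=
  (Complex.differentiableOn_dslope (h.isOpen.mem_nhds h.zero_mem)).2 h.diff

theorem deriv_R (h : Conf R W) {u : ℂ} (hu : u ∈ W) :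
    deriv R u = dslope R 0 u + u * deriv (dslope R 0) u := by
  have hS : HasDerivAt (dslope R 0) (deriv (dslope R 0) u) u :=
    ((S_diff h).differentiableAt (h.isOpen.mem_nhds hu)).hasDerivAt
  have h1 := (hasDerivAt_id u).mul hS
  have h2 : (id * dslope R 0 : ℂ → ℂ) = R := by
    funext x; simp [S_mul h x]
  rw [h2] at h1
  simpa using h1.deriv

theorem norm_R (h : Conf R W) (t : ℝ) (w : ℂ) :
    ‖R ((t : ℂ) * w)‖ = |t| * ‖w * dslope R 0 ((t : ℂ) * w)‖ := by
  rw [← S_mul h, mul_assoc, norm_mul, Complex.norm_real, Real.norm_eq_abs]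

end conf

end PB2

open PB2 in
/-- Phase B: monotonicity along conformal dilations. -/
theorem phaseB_of_XD (φ : ℝ → ℝ) (a b : ℝ) (hφ : Prof φ a b) (hb : b < 1) (R : ℂ → ℂ) (W : Set ℂ)
    (h : Conf R W) (l : Fin N → Fin n → ℝ)
    (hX : XD (fun t w => w * dslope R 0 ((t : ℂ) * w)) (fun t w => deriv R ((t : ℂ) * w))
      (fun t w => w ^ 2 * deriv (dslope R 0) ((t : ℂ) * w))
      (fun t w => w * deriv (deriv R) ((t : ℂ) * w))
      (fun t w => (t : ℂ) * deriv (deriv R) ((t : ℂ) * w))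
      {x : ℝ × ℂ | (x.1 : ℂ) * x.2 ∈ W}) :
    F0 l (fun _ w => φ (‖w‖ ^ 2)) (fun _ w => dF φ (‖w‖ ^ 2)) ≤
      F0 l (fun _ => pW φ R W) (fun _ => rW φ R W) := by
  classical
  set X : ℝ → ℂ → ℂ := fun t w => w * dslope R 0 ((t : ℂ) * w) with hXdef
  set Xw : ℝ → ℂ → ℂ := fun t w => deriv R ((t : ℂ) * w) with hXw
  set Xt : ℝ → ℂ → ℂ := fun t w => w ^ 2 * deriv (dslope R 0) ((t : ℂ) * w) with hXt
  set O : Set (ℝ × ℂ) := {x : ℝ × ℂ | (x.1 : ℂ) * x.2 ∈ W} with hO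
  have hb0 : 0 < b := hφ.ha.trans hφ.hab
  -- choice of tau
  obtain ⟨τ, hτ1, hτb⟩ : ∃ τ : ℝ, 1 < τ ∧ τ * Real.sqrt b < 1 := by
    have hs : Real.sqrt b < 1 := by
      rw [Real.sqrt_lt' one_pos]; simpa using hb
    have hs0 : 0 < Real.sqrt b := Real.sqrt_pos.2 hb0
    refine ⟨(1 + 1 / Real.sqrt b) / 2, ?_, ?_⟩
    · have : 1 < 1 / Real.sqrt b := by rw [lt_div_iff₀ hs0]; linarith
      linarith
    · have : (1 + 1 / Real.sqrt b) / 2 * Real.sqrt b = (Real.sqrt b + 1) / 2 := by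
        field_simp
      rw [this]; linarith
  have hτ0 : 0 < τ := by linarith
  set T : Set ℝ := Set.Ioo (-τ) τ with hT
  have hTo : IsOpen T := isOpen_Ioo
  have h0T : (0 : ℝ) ∈ T := ⟨by linarith, hτ0⟩
  have h1T : (1 : ℝ) ∈ T := ⟨by linarith, hτ1⟩
  set K : Set ℂ := {w | w ∈ W ∧ ‖R w‖ ≤ τ * Real.sqrt b} with hK
  have hKc : IsCompact K := h.cpt _ hτb
  have hKW : K ⊆ W := fun w hw => hw.1
  -- membership in K
  have hmemK : ∀ t ∈ T, ∀ w, (t, w) ∈ O → ‖X t w‖ ^ 2 ≤ b → (t : ℂ) * w ∈ K := by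
    intro t ht w hw hle
    refine ⟨hw, ?_⟩
    rw [norm_R h]
    have h1 : |t| ≤ τ := by
      rw [abs_le]; exact ⟨ht.1.le, ht.2.le⟩
    have h2 : ‖X t w‖ ≤ Real.sqrt b := Real.le_sqrt_of_sq_le hle
    exact mul_le_mul h1 h2 (norm_nonneg _) hτ0.le
  have hcl : ∀ x ∈ closure {x : ℝ × ℂ | x ∈ O ∧ ‖X x.1 x.2‖ ^ 2 ≤ b}, x.1 ∈ T → x ∈ O := by
    intro x hx hxT
    have hopen : IsOpen {y : ℝ × ℂ | y.1 ∈ T} := hTo.preimage continuous_fst
    have hx2 : x ∈ closure ({y : ℝ × ℂ | y.1 ∈ T} ∩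
        {x : ℝ × ℂ | x ∈ O ∧ ‖X x.1 x.2‖ ^ 2 ≤ b}) :=
      hopen.inter_closure ⟨hxT, hx⟩
    have hmap : Set.MapsTo (fun y : ℝ × ℂ => (y.1 : ℂ) * y.2) ({y : ℝ × ℂ | y.1 ∈ T} ∩
        {x : ℝ × ℂ | x ∈ O ∧ ‖X x.1 x.2‖ ^ 2 ≤ b}) K := by
      rintro ⟨t, w⟩ ⟨ht, hw, hle⟩
      exact hmemK t ht w hw hle
    have hcont : Continuous (fun y : ℝ × ℂ => (y.1 : ℂ) * y.2) := by fun_prop
    have := map_mem_closure hcont hx2 hmap
    rw [hKc.isClosed.closure_eq] at this
    exact hKW this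
  -- bound
  obtain ⟨Rad, hRad⟩ : ∃ Rad : ℝ, ∀ t ∈ T, ∀ w, (t, w) ∈ O → ‖X t w‖ ^ 2 ≤ b → ‖w‖ ≤ Rad := by
    have hcontS : ContinuousOn (fun u => ‖(dslope R 0 u)⁻¹‖) K :=
      ((((S_diff h).continuousOn).mono hKW).inv₀ fun u hu => S_ne h (hKW hu)).norm
    obtain ⟨C, hC⟩ := hKc.bddAbove_image hcontS
    refine ⟨C * Real.sqrt b, fun t ht w hw hle => ?_⟩
    have hk := hmemK t ht w hw hle
    have h1 : ‖(dslope R 0 ((t : ℂ) * w))⁻¹‖ ≤ C := hC ⟨_, hk, rfl⟩
    have h2 : ‖X t w‖ ≤ Real.sqrt b := Real.le_sqrt_of_sq_le hle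
    have h3 : w = (dslope R 0 ((t : ℂ) * w))⁻¹ * X t w := by
      have := S_ne h (hKW hk)
      simp only [hXdef]
      rw [mul_comm w, ← mul_assoc, inv_mul_cancel₀ this, one_mul]
    calc ‖w‖ = ‖(dslope R 0 ((t : ℂ) * w))⁻¹ * X t w‖ := by rw [← h3]
      _ = ‖(dslope R 0 ((t : ℂ) * w))⁻¹‖ * ‖X t w‖ := norm_mul _ _
      _ ≤ C * Real.sqrt b := mul_le_mul h1 h2 (norm_nonneg _) ((norm_nonneg _).trans h1)
  have hflow := fun ε hε => flow_of_X φ a b hφ X Xw Xt _ _ O hX T hTo hcl Rad hRad ε hε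
  -- the functional
  set f : ℝ → ℝ → ℝ := fun ε t => Fm l (fun _ w => pX φ X O t w + ε)
    (fun _ w => rX φ X Xw O t w / (pX φ X O t w + ε)) with hf
  have hpX0 : ∀ t w, 0 ≤ pX φ X O t w := by
    intro t w; unfold pX; split_ifs
    · exact prof_nonneg hφ _
    · exact le_rfl
  have hpX1 : ∀ t w, pX φ X O t w ≤ 1 := by
    intro t w; unfold pX; split_ifs
    · exact prof_le_one hφ _
    · exact zero_le_one
  have hrX0 : ∀ t w, 0 ≤ rX φ X Xw O t w := by
    intro t w; unfold rX; split_ifs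
    · exact mul_nonneg (dF_nonneg hφ _) (sq_nonneg _)
    · exact le_rfl
  have hmono : ∀ ε > 0, f ε 0 ≤ f ε 1 := by
    intro ε hε
    obtain ⟨Dv, hFl⟩ := hflow ε hε
    have hd : ∀ t ∈ T, DifferentiableAt ℝ (f ε) t := fun t ht =>
      (transport l (fun _ t w => pX φ X O t w + ε)
        (fun _ t w => rX φ X Xw O t w / (pX φ X O t w + ε))
        (fun _ t w => X t w / Xw t w) (fun _ t w => -(Xt t w) / Xw t w) (fun _ => Dv) T hTo Rad
        (fun _ => hFl) t ht).differentiableAt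
    have hsub : Set.Icc (0 : ℝ) 1 ⊆ T := fun t ht => ⟨by linarith [ht.1], by linarith [ht.2]⟩
    have hm : MonotoneOn (f ε) (Set.Icc 0 1) := by
      refine monotoneOn_of_deriv_nonneg (convex_Icc 0 1)
        (fun t ht => (hd t (hsub ht)).continuousAt.continuousWithinAt)
        (fun t ht => (hd t (hsub (interior_subset ht))).differentiableWithinAt) ?_
      intro t ht
      rw [interior_Icc] at ht
      have htT : t ∈ T := hsub (Set.Ioo_subset_Icc_self ht)
      obtain ⟨D, hD0, hD⟩ := transport_nonneg l (fun _ t w => pX φ X O t w + ε)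
        (fun _ t w => rX φ X Xw O t w / (pX φ X O t w + ε))
        (fun _ t w => X t w / Xw t w) (fun _ t w => -(Xt t w) / Xw t w) (fun _ => Dv) T hTo Rad
        (fun _ => hFl) t htT ht.1
        (fun _ w => div_nonneg (hrX0 t w) (by linarith [hpX0 t w]))
        (fun _ w hne => by
          have hmem : (t, w) ∈ O := by
            by_contra hc
            apply hne
            simp only [rX, if_neg hc, zero_div]
          have hW : (t : ℂ) * w ∈ W := hmem
          have hXne : Xw t w ≠ 0 := h.ne _ hW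
          have hder := deriv_R h hW
          simp only [hXdef, hXt, hXw] at *
          rw [eq_sub_iff_add_eq, mul_div_assoc', ← eq_sub_iff_add_eq, eq_sub_iff_add_eq,
            div_add' _ _ _ hXne, div_left_inj' hXne]
          rw [hder]
          ring)
      rw [show deriv (f ε) t = D from hD.deriv]
      exact hD0
    exact hm ⟨le_rfl, zero_le_one⟩ ⟨zero_le_one, le_rfl⟩ zero_le_one
  -- continuity
  obtain ⟨Dv1, hF1⟩ := hflow 1 one_pos
  have hpc : ∀ t ∈ T, Continuous (pX φ X O t) := by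
    intro t ht
    have h1 : Continuous fun w : ℂ => pX φ X O t w + 1 := by
      have := hF1.p_cont
      have h2 : ContinuousOn (fun w : ℂ => (fun x : ℝ × ℂ => pX φ X O x.1 x.2 + 1) (t, w))
          Set.univ := this.comp (by fun_prop) (fun w _ => ⟨ht, Set.mem_univ _⟩)
      exact continuousOn_univ.1 h2
    have h2 : pX φ X O t = fun w : ℂ => (pX φ X O t w + 1) - 1 := by funext w; ring
    rw [h2]; exact h1.sub continuous_const
  have hrc : ∀ t ∈ T, Continuous (rX φ X Xw O t) := by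
    intro t ht
    have h1 : Continuous fun w : ℂ => rX φ X Xw O t w / (pX φ X O t w + 1) := by
      have := hF1.m_cont
      have h2 : ContinuousOn (fun w : ℂ => (fun x : ℝ × ℂ =>
          rX φ X Xw O x.1 x.2 / (pX φ X O x.1 x.2 + 1)) (t, w))
          Set.univ := this.comp (by fun_prop) (fun w _ => ⟨ht, Set.mem_univ _⟩)
      exact continuousOn_univ.1 h2
    have h2 : rX φ X Xw O t = fun w : ℂ =>
        (rX φ X Xw O t w / (pX φ X O t w + 1)) * (pX φ X O t w + 1) := by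
      funext w
      have : pX φ X O t w + 1 ≠ 0 := by linarith [hpX0 t w]
      field_simp
    rw [h2]; exact h1.mul ((hpc t ht).add continuous_const)
  have hsupp : ∀ t ∈ T, ∀ w, Rad < ‖w‖ → rX φ X Xw O t w = 0 := by
    intro t ht w hw
    by_contra hne
    have hmem : (t, w) ∈ O := by
      by_contra hc
      apply hne
      simp only [rX, if_neg hc]
    have hle : ‖X t w‖ ^ 2 ≤ b := by
      by_contra hc
      apply hne
      simp only [rX, if_pos hmem]
      rw [dF_eq_zero hφ (not_le.1 hc), zero_mul]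
    exact absurd (hRad t ht w hmem hle) (not_le.2 hw)
  have hlim : ∀ t ∈ T, Tendsto (fun ε => f ε t) (𝓝[>] 0)
      (𝓝 (F0 l (fun _ => pX φ X O t) (fun _ => rX φ X Xw O t))) := fun t ht =>
    Fm_tendsto l (fun _ => pX φ X O t) (fun _ => rX φ X Xw O t) (fun _ => hpc t ht)
      (fun _ => hrc t ht) (fun _ => hpX0 t) (fun _ => hpX1 t) Rad (fun _ => hsupp t ht)
  have hfin : F0 l (fun _ => pX φ X O 0) (fun _ => rX φ X Xw O 0) ≤
      F0 l (fun _ => pX φ X O 1) (fun _ => rX φ X Xw O 1) := by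
    refine le_of_tendsto_of_tendsto (hlim 0 h0T) (hlim 1 h1T) ?_
    filter_upwards [self_mem_nhdsWithin] with ε hε
    exact hmono ε hε
  have e1 : pX φ X O 0 = fun w => φ (‖w‖ ^ 2) := by
    funext w
    have hm : ((0 : ℝ), w) ∈ O := by simp [hO, h.zero_mem]
    simp only [pX, if_pos hm, hXdef]
    simp [h.R1]
  have e2 : rX φ X Xw O 0 = fun w => dF φ (‖w‖ ^ 2) := by
    funext w
    have hm : ((0 : ℝ), w) ∈ O := by simp [hO, h.zero_mem]
    simp only [rX, if_pos hm, hXdef, hXw]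
    simp [h.R1]
  have e3 : pX φ X O 1 = pW φ R W := by
    funext w
    simp only [pX, pW, hO, hXdef, Set.mem_ofPred_eq, Complex.ofReal_one, one_mul, S_mul h]
  have e4 : rX φ X Xw O 1 = rW φ R W := by
    funext w
    simp only [rX, rW, hO, hXdef, hXw, Set.mem_ofPred_eq, Complex.ofReal_one, one_mul, S_mul h]
  rw [e1, e2, e3, e4] at hfin
  exact hfin

end H3M
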