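import Pool.Agent.H3M.Defs
set_option autoImplicit false
noncomputable section
namespace H3M

/-- `Q(ξ) = ∑ ξ^(2k+1) / (2k+1)²`, the Legendre chi function -/
def Q (x : ℂ) : ℂ := ∑' k : ℕ, x ^ (2 * k + 1) / (2 * k + 1 : ℂ) ^ 2

/-- `x Q'(x) = artanh x` -/
theorem Q_deriv (x : ℂ) (hx : ‖x‖ < 1) : ∃ g : ℂ, HasDerivAt Q g x ∧
    x * g = (Complex.log (1 + x) - Complex.log (1 - x)) / 2 ∧ 0 < g.re ∧ (x = 0 → g = 1) := by
  sorry

theorem Q_zero : Q 0 = 0 := by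
  sorry

theorem Q_conj (x : ℂ) (hx : ‖x‖ < 1) :
    Q ((starRingEnd ℂ) x) = (starRingEnd ℂ) (Q x) := by
  sorry

theorem Q_re_le (x : ℂ) (hx : ‖x‖ < 1) : |(Q x).re| ≤ Real.pi ^ 2 / 8 := by
  sorry

/-- injectivity, from `Re Q' > 0` -/
theorem Q_inj : Set.InjOn Q (Metric.ball 0 1) := by
  sorry

/-- from `Re Q' > 0` along vertical segments and `Q` real on the real axis -/
theorem Q_im_pos (x : ℂ) (hx : ‖x‖ < 1) (h : 0 < x.im) : 0 < (Q x).im := by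
  sorry

theorem artanh_im (x : ℂ) (hx : ‖x‖ < 1) :
    ((Complex.log (1 + x) - Complex.log (1 - x)) / 2).im =
      Real.arctan (2 * x.im / (1 - ‖x‖ ^ 2)) / 2 := by
  sorry

end H3M
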