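import Pool.Agent.H3M.QF
set_option autoImplicit false
noncomputable section
namespace H3M

theorem QF1_hasSum_artanh (x : ℂ) (hx : ‖x‖ < 1) :
    HasSum (fun k : ℕ => x ^ (2 * k + 1) / (2 * k + 1 : ℂ))
      ((Complex.log (1 + x) - Complex.log (1 - x)) / 2) := by
  have h1 := Complex.hasSum_taylorSeries_log hx
  have h2 := Complex.hasSum_taylorSeries_neg_log hx
  have h3 := (h1.add h2).div_const 2
  have hinj : Function.Injective (fun k : ℕ => 2 * k + 1) := by
    intro a b h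
    simp only at h
    omega
  have h4 := (hinj.hasSum_iff (f := fun n : ℕ =>
    ((-1 : ℂ) ^ (n + 1) * x ^ n / n + x ^ n / n) / 2)
    (a := (Complex.log (1 + x) + -Complex.log (1 - x)) / 2) (by
      intro n hn
      have hev : Even n := by
        rcases Nat.even_or_odd n with h | h
        · exact h
        · exfalso
          apply hn
          obtain ⟨k, hk⟩ := h
          exact ⟨k, by simp only; omega⟩
      have : Odd (n + 1) := hev.add_one
      rw [this.neg_one_pow]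
      ring)).2 h3
  have h5 : (Complex.log (1 + x) - Complex.log (1 - x)) / 2 =
      (Complex.log (1 + x) + -Complex.log (1 - x)) / 2 := by ring
  rw [h5]
  convert h4 using 1
  funext k
  simp only [Function.comp]
  have : Even (2 * k + 1 + 1) := ⟨k + 1, by ring⟩
  rw [this.neg_one_pow]
  push_cast
  ring

theorem QF1_summable_aux (x : ℂ) (hx : ‖x‖ < 1) :
    Summable (fun k : ℕ => x ^ (2 * k) / (2 * k + 1 : ℂ)) := by
  have hs : Summable (fun k : ℕ => ‖x‖ ^ (2 * k)) := by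
    simp_rw [pow_mul]
    apply summable_geometric_of_lt_one (by positivity)
    nlinarith [norm_nonneg x]
  refine Summable.of_norm_bounded hs ?_
  intro k
  rw [norm_div, norm_pow]
  have h1 : ‖(2 * k + 1 : ℂ)‖ = 2 * k + 1 := by
    have : (2 * k + 1 : ℂ) = ((2 * k + 1 : ℕ) : ℂ) := by push_cast; ring
    rw [this, Complex.norm_natCast]
    push_cast; ring
  rw [h1]
  have h2 : (1 : ℝ) ≤ 2 * k + 1 := by
    have : (0 : ℝ) ≤ k := Nat.cast_nonneg k
    linarith
  apply div_le_self (by positivity) h2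

theorem QF1_hasDerivAt (x : ℂ) (hx : ‖x‖ < 1) :
    HasDerivAt Q (∑' k : ℕ, x ^ (2 * k) / (2 * k + 1 : ℂ)) x := by
  obtain ⟨r, hr1, hr2⟩ := exists_between hx
  have hr0 : 0 ≤ r := le_trans (norm_nonneg x) hr1.le
  have hs : Summable (fun k : ℕ => r ^ (2 * k)) := by
    simp_rw [pow_mul]
    apply summable_geometric_of_lt_one (by positivity)
    nlinarith
  have hne : ∀ k : ℕ, (2 * k + 1 : ℂ) ≠ 0 := by
    intro k
    have : (2 * k + 1 : ℂ) = ((2 * k + 1 : ℕ) : ℂ) := by push_cast; ring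
    rw [this]
    exact_mod_cast Nat.succ_ne_zero (2 * k)
  refine hasDerivAt_tsum_of_isPreconnected (t := Metric.ball (0 : ℂ) r) (y₀ := 0)
    (g := fun (k : ℕ) (y : ℂ) => y ^ (2 * k + 1) / (2 * k + 1 : ℂ) ^ 2)
    (g' := fun (k : ℕ) (y : ℂ) => y ^ (2 * k) / (2 * k + 1 : ℂ)) hs Metric.isOpen_ball
    (convex_ball (0 : ℂ) r).isPreconnected ?_ ?_ ?_ ?_ ?_
  · intro k y _
    have h := (hasDerivAt_pow (2 * k + 1) y).div_const ((2 * k + 1 : ℂ) ^ 2)
    refine h.congr_deriv ?_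
    have := hne k
    push_cast
    field_simp
  · intro k y hy
    rw [Metric.mem_ball, dist_zero_right] at hy
    rw [norm_div, norm_pow]
    have h1 : ‖(2 * k + 1 : ℂ)‖ = 2 * k + 1 := by
      have : (2 * k + 1 : ℂ) = ((2 * k + 1 : ℕ) : ℂ) := by push_cast; ring
      rw [this, Complex.norm_natCast]
      push_cast; ring
    rw [h1]
    have h2 : (1 : ℝ) ≤ 2 * k + 1 := by
      have : (0 : ℝ) ≤ k := Nat.cast_nonneg k
      linarith
    calc ‖y‖ ^ (2 * k) / (2 * k + 1) ≤ ‖y‖ ^ (2 * k) := div_le_self (by positivity) h2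
      _ ≤ r ^ (2 * k) := by gcongr
  · rw [Metric.mem_ball, dist_zero_right, norm_zero]
    exact lt_of_le_of_lt (norm_nonneg x) hr1
  · have : (fun n : ℕ => (0 : ℂ) ^ (2 * n + 1) / (2 * n + 1 : ℂ) ^ 2) = fun _ => 0 := by
      funext n
      simp
    simp only [this]
    exact summable_zero
  · rw [Metric.mem_ball, dist_zero_right]
    exact hr1

theorem QF1_mul (x : ℂ) (hx : ‖x‖ < 1) :
    x * (∑' k : ℕ, x ^ (2 * k) / (2 * k + 1 : ℂ)) =
      (Complex.log (1 + x) - Complex.log (1 - x)) / 2 := by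
  rw [← (QF1_hasSum_artanh x hx).tsum_eq, ← tsum_mul_left]
  congr 1
  funext k
  ring

theorem QF1_re_inv (w : ℂ) (hw : ‖w‖ < 1) : 0 < ((1 - w)⁻¹).re := by
  rw [Complex.inv_re]
  have h1 : w.re < 1 := lt_of_le_of_lt (Complex.re_le_norm w) hw
  have h2 : (1 - w) ≠ 0 := by
    intro h
    have : w = 1 := by linear_combination -h
    rw [this] at hw
    simp at hw
  apply div_pos
  · simp; linarith
  · exact Complex.normSq_pos.2 h2

theorem QF1_re_pos (x : ℂ) (hx : ‖x‖ < 1) :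
    0 < (∑' k : ℕ, x ^ (2 * k) / (2 * k + 1 : ℂ)).re := by
  by_cases hx0 : x = 0
  · have : (∑' k : ℕ, x ^ (2 * k) / (2 * k + 1 : ℂ)) = 1 := by
      rw [tsum_eq_single 0]
      · simp
      · intro k hk
        rw [hx0, zero_pow (by omega)]
        simp
    rw [this]
    simp
  · have hg : (∑' k : ℕ, x ^ (2 * k) / (2 * k + 1 : ℂ)) =
        (Complex.log (1 + x) - Complex.log (1 - x)) / (2 * x) := by
      have := QF1_mul x hx
      rw [eq_div_iff (by simpa using hx0)]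
      linear_combination 2 * this
    rw [hg]
    have hnorm : ∀ t : ℝ, t ∈ Set.Icc (0 : ℝ) 1 → ‖(t : ℂ) * x‖ < 1 := by
      intro t ht
      rw [norm_mul, Complex.norm_real, Real.norm_eq_abs, abs_of_nonneg ht.1]
      calc t * ‖x‖ ≤ 1 * ‖x‖ := by gcongr; exact ht.2
        _ < 1 := by simpa using hx
    have hmem1 : ∀ w : ℂ, ‖w‖ < 1 → 1 + w ∈ Complex.slitPlane :=
      fun w hw => Complex.mem_slitPlane_of_norm_lt_one hw
    have hmem2 : ∀ w : ℂ, ‖w‖ < 1 → 1 - w ∈ Complex.slitPlane := by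
      intro w hw
      rw [sub_eq_add_neg]
      apply hmem1
      rwa [norm_neg]
    have hne1 : ∀ w : ℂ, ‖w‖ < 1 → 1 + w ≠ 0 := fun w hw =>
      Complex.slitPlane_ne_zero (hmem1 w hw)
    have hne2 : ∀ w : ℂ, ‖w‖ < 1 → 1 - w ≠ 0 := fun w hw =>
      Complex.slitPlane_ne_zero (hmem2 w hw)
    have hd : ∀ t : ℝ, t ∈ Set.Icc (0 : ℝ) 1 →
        HasDerivAt (fun s : ℝ => (Complex.log (1 + (s : ℂ) * x) - Complex.log (1 - (s : ℂ) * x)) / (2 * x))
          ((1 - ((t : ℂ) * x) ^ 2)⁻¹) t := by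
      intro t ht
      have hn := hnorm t ht
      have e1 : HasDerivAt (fun s : ℂ => 1 + s * x) x (t : ℂ) := by
        simpa using ((hasDerivAt_id (t : ℂ)).mul_const x).const_add 1
      have e2 : HasDerivAt (fun s : ℂ => 1 - s * x) (-x) (t : ℂ) := by
        simpa using ((hasDerivAt_id (t : ℂ)).mul_const x).const_sub 1
      have f1 := e1.clog (hmem1 _ hn)
      have f2 := e2.clog (hmem2 _ hn)
      have f3 := ((f1.sub f2).div_const (2 * x)).comp_ofReal
      refine f3.congr_deriv ?_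
      symm
      have a1 := hne1 _ hn
      have a2 := hne2 _ hn
      have a3 : 1 - ((t : ℂ) * x) ^ 2 = (1 + (t : ℂ) * x) * (1 - (t : ℂ) * x) := by ring
      rw [a3, eq_div_iff (by simpa using hx0), div_sub_div _ _ a1 a2, eq_div_iff (mul_ne_zero a1 a2)]
      have a4 := inv_mul_cancel₀ (mul_ne_zero a1 a2)
      linear_combination (2 * x) * a4
    have hd' : ∀ t : ℝ, t ∈ Set.Icc (0 : ℝ) 1 →
        HasDerivAt (fun s : ℝ => ((Complex.log (1 + (s : ℂ) * x) - Complex.log (1 - (s : ℂ) * x)) / (2 * x)).re)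
          (((1 - ((t : ℂ) * x) ^ 2)⁻¹).re) t := by
      intro t ht
      exact (Complex.reCLM.hasFDerivAt.comp_hasDerivAt t (hd t ht))
    have hmono := strictMonoOn_of_deriv_pos (convex_Icc (0 : ℝ) 1)
      (f := fun s : ℝ => ((Complex.log (1 + (s : ℂ) * x) - Complex.log (1 - (s : ℂ) * x)) / (2 * x)).re)
      (fun t ht => (hd' t ht).continuousAt.continuousWithinAt) (by
        intro t ht
        rw [interior_Icc] at ht
        have ht' : t ∈ Set.Icc (0 : ℝ) 1 := ⟨ht.1.le, ht.2.le⟩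
        rw [(hd' t ht').deriv]
        apply QF1_re_inv
        rw [norm_pow]
        have := hnorm t ht'
        nlinarith [norm_nonneg ((t : ℂ) * x)])
    have h01 := hmono (Set.left_mem_Icc.2 zero_le_one) (Set.right_mem_Icc.2 zero_le_one) zero_lt_one
    simpa using h01

/-- `x Q'(x) = artanh x` -/
theorem Q_deriv' (x : ℂ) (hx : ‖x‖ < 1) : ∃ g : ℂ, HasDerivAt Q g x ∧
    x * g = (Complex.log (1 + x) - Complex.log (1 - x)) / 2 ∧ 0 < g.re ∧ (x = 0 → g = 1) := by
  refine ⟨_, QF1_hasDerivAt x hx, QF1_mul x hx, QF1_re_pos x hx, ?_⟩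
  intro h
  rw [tsum_eq_single 0]
  · simp
  · intro k hk
    rw [h, zero_pow (by omega)]
    simp

theorem Q_zero' : Q 0 = 0 := by
  unfold Q
  rw [tsum_congr (g := fun _ => (0 : ℂ)), tsum_zero]
  intro k
  rw [zero_pow (by omega)]
  simp

theorem Q_conj' (x : ℂ) (hx : ‖x‖ < 1) :
    Q ((starRingEnd ℂ) x) = (starRingEnd ℂ) (Q x) := by
  unfold Q
  rw [Complex.conj_tsum]
  congr 1
  funext k
  simp only [map_div₀, map_pow, map_add, map_mul, map_one, Complex.conj_natCast, map_ofNat]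

theorem QF1_odd_sum : HasSum (fun k : ℕ => 1 / (2 * (k : ℝ) + 1) ^ 2) (Real.pi ^ 2 / 8) := by
  have h := hasSum_zeta_two
  have h1 : HasSum (fun k : ℕ => (1 : ℝ) / ((2 * k : ℕ) : ℝ) ^ 2) (Real.pi ^ 2 / 24) := by
    have h0 := h.mul_left (1 / 4)
    have e1 : (fun k : ℕ => (1 : ℝ) / ((2 * k : ℕ) : ℝ) ^ 2) =
        fun k : ℕ => 1 / 4 * (1 / (k : ℝ) ^ 2) := by
      funext k
      push_cast
      ring
    have e2 : Real.pi ^ 2 / 24 = 1 / 4 * (Real.pi ^ 2 / 6) := by ring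
    rw [e1, e2]
    exact h0
  have hs : Summable (fun k : ℕ => (1 : ℝ) / ((2 * k + 1 : ℕ) : ℝ) ^ 2) := by
    have hinj : Function.Injective (fun k : ℕ => 2 * k + 1) := by
      intro a b h
      simp only at h
      omega
    exact h.summable.comp_injective hinj
  have h3 := HasSum.even_add_odd (f := fun n : ℕ => (1 : ℝ) / (n : ℝ) ^ 2) h1 hs.hasSum
  have h4 := h3.unique h
  have h5 : ∑' k : ℕ, (1 : ℝ) / ((2 * k + 1 : ℕ) : ℝ) ^ 2 = Real.pi ^ 2 / 8 := by linarith
  have h6 := hs.hasSum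
  rw [h5] at h6
  convert h6 using 1
  funext k
  push_cast
  rfl

theorem Q_re_le' (x : ℂ) (hx : ‖x‖ < 1) : |(Q x).re| ≤ Real.pi ^ 2 / 8 := by
  refine (Complex.abs_re_le_norm _).trans ?_
  have h := QF1_odd_sum
  rw [← h.tsum_eq]
  unfold Q
  refine tsum_of_norm_bounded h.summable.hasSum ?_
  intro k
  rw [norm_div, norm_pow, norm_pow]
  have h1 : ‖(2 * k + 1 : ℂ)‖ = 2 * k + 1 := by
    have : (2 * k + 1 : ℂ) = ((2 * k + 1 : ℕ) : ℂ) := by push_cast; ring
    rw [this, Complex.norm_natCast]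
    push_cast; ring
  rw [h1]
  gcongr
  exact pow_le_one₀ (norm_nonneg x) hx.le

end H3M
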