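import Pool.Agent.H3M.QF
set_option autoImplicit false
noncomputable section
namespace H3M

theorem Q_inj' : Set.InjOn Q (Metric.ball 0 1) := by
  intro x hx y hy hxy
  by_contra hne
  have hd : y - x ≠ 0 := sub_ne_zero.2 (Ne.symm hne)
  have hseg : ∀ s ∈ Set.Icc (0 : ℝ) 1, ‖x + (s : ℂ) * (y - x)‖ < 1 := by
    intro s hs
    have hc : Convex ℝ (Metric.ball (0 : ℂ) 1) := convex_ball 0 1
    have h1 : x + s • (y - x) ∈ Metric.ball (0 : ℂ) 1 := hc.add_smul_sub_mem hx hy hs
    rw [mem_ball_zero_iff] at h1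
    simpa [Complex.real_smul] using h1
  have hder : ∀ s ∈ Set.Icc (0 : ℝ) 1, ∃ g : ℂ, 0 < g.re ∧
      HasDerivAt (fun s : ℝ => (Q (x + (s : ℂ) * (y - x)) * (starRingEnd ℂ) (y - x)).re)
        (Complex.normSq (y - x) * g.re) s := by
    intro s hs
    obtain ⟨g, hg, -, hpos, -⟩ := Q_deriv _ (hseg s hs)
    refine ⟨g, hpos, ?_⟩
    have h1 : HasDerivAt (fun z : ℂ => x + z * (y - x)) (y - x) (s : ℂ) := by
      simpa using ((hasDerivAt_id (s : ℂ)).mul_const (y - x)).const_add x
    have h2 : HasDerivAt (fun z : ℂ => Q (x + z * (y - x)) * (starRingEnd ℂ) (y - x))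
        (g * (y - x) * (starRingEnd ℂ) (y - x)) (s : ℂ) := by
      have := HasDerivAt.comp (s : ℂ) hg h1
      exact this.mul_const _
    have h3 := h2.real_of_complex
    convert h3 using 1
    rw [mul_assoc, Complex.mul_conj, Complex.re_mul_ofReal, mul_comm]
  have hmono : StrictMonoOn
      (fun s : ℝ => (Q (x + (s : ℂ) * (y - x)) * (starRingEnd ℂ) (y - x)).re) (Set.Icc 0 1) := by
    apply strictMonoOn_of_deriv_pos (convex_Icc 0 1)
    · intro s hs
      obtain ⟨g, _, hg⟩ := hder s hs
      exact hg.continuousAt.continuousWithinAt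
    · intro s hs
      rw [interior_Icc] at hs
      obtain ⟨g, hpos, hg⟩ := hder s (Set.Ioo_subset_Icc_self hs)
      rw [hg.deriv]
      exact mul_pos (Complex.normSq_pos.2 hd) hpos
  have h := hmono (Set.left_mem_Icc.2 zero_le_one) (Set.right_mem_Icc.2 zero_le_one) zero_lt_one
  simp only [Complex.ofReal_zero, zero_mul, add_zero, Complex.ofReal_one, one_mul,
    add_sub_cancel] at h
  rw [hxy] at h
  exact lt_irrefl _ h

theorem Q_im_pos' (x : ℂ) (hx : ‖x‖ < 1) (h : 0 < x.im) : 0 < (Q x).im := by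
  have hseg : ∀ s ∈ Set.Icc (0 : ℝ) x.im, ‖(x.re : ℂ) + (s : ℂ) * Complex.I‖ < 1 := by
    intro s hs
    refine lt_of_le_of_lt ?_ hx
    rw [Complex.norm_def, Complex.norm_def]
    apply Real.sqrt_le_sqrt
    simp only [Complex.normSq_apply, Complex.add_re, Complex.ofReal_re, Complex.mul_re,
      Complex.I_re, mul_zero, Complex.ofReal_im, Complex.I_im, mul_one, sub_self, add_zero,
      Complex.add_im, Complex.mul_im, zero_add]
    have := mul_self_le_mul_self hs.1 hs.2
    linarith
  have hder : ∀ s ∈ Set.Icc (0 : ℝ) x.im, ∃ g : ℂ, 0 < g.re ∧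
      HasDerivAt (fun s : ℝ => (Q ((x.re : ℂ) + (s : ℂ) * Complex.I)).im) g.re s := by
    intro s hs
    obtain ⟨g, hg, -, hpos, -⟩ := Q_deriv _ (hseg s hs)
    refine ⟨g, hpos, ?_⟩
    have h1 : HasDerivAt (fun z : ℂ => (x.re : ℂ) + z * Complex.I) Complex.I (s : ℂ) := by
      simpa using ((hasDerivAt_id (s : ℂ)).mul_const Complex.I).const_add (x.re : ℂ)
    have h2 : HasDerivAt (fun z : ℂ => Q ((x.re : ℂ) + z * Complex.I) * (-Complex.I))
        (g * Complex.I * (-Complex.I)) (s : ℂ) := by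
      have := HasDerivAt.comp (s : ℂ) hg h1
      exact this.mul_const _
    have h3 := h2.real_of_complex
    have e1 : (g * Complex.I * (-Complex.I)).re = g.re := by
      simp
    have e2 : (fun s : ℝ => (Q ((x.re : ℂ) + (s : ℂ) * Complex.I) * (-Complex.I)).re) =
        fun s : ℝ => (Q ((x.re : ℂ) + (s : ℂ) * Complex.I)).im := by
      funext s
      simp
    rw [e1] at h3
    rw [← e2]
    exact h3
  have hmono : StrictMonoOn
      (fun s : ℝ => (Q ((x.re : ℂ) + (s : ℂ) * Complex.I)).im) (Set.Icc 0 x.im) := by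
    apply strictMonoOn_of_deriv_pos (convex_Icc 0 x.im)
    · intro s hs
      obtain ⟨g, _, hg⟩ := hder s hs
      exact hg.continuousAt.continuousWithinAt
    · intro s hs
      rw [interior_Icc] at hs
      obtain ⟨g, hpos, hg⟩ := hder s (Set.Ioo_subset_Icc_self hs)
      rw [hg.deriv]
      exact hpos
  have h1 := hmono (Set.left_mem_Icc.2 h.le) (Set.right_mem_Icc.2 h.le) h
  simp only [Complex.ofReal_zero, zero_mul, add_zero, Complex.re_add_im] at h1
  have h2 : (Q (x.re : ℂ)).im = 0 := by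
    have hr : ‖(x.re : ℂ)‖ < 1 := by
      have := hseg 0 (Set.left_mem_Icc.2 h.le)
      simpa using this
    have h3 := Q_conj (x.re : ℂ) hr
    rw [Complex.conj_ofReal] at h3
    exact Complex.conj_eq_iff_im.1 h3.symm
  rw [h2] at h1
  exact h1

theorem artanh_im' (x : ℂ) (hx : ‖x‖ < 1) :
    ((Complex.log (1 + x) - Complex.log (1 - x)) / 2).im =
      Real.arctan (2 * x.im / (1 - ‖x‖ ^ 2)) / 2 := by
  have hre : |x.re| < 1 := lt_of_le_of_lt (Complex.abs_re_le_norm x) hx
  obtain ⟨hre1, hre2⟩ := abs_lt.1 hre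
  have hp : 0 < (1 + x).re := by simp; linarith
  have hm : 0 < (1 - x).re := by simp; linarith
  have hp0 : 1 + x ≠ 0 := by
    intro h0; rw [h0] at hp; simp at hp
  have hm0 : 1 - x ≠ 0 := by
    intro h0; rw [h0] at hm; simp at hm
  have ap : |Complex.arg (1 + x)| < Real.pi / 2 := Complex.abs_arg_lt_pi_div_two_iff.2 (Or.inl hp)
  have am : |Complex.arg (1 - x)| < Real.pi / 2 := Complex.abs_arg_lt_pi_div_two_iff.2 (Or.inl hm)
  have ap' := abs_lt.1 ap
  have am' := abs_lt.1 am
  have hpi := Real.pi_pos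
  have hlog : Complex.log (1 + x) - Complex.log (1 - x) = Complex.log ((1 + x) / (1 - x)) := by
    have h1 : Complex.exp (Complex.log (1 + x) - Complex.log (1 - x)) = (1 + x) / (1 - x) := by
      rw [Complex.exp_sub, Complex.exp_log hp0, Complex.exp_log hm0]
    rw [← h1, Complex.log_exp]
    · simp only [Complex.sub_im, Complex.log_im]
      linarith [ap'.1, am'.2]
    · simp only [Complex.sub_im, Complex.log_im]
      linarith [ap'.2, am'.1]
  have hns : 0 < Complex.normSq (1 - x) := Complex.normSq_pos.2 hm0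
  have hq : (1 + x) / (1 - x) =
      ⟨(1 - ‖x‖ ^ 2) / Complex.normSq (1 - x), 2 * x.im / Complex.normSq (1 - x)⟩ := by
    rw [div_eq_iff hm0, ← Complex.normSq_eq_norm_sq]
    apply Complex.ext
    · simp only [Complex.mul_re, Complex.add_re, Complex.one_re, Complex.sub_re, Complex.sub_im,
        Complex.one_im]
      rw [Complex.normSq_apply] at hns ⊢
      rw [Complex.normSq_apply]
      simp only [Complex.sub_re, Complex.one_re, Complex.sub_im, Complex.one_im] at hns ⊢
      field_simp
      ring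
    · simp only [Complex.mul_im, Complex.add_im, Complex.one_re, Complex.sub_re, Complex.sub_im,
        Complex.one_im]
      rw [Complex.normSq_apply] at hns ⊢
      rw [Complex.normSq_apply]
      simp only [Complex.sub_re, Complex.one_re, Complex.sub_im, Complex.one_im] at hns ⊢
      field_simp
      ring
  have hx2 : 0 < 1 - ‖x‖ ^ 2 := by
    have := norm_nonneg x
    nlinarith
  have hzre : 0 < ((1 + x) / (1 - x)).re := by
    rw [hq]
    exact div_pos hx2 hns
  have haz := abs_lt.1 (Complex.abs_arg_lt_pi_div_two_iff.2 (Or.inl hzre))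
  have harg : Complex.arg ((1 + x) / (1 - x)) = Real.arctan (2 * x.im / (1 - ‖x‖ ^ 2)) := by
    rw [← Real.arctan_tan haz.1 haz.2, Complex.tan_arg]
    congr 1
    rw [hq]
    simp only
    field_simp
  rw [hlog]
  have : (Complex.log ((1 + x) / (1 - x)) / 2).im = Complex.arg ((1 + x) / (1 - x)) / 2 := by
    have h2 : (Complex.log ((1 + x) / (1 - x)) / 2) =
      Complex.log ((1 + x) / (1 - x)) / ((2 : ℝ) : ℂ) := by norm_num
    rw [h2, Complex.div_ofReal_im, Complex.log_im]
  rw [this, harg]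

end H3M
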