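import Pool.Agent.H3M.LA
import Pool.Agent.H3M.IBP
import Pool.Agent.H3M.DUI
set_option autoImplicit false
noncomputable section
open MeasureTheory
namespace H3M
variable {n N : ℕ}

/-- after integration by parts, one tuple -/
theorem term_deriv (l : Fin N → Fin n → ℝ) (p m : Fin N → ℝ → ℂ → ℝ) (q v : Fin N → ℝ → ℂ → ℂ)
    (Dv : Fin N → ℝ → ℂ → ℝ) (T : Set ℝ) (hT : IsOpen T) (R : ℝ)
    (hF : ∀ k, Flow (p k) (m k) (q k) (v k) (Dv k) T R)
    (i : Fin n → Fin N) (t : ℝ) (ht : t ∈ T) :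
    HasDerivAt (fun s => (dt l i) ^ 2 * ∫ z : Ph n, (∏ k, p k s (lf (l k) z)) *
        ∏ a, m (i a) s (lf (l (i a)) z))
      (∑ k : Fin N, ∫ z : Ph n, (∏ k', p k' t (lf (l k') z)) *
        (∏ b : Fin (n + 1), m ((Fin.cons k i : Fin (n + 1) → Fin N) b) t
            (lf (l ((Fin.cons k i : Fin (n + 1) → Fin N) b)) z)) *
        (dt l i * dot (q k t (lf (l k) z))
          (Lam l (Fin.cons k i) (fun b => v ((Fin.cons k i : Fin (n + 1) → Fin N) b) t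
            (lf (l ((Fin.cons k i : Fin (n + 1) → Fin N) b)) z))))) t := by
  sorry

/-- **Transport lemma** -/
theorem transport (l : Fin N → Fin n → ℝ) (p m : Fin N → ℝ → ℂ → ℝ) (q v : Fin N → ℝ → ℂ → ℂ)
    (Dv : Fin N → ℝ → ℂ → ℝ) (T : Set ℝ) (hT : IsOpen T) (R : ℝ)
    (hF : ∀ k, Flow (p k) (m k) (q k) (v k) (Dv k) T R) (t : ℝ) (ht : t ∈ T) :
    HasDerivAt (fun s => Fm l (fun k => p k s) (fun k => m k s))
      ((1 / ((n : ℝ) + 1)) * ∑ j : Fin (n + 1) → Fin N,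
        ∫ z : Ph n, (∏ k, p k t (lf (l k) z)) * (∏ b, m (j b) t (lf (l (j b)) z)) *
          dot (Lam l j (fun b => q (j b) t (lf (l (j b)) z)))
            (Lam l j (fun b => v (j b) t (lf (l (j b)) z)))) t := by
  sorry

/-- radial fields: nothing changes -/
theorem transport_zero (l : Fin N → Fin n → ℝ) (p m : Fin N → ℝ → ℂ → ℝ)
    (q v : Fin N → ℝ → ℂ → ℂ) (Dv : Fin N → ℝ → ℂ → ℝ) (T : Set ℝ) (hT : IsOpen T) (R : ℝ)
    (hF : ∀ k, Flow (p k) (m k) (q k) (v k) (Dv k) T R) (t : ℝ) (ht : t ∈ T)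
    (hq : ∀ k w, q k t w = w) :
    HasDerivAt (fun s => Fm l (fun k => p k s) (fun k => m k s)) 0 t := by
  sorry

/-- conformal dilations: the functional increases -/
theorem transport_nonneg (l : Fin N → Fin n → ℝ) (p m : Fin N → ℝ → ℂ → ℝ)
    (q v : Fin N → ℝ → ℂ → ℂ) (Dv : Fin N → ℝ → ℂ → ℝ) (T : Set ℝ) (hT : IsOpen T) (R : ℝ)
    (hF : ∀ k, Flow (p k) (m k) (q k) (v k) (Dv k) T R) (t : ℝ) (ht : t ∈ T) (ht0 : 0 < t)
    (hm : ∀ k w, 0 ≤ m k t w)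
    (hv : ∀ k w, m k t w ≠ 0 → (t : ℂ) * v k t w = q k t w - w) :
    ∃ D : ℝ, 0 ≤ D ∧ HasDerivAt (fun s => Fm l (fun k => p k s) (fun k => m k s)) D t := by
  sorry

end H3M
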