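import Pool.Agent.H3M.LA
import Pool.Agent.H3M.IBP
import Pool.Agent.H3M.DUI
set_option autoImplicit false
noncomputable section
open MeasureTheory
namespace H3M
variable {n N : ℕ}

namespace TD1

/-- `lf l` as a continuous linear map -/
def lfl (l : Fin n → ℝ) : Ph n →ₗ[ℝ] ℂ where
  toFun := lf l
  map_add' x y := by
    apply Complex.ext <;> simp [lf, mul_add, Finset.sum_add_distrib]
  map_smul' c x := by
    apply Complex.ext <;> simp [lf, Finset.mul_sum, mul_left_comm]

def lfL (l : Fin n → ℝ) : Ph n →L[ℝ] ℂ := LinearMap.toContinuousLinearMap (lfl l)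

@[simp] lemma lfL_apply (l : Fin n → ℝ) (z : Ph n) : lfL l z = lf l z := rfl

lemma lf_cont (l : Fin n → ℝ) : Continuous (lf l) := (lfL l).continuous

lemma lf_left (l e : Fin n → ℝ) : lf l (e, 0) = ((∑ c, l c * e c : ℝ) : ℂ) := by
  apply Complex.ext <;> simp [lf]

lemma lf_right (l e : Fin n → ℝ) : lf l (0, e) = ((∑ c, l c * e c : ℝ) : ℂ) * Complex.I := by
  apply Complex.ext <;> simp [lf]

lemma dot_inner (u v : ℂ) : dot u v = inner ℝ u v := by
  rw [Complex.inner]
  simp [dot]
  ring

lemma dot_smul_right (u v : ℂ) (c : ℝ) : dot u ((c : ℂ) * v) = c * dot u v := by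
  simp [dot]; ring

lemma dot_smul_left (u v : ℂ) (c : ℝ) : dot ((c : ℂ) * u) v = c * dot u v := by
  simp [dot]; ring

lemma dot_comm (u v : ℂ) : dot u v = dot v u := by
  simp [dot]; ring

lemma dot_sub_right (u v w : ℂ) : dot u (v - w) = dot u v - dot u w := by
  simp [dot]; ring

lemma dot_sum_right {ι : Type*} (s : Finset ι) (u : ℂ) (v : ι → ℂ) :
    dot u (∑ i ∈ s, v i) = ∑ i ∈ s, dot u (v i) := by
  simp [dot, Finset.mul_sum, Finset.sum_add_distrib]

lemma dot_cont {X : Type*} [TopologicalSpace X] {f g : X → ℂ} (hf : Continuous f)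
    (hg : Continuous g) : Continuous (fun x => dot (f x) (g x)) := by
  unfold dot
  exact ((Complex.continuous_re.comp hf).mul (Complex.continuous_re.comp hg)).add
    ((Complex.continuous_im.comp hf).mul (Complex.continuous_im.comp hg))

section
variable {p m : ℝ → ℂ → ℝ} {q v : ℝ → ℂ → ℂ} {Dv : ℝ → ℂ → ℝ} {T : Set ℝ} {R : ℝ}

lemma slice {f : ℝ → ℂ → ℝ} (h : ContinuousOn (fun x : ℝ × ℂ => f x.1 x.2) (T ×ˢ Set.univ))
    {t : ℝ} (ht : t ∈ T) : Continuous (f t) := by
  have h1 : Continuous (fun w : ℂ => ((t, w) : ℝ × ℂ)) := by fun_prop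
  have := h.comp_continuous h1 (fun w => ⟨ht, trivial⟩)
  exact this

lemma p_C1 (hF : Flow p m q v Dv T R) {t : ℝ} (ht : t ∈ T) : ContDiff ℝ 1 (p t) := by
  rw [contDiff_one_iff_fderiv]
  refine ⟨fun w => (hF.p_w t ht w).1, ?_⟩
  have e : fderiv ℝ (p t) = fun w => (-(p t w)) • (innerSL ℝ ((m t w : ℂ) * q t w)) := by
    funext w
    refine ContinuousLinearMap.ext fun h => ?_
    have e1 : (innerSL ℝ ((m t w : ℂ) * q t w)) h = dot ((m t w : ℂ) * q t w) h := by
      rw [dot_inner]; rfl
    rw [(hF.p_w t ht w).2 h, smul_apply, e1, dot_smul_left, smul_eq_mul]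
    ring
  rw [e]
  exact (slice hF.p_cont ht).neg.smul ((innerSL ℝ).continuous.comp (hF.r_cont t ht))

lemma Dv_zero (hF : Flow p m q v Dv T R) {t : ℝ} (ht : t ∈ T) (w : ℂ) (hw : R < ‖w‖) :
    Dv t w = 0 := by
  rw [hF.div_eq t ht w]
  have : (fun w : ℂ => (m t w : ℂ) * v t w) =ᶠ[nhds w] fun _ => 0 := by
    have ho : IsOpen {w : ℂ | R < ‖w‖} := isOpen_lt continuous_const continuous_norm
    filter_upwards [ho.mem_nhds hw] with x hx
    rw [hF.supp t ht x hx]; simp
  rw [this.fderiv_eq]
  simp

end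

end TD1

open TD1

/-- after integration by parts, one tuple -/
theorem term_deriv' (l : Fin N → Fin n → ℝ) (p m : Fin N → ℝ → ℂ → ℝ) (q v : Fin N → ℝ → ℂ → ℂ)
    (Dv : Fin N → ℝ → ℂ → ℝ) (T : Set ℝ) (hT : IsOpen T) (R : ℝ)
    (hF : ∀ k, Flow (p k) (m k) (q k) (v k) (Dv k) T R)
    (i : Fin n → Fin N) (t : ℝ) (ht : t ∈ T) :
    HasDerivAt (fun s => (dt l i) ^ 2 * ∫ z : Ph n, (∏ k, p k s (lf (l k) z)) *
        ∏ a, m (i a) s (lf (l (i a)) z))
      (∑ k : Fin N, ∫ z : Ph n, (∏ k', p k' t (lf (l k') z)) *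
        (∏ b : Fin (n + 1), m ((Fin.cons k i : Fin (n + 1) → Fin N) b) t
            (lf (l ((Fin.cons k i : Fin (n + 1) → Fin N) b)) z)) *
        (dt l i * dot (q k t (lf (l k) z))
          (Lam l (Fin.cons k i) (fun b => v ((Fin.cons k i : Fin (n + 1) → Fin N) b) t
            (lf (l ((Fin.cons k i : Fin (n + 1) → Fin N) b)) z))))) t := by
  classical
  by_cases h0 : dt l i = 0
  · simp only [h0]
    simpa using hasDerivAt_const t (0 : ℝ)
  obtain ⟨e, he⟩ := exists_dual l i h0
  have hd := (dui l p m q v Dv T hT R hF i h0 t ht).const_mul ((dt l i) ^ 2)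
  refine hd.congr_deriv ?_
  obtain ⟨C, hC⟩ := bdd_of_dt l i h0 R
  -- abbreviations
  set P : Ph n → ℝ := fun z => ∏ k, p k t (lf (l k) z) with hP
  set Mp : Ph n → ℝ := fun z => ∏ a, m (i a) t (lf (l (i a)) z) with hMp
  set Q : Fin n → Ph n → ℝ := fun a z => ∏ a' ∈ Finset.univ.erase a, m (i a') t (lf (l (i a')) z)
    with hQ
  set c : Fin N → Fin n → ℝ := fun k a => ∑ x, l k x * e a x with hc
  -- continuity
  have hpc : ∀ k, Continuous (fun z : Ph n => p k t (lf (l k) z)) := fun k =>
    (slice (hF k).p_cont ht).comp (lf_cont _)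
  have hmc : ∀ k, Continuous (fun z : Ph n => m k t (lf (l k) z)) := fun k =>
    (slice (hF k).m_cont ht).comp (lf_cont _)
  have hPc : Continuous P := continuous_finsetProd _ fun k _ => hpc k
  have hMpc : Continuous Mp := continuous_finsetProd _ fun a _ => hmc (i a)
  have hQc : ∀ a, Continuous (Q a) := fun a => continuous_finsetProd _ fun a' _ => hmc (i a')
  have hDc : ∀ k, Continuous (fun z : Ph n => Dv k t (lf (l k) z)) := fun k =>
    (slice (hF k).D_cont ht).comp (lf_cont _)
  have hsc : ∀ k, Continuous (fun z : Ph n => m k t (lf (l k) z) *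
      dot (q k t (lf (l k) z)) (v k t (lf (l k) z))) := fun k => by
    have := slice (f := fun t w => m k t w * dot (q k t w) (v k t w)) (hF k).s_cont ht
    exact this.comp (lf_cont _)
  have hrc : ∀ k, Continuous (fun z : Ph n => (m k t (lf (l k) z) : ℂ) * q k t (lf (l k) z)) :=
    fun k => ((hF k).r_cont t ht).comp (lf_cont _)
  have huc : ∀ k, Continuous (fun z : Ph n => (m k t (lf (l k) z) : ℂ) * v k t (lf (l k) z)) :=
    fun k => ((hF k).u_w t ht).continuous.comp (lf_cont _)
  -- compact support criterion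
  have hint : ∀ g : Ph n → ℝ, Continuous g →
      (∀ z, g z ≠ 0 → ∀ a, ‖lf (l (i a)) z‖ ≤ R) → Integrable g := by
    intro g hg h
    refine hg.integrable_of_hasCompactSupport ?_
    refine HasCompactSupport.of_support_subset_isCompact
      (isCompact_closedBall (0 : Ph n) C) ?_
    intro z hz
    rw [mem_closedBall_zero_iff]
    exact hC z (h z hz)
  have hmR : ∀ k z, m k t (lf (l k) z) ≠ 0 → ‖lf (l k) z‖ ≤ R := by
    intro k z h
    by_contra h'
    exact h ((hF k).supp t ht _ (not_le.1 h'))
  have hMpR : ∀ z, Mp z ≠ 0 → ∀ a, ‖lf (l (i a)) z‖ ≤ R := by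
    intro z hz a
    refine hmR _ _ fun h => hz ?_
    exact Finset.prod_eq_zero (Finset.mem_univ a) h
  have hMQ : ∀ a z, m (i a) t (lf (l (i a)) z) * Q a z = Mp z := by
    intro a z
    exact Finset.mul_prod_erase Finset.univ (fun a => m (i a) t (lf (l (i a)) z)) (Finset.mem_univ a)
  -- integrability
  have hI1 : ∀ k, Integrable (fun z => P z * (Mp z * (m k t (lf (l k) z) *
      dot (q k t (lf (l k) z)) (v k t (lf (l k) z))))) := by
    intro k
    refine hint _ (hPc.mul (hMpc.mul (hsc k))) ?_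
    intro z hz
    exact hMpR z fun h => hz (by simp [h])
  have hI2 : ∀ a, Integrable (fun z => P z * (Dv (i a) t (lf (l (i a)) z) * Q a z)) := by
    intro a
    refine hint _ (hPc.mul ((hDc (i a)).mul (hQc a))) ?_
    intro z hz a'
    by_cases haa : a' = a
    · subst haa
      by_contra h'
      exact hz (by simp [Dv_zero (hF (i a')) ht _ (not_le.1 h')])
    · refine hmR _ _ fun h => hz ?_
      have : Q a z = 0 := Finset.prod_eq_zero (Finset.mem_erase.2 ⟨haa, Finset.mem_univ _⟩) h
      simp [this]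
  have hI3 : ∀ k a, Integrable (fun z => P z * (Mp z * (m k t (lf (l k) z) *
      dot (q k t (lf (l k) z)) (v (i a) t (lf (l (i a)) z))))) := by
    intro k a
    have e1 : (fun z => P z * (Mp z * (m k t (lf (l k) z) *
      dot (q k t (lf (l k) z)) (v (i a) t (lf (l (i a)) z))))) =
      fun z => P z * (Q a z * dot ((m k t (lf (l k) z) : ℂ) * q k t (lf (l k) z))
        ((m (i a) t (lf (l (i a)) z) : ℂ) * v (i a) t (lf (l (i a)) z))) := by
      funext z
      rw [dot_smul_left, dot_smul_right, ← hMQ a z]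
      ring
    have e2 : Continuous (fun z => P z * (Mp z * (m k t (lf (l k) z) *
      dot (q k t (lf (l k) z)) (v (i a) t (lf (l (i a)) z))))) := by
      rw [e1]
      exact hPc.mul ((hQc a).mul (dot_cont (hrc k) (huc (i a))))
    refine hint _ e2 ?_
    intro z hz
    exact hMpR z fun h => hz (by simp [h])
  -- integration by parts
  have hkey : ∀ a, ∫ z, P z * (Dv (i a) t (lf (l (i a)) z) * Q a z) =
      ∑ k, c k a * ∫ z, P z * (Mp z * (m k t (lf (l k) z) *
        dot (q k t (lf (l k) z)) (v (i a) t (lf (l (i a)) z)))) := by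
    intro a
    have hHC : ContDiff ℝ 1 (fun z => P z * Q a z) := by
      refine ContDiff.mul (contDiff_prod fun k _ => ?_) (contDiff_prod fun a' _ => ?_)
      · exact (p_C1 (hF k) ht).comp (lfL (l k)).contDiff
      · exact ((hF (i a')).m_w t ht).comp (lfL (l (i a'))).contDiff
    have hib := ibp (l (i a)) (e a) (by simpa using he a a)
      (fun w => (m (i a) t w : ℂ) * v (i a) t w) ((hF (i a)).u_w t ht) (fun z => P z * Q a z) hHC R C
      (fun w hw => by simp [(hF (i a)).supp t ht w hw])
      (fun z hz hz2 => by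
        by_contra hne
        have : ∀ a', ‖lf (l (i a')) z‖ ≤ R := by
          intro a'
          by_cases haa : a' = a
          · subst haa; exact hz2
          · refine hmR _ _ fun h => hne ?_
            have : Q a z = 0 := Finset.prod_eq_zero (Finset.mem_erase.2 ⟨haa, Finset.mem_univ _⟩) h
            simp [this]
        exact absurd (hC z this) (not_le.2 hz))
    have hfd : ∀ z, HasFDerivAt (fun z => P z * Q a z)
        (P z • (∑ a' ∈ Finset.univ.erase a, (∏ b ∈ (Finset.univ.erase a).erase a',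
            m (i b) t (lf (l (i b)) z)) •
              (fderiv ℝ (m (i a') t) (lf (l (i a')) z)).comp (lfL (l (i a')))) +
          Q a z • (∑ k, (∏ b ∈ Finset.univ.erase k, p b t (lf (l b) z)) •
              (fderiv ℝ (p k t) (lf (l k) z)).comp (lfL (l k)))) z := by
      intro z
      have h1 : HasFDerivAt P (∑ k, (∏ b ∈ Finset.univ.erase k, p b t (lf (l b) z)) •
              (fderiv ℝ (p k t) (lf (l k) z)).comp (lfL (l k))) z := by
        refine HasFDerivAt.finsetProd (g := fun k z => p k t (lf (l k) z)) fun k _ => ?_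
        exact ((hF k).p_w t ht (lf (l k) z)).1.hasFDerivAt.comp z (lfL (l k)).hasFDerivAt
      have h2 : HasFDerivAt (Q a) (∑ a' ∈ Finset.univ.erase a, (∏ b ∈ (Finset.univ.erase a).erase a',
            m (i b) t (lf (l (i b)) z)) •
              (fderiv ℝ (m (i a') t) (lf (l (i a')) z)).comp (lfL (l (i a')))) z := by
        refine HasFDerivAt.finsetProd (g := fun a' z => m (i a') t (lf (l (i a')) z)) fun a' _ => ?_
        have hdm : DifferentiableAt ℝ (m (i a') t) (lf (l (i a')) z) :=
          (((hF (i a')).m_w t ht).differentiable one_ne_zero) _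
        exact hdm.hasFDerivAt.comp z (lfL (l (i a'))).hasFDerivAt
      exact h1.mul h2
    have hPk : ∀ k z, (∏ b ∈ Finset.univ.erase k, p b t (lf (l b) z)) * p k t (lf (l k) z) = P z := by
      intro k z
      exact Finset.prod_erase_mul Finset.univ (fun k => p k t (lf (l k) z)) (Finset.mem_univ k)
    have hdir : ∀ z, ∀ h : Ph n, (∀ a', a' ≠ a → lf (l (i a')) h = 0) →
        fderiv ℝ (fun z => P z * Q a z) z h =
          -(P z * Q a z * ∑ k, m k t (lf (l k) z) * dot (q k t (lf (l k) z)) (lf (l k) h)) := by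
      intro z h hh
      rw [(hfd z).fderiv]
      simp only [add_apply, smul_apply,
        sum_apply, ContinuousLinearMap.comp_apply, lfL_apply, smul_eq_mul]
      have z1 : ∑ a' ∈ Finset.univ.erase a, (∏ b ∈ (Finset.univ.erase a).erase a',
            m (i b) t (lf (l (i b)) z)) *
              (fderiv ℝ (m (i a') t) (lf (l (i a')) z)) (lf (l (i a')) h) = 0 := by
        refine Finset.sum_eq_zero fun a' ha' => ?_
        rw [hh a' (Finset.ne_of_mem_erase ha'), map_zero, mul_zero]
      rw [z1, mul_zero, zero_add]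
      have z2 : ∀ k, (∏ b ∈ Finset.univ.erase k, p b t (lf (l b) z)) *
          (fderiv ℝ (p k t) (lf (l k) z)) (lf (l k) h) =
          -(P z * (m k t (lf (l k) z) * dot (q k t (lf (l k) z)) (lf (l k) h))) := by
        intro k
        rw [((hF k).p_w t ht (lf (l k) z)).2, ← hPk k z]
        ring
      simp only [z2]
      rw [Finset.sum_neg_distrib, ← Finset.mul_sum]
      ring
    have hle : ∀ a', a' ≠ a → lf (l (i a')) (e a, 0) = 0 := by
      intro a' h
      rw [lf_left, he a a', if_neg (Ne.symm h)]; simp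
    have hre : ∀ a', a' ≠ a → lf (l (i a')) (0, e a) = 0 := by
      intro a' h
      rw [lf_right, he a a', if_neg (Ne.symm h)]; simp
    have e3 : ∫ z, P z * (Dv (i a) t (lf (l (i a)) z) * Q a z) =
        ∫ z, (P z * Q a z) * ((fderiv ℝ (fun w => (m (i a) t w : ℂ) * v (i a) t w)
          (lf (l (i a)) z) 1).re + (fderiv ℝ (fun w => (m (i a) t w : ℂ) * v (i a) t w)
          (lf (l (i a)) z) Complex.I).im) := by
      congr 1; funext z
      rw [(hF (i a)).div_eq t ht]
      ring
    rw [e3, hib]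
    have e4 : ∀ z, dot ((m (i a) t (lf (l (i a)) z) : ℂ) * v (i a) t (lf (l (i a)) z))
        ⟨fderiv ℝ (fun z => P z * Q a z) z (e a, 0), fderiv ℝ (fun z => P z * Q a z) z (0, e a)⟩ =
        -(∑ k, c k a * (P z * (Mp z * (m k t (lf (l k) z) *
        dot (q k t (lf (l k) z)) (v (i a) t (lf (l (i a)) z)))))) := by
      intro z
      rw [hdir z _ hle, hdir z _ hre]
      simp only [lf_left, lf_right]
      rw [dot_smul_left, ← hMQ a z]
      have e5 : dot (v (i a) t (lf (l (i a)) z))
          ⟨-(P z * Q a z * ∑ k, m k t (lf (l k) z) * dot (q k t (lf (l k) z))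
              ((∑ x, l k x * e a x : ℝ) : ℂ)),
            -(P z * Q a z * ∑ k, m k t (lf (l k) z) * dot (q k t (lf (l k) z))
              (((∑ x, l k x * e a x : ℝ) : ℂ) * Complex.I))⟩ =
          -(P z * Q a z * ∑ k, c k a * (m k t (lf (l k) z) *
            dot (q k t (lf (l k) z)) (v (i a) t (lf (l (i a)) z)))) := by
        have e6 : ∀ k, c k a * (m k t (lf (l k) z) *
            dot (q k t (lf (l k) z)) (v (i a) t (lf (l (i a)) z))) =
            (v (i a) t (lf (l (i a)) z)).re * (m k t (lf (l k) z) * dot (q k t (lf (l k) z))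
              ((∑ x, l k x * e a x : ℝ) : ℂ)) +
            (v (i a) t (lf (l (i a)) z)).im * (m k t (lf (l k) z) * dot (q k t (lf (l k) z))
              (((∑ x, l k x * e a x : ℝ) : ℂ) * Complex.I)) := by
          intro k
          simp only [hc, dot, Complex.ofReal_re, Complex.ofReal_im, Complex.mul_re, Complex.mul_im,
            Complex.I_re, Complex.I_im]
          ring
        simp only [e6]
        rw [Finset.sum_add_distrib, ← Finset.mul_sum, ← Finset.mul_sum]
        simp only [dot]
        ring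
      rw [e5, Finset.mul_sum, mul_neg, Finset.mul_sum]
      congr 1
      refine Finset.sum_congr rfl fun k _ => ?_
      ring
    rw [show (∫ z, dot ((fun w => (m (i a) t w : ℂ) * v (i a) t w) (lf (l (i a)) z))
        ⟨fderiv ℝ (fun z => P z * Q a z) z (e a, 0), fderiv ℝ (fun z => P z * Q a z) z (0, e a)⟩) =
        ∫ z, -(∑ k, c k a * (P z * (Mp z * (m k t (lf (l k) z) *
        dot (q k t (lf (l k) z)) (v (i a) t (lf (l (i a)) z)))))) from by
      congr 1; funext z; exact e4 z]
    rw [integral_neg, neg_neg, integral_finsetSum]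
    · refine Finset.sum_congr rfl fun k _ => ?_
      rw [integral_const_mul]
    · intro k _
      exact (hI3 k a).const_mul _
  -- left side
  have hL : (∫ z : Ph n, P z * (Mp z *
            ∑ k, m k t (lf (l k) z) * dot (q k t (lf (l k) z)) (v k t (lf (l k) z)) -
          ∑ a, Dv (i a) t (lf (l (i a)) z) * Q a z)) =
      (∑ k, ∫ z, P z * (Mp z * (m k t (lf (l k) z) *
        dot (q k t (lf (l k) z)) (v k t (lf (l k) z))))) -
      ∑ a, ∫ z, P z * (Dv (i a) t (lf (l (i a)) z) * Q a z) := by
    rw [← integral_finsetSum _ fun k _ => hI1 k, ← integral_finsetSum _ fun a _ => hI2 a,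
      ← integral_sub (integrable_finsetSum _ fun k _ => hI1 k)
        (integrable_finsetSum _ fun a _ => hI2 a)]
    congr 1; funext z
    rw [mul_sub, Finset.mul_sum, Finset.mul_sum, Finset.mul_sum]
  have hR : ∀ k, (∫ z : Ph n, P z *
        (∏ b : Fin (n + 1), m ((Fin.cons k i : Fin (n + 1) → Fin N) b) t
            (lf (l ((Fin.cons k i : Fin (n + 1) → Fin N) b)) z)) *
        (dt l i * dot (q k t (lf (l k) z))
          (Lam l (Fin.cons k i) (fun b => v ((Fin.cons k i : Fin (n + 1) → Fin N) b) t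
            (lf (l ((Fin.cons k i : Fin (n + 1) → Fin N) b)) z))))) =
      (dt l i) ^ 2 * ((∫ z, P z * (Mp z * (m k t (lf (l k) z) *
        dot (q k t (lf (l k) z)) (v k t (lf (l k) z))))) -
      ∑ a, c k a * ∫ z, P z * (Mp z * (m k t (lf (l k) z) *
        dot (q k t (lf (l k) z)) (v (i a) t (lf (l (i a)) z))))) := by
    intro k
    have e7 : ∀ a, c k a * (∫ z, P z * (Mp z * (m k t (lf (l k) z) *
        dot (q k t (lf (l k) z)) (v (i a) t (lf (l (i a)) z))))) =
        ∫ z, c k a * (P z * (Mp z * (m k t (lf (l k) z) *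
        dot (q k t (lf (l k) z)) (v (i a) t (lf (l (i a)) z))))) := by
      intro a; rw [integral_const_mul]
    simp only [e7]
    rw [← integral_finsetSum _ fun a _ => (hI3 k a).const_mul _,
      ← integral_sub (hI1 k) (integrable_finsetSum _ fun a _ => (hI3 k a).const_mul _),
      ← integral_const_mul]
    congr 1; funext z
    rw [Fin.prod_univ_succ, Lam_cons l i k e he]
    simp only [Fin.cons_zero, Fin.cons_succ]
    rw [dot_smul_right, dot_sub_right, dot_sum_right]
    simp only [dot_smul_right]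
    have e8 : ∑ a, c k a * (P z * (Mp z * (m k t (lf (l k) z) *
        dot (q k t (lf (l k) z)) (v (i a) t (lf (l (i a)) z))))) =
        P z * Mp z * m k t (lf (l k) z) * ∑ a, c k a *
          dot (q k t (lf (l k) z)) (v (i a) t (lf (l (i a)) z)) := by
      rw [Finset.mul_sum]
      refine Finset.sum_congr rfl fun a _ => ?_
      ring
    rw [e8]
    ring
  calc (dt l i) ^ 2 * ∫ z : Ph n, P z * (Mp z *
            ∑ k, m k t (lf (l k) z) * dot (q k t (lf (l k) z)) (v k t (lf (l k) z)) -
          ∑ a, Dv (i a) t (lf (l (i a)) z) * Q a z)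
      = (dt l i) ^ 2 * ((∑ k, ∫ z, P z * (Mp z * (m k t (lf (l k) z) *
        dot (q k t (lf (l k) z)) (v k t (lf (l k) z))))) -
        ∑ a, ∑ k, c k a * ∫ z, P z * (Mp z * (m k t (lf (l k) z) *
        dot (q k t (lf (l k) z)) (v (i a) t (lf (l (i a)) z))))) := by
          rw [hL]; simp only [hkey]
    _ = ∑ k, (dt l i) ^ 2 * ((∫ z, P z * (Mp z * (m k t (lf (l k) z) *
        dot (q k t (lf (l k) z)) (v k t (lf (l k) z))))) -
      ∑ a, c k a * ∫ z, P z * (Mp z * (m k t (lf (l k) z) *
        dot (q k t (lf (l k) z)) (v (i a) t (lf (l (i a)) z))))) := by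
          rw [Finset.sum_comm, ← Finset.sum_sub_distrib, Finset.mul_sum]
    _ = _ := Finset.sum_congr rfl fun k _ => (hR k).symm

end H3M
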