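import Pool.Agent.H3M.TD
set_option autoImplicit false
noncomputable section
open MeasureTheory
namespace H3M
variable {n N : ℕ}

namespace TD2

theorem lf_continuous (l : Fin n → ℝ) : Continuous (fun z : Ph n => lf l z) := by
  have h1 : (fun z : Ph n => lf l z) = fun z : Ph n =>
      ((∑ a, l a * z.1 a : ℝ) : ℂ) + ((∑ a, l a * z.2 a : ℝ) : ℂ) * Complex.I := by
    funext z
    unfold lf
    apply Complex.ext <;> simp
  rw [h1]
  fun_prop

theorem dot_add_right (u v w : ℂ) : dot u (v + w) = dot u v + dot u w := by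
  unfold dot; simp only [Complex.add_re, Complex.add_im]; ring

theorem dot_zero_right (u : ℂ) : dot u 0 = 0 := by unfold dot; simp

theorem dot_zero_left (u : ℂ) : dot 0 u = 0 := by unfold dot; simp

theorem dot_sum_right {ι : Type*} (s : Finset ι) (u : ℂ) (f : ι → ℂ) :
    dot u (∑ i ∈ s, f i) = ∑ i ∈ s, dot u (f i) := by
  unfold dot
  rw [Complex.re_sum, Complex.im_sum, Finset.mul_sum, Finset.mul_sum, ← Finset.sum_add_distrib]

theorem dot_sum_left {ι : Type*} (s : Finset ι) (u : ℂ) (f : ι → ℂ) :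
    dot (∑ i ∈ s, f i) u = ∑ i ∈ s, dot (f i) u := by
  unfold dot
  rw [Complex.re_sum, Complex.im_sum, Finset.sum_mul, Finset.sum_mul, ← Finset.sum_add_distrib]

theorem dot_real_left (c : ℝ) (u v : ℂ) : dot ((c : ℂ) * u) v = c * dot u v := by
  unfold dot; simp only [Complex.re_ofReal_mul, Complex.im_ofReal_mul]; ring

theorem dot_real_right (c : ℝ) (u v : ℂ) : dot u ((c : ℂ) * v) = c * dot u v := by
  unfold dot; simp only [Complex.re_ofReal_mul, Complex.im_ofReal_mul]; ring

theorem dot_continuous {X : Type*} [TopologicalSpace X] {f g : X → ℂ} (hf : Continuous f)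
    (hg : Continuous g) : Continuous fun x => dot (f x) (g x) := by
  unfold dot
  exact ((Complex.continuous_re.comp hf).mul (Complex.continuous_re.comp hg)).add
    ((Complex.continuous_im.comp hf).mul (Complex.continuous_im.comp hg))

/-- the real coefficient of `y b` in `Lam l j y` -/
def Cb (l : Fin N → Fin n → ℝ) (j : Fin (n + 1) → Fin N) (b : Fin (n + 1)) : ℝ :=
  (-1) ^ (b : ℕ) * dt l (fun a => j (b.succAbove a))

theorem Lam_eq (l : Fin N → Fin n → ℝ) (j : Fin (n + 1) → Fin N) (y : Fin (n + 1) → ℂ) :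
    Lam l j y = ∑ b, ((Cb l j b : ℝ) : ℂ) * y b := by
  rw [Lam_expand]
  refine Finset.sum_congr rfl fun b _ => ?_
  unfold Cb
  push_cast
  ring

theorem Cb_perm (l : Fin N → Fin n → ℝ) (j : Fin (n + 1) → Fin N) (b : Fin (n + 1)) :
    Cb l (j ∘ Equiv.swap 0 b) 0 = ((Equiv.Perm.sign (Equiv.swap 0 b) : ℤ) : ℝ) * Cb l j b := by
  have h1 := Lam_perm l j (Pi.single b 1) (Equiv.swap 0 b)
  have h2 : (Pi.single b (1 : ℂ) : Fin (n + 1) → ℂ) ∘ Equiv.swap 0 b = Pi.single 0 1 := by
    funext x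
    simp only [Function.comp_apply, Pi.single_apply]
    congr 1
    rw [eq_iff_iff]
    constructor
    · intro h
      have := congrArg (Equiv.swap 0 b) h
      simpa using this
    · rintro rfl
      simp
  have h3 : ∀ (j : Fin (n + 1) → Fin N) (b : Fin (n + 1)),
      Lam l j (Pi.single b 1) = ((Cb l j b : ℝ) : ℂ) := by
    intro j b
    rw [Lam_eq, Finset.sum_eq_single b]
    · simp
    · intro c _ hc
      simp [Pi.single_eq_of_ne hc]
    · intro h; exact absurd (Finset.mem_univ _) h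
  rw [h2, h3, h3] at h1
  exact_mod_cast h1

/-- the summands of the integrands are integrable -/
theorem int_term (l : Fin N → Fin n → ℝ) (p m : Fin N → ℝ → ℂ → ℝ) (q v : Fin N → ℝ → ℂ → ℂ)
    (Dv : Fin N → ℝ → ℂ → ℝ) (T : Set ℝ) (R : ℝ)
    (hF : ∀ k, Flow (p k) (m k) (q k) (v k) (Dv k) T R) (t : ℝ) (ht : t ∈ T)
    (j : Fin (n + 1) → Fin N) (b : Fin (n + 1)) :
    Integrable (fun z : Ph n => (∏ k, p k t (lf (l k) z)) *
      (∏ b, m (j b) t (lf (l (j b)) z)) * (Cb l j b * dot (q (j b) t (lf (l (j b)) z))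
        (Lam l j (fun b => v (j b) t (lf (l (j b)) z))))) := by
  classical
  by_cases h0 : dt l (fun a => j (b.succAbove a)) = 0
  · have : Cb l j b = 0 := by unfold Cb; rw [h0, mul_zero]
    simp only [this, zero_mul, mul_zero]
    exact integrable_zero _ _ _
  obtain ⟨C, hC⟩ := bdd_of_dt l (fun a => j (b.succAbove a)) h0 R
  have hm : ∀ k, Continuous (m k t) := fun k => ((hF k).m_w t ht).continuous
  have hp : ∀ k, Continuous (p k t) := fun k =>
    continuous_iff_continuousAt.2 fun w => ((hF k).p_w t ht w).1.continuousAt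
  have hr : ∀ k, Continuous (fun w : ℂ => (m k t w : ℂ) * q k t w) := fun k => (hF k).r_cont t ht
  have hu : ∀ k, Continuous (fun w : ℂ => (m k t w : ℂ) * v k t w) :=
    fun k => ((hF k).u_w t ht).continuous
  have hs : ∀ k, Continuous (fun w : ℂ => m k t w * dot (q k t w) (v k t w)) := by
    intro k
    have h1 := (hF k).s_cont
    have h2 : Continuous (fun w : ℂ => ((t, w) : ℝ × ℂ)) := by fun_prop
    exact h1.comp_continuous h2 fun w => ⟨ht, Set.mem_univ _⟩
  -- continuity of one product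
  have hone : ∀ c : Fin (n + 1), Continuous (fun z : Ph n =>
      (∏ b, m (j b) t (lf (l (j b)) z)) * dot (q (j b) t (lf (l (j b)) z))
        (v (j c) t (lf (l (j c)) z))) := by
    intro c
    by_cases hbc : c = b
    · subst hbc
      have e : (fun z : Ph n => (∏ b, m (j b) t (lf (l (j b)) z)) *
          dot (q (j c) t (lf (l (j c)) z)) (v (j c) t (lf (l (j c)) z))) = fun z : Ph n =>
          (∏ b ∈ Finset.univ.erase c, m (j b) t (lf (l (j b)) z)) *
          (m (j c) t (lf (l (j c)) z) *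
            dot (q (j c) t (lf (l (j c)) z)) (v (j c) t (lf (l (j c)) z))) := by
        funext z
        rw [← Finset.mul_prod_erase Finset.univ _ (Finset.mem_univ c)]
        ring
      rw [e]
      exact (continuous_finsetProd _ fun b _ => (hm (j b)).comp (lf_continuous _)).mul
        ((hs (j c)).comp (lf_continuous _))
    · have e : (fun z : Ph n => (∏ b, m (j b) t (lf (l (j b)) z)) *
          dot (q (j b) t (lf (l (j b)) z)) (v (j c) t (lf (l (j c)) z))) = fun z : Ph n =>
          (∏ b' ∈ (Finset.univ.erase b).erase c, m (j b') t (lf (l (j b')) z)) *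
          dot ((m (j b) t (lf (l (j b)) z) : ℂ) * q (j b) t (lf (l (j b)) z))
            ((m (j c) t (lf (l (j c)) z) : ℂ) * v (j c) t (lf (l (j c)) z)) := by
        funext z
        rw [← Finset.mul_prod_erase Finset.univ _ (Finset.mem_univ b),
          ← Finset.mul_prod_erase (Finset.univ.erase b) _
            (Finset.mem_erase.2 ⟨hbc, Finset.mem_univ c⟩), dot_real_left, dot_real_right]
        ring
      rw [e]
      exact (continuous_finsetProd _ fun b _ => (hm (j b)).comp (lf_continuous _)).mul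
        (dot_continuous ((hr (j b)).comp (lf_continuous _)) ((hu (j c)).comp (lf_continuous _)))
  have hcont : Continuous (fun z : Ph n => (∏ k, p k t (lf (l k) z)) *
      (∏ b, m (j b) t (lf (l (j b)) z)) * (Cb l j b * dot (q (j b) t (lf (l (j b)) z))
        (Lam l j (fun b => v (j b) t (lf (l (j b)) z))))) := by
    have e : (fun z : Ph n => (∏ k, p k t (lf (l k) z)) *
      (∏ b, m (j b) t (lf (l (j b)) z)) * (Cb l j b * dot (q (j b) t (lf (l (j b)) z))
        (Lam l j (fun b => v (j b) t (lf (l (j b)) z))))) = fun z : Ph n =>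
        (∏ k, p k t (lf (l k) z)) * ∑ c, (Cb l j b * Cb l j c) *
        ((∏ b, m (j b) t (lf (l (j b)) z)) * dot (q (j b) t (lf (l (j b)) z))
          (v (j c) t (lf (l (j c)) z))) := by
      funext z
      rw [Lam_eq, dot_sum_right]
      simp only [dot_real_right]
      rw [Finset.mul_sum, mul_assoc, Finset.mul_sum]
      congr 1
      refine Finset.sum_congr rfl fun c _ => ?_
      ring
    rw [e]
    exact (continuous_finsetProd _ fun k _ => (hp k).comp (lf_continuous _)).mul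
      (continuous_finsetSum _ fun c _ => continuous_const.mul (hone c))
  refine hcont.integrable_of_hasCompactSupport ?_
  refine HasCompactSupport.of_support_subset_isCompact (isCompact_closedBall (0 : Ph n) C) ?_
  intro z hz
  rw [mem_closedBall_zero_iff]
  apply hC
  intro a
  by_contra hcon
  push Not at hcon
  apply hz
  have : (∏ b, m (j b) t (lf (l (j b)) z)) = 0 :=
    Finset.prod_eq_zero (Finset.mem_univ (b.succAbove a)) ((hF _).supp t ht _ hcon)
  beta_reduce
  rw [this, mul_zero, zero_mul]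

/-- the derivative in terms of the index `b` -/
def Gb (l : Fin N → Fin n → ℝ) (p m : Fin N → ℝ → ℂ → ℝ) (q v : Fin N → ℝ → ℂ → ℂ) (t : ℝ)
    (b : Fin (n + 1)) (j : Fin (n + 1) → Fin N) : ℝ :=
  ∫ z : Ph n, (∏ k, p k t (lf (l k) z)) *
      (∏ b, m (j b) t (lf (l (j b)) z)) * (Cb l j b * dot (q (j b) t (lf (l (j b)) z))
        (Lam l j (fun b => v (j b) t (lf (l (j b)) z))))

theorem Gb_perm (l : Fin N → Fin n → ℝ) (p m : Fin N → ℝ → ℂ → ℝ) (q v : Fin N → ℝ → ℂ → ℂ)
    (t : ℝ) (b : Fin (n + 1)) (j : Fin (n + 1) → Fin N) :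
    Gb l p m q v t 0 (j ∘ Equiv.swap 0 b) = Gb l p m q v t b j := by
  unfold Gb
  congr 1
  funext z
  have h1 : ∏ b', m ((j ∘ Equiv.swap 0 b) b') t (lf (l ((j ∘ Equiv.swap 0 b) b')) z) =
      ∏ b', m (j b') t (lf (l (j b')) z) :=
    Equiv.prod_comp (Equiv.swap 0 b) (fun b' => m (j b') t (lf (l (j b')) z))
  have h2 : Lam l (j ∘ Equiv.swap 0 b)
      (fun b' => v ((j ∘ Equiv.swap 0 b) b') t (lf (l ((j ∘ Equiv.swap 0 b) b')) z)) =
      ((Equiv.Perm.sign (Equiv.swap 0 b) : ℤ) : ℂ) *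
        Lam l j (fun b' => v (j b') t (lf (l (j b')) z)) :=
    Lam_perm l j (fun b' => v (j b') t (lf (l (j b')) z)) (Equiv.swap 0 b)
  have h3 : (j ∘ Equiv.swap 0 b) 0 = j b := by simp
  have h4 : (((Equiv.Perm.sign (Equiv.swap 0 b) : ℤ) : ℝ)) *
      ((Equiv.Perm.sign (Equiv.swap 0 b) : ℤ) : ℝ) = 1 := by
    rcases Int.units_eq_one_or (Equiv.Perm.sign (Equiv.swap 0 b)) with h | h <;> simp [h]
  rw [h1, h2, h3, Cb_perm]
  have h5 : ((Equiv.Perm.sign (Equiv.swap 0 b) : ℤ) : ℂ) =
      (((Equiv.Perm.sign (Equiv.swap 0 b) : ℤ) : ℝ) : ℂ) := by push_cast; rfl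
  rw [h5, dot_real_right]
  have h6 : ∀ s x y w u : ℝ, s * s = 1 → x * y * (s * w * (s * u)) = x * y * (w * u) := by
    intro s x y w u h
    calc x * y * (s * w * (s * u)) = (s * s) * (x * y * (w * u)) := by ring
      _ = _ := by rw [h, one_mul]
  exact h6 _ _ _ _ _ h4

theorem sum_G0 (l : Fin N → Fin n → ℝ) (p m : Fin N → ℝ → ℂ → ℝ) (q v : Fin N → ℝ → ℂ → ℂ)
    (t : ℝ) (b : Fin (n + 1)) :
    ∑ j, Gb l p m q v t 0 j = ∑ j, Gb l p m q v t b j := by
  have h1 : ∑ j : Fin (n + 1) → Fin N, Gb l p m q v t 0 (j ∘ Equiv.swap 0 b) =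
      ∑ j, Gb l p m q v t 0 j :=
    Equiv.sum_comp (Equiv.arrowCongr (Equiv.swap 0 b) (Equiv.refl (Fin N)))
      (fun j => Gb l p m q v t 0 j)
  rw [← h1]
  exact Finset.sum_congr rfl fun j _ => Gb_perm l p m q v t b j

end TD2

/-- **Transport lemma** -/
theorem transport' (l : Fin N → Fin n → ℝ) (p m : Fin N → ℝ → ℂ → ℝ) (q v : Fin N → ℝ → ℂ → ℂ)
    (Dv : Fin N → ℝ → ℂ → ℝ) (T : Set ℝ) (hT : IsOpen T) (R : ℝ)
    (hF : ∀ k, Flow (p k) (m k) (q k) (v k) (Dv k) T R) (t : ℝ) (ht : t ∈ T) :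
    HasDerivAt (fun s => Fm l (fun k => p k s) (fun k => m k s))
      ((1 / ((n : ℝ) + 1)) * ∑ j : Fin (n + 1) → Fin N,
        ∫ z : Ph n, (∏ k, p k t (lf (l k) z)) * (∏ b, m (j b) t (lf (l (j b)) z)) *
          dot (Lam l j (fun b => q (j b) t (lf (l (j b)) z)))
            (Lam l j (fun b => v (j b) t (lf (l (j b)) z)))) t := by
  have h1 := HasDerivAt.fun_sum (u := (Finset.univ : Finset (Fin n → Fin N)))
    (fun i _ => term_deriv l p m q v Dv T hT R hF i t ht)
  have h2 : (∑ i : Fin n → Fin N, ∑ k : Fin N, ∫ z : Ph n, (∏ k', p k' t (lf (l k') z)) *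
        (∏ b : Fin (n + 1), m ((Fin.cons k i : Fin (n + 1) → Fin N) b) t
            (lf (l ((Fin.cons k i : Fin (n + 1) → Fin N) b)) z)) *
        (dt l i * dot (q k t (lf (l k) z))
          (Lam l (Fin.cons k i) (fun b => v ((Fin.cons k i : Fin (n + 1) → Fin N) b) t
            (lf (l ((Fin.cons k i : Fin (n + 1) → Fin N) b)) z))))) =
      ∑ j, TD2.Gb l p m q v t 0 j := by
    rw [← Equiv.sum_comp (Fin.consEquiv fun _ => Fin N) (TD2.Gb l p m q v t 0),
      Fintype.sum_prod_type, Finset.sum_comm]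
    refine Finset.sum_congr rfl fun k _ => Finset.sum_congr rfl fun i _ => ?_
    unfold TD2.Gb TD2.Cb
    simp [Fin.consEquiv]
  have h3 : ∑ j, TD2.Gb l p m q v t 0 j = (1 / ((n : ℝ) + 1)) * ∑ j : Fin (n + 1) → Fin N,
        ∫ z : Ph n, (∏ k, p k t (lf (l k) z)) * (∏ b, m (j b) t (lf (l (j b)) z)) *
          dot (Lam l j (fun b => q (j b) t (lf (l (j b)) z)))
            (Lam l j (fun b => v (j b) t (lf (l (j b)) z))) := by
    have h4 : ∑ b : Fin (n + 1), ∑ j, TD2.Gb l p m q v t b j =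
        ((n : ℝ) + 1) * ∑ j, TD2.Gb l p m q v t 0 j := by
      rw [Finset.sum_congr rfl fun b _ => (TD2.sum_G0 l p m q v t b).symm, Finset.sum_const,
        Finset.card_univ, Fintype.card_fin, nsmul_eq_mul]
      push_cast
      ring
    have h5 : ∑ b : Fin (n + 1), ∑ j, TD2.Gb l p m q v t b j =
        ∑ j : Fin (n + 1) → Fin N,
        ∫ z : Ph n, (∏ k, p k t (lf (l k) z)) * (∏ b, m (j b) t (lf (l (j b)) z)) *
          dot (Lam l j (fun b => q (j b) t (lf (l (j b)) z)))
            (Lam l j (fun b => v (j b) t (lf (l (j b)) z))) := by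
      rw [Finset.sum_comm]
      refine Finset.sum_congr rfl fun j _ => ?_
      unfold TD2.Gb
      rw [← integral_finsetSum _ fun b _ => TD2.int_term l p m q v Dv T R hF t ht j b]
      congr 1
      funext z
      rw [← Finset.mul_sum]
      congr 1
      rw [TD2.Lam_eq l j (fun b => q (j b) t (lf (l (j b)) z)), TD2.dot_sum_left]
      refine Finset.sum_congr rfl fun b _ => ?_
      rw [TD2.dot_real_left]
    rw [← h5, h4]
    have : ((n : ℝ) + 1) ≠ 0 := by positivity
    field_simp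
  rw [h2, h3] at h1
  exact h1

/-- radial fields: nothing changes -/
theorem transport_zero' (l : Fin N → Fin n → ℝ) (p m : Fin N → ℝ → ℂ → ℝ)
    (q v : Fin N → ℝ → ℂ → ℂ) (Dv : Fin N → ℝ → ℂ → ℝ) (T : Set ℝ) (hT : IsOpen T) (R : ℝ)
    (hF : ∀ k, Flow (p k) (m k) (q k) (v k) (Dv k) T R) (t : ℝ) (ht : t ∈ T)
    (hq : ∀ k w, q k t w = w) :
    HasDerivAt (fun s => Fm l (fun k => p k s) (fun k => m k s)) 0 t := by
  have h := transport' l p m q v Dv T hT R hF t ht
  have h0 : ∀ (j : Fin (n + 1) → Fin N) (z : Ph n),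
      Lam l j (fun b => q (j b) t (lf (l (j b)) z)) = 0 := by
    intro j z
    simp only [hq]
    exact Lam_lf l j z
  simp only [h0, TD2.dot_zero_left, mul_zero, integral_zero, Finset.sum_const_zero] at h
  exact h

/-- conformal dilations: the functional increases -/
theorem transport_nonneg' (l : Fin N → Fin n → ℝ) (p m : Fin N → ℝ → ℂ → ℝ)
    (q v : Fin N → ℝ → ℂ → ℂ) (Dv : Fin N → ℝ → ℂ → ℝ) (T : Set ℝ) (hT : IsOpen T) (R : ℝ)
    (hF : ∀ k, Flow (p k) (m k) (q k) (v k) (Dv k) T R) (t : ℝ) (ht : t ∈ T) (ht0 : 0 < t)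
    (hm : ∀ k w, 0 ≤ m k t w)
    (hv : ∀ k w, m k t w ≠ 0 → (t : ℂ) * v k t w = q k t w - w) :
    ∃ D : ℝ, 0 ≤ D ∧ HasDerivAt (fun s => Fm l (fun k => p k s) (fun k => m k s)) D t := by
  refine ⟨_, ?_, transport' l p m q v Dv T hT R hF t ht⟩
  refine mul_nonneg (by positivity) (Finset.sum_nonneg fun j _ => integral_nonneg fun z => ?_)
  show 0 ≤ (∏ k, p k t (lf (l k) z)) * (∏ b, m (j b) t (lf (l (j b)) z)) *
          dot (Lam l j (fun b => q (j b) t (lf (l (j b)) z)))
            (Lam l j (fun b => v (j b) t (lf (l (j b)) z)))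
  by_cases hM : (∏ b, m (j b) t (lf (l (j b)) z)) = 0
  · rw [hM, mul_zero, zero_mul]
  · have hne : ∀ b, m (j b) t (lf (l (j b)) z) ≠ 0 := fun b hb =>
      hM (Finset.prod_eq_zero (Finset.mem_univ b) hb)
    have h1 : (t : ℂ) * Lam l j (fun b => v (j b) t (lf (l (j b)) z)) =
        Lam l j (fun b => q (j b) t (lf (l (j b)) z)) := by
      have h2 := Lam_smul l j (fun b => q (j b) t (lf (l (j b)) z))
        (fun b => lf (l (j b)) z) 1 (-1)
      rw [Lam_lf, mul_zero, add_zero, one_mul] at h2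
      have h3 := Lam_smul l j (fun b => v (j b) t (lf (l (j b)) z)) (fun _ => 0) (t : ℂ) 0
      simp only [zero_mul, add_zero] at h3
      rw [← h2, ← h3]
      congr 1
      funext b
      rw [hv _ _ (hne b)]
      ring
    have h4 : 0 ≤ ∏ k, p k t (lf (l k) z) :=
      Finset.prod_nonneg fun k _ => ((hF k).pos t ht _).le
    have h5 : 0 ≤ ∏ b, m (j b) t (lf (l (j b)) z) := Finset.prod_nonneg fun b _ => hm _ _
    refine mul_nonneg (mul_nonneg h4 h5) ?_
    rw [← h1, TD2.dot_real_left]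
    refine mul_nonneg ht0.le ?_
    unfold dot
    nlinarith [mul_self_nonneg (Lam l j (fun b => v (j b) t (lf (l (j b)) z))).re,
      mul_self_nonneg (Lam l j (fun b => v (j b) t (lf (l (j b)) z))).im]

end H3M
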