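import Pool.Agent.H3M.LA
set_option autoImplicit false
noncomputable section
open MeasureTheory
namespace H3M
variable {n N : ℕ}

open Classical in
/-- at most `n!` feasible pairs `(i, s)` have a given `η` in their open cone -/
theorem cones_card (l : Fin N → Fin n → ℝ) (b : Fin N → ℝ) (hb : ∀ k, 0 < b k) (η : Fin n → ℝ) :
    (Finset.univ.filter (fun x : (Fin n → Fin N) × (Fin n → Bool) => feas l b x.1 x.2 ∧
      ∃ c : Fin n → ℝ, (∀ a, 0 < c a) ∧ η = ∑ a, (c a * sg (x.2 a)) • l (x.1 a))).card ≤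
      n.factorial := by
  sorry

/-- the integral of `exp(-∑c)` over a cone -/
theorem cone_integral (l : Fin N → Fin n → ℝ) (i : Fin n → Fin N) (s : Fin n → Bool)
    (h : dt l i ≠ 0) (G : (Fin n → ℝ) → ℝ)
    (hG : ∀ c : Fin n → ℝ, (∀ a, 0 < c a) → G (∑ a, (c a * sg (s a)) • l (i a)) ≤ ∑ a, c a) :
    ENNReal.ofReal |dt l i| ≤ ∫⁻ η in {η | ∃ c : Fin n → ℝ, (∀ a, 0 < c a) ∧
      η = ∑ a, (c a * sg (s a)) • l (i a)}, ENNReal.ofReal (Real.exp (-(G η))) := by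
  sorry

open Classical in
theorem vertex_sum (l : Fin N → Fin n → ℝ) (b : Fin N → ℝ) (hb : ∀ k, 0 < b k)
    (G : (Fin n → ℝ) → ℝ) (hGm : Measurable G)
    (hG : ∀ (i : Fin n → Fin N) (s : Fin n → Bool) (c : Fin n → ℝ), (∀ a, 0 < c a) →
      G (∑ a, (c a * sg (s a)) • l (i a)) ≤ ∑ a, c a) :
    ∑ i : Fin n → Fin N, ∑ s : Fin n → Bool,
      (if feas l b i s then ENNReal.ofReal |dt l i| else 0) ≤
      n.factorial * ∫⁻ η : Fin n → ℝ, ENNReal.ofReal (Real.exp (-(G η))) := by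
  sorry

end H3M
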