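import Pool.Agent.H3M.Defs
set_option autoImplicit false
noncomputable section
open MeasureTheory
namespace H3M
variable {n N : ℕ}

theorem sg_mul_self (s : Bool) : sg s * sg s = 1 := by
  cases s <;> simp [sg]

theorem abs_sg (s : Bool) : |sg s| = 1 := by
  cases s <;> simp [sg]

theorem sg_eq_of_mul {s t : Bool} (h : sg s * sg t = 1) : s = t := by
  cases s <;> cases t <;> simp [sg] at h ⊢ <;> norm_num at h

theorem inj_of_dt {l : Fin N → Fin n → ℝ} {i : Fin n → Fin N} (h : dt l i ≠ 0) :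
    Function.Injective i := by
  intro a a' haa
  by_contra hne
  exact h (Matrix.det_zero_of_row_eq hne (by
    ext c
    simp [haa]))

theorem pair_eq (l : Fin N → Fin n → ℝ) (i : Fin n → Fin N) (s : Fin n → Bool) (c : Fin n → ℝ)
    (y : Fin n → ℝ) :
    ∑ e, (∑ a, (c a * sg (s a)) • l (i a)) e * y e =
      ∑ a, c a * (sg (s a) * ∑ e, l (i a) e * y e) := by
  simp only [Finset.sum_apply, Pi.smul_apply, smul_eq_mul, Finset.sum_mul, Finset.mul_sum]
  rw [Finset.sum_comm]
  refine Finset.sum_congr rfl fun a _ => Finset.sum_congr rfl fun e _ => by ring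

theorem feas_abs_le {l : Fin N → Fin n → ℝ} {b : Fin N → ℝ} (hb : ∀ k, 0 < b k)
    {i : Fin n → Fin N} {s : Fin n → Bool} {y : Fin n → ℝ}
    (h1 : ∀ a, ∑ c, l (i a) c * y c = sg (s a) * b (i a))
    (h2 : ∀ k, (∀ a, i a ≠ k) → |∑ c, l k c * y c| < b k) (k : Fin N) :
    |∑ c, l k c * y c| ≤ b k := by
  by_cases hk : ∀ a, i a ≠ k
  · exact (h2 k hk).le
  · push Not at hk
    obtain ⟨a, rfl⟩ := hk
    rw [h1 a, abs_mul, abs_sg, one_mul, abs_of_pos (hb _)]

theorem sg_mul_le {x b : ℝ} (s : Bool) (h : |x| ≤ b) : sg s * x ≤ b := by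
  have := abs_le.1 h
  cases s <;> simp [sg] <;> linarith

open Classical in
/-- at most `n!` feasible pairs `(i, s)` have a given `η` in their open cone -/
theorem cones_card' (l : Fin N → Fin n → ℝ) (b : Fin N → ℝ) (hb : ∀ k, 0 < b k) (η : Fin n → ℝ) :
    (Finset.univ.filter (fun x : (Fin n → Fin N) × (Fin n → Bool) => feas l b x.1 x.2 ∧
      ∃ c : Fin n → ℝ, (∀ a, 0 < c a) ∧ η = ∑ a, (c a * sg (x.2 a)) • l (x.1 a))).card ≤
      n.factorial := by
  set S := (Finset.univ.filter (fun x : (Fin n → Fin N) × (Fin n → Bool) => feas l b x.1 x.2 ∧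
      ∃ c : Fin n → ℝ, (∀ a, 0 < c a) ∧ η = ∑ a, (c a * sg (x.2 a)) • l (x.1 a))) with hS
  rcases S.eq_empty_or_nonempty with h0 | ⟨x0, hx0⟩
  · rw [h0]; simp
  have key : S ⊆ (Finset.univ : Finset (Equiv.Perm (Fin n))).image
      (fun σ : Equiv.Perm (Fin n) => (x0.1 ∘ σ, x0.2 ∘ σ)) := by
    intro x hx
    obtain ⟨⟨hd0, y0, hy0, hy0'⟩, c0, hc0, he0⟩ := (Finset.mem_filter.1 hx0).2
    obtain ⟨⟨hd, y, hy, hy'⟩, c, hc, he⟩ := (Finset.mem_filter.1 hx).2
    have A1 : ∑ e, η e * y e = ∑ a, c a * b (x.1 a) := by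
      rw [he, pair_eq]
      refine Finset.sum_congr rfl fun a _ => ?_
      rw [hy a, ← mul_assoc (sg _), sg_mul_self, one_mul]
    have A2 : ∑ e, η e * y0 e = ∑ a, c0 a * b (x0.1 a) := by
      rw [he0, pair_eq]
      refine Finset.sum_congr rfl fun a _ => ?_
      rw [hy0 a, ← mul_assoc (sg _), sg_mul_self, one_mul]
    have A3 : ∑ e, η e * y e ≤ ∑ a, c0 a * b (x0.1 a) := by
      rw [he0, pair_eq]
      exact Finset.sum_le_sum fun a _ => mul_le_mul_of_nonneg_left
        (sg_mul_le _ (feas_abs_le hb hy hy' _)) (hc0 a).le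
    have A4 : ∑ e, η e * y0 e = ∑ a, c a * (sg (x.2 a) * ∑ e, l (x.1 a) e * y0 e) := by
      rw [he, pair_eq]
    have A5 : ∀ a ∈ Finset.univ, c a * (sg (x.2 a) * ∑ e, l (x.1 a) e * y0 e) ≤
        c a * b (x.1 a) := fun a _ => mul_le_mul_of_nonneg_left
        (sg_mul_le _ (feas_abs_le hb hy0 hy0' _)) (hc a).le
    have A6 : ∑ a, c a * (sg (x.2 a) * ∑ e, l (x.1 a) e * y0 e) = ∑ a, c a * b (x.1 a) := by
      refine le_antisymm (Finset.sum_le_sum A5) ?_
      rw [← A4, A2, ← A1]; exact A3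
    have A7 := (Finset.sum_eq_sum_iff_of_le A5).1 A6
    have A8 : ∀ a, ∃ a', x0.1 a' = x.1 a ∧ x0.2 a' = x.2 a := by
      intro a
      have e1 : sg (x.2 a) * ∑ e, l (x.1 a) e * y0 e = b (x.1 a) :=
        mul_left_cancel₀ (hc a).ne' (A7 a (Finset.mem_univ a))
      have e2 : |∑ e, l (x.1 a) e * y0 e| = b (x.1 a) := by
        have := congrArg abs e1
        rwa [abs_mul, abs_sg, one_mul, abs_of_pos (hb _)] at this
      have e3 : ∃ a', x0.1 a' = x.1 a := by
        by_contra hcon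
        push Not at hcon
        exact absurd e2 (hy0' _ hcon).ne
      obtain ⟨a', ha'⟩ := e3
      refine ⟨a', ha', ?_⟩
      have e4 := hy0 a'
      rw [ha'] at e4
      rw [e4, ← mul_assoc] at e1
      have e5 : sg (x.2 a) * sg (x0.2 a') = 1 :=
        mul_right_cancel₀ (hb (x.1 a)).ne' (by rw [e1, one_mul])
      exact (sg_eq_of_mul e5).symm
    choose f hf1 hf2 using A8
    have hfi : Function.Injective f := by
      intro a a' h
      apply inj_of_dt hd
      rw [← hf1 a, ← hf1 a', h]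
    have hfb := Finite.injective_iff_bijective.1 hfi
    refine Finset.mem_image.2 ⟨Equiv.ofBijective f hfb, Finset.mem_univ _, ?_⟩
    ext a
    · simp [hf1]
    · simp [hf2]
  calc S.card ≤ _ := Finset.card_le_card key
    _ ≤ (Finset.univ : Finset (Equiv.Perm (Fin n))).card := Finset.card_image_le
    _ = n.factorial := by rw [Finset.card_univ, Fintype.card_perm, Fintype.card_fin]

end H3M
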