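import Pool.Agent.H3M.V1
set_option autoImplicit false
noncomputable section
open MeasureTheory
namespace H3M
variable {n N : ℕ}

theorem V1c_sg (s : Bool) : sg s * sg s = 1 := by
  cases s <;> norm_num [sg]

/-- the open cones are measurable -/
theorem V1c_meas (l : Fin N → Fin n → ℝ) (i : Fin n → Fin N) (s : Fin n → Bool)
    (h : dt l i ≠ 0) : MeasurableSet {η : Fin n → ℝ | ∃ c : Fin n → ℝ, (∀ a, 0 < c a) ∧
      η = ∑ a, (c a * sg (s a)) • l (i a)} := by
  set A : Matrix (Fin n) (Fin n) ℝ := Matrix.of fun a => l (i a) with hA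
  have hu : IsUnit A.det := isUnit_iff_ne_zero.2 h
  have hsum : ∀ v : Fin n → ℝ, ∑ a, v a • l (i a) = Matrix.vecMul v A := by
    intro v
    rw [Matrix.vecMul_eq_sum]
    rfl
  have hset : {η : Fin n → ℝ | ∃ c : Fin n → ℝ, (∀ a, 0 < c a) ∧
      η = ∑ a, (c a * sg (s a)) • l (i a)} =
      ⋂ a, {η : Fin n → ℝ | 0 < (∑ b, η b * A⁻¹ b a) * sg (s a)} := by
    ext η
    simp only [Set.mem_iInter, Set.mem_ofPred_eq]
    have hv : ∀ a, ∑ b, η b * A⁻¹ b a = Matrix.vecMul η A⁻¹ a := fun a => rfl
    constructor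
    · rintro ⟨c, hc, hη⟩ a
      rw [hv, hη, hsum (fun a => c a * sg (s a)), Matrix.vecMul_vecMul,
        Matrix.mul_nonsing_inv _ hu, Matrix.vecMul_one, mul_assoc, V1c_sg, mul_one]
      exact hc a
    · intro hη
      refine ⟨fun a => (∑ b, η b * A⁻¹ b a) * sg (s a), hη, ?_⟩
      have h1 : (fun a => (∑ b, η b * A⁻¹ b a) * sg (s a) * sg (s a)) = Matrix.vecMul η A⁻¹ := by
        funext a
        rw [mul_assoc, V1c_sg, mul_one, hv]
      have h2 := hsum (fun a => (∑ b, η b * A⁻¹ b a) * sg (s a) * sg (s a))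
      rw [h1, Matrix.vecMul_vecMul, Matrix.nonsing_inv_mul _ hu, Matrix.vecMul_one] at h2
      exact h2.symm
  rw [hset]
  refine MeasurableSet.iInter fun a => ?_
  refine measurableSet_lt measurable_const ?_
  refine Measurable.mul_const ?_ _
  exact Finset.measurable_sum _ fun b _ => (measurable_pi_apply b).mul_const _

open Classical in
theorem vertex_sum' (l : Fin N → Fin n → ℝ) (b : Fin N → ℝ) (hb : ∀ k, 0 < b k)
    (G : (Fin n → ℝ) → ℝ) (hGm : Measurable G)
    (hG : ∀ (i : Fin n → Fin N) (s : Fin n → Bool) (c : Fin n → ℝ), (∀ a, 0 < c a) →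
      G (∑ a, (c a * sg (s a)) • l (i a)) ≤ ∑ a, c a) :
    ∑ i : Fin n → Fin N, ∑ s : Fin n → Bool,
      (if feas l b i s then ENNReal.ofReal |dt l i| else 0) ≤
      n.factorial * ∫⁻ η : Fin n → ℝ, ENNReal.ofReal (Real.exp (-(G η))) := by
  set g : (Fin n → ℝ) → ENNReal := fun η => ENNReal.ofReal (Real.exp (-(G η))) with hg
  have hgm : Measurable g := (Real.measurable_exp.comp hGm.neg).ennreal_ofReal
  set C : (Fin n → Fin N) × (Fin n → Bool) → Set (Fin n → ℝ) := fun x =>
    {η | ∃ c : Fin n → ℝ, (∀ a, 0 < c a) ∧ η = ∑ a, (c a * sg (x.2 a)) • l (x.1 a)} with hC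
  have hCm : ∀ x, feas l b x.1 x.2 → MeasurableSet (C x) := fun x hx =>
    V1c_meas l x.1 x.2 hx.1
  calc ∑ i : Fin n → Fin N, ∑ s : Fin n → Bool,
        (if feas l b i s then ENNReal.ofReal |dt l i| else 0)
      = ∑ x : (Fin n → Fin N) × (Fin n → Bool),
          (if feas l b x.1 x.2 then ENNReal.ofReal |dt l x.1| else 0) :=
        (Fintype.sum_prod_type (fun x : (Fin n → Fin N) × (Fin n → Bool) =>
          (if feas l b x.1 x.2 then ENNReal.ofReal |dt l x.1| else 0))).symm
    _ ≤ ∑ x : (Fin n → Fin N) × (Fin n → Bool),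
          ∫⁻ η, (if feas l b x.1 x.2 then (C x).indicator g η else 0) := by
        refine Finset.sum_le_sum fun x _ => ?_
        by_cases hx : feas l b x.1 x.2
        · simp only [if_pos hx]
          rw [lintegral_indicator (hCm x hx)]
          exact cone_integral l x.1 x.2 hx.1 G (hG x.1 x.2)
        · simp only [if_neg hx]
          exact zero_le
    _ = ∫⁻ η, ∑ x : (Fin n → Fin N) × (Fin n → Bool),
          (if feas l b x.1 x.2 then (C x).indicator g η else 0) := by
        rw [lintegral_finsetSum]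
        intro x _
        by_cases hx : feas l b x.1 x.2
        · simp only [if_pos hx]
          exact hgm.indicator (hCm x hx)
        · simp only [if_neg hx]
          exact measurable_const
    _ ≤ ∫⁻ η, n.factorial * g η := by
        refine lintegral_mono fun η => ?_
        have h1 : ∑ x : (Fin n → Fin N) × (Fin n → Bool),
            (if feas l b x.1 x.2 then (C x).indicator g η else 0) =
            ((Finset.univ.filter (fun x : (Fin n → Fin N) × (Fin n → Bool) =>
              feas l b x.1 x.2 ∧ ∃ c : Fin n → ℝ, (∀ a, 0 < c a) ∧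
                η = ∑ a, (c a * sg (x.2 a)) • l (x.1 a))).card : ENNReal) * g η := by
          rw [← nsmul_eq_mul, ← Finset.sum_const, Finset.sum_filter]
          refine Finset.sum_congr rfl fun x _ => ?_
          by_cases hx : feas l b x.1 x.2
          · rw [if_pos hx]
            by_cases hη : η ∈ C x
            · rw [Set.indicator_of_mem hη, if_pos ⟨hx, hη⟩]
            · rw [Set.indicator_of_notMem hη, if_neg (fun h => hη h.2)]
          · rw [if_neg hx, if_neg (fun h => hx h.1)]
        simp only []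
        rw [h1]
        refine mul_le_mul_left ?_ _
        exact_mod_cast cones_card l b hb η
    _ = n.factorial * ∫⁻ η, g η := lintegral_const_mul _ hgm

end H3M
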