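import Pool.Agent.H3M.Defs
set_option autoImplicit false
noncomputable section
open MeasureTheory
namespace H3M
variable {n N : ℕ}

namespace V1b

/-- the open orthant -/
lemma orthant_eq : {c : Fin n → ℝ | ∀ a, 0 < c a} = Set.pi Set.univ (fun _ => Set.Ioi (0 : ℝ)) := by
  ext c
  simp

lemma orthant_meas : MeasurableSet {c : Fin n → ℝ | ∀ a, 0 < c a} := by
  rw [orthant_eq]
  exact MeasurableSet.univ_pi fun _ => measurableSet_Ioi

/-- the integral of `exp (-∑ c)` over the orthant -/
lemma orthant_integral : ∫⁻ c in {c : Fin n → ℝ | ∀ a, 0 < c a},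
    ENNReal.ofReal (Real.exp (-(∑ a, c a))) = 1 := by
  have h1 : (volume : Measure (Fin n → ℝ)).restrict {c : Fin n → ℝ | ∀ a, 0 < c a} =
      Measure.pi (fun _ : Fin n => (volume : Measure ℝ).restrict (Set.Ioi (0 : ℝ))) := by
    rw [orthant_eq, volume_pi, Measure.restrict_pi_pi]
  rw [h1]
  have hint : Integrable (fun x : ℝ => Real.exp (-x)) ((volume : Measure ℝ).restrict (Set.Ioi (0 : ℝ))) :=
    integrableOn_exp_neg_Ioi 0
  have hprod : ∀ c : Fin n → ℝ, Real.exp (-(∑ a, c a)) = ∏ a, Real.exp (-(c a)) := by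
    intro c
    rw [← Real.exp_sum, Finset.sum_neg_distrib]
  simp_rw [hprod]
  have hI : Integrable (fun c : Fin n → ℝ => ∏ a, Real.exp (-(c a)))
      (Measure.pi (fun _ : Fin n => (volume : Measure ℝ).restrict (Set.Ioi (0 : ℝ)))) :=
    Integrable.fintype_prod (f := fun _ x => Real.exp (-x)) fun _ => hint
  rw [← ofReal_integral_eq_lintegral_ofReal hI
    (Filter.Eventually.of_forall fun c => Finset.prod_nonneg fun _ _ => (Real.exp_pos _).le)]
  have := integral_fintype_prod_eq_prod (μ := fun _ : Fin n => (volume : Measure ℝ).restrict (Set.Ioi (0 : ℝ)))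
    (f := fun _ x => Real.exp (-x))
  rw [this, Finset.prod_eq_one, ENNReal.ofReal_one]
  intro a _
  exact integral_exp_neg_Ioi_zero

end V1b

/-- the integral of `exp(-∑c)` over a cone -/
theorem cone_integral' (l : Fin N → Fin n → ℝ) (i : Fin n → Fin N) (s : Fin n → Bool)
    (h : dt l i ≠ 0) (G : (Fin n → ℝ) → ℝ)
    (hG : ∀ c : Fin n → ℝ, (∀ a, 0 < c a) → G (∑ a, (c a * sg (s a)) • l (i a)) ≤ ∑ a, c a) :
    ENNReal.ofReal |dt l i| ≤ ∫⁻ η in {η | ∃ c : Fin n → ℝ, (∀ a, 0 < c a) ∧
      η = ∑ a, (c a * sg (s a)) • l (i a)}, ENNReal.ofReal (Real.exp (-(G η))) := by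
  set S : Set (Fin n → ℝ) := {c : Fin n → ℝ | ∀ a, 0 < c a} with hS
  set A : Matrix (Fin n) (Fin n) ℝ := Matrix.of fun b a => sg (s a) * l (i a) b with hA
  set T : (Fin n → ℝ) →ₗ[ℝ] (Fin n → ℝ) := Matrix.toLin' A with hT
  have hTc : ∀ c : Fin n → ℝ, T c = ∑ a, (c a * sg (s a)) • l (i a) := by
    intro c
    ext b
    rw [hT, Matrix.toLin'_apply, Matrix.mulVec, dotProduct, Finset.sum_apply]
    apply Finset.sum_congr rfl
    intro a _
    simp only [hA, Matrix.of_apply, Pi.smul_apply, smul_eq_mul]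
    ring
  have hdet : |LinearMap.det T| = |dt l i| := by
    rw [hT, LinearMap.det_toLin']
    have e1 : A = (Matrix.diagonal (fun a => sg (s a)) * Matrix.of fun a => l (i a)).transpose := by
      ext b a
      rw [Matrix.transpose_apply, Matrix.diagonal_mul]
      rfl
    rw [e1, Matrix.det_transpose, Matrix.det_mul, Matrix.det_diagonal, abs_mul, Finset.abs_prod]
    rw [Finset.prod_eq_one, one_mul]
    · rfl
    · intro a _
      unfold sg
      split_ifs <;> simp
  have hdet0 : LinearMap.det T ≠ 0 := by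
    intro h0
    rw [h0, abs_zero] at hdet
    exact h (abs_eq_zero.1 hdet.symm)
  have hset : {η | ∃ c : Fin n → ℝ, (∀ a, 0 < c a) ∧
      η = ∑ a, (c a * sg (s a)) • l (i a)} = T '' S := by
    ext η
    constructor
    · rintro ⟨c, hc, rfl⟩
      exact ⟨c, hc, hTc c⟩
    · rintro ⟨c, hc, rfl⟩
      exact ⟨c, hc, hTc c⟩
  have hinj : Function.Injective T := by
    have := LinearEquiv.injective (LinearMap.equivOfDetNeZero T hdet0)
    exact this
  set Tc : (Fin n → ℝ) →L[ℝ] (Fin n → ℝ) := LinearMap.toContinuousLinearMap T with hTcc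
  rw [hset]
  have hfd : ∀ x ∈ S, HasFDerivWithinAt T Tc S x := fun x _ => Tc.hasFDerivWithinAt
  rw [lintegral_image_eq_lintegral_abs_det_fderiv_mul volume V1b.orthant_meas hfd hinj.injOn]
  have hTd : Tc.det = LinearMap.det T := rfl
  rw [hTd, hdet]
  calc ENNReal.ofReal |dt l i| = ENNReal.ofReal |dt l i| *
        ∫⁻ c in S, ENNReal.ofReal (Real.exp (-(∑ a, c a))) := by
        rw [V1b.orthant_integral, mul_one]
    _ = ∫⁻ c in S, ENNReal.ofReal |dt l i| * ENNReal.ofReal (Real.exp (-(∑ a, c a))) := by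
        rw [lintegral_const_mul' _ _ ENNReal.ofReal_ne_top]
    _ ≤ _ := by
        apply setLIntegral_mono' V1b.orthant_meas
        intro c hc
        apply mul_le_mul_right
        apply ENNReal.ofReal_le_ofReal
        apply Real.exp_le_exp.2
        rw [hTc]
        linarith [hG c hc]

end H3M
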