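import Pool.Agent.H3M.V3
set_option autoImplicit false
noncomputable section
open MeasureTheory
namespace H3M
namespace V3a
variable {n N : ℕ}

/-! ### products of one-dimensional integrals -/

theorem lint_fin (m : ℕ) (f : Fin m → ℝ → ENNReal) (hf : ∀ i, Measurable (f i)) :
    ∫⁻ x : Fin m → ℝ, ∏ i, f i (x i) = ∏ i, ∫⁻ x, f i x := by
  induction m with
  | zero => simp [volume_pi]
  | succ m ih =>
    have mp := (volume_preserving_piFinSuccAbove (fun _ : Fin (m+1) => ℝ) 0).symm
    rw [← mp.lintegral_comp_emb (MeasurableEquiv.measurableEmbedding _)]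
    have hm : Measurable (fun x : Fin m → ℝ => ∏ i : Fin m, f i.succ (x i)) :=
      Finset.measurable_prod _ (fun i _ => (hf _).comp (measurable_pi_apply i))
    have : ∀ a : ℝ × (Fin m → ℝ), (∏ i, f i
        ((MeasurableEquiv.piFinSuccAbove (fun _ : Fin (m+1) => ℝ) 0).symm a i)) =
        f 0 a.1 * ∏ i : Fin m, f i.succ (a.2 i) := by
      intro a
      rw [Fin.prod_univ_succ]
      simp [MeasurableEquiv.piFinSuccAbove, Fin.insertNthEquiv]
    simp_rw [this]
    rw [Measure.volume_eq_prod, lintegral_prod_mul (hf 0).aemeasurable hm.aemeasurable,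
      ih (fun i => f i.succ) (fun i => hf _), Fin.prod_univ_succ]

theorem lint_fintype {ι : Type} [Fintype ι] (f : ι → ℝ → ENNReal) (hf : ∀ i, Measurable (f i)) :
    ∫⁻ x : ι → ℝ, ∏ i, f i (x i) = ∏ i, ∫⁻ x, f i x := by
  have e := (Fintype.equivFin ι).symm
  have mp := volume_measurePreserving_piCongrLeft (fun _ : ι => ℝ) e
  rw [← mp.lintegral_comp_emb (MeasurableEquiv.measurableEmbedding _)]
  rw [← e.prod_comp (fun i => ∫⁻ x, f i x), ← lint_fin _ (fun j => f (e j)) (fun j => hf _)]
  refine lintegral_congr (fun x => ?_)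
  rw [← e.prod_comp]
  refine Finset.prod_congr rfl (fun j _ => ?_)
  rw [MeasurableEquiv.coe_piCongrLeft, Equiv.piCongrLeft_apply_apply]

/-! ### one-dimensional facts -/

theorem lp_hasDeriv {P : ℝ → ℝ} (hP : LP P) (x : ℝ) : HasDerivAt P (deriv P x) x :=
  (hP.c1.differentiable (by norm_num) x).hasDerivAt

theorem lp_cont {P : ℝ → ℝ} (hP : LP P) : Continuous (deriv P) :=
  hP.c1.continuous_deriv le_rfl

theorem lp_neg {P : ℝ → ℝ} (hP : LP P) {x : ℝ} (hx : 0 < x) : deriv P x ≤ 0 := by
  have h1 := (lp_hasDeriv hP x)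
  have h2 : derivWithin P (Set.Ici 0) x ≤ 0 := hP.anti.derivWithin_nonpos
  rwa [derivWithin_of_mem_nhds (Ici_mem_nhds hx)] at h2

theorem lp_nonneg {P : ℝ → ℝ} (hP : LP P) (x : ℝ) : 0 ≤ P x := by
  obtain ⟨R, hR⟩ := hP.cs
  have key : ∀ y : ℝ, 0 ≤ y → 0 ≤ P y := by
    intro y hy
    have h1 : P (max y (|R| + 1)) = 0 := by
      apply hR
      have : R < max y (|R| + 1) := lt_of_lt_of_le (by linarith [le_abs_self R]) (le_max_right _ _)
      exact lt_of_lt_of_le this (le_abs_self _)
    rw [← h1]
    exact hP.anti hy (le_trans hy (le_max_left _ _)) (le_max_left _ _)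
  rcases le_total 0 x with h | h
  · exact key x h
  · rw [← hP.even]; exact key _ (by linarith)

theorem lp_abs {P : ℝ → ℝ} (hP : LP P) (x : ℝ) : P |x| = P x := by
  rcases abs_choice x with h | h <;> rw [h]
  exact hP.even x

theorem lp_deriv_neg {P : ℝ → ℝ} (hP : LP P) (x : ℝ) : deriv P (-x) = -deriv P x := by
  have h := deriv_comp_neg P x
  have h2 : (fun x => P (-x)) = P := funext hP.even
  rw [h2] at h
  linarith

theorem lp_abs_deriv {P : ℝ → ℝ} (hP : LP P) (s : Bool) {x : ℝ} (hx : 0 < x) :
    |deriv P (sg s * x)| = -deriv P x := by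
  cases s
  · simp [sg, lp_deriv_neg hP, abs_of_nonpos (lp_neg hP hx)]
  · simp [sg, abs_of_nonpos (lp_neg hP hx)]

theorem lp_lint {P : ℝ → ℝ} (hP : LP P) (y : ℝ) :
    ∫⁻ b : ℝ, (if 0 < b ∧ |y| < b then ENNReal.ofReal (-(deriv P b)) else 0) =
      ENNReal.ofReal (P y) := by
  have h1 : ∀ b : ℝ, (if 0 < b ∧ |y| < b then ENNReal.ofReal (-(deriv P b)) else 0) =
      (Set.Ioi |y|).indicator (fun b => ENNReal.ofReal (-(deriv P b))) b := by
    intro b
    by_cases hb : |y| < b
    · have : 0 < b := lt_of_le_of_lt (abs_nonneg _) hb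
      simp [Set.indicator, hb, this]
    · simp [Set.indicator, hb]
  simp_rw [h1]
  rw [lintegral_indicator measurableSet_Ioi]
  have hneg : ∀ x ∈ Set.Ioi |y|, deriv P x ≤ 0 := fun x hx =>
    lp_neg hP (lt_of_le_of_lt (abs_nonneg _) hx)
  have htend : Filter.Tendsto P Filter.atTop (nhds 0) := by
    obtain ⟨R, hR⟩ := hP.cs
    refine tendsto_const_nhds.congr' ?_
    filter_upwards [Filter.eventually_gt_atTop R] with x hx
    exact (hR x (lt_of_lt_of_le hx (le_abs_self _))).symm
  have hint := integrableOn_Ioi_deriv_of_nonpos' (fun x _ => lp_hasDeriv hP x) hneg htend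
  have hval := integral_Ioi_of_hasDerivAt_of_nonpos' (fun x _ => lp_hasDeriv hP x) hneg htend
  have hint' : Integrable (fun x => -deriv P x) (volume.restrict (Set.Ioi |y|)) := hint.neg
  rw [← ofReal_integral_eq_lintegral_ofReal hint']
  · rw [integral_neg, hval, lp_abs hP]
    simp
  · filter_upwards [ae_restrict_mem measurableSet_Ioi] with x hx
    simpa using hneg x hx

/-! ### splitting coordinates and signs -/

open Classical in
theorem lint_split (i : Fin n → Fin N) (hi : Function.Injective i)
    (F : (Fin n → ℝ) → ({k : Fin N // ¬ ∃ a, i a = k} → ℝ) → ENNReal)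
    (hF : Measurable (Function.uncurry F)) :
    ∫⁻ b : Fin N → ℝ, F (fun a => b (i a)) (fun k => b k) = ∫⁻ c, ∫⁻ x, F c x := by
  let p : Fin N → Prop := fun k => ∃ a, i a = k
  have mp1 := volume_preserving_piEquivPiSubtypeProd (fun _ : Fin N => ℝ) p
  let e : Fin n ≃ {k // p k} := Equiv.ofBijective (fun a => ⟨i a, a, rfl⟩)
    ⟨fun a b h => hi (by simpa using congrArg Subtype.val h), fun ⟨k, a, ha⟩ => ⟨a, by
      simp [ha]⟩⟩
  have mp2 := volume_measurePreserving_piCongrLeft (fun _ : {k // p k} => ℝ) e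
  let G : ({k // p k} → ℝ) × ({k // ¬ p k} → ℝ) → ENNReal := fun u => F (fun a => u.1 (e a)) u.2
  have hG : Measurable G := by
    have : G = Function.uncurry F ∘ (fun u => ((fun a => u.1 (e a)), u.2)) := rfl
    rw [this]
    refine hF.comp (Measurable.prodMk ?_ measurable_snd)
    exact measurable_pi_lambda _ (fun a => (measurable_pi_apply (e a)).comp measurable_fst)
  have h1 : ∫⁻ b : Fin N → ℝ, F (fun a => b (i a)) (fun k => b k) =
      ∫⁻ b : Fin N → ℝ, G (MeasurableEquiv.piEquivPiSubtypeProd (fun _ : Fin N => ℝ) p b) := rfl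
  rw [h1, mp1.lintegral_comp_emb (MeasurableEquiv.measurableEmbedding _), Measure.volume_eq_prod,
    lintegral_prod _ hG.aemeasurable, ← mp2.lintegral_comp_emb
      (MeasurableEquiv.measurableEmbedding _)]
  refine lintegral_congr (fun c => lintegral_congr (fun x => ?_))
  show F (fun a => (MeasurableEquiv.piCongrLeft (fun _ => ℝ) e) c (e a)) x = F c x
  congr 1
  ext a
  rw [MeasurableEquiv.coe_piCongrLeft, Equiv.piCongrLeft_apply_apply]

theorem mp_sg (s : Bool) : MeasurePreserving (fun x : ℝ => sg s * x) volume volume := by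
  cases s
  · have := Measure.measurePreserving_neg (volume : Measure ℝ)
    simpa [sg, Function.comp_def] using this
  · have h : (fun x : ℝ => sg true * x) = id := by ext x; simp [sg]
    rw [h]
    exact MeasurePreserving.id _

theorem sg_mul_sg (s : Bool) (x : ℝ) : sg s * (sg s * x) = x := by
  cases s <;> simp [sg]

theorem ae_ne (n : ℕ) : ∀ᵐ t : Fin n → ℝ, ∀ a, t a ≠ 0 := by
  rw [ae_all_iff]
  intro a
  rw [ae_iff]
  have := Measure.pi_hyperplane (fun _ : Fin n => (volume : Measure ℝ)) a (0 : ℝ)
  simpa [volume_pi] using this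

open Classical in
theorem lint_sign (g : (Fin n → ℝ) → ENNReal) (hg : Measurable g) :
    ∫⁻ t, g t = ∑ s : Fin n → Bool, ∫⁻ c : Fin n → ℝ,
      (if ∀ a, 0 < c a then g (fun a => sg (s a) * c a) else 0) := by
  have hms : ∀ s : Fin n → Bool, MeasurableSet {t : Fin n → ℝ | ∀ a, 0 < sg (s a) * t a} := by
    intro s
    have : {t : Fin n → ℝ | ∀ a, 0 < sg (s a) * t a} = ⋂ a, {t | 0 < sg (s a) * t a} := by
      ext; simp
    rw [this]
    exact MeasurableSet.iInter (fun a => measurableSet_lt measurable_const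
      ((measurable_pi_apply a).const_mul _))
  have hm : ∀ s : Fin n → Bool, Measurable (fun t : Fin n → ℝ =>
      if ∀ a, 0 < sg (s a) * t a then g t else 0) := fun s =>
    Measurable.ite (hms s) hg measurable_const
  have h1 : ∀ s : Fin n → Bool, ∫⁻ c : Fin n → ℝ,
      (if ∀ a, 0 < c a then g (fun a => sg (s a) * c a) else 0) =
      ∫⁻ t : Fin n → ℝ, (if ∀ a, 0 < sg (s a) * t a then g t else 0) := by
    intro s
    have mp := volume_preserving_pi (fun a => mp_sg (s a))
    rw [← mp.lintegral_comp (hm s)]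
    simp_rw [sg_mul_sg]
  simp_rw [h1]
  rw [← lintegral_finsetSum _ (fun s _ => hm s)]
  refine lintegral_congr_ae ?_
  filter_upwards [ae_ne n] with t ht
  rw [Finset.sum_eq_single (fun a => decide (0 < t a))]
  · rw [if_pos]
    intro a
    by_cases h : 0 < t a
    · simp [sg, h]
    · have : t a < 0 := lt_of_le_of_ne (not_lt.1 h) (ht a)
      simp [sg, h, this]
  · intro s _ hs
    rw [if_neg]
    intro hall
    apply hs
    ext a
    have := hall a
    cases hsa : s a
    · rw [hsa] at this
      simp [sg] at this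
      simp [this.le]
    · rw [hsa] at this
      simp [sg] at this
      simp [this]
  · intro h; exact absurd (Finset.mem_univ _) h

/-! ### the linear change of variables -/

theorem uniq (l : Fin N → Fin n → ℝ) (i : Fin n → Fin N) (h : dt l i ≠ 0) (y y' : Fin n → ℝ)
    (hy : ∀ a, ∑ c, l (i a) c * y c = ∑ c, l (i a) c * y' c) : y = y' := by
  have h0 : (Matrix.of fun a => l (i a)).mulVec (y - y') = 0 := by
    ext a
    simp only [Matrix.mulVec, dotProduct, Matrix.of_apply, Pi.sub_apply, mul_sub,
      Finset.sum_sub_distrib, Pi.zero_apply]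
    rw [hy a, sub_self]
  have := Matrix.eq_zero_of_mulVec_eq_zero h h0
  exact sub_eq_zero.1 this

/-- the point with `l_{i a}(y) = t_a` -/
def Y (e : Fin n → Fin n → ℝ) (t : Fin n → ℝ) : Fin n → ℝ := fun c => ∑ a, t a * e a c

theorem l_Y (l : Fin N → Fin n → ℝ) (i : Fin n → Fin N) (e : Fin n → Fin n → ℝ)
    (he : ∀ a b, ∑ c, l (i b) c * e a c = if a = b then 1 else 0) (t : Fin n → ℝ) (b : Fin n) :
    ∑ c, l (i b) c * Y e t c = t b := by
  simp only [Y, Finset.mul_sum]
  rw [Finset.sum_comm]
  have : ∀ a, ∑ c, l (i b) c * (t a * e a c) = t a * (if a = b then 1 else 0) := by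
    intro a
    rw [← he a b, Finset.mul_sum]
    exact Finset.sum_congr rfl (fun c _ => by ring)
  simp [this]

theorem lint_lin (l : Fin N → Fin n → ℝ) (i : Fin n → Fin N) (h : dt l i ≠ 0)
    (H : (Fin n → ℝ) → ENNReal) (hH : Measurable H) :
    ∫⁻ y : Fin n → ℝ, H (fun a => ∑ c, l (i a) c * y c) =
      ENNReal.ofReal |(dt l i)⁻¹| * ∫⁻ t, H t := by
  have hmap := Real.map_matrix_volume_pi_eq_smul_volume_pi
    (M := Matrix.of fun a => l (i a)) h
  have hmeas : Measurable (Matrix.toLin' (Matrix.of fun a => l (i a))) :=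
    (LinearMap.continuous_of_finiteDimensional _).measurable
  have h1 : ∫⁻ y : Fin n → ℝ, H (fun a => ∑ c, l (i a) c * y c) =
      ∫⁻ y : Fin n → ℝ, H (Matrix.toLin' (Matrix.of fun a => l (i a)) y) := by
    refine lintegral_congr (fun y => ?_)
    congr 1
  rw [h1, ← lintegral_map hH hmeas, hmap, lintegral_smul_measure]
  rfl

theorem measY (e : Fin n → Fin n → ℝ) (v : Fin n → ℝ) :
    Measurable (fun t : Fin n → ℝ => ∑ c, v c * Y e t c) := by
  apply Continuous.measurable
  unfold Y
  fun_prop

open Classical in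
/-- layer-cake formula for one tuple -/
theorem layer' (l : Fin N → Fin n → ℝ) (P : Fin N → ℝ → ℝ) (hP : ∀ k, LP (P k))
    (i : Fin n → Fin N) (h : dt l i ≠ 0) :
    ENNReal.ofReal ((dt l i) ^ 2) * ∫⁻ y : Fin n → ℝ,
      ENNReal.ofReal ((∏ a, |deriv (P (i a)) (∑ c, l (i a) c * y c)|) *
        ∏ k ∈ Finset.univ.filter (fun k => ∀ a, i a ≠ k), P k (∑ c, l k c * y c)) =
    ∑ s : Fin n → Bool, ∫⁻ b : Fin N → ℝ, (if (∀ k, 0 < b k) ∧ feas l b i s then
      ENNReal.ofReal (|dt l i| * ∏ k, (-(deriv (P k) (b k)))) else 0) := by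
  have hinj : Function.Injective i := by
    intro a b hab
    by_contra hne
    exact h (Matrix.det_zero_of_row_eq hne (by ext c; simp [hab]))
  obtain ⟨e, he⟩ := exists_dual l i h
  have hlY := l_Y l i e he
  let q : Fin N → Prop := fun k => ¬ ∃ a, i a = k
  let H : (Fin n → ℝ) → ENNReal := fun t => ENNReal.ofReal ((∏ a, |deriv (P (i a)) (t a)|) *
    ∏ k ∈ Finset.univ.filter (fun k => ∀ a, i a ≠ k), P k (∑ c, l k c * Y e t c))
  have hH : Measurable H := by
    apply Measurable.ennreal_ofReal
    apply Measurable.mul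
    · exact Finset.measurable_prod _ (fun a _ =>
        ((lp_cont (hP (i a))).abs.measurable.comp (measurable_pi_apply a)))
    · exact Finset.measurable_prod _ (fun k _ =>
        ((hP k).c1.continuous.measurable.comp (measY e (l k))))
  have h1 : ∫⁻ y : Fin n → ℝ,
      ENNReal.ofReal ((∏ a, |deriv (P (i a)) (∑ c, l (i a) c * y c)|) *
        ∏ k ∈ Finset.univ.filter (fun k => ∀ a, i a ≠ k), P k (∑ c, l k c * y c)) =
      ∫⁻ y : Fin n → ℝ, H (fun a => ∑ c, l (i a) c * y c) := by
    refine lintegral_congr (fun y => ?_)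
    have hy : Y e (fun a => ∑ c, l (i a) c * y c) = y :=
      uniq l i h _ _ (fun a => hlY _ a)
    simp only [H, hy]
  rw [h1, lint_lin l i h H hH, ← mul_assoc, ← ENNReal.ofReal_mul (sq_nonneg _)]
  have h2 : (dt l i) ^ 2 * |(dt l i)⁻¹| = |dt l i| := by
    rw [abs_inv, ← sq_abs]
    have : |dt l i| ≠ 0 := abs_ne_zero.2 h
    field_simp
  rw [h2, lint_sign H hH, Finset.mul_sum]
  refine Finset.sum_congr rfl (fun s _ => ?_)
  -- the integrand on the right
  let A : (Fin n → ℝ) → ENNReal := fun c => if ∀ a, 0 < c a then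
    ENNReal.ofReal |dt l i| * ∏ a, ENNReal.ofReal (-(deriv (P (i a)) (c a))) else 0
  let B : {k // q k} → (Fin n → ℝ) → ℝ → ENNReal := fun k c x =>
    if 0 < x ∧ |∑ c', l k c' * Y e (fun a => sg (s a) * c a) c'| < x then
      ENNReal.ofReal (-(deriv (P k) x)) else 0
  let F : (Fin n → ℝ) → ({k // q k} → ℝ) → ENNReal := fun c x => A c * ∏ k, B k c (x k)
  have hY : ∀ k : Fin N, Measurable (fun c : Fin n → ℝ =>
      ∑ c', l k c' * Y e (fun a => sg (s a) * c a) c') := by
    intro k
    refine (measY e (l k)).comp ?_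
    exact measurable_pi_lambda _ (fun a => (measurable_pi_apply a).const_mul _)
  have hA : Measurable A := by
    refine Measurable.ite ?_ ?_ measurable_const
    · have : {c : Fin n → ℝ | ∀ a, 0 < c a} = ⋂ a, {t | 0 < t a} := by
        ext; simp
      rw [this]
      exact MeasurableSet.iInter (fun a => measurableSet_lt measurable_const
        (measurable_pi_apply a))
    · refine Measurable.const_mul ?_ _
      exact Finset.measurable_prod _ (fun a _ => Measurable.ennreal_ofReal
        ((lp_cont (hP (i a))).neg.measurable.comp (measurable_pi_apply a)))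
  have hB : ∀ k, Measurable (Function.uncurry (B k)) := by
    intro k
    refine Measurable.ite ?_ ?_ measurable_const
    · exact (measurableSet_lt measurable_const measurable_snd).inter
        (measurableSet_lt ((hY k).comp measurable_fst).abs measurable_snd)
    · exact Measurable.ennreal_ofReal
        ((lp_cont (hP k)).neg.measurable.comp measurable_snd)
  have hF : Measurable (Function.uncurry F) := by
    refine Measurable.mul (hA.comp measurable_fst) ?_
    refine Finset.measurable_prod _ (fun k _ => ?_)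
    exact (hB k).comp (measurable_fst.prodMk ((measurable_pi_apply k).comp measurable_snd))
  have h3 : ∀ b : Fin N → ℝ, (if (∀ k, 0 < b k) ∧ feas l b i s then
      ENNReal.ofReal (|dt l i| * ∏ k, (-(deriv (P k) (b k)))) else 0) =
      F (fun a => b (i a)) (fun k => b k) := by
    intro b
    have hfe : feas l b i s ↔ ∀ k : {k // q k},
        |∑ c', l k c' * Y e (fun a => sg (s a) * b (i a)) c'| < b k := by
      constructor
      · rintro ⟨_, y, hy1, hy2⟩ k
        have : Y e (fun a => sg (s a) * b (i a)) = y := by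
          refine uniq l i h _ _ (fun a => ?_)
          rw [hlY, hy1]
        rw [this]
        exact hy2 k.1 (fun a ha => k.2 ⟨a, ha⟩)
      · intro hk
        refine ⟨h, Y e (fun a => sg (s a) * b (i a)), fun a => hlY _ a, fun k hk2 => ?_⟩
        exact hk ⟨k, fun ⟨a, ha⟩ => hk2 a ha⟩
    by_cases hpos : ∀ a, 0 < b (i a)
    · by_cases hq : ∀ k : {k // q k}, 0 < b k ∧
          |∑ c', l k c' * Y e (fun a => sg (s a) * b (i a)) c'| < b k
      · have hall : ∀ k, 0 < b k := by
          intro k
          by_cases hk : ∃ a, i a = k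
          · obtain ⟨a, rfl⟩ := hk; exact hpos a
          · exact (hq ⟨k, hk⟩).1
        rw [if_pos ⟨hall, hfe.2 (fun k => (hq k).2)⟩]
        have hBk : ∀ k : {k // q k}, B k (fun a => b (i a)) (b k) =
            ENNReal.ofReal (-(deriv (P k) (b k))) := fun k => if_pos (hq k)
        simp only [F, A, if_pos hpos, hBk]
        have hnn : ∀ k, 0 ≤ -(deriv (P k) (b k)) := fun k => by
          linarith [lp_neg (hP k) (hall k)]
        rw [ENNReal.ofReal_mul (abs_nonneg _), mul_assoc,
          ENNReal.ofReal_prod_of_nonneg (fun k _ => hnn k)]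
        congr 1
        rw [← Fintype.prod_subtype_mul_prod_subtype (fun k => ∃ a, i a = k)
          (fun k => ENNReal.ofReal (-(deriv (P k) (b k))))]
        congr 1
        let e' : Fin n ≃ {k // ∃ a, i a = k} := Equiv.ofBijective (fun a => ⟨i a, a, rfl⟩)
          ⟨fun a b h => hinj (by simpa using congrArg Subtype.val h), fun ⟨k, a, ha⟩ => ⟨a, by
            simp [ha]⟩⟩
        rw [← e'.prod_comp]
        rfl
      · have hz : ∃ k : {k // q k}, ¬ (0 < b k ∧
          |∑ c', l k c' * Y e (fun a => sg (s a) * b (i a)) c'| < b k) := by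
          by_contra hcon
          push Not at hcon
          exact hq (fun k => ⟨(hcon k).1, (hcon k).2⟩)
        obtain ⟨k, hk⟩ := hz
        have hBk : B k (fun a => b (i a)) (b k) = 0 := if_neg hk
        have hprod : ∏ k, B k (fun a => b (i a)) (b k) = 0 :=
          Finset.prod_eq_zero (Finset.mem_univ k) hBk
        have : F (fun a => b (i a)) (fun k => b k) = 0 := by
          show _ * ∏ k, B k (fun a => b (i a)) (b k) = 0
          rw [hprod, mul_zero]
        rw [this, if_neg]
        rintro ⟨hall, hf⟩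
        exact hk ⟨hall k, hfe.1 hf k⟩
    · have : F (fun a => b (i a)) (fun k => b k) = 0 := by
        simp only [F, A, if_neg hpos, zero_mul]
      rw [this, if_neg]
      rintro ⟨hall, _⟩
      exact hpos (fun a => hall _)
  simp_rw [h3]
  rw [lint_split i hinj F hF]
  have hm : Measurable (fun c : Fin n → ℝ =>
      if ∀ a, 0 < c a then H (fun a => sg (s a) * c a) else 0) := by
    refine Measurable.ite ?_ ?_ measurable_const
    · have : {c : Fin n → ℝ | ∀ a, 0 < c a} = ⋂ a, {t | 0 < t a} := by
        ext; simp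
      rw [this]
      exact MeasurableSet.iInter (fun a => measurableSet_lt measurable_const
        (measurable_pi_apply a))
    · exact hH.comp (measurable_pi_lambda _ (fun a => (measurable_pi_apply a).const_mul _))
  rw [← lintegral_const_mul _ hm]
  refine lintegral_congr (fun c => ?_)
  have h4 : ∫⁻ x : {k // q k} → ℝ, F c x = A c * ∏ k : {k // q k},
      ENNReal.ofReal (P k (∑ c', l k c' * Y e (fun a => sg (s a) * c a) c')) := by
    simp only [F]
    rw [lintegral_const_mul]
    · congr 1
      rw [lint_fintype (fun k => B k c) (fun k => (hB k).comp (measurable_const.prodMk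
        measurable_id))]
      refine Finset.prod_congr rfl (fun k _ => ?_)
      exact lp_lint (hP k) _
    · refine Finset.measurable_prod _ (fun k _ => ?_)
      exact (hB k).comp (measurable_const.prodMk (measurable_pi_apply k))
  rw [h4]
  by_cases hpos : ∀ a, 0 < c a
  · simp only [A, if_pos hpos, H]
    rw [mul_assoc]
    congr 1
    rw [ENNReal.ofReal_mul (Finset.prod_nonneg (fun a _ => abs_nonneg _)),
      ENNReal.ofReal_prod_of_nonneg (fun a _ => abs_nonneg _),
      ENNReal.ofReal_prod_of_nonneg (fun k _ => lp_nonneg (hP k) _)]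
    congr 1
    · refine Finset.prod_congr rfl (fun a _ => ?_)
      rw [lp_abs_deriv (hP _) _ (hpos a)]
    · refine Finset.prod_subtype _ (fun k => ?_) _
      simp [q]
  · simp only [A, if_neg hpos, mul_zero, zero_mul]

end V3a
end H3M
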