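import Pool.Agent.H3M.V3

/-!
# Total mass of the offsets
-/

set_option autoImplicit false
noncomputable section
open MeasureTheory
namespace H3M
variable {n N : ℕ}

theorem LP.hasCompactSupport {P : ℝ → ℝ} (hP : LP P) : HasCompactSupport P := by
  obtain ⟨R, hR⟩ := hP.cs
  refine HasCompactSupport.intro (isCompact_closedBall (0 : ℝ) R) (fun x hx => hR x ?_)
  rw [Metric.mem_closedBall, dist_zero_right, Real.norm_eq_abs, not_le] at hx
  exact hx

theorem LP.deriv_nonpos {P : ℝ → ℝ} (hP : LP P) {x : ℝ} (hx : 0 < x) : deriv P x ≤ 0 := by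
  have h1 := hP.anti.derivWithin_nonpos (x := x)
  rwa [derivWithin_of_mem_nhds (Ici_mem_nhds hx)] at h1

/-- the density of one offset -/
def oneDens (P : ℝ → ℝ) : ℝ → ℝ := (Set.Ioi (0 : ℝ)).indicator (fun x => -(deriv P x))

theorem LP.oneDens_nonneg {P : ℝ → ℝ} (hP : LP P) (x : ℝ) : 0 ≤ oneDens P x :=
  Set.indicator_nonneg (fun _ hx => neg_nonneg.2 (hP.deriv_nonpos hx)) x

theorem LP.integrable_oneDens {P : ℝ → ℝ} (hP : LP P) : Integrable (oneDens P) := by
  have h1 : Integrable (fun x => -(deriv P x)) :=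
    ((hP.c1.continuous_deriv le_rfl).integrable_of_hasCompactSupport
      hP.hasCompactSupport.deriv).neg
  exact h1.indicator measurableSet_Ioi

theorem LP.integral_oneDens {P : ℝ → ℝ} (hP : LP P) : ∫ x, oneDens P x = P 0 := by
  unfold oneDens
  rw [integral_indicator measurableSet_Ioi, integral_neg,
    HasCompactSupport.integral_Ioi_deriv_eq hP.c1 hP.hasCompactSupport, neg_neg]

/-- total mass of the offsets -/
theorem layer_mass' (P : Fin N → ℝ → ℝ) (hP : ∀ k, LP (P k)) :
    ∫⁻ b : Fin N → ℝ, (if (∀ k, 0 < b k) then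
      ENNReal.ofReal (∏ k, (-(deriv (P k) (b k)))) else 0) = ENNReal.ofReal (∏ k, P k 0) := by
  have h1 : ∀ b : Fin N → ℝ, (if (∀ k, 0 < b k) then
      ENNReal.ofReal (∏ k, (-(deriv (P k) (b k)))) else 0) =
      ENNReal.ofReal (∏ k, oneDens (P k) (b k)) := by
    intro b
    split_ifs with h
    · refine congrArg ENNReal.ofReal (Finset.prod_congr rfl fun k _ => ?_)
      exact (Set.indicator_of_mem (Set.mem_Ioi.2 (h k)) (fun x => -(deriv (P k) x))).symm
    · obtain ⟨k, hk⟩ := not_forall.1 h
      have h2 : oneDens (P k) (b k) = 0 :=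
        Set.indicator_of_notMem (fun h2 => hk (Set.mem_Ioi.1 h2)) (fun x => -(deriv (P k) x))
      rw [Finset.prod_eq_zero (Finset.mem_univ k) h2, ENNReal.ofReal_zero]
  rw [lintegral_congr h1, ← ofReal_integral_eq_lintegral_ofReal,
    integral_fintype_prod_volume_eq_prod (fun k => oneDens (P k)),
    Finset.prod_congr rfl (fun k _ => (hP k).integral_oneDens)]
  · exact Integrable.fintype_prod (fun k => (hP k).integrable_oneDens)
  · exact Filter.Eventually.of_forall
      (fun b => Finset.prod_nonneg (fun k _ => (hP k).oneDens_nonneg (b k)))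

end H3M
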